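import Pool.Agent.Helper51.TN.Defs

/-!
BLOCK TN-L1 (about 120 lines). The dimension of `HomP`.

Proof in words. Put `Ω f = |H|⁻¹ ∑_h σ(h) ∘ P ∘ f ∘ ρ(h⁻¹)` on `E →ₗ X`. Its values are in `HomP ρ σ P` (`Ω f ∘ ρ k = σ k ∘ Ω f` by
reindexing, `P (Ω f) = Ω f` since `P` commutes with `σ h` and `P P = P`) and `Ω f = f` for `f ∈ HomP ρ σ P`; so `Ω` is a projection onto
`HomP` (`LinearMap.IsProj`) and its trace is `finrank (HomP ρ σ P)` (`LinearMap.IsProj.trace`). The trace of `f ↦ A ∘ f ∘ B` on `E →ₗ X`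
is `tr A * tr B` (`trace_conj_hom` below: e.g. `dualTensorHomEquiv` and `LinearMap.trace_tensorProduct'`, `LinearMap.trace_transpose'`; or by
matrices: `Matrix.trace` over the basis of elementary maps; compare Mathlib's `Representation.char_linHom`, `FDRep.char_linHom`).
-/

set_option autoImplicit false

open Module Equiv Pool.Agent.Helper1.TS Pool.Agent.Helper70.TU

namespace Pool.Agent.Helper51.TN

variable {H E X : Type*} [Group H] [AddCommGroup E] [Module ℂ E] [FiniteDimensional ℂ E]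
  [AddCommGroup X] [Module ℂ X] [FiniteDimensional ℂ X]

theorem trace_conj_hom (A : X →ₗ[ℂ] X) (B : E →ₗ[ℂ] E) (F : (E →ₗ[ℂ] X) →ₗ[ℂ] (E →ₗ[ℂ] X))
    (hF : ∀ f, F f = A ∘ₗ f ∘ₗ B) :
    LinearMap.trace ℂ (E →ₗ[ℂ] X) F = LinearMap.trace ℂ X A * LinearMap.trace ℂ E B := by
  classical
  have h1 : (dualTensorHomEquiv ℂ E X).conj (TensorProduct.map (Module.Dual.transpose (R := ℂ) B) A) = F := by
    refine LinearMap.ext fun f => ?_
    obtain ⟨t, rfl⟩ := (dualTensorHomEquiv ℂ E X).surjective f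
    rw [LinearEquiv.conj_apply_apply, LinearEquiv.symm_apply_apply, hF]
    induction t with
    | zero => simp
    | tmul φ x =>
      rw [TensorProduct.map_tmul]
      refine LinearMap.ext fun v => ?_
      simp only [dualTensorHomEquiv, LinearEquiv.ofBijective_apply, dualTensorHom_apply, LinearMap.comp_apply,
        Module.Dual.transpose_apply, map_smul]
    | add a b ha hb =>
      rw [map_add, map_add, map_add, ha, hb, LinearMap.add_comp, LinearMap.comp_add]
  rw [← h1, LinearMap.trace_conj', LinearMap.trace_tensorProduct', LinearMap.trace_transpose', mul_comm]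

theorem dim_hom [Fintype H] (ρ : Representation ℂ H E) (σ : Representation ℂ H X) (P : X →ₗ[ℂ] X)
    (hP : ∀ x, P (P x) = P x) (hc : ∀ (h : H) (x : X), P (σ h x) = σ h (P x)) :
    (Fintype.card H : ℂ) * finrank ℂ (HomP ρ σ P) =
      ∑ h : H, LinearMap.trace ℂ X (σ h ∘ₗ P) * ρ.character h⁻¹ := by
  classical
  -- the operators
  let F : H → ((E →ₗ[ℂ] X) →ₗ[ℂ] (E →ₗ[ℂ] X)) := fun h =>
    { toFun := fun f => (σ h ∘ₗ P) ∘ₗ f ∘ₗ ρ h⁻¹
      map_add' := fun f g => by
        rw [LinearMap.add_comp, LinearMap.comp_add]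
      map_smul' := fun c f => by
        rw [LinearMap.smul_comp, LinearMap.comp_smul, RingHom.id_apply] }
  have hFa : ∀ (h : H) (f : E →ₗ[ℂ] X) (v : E), F h f v = σ h (P (f (ρ h⁻¹ v))) := fun h f v => rfl
  let Ω : (E →ₗ[ℂ] X) →ₗ[ℂ] (E →ₗ[ℂ] X) := (Fintype.card H : ℂ)⁻¹ • ∑ h : H, F h
  have hcard : (Fintype.card H : ℂ) ≠ 0 := Nat.cast_ne_zero.2 Fintype.card_ne_zero
  have hΩ : ∀ (f : E →ₗ[ℂ] X) (v : E), Ω f v = (Fintype.card H : ℂ)⁻¹ • ∑ h : H, σ h (P (f (ρ h⁻¹ v))) := by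
    intro f v
    change ((Fintype.card H : ℂ)⁻¹ • ∑ h : H, F h) f v = _
    rw [LinearMap.smul_apply, LinearMap.smul_apply, LinearMap.sum_apply, LinearMap.sum_apply]
    rfl
  have hproj : LinearMap.IsProj (HomP ρ σ P) Ω := by
    refine ⟨fun f => ?_, fun f hf => ?_⟩
    · rw [mem_HomP]
      refine ⟨fun k v => ?_, fun v => ?_⟩
      · rw [hΩ, hΩ, map_smul, map_sum]
        congr 1
        refine Fintype.sum_equiv (Equiv.mulLeft k⁻¹) _ _ fun h => ?_
        rw [Equiv.coe_mulLeft, ← Module.End.mul_apply (σ k), ← map_mul, mul_inv_cancel_left, mul_inv_rev, inv_inv,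
          ← Module.End.mul_apply (ρ h⁻¹), ← map_mul]
      · rw [hΩ, map_smul, map_sum]
        congr 1
        refine Finset.sum_congr rfl fun h _ => ?_
        rw [hc, hP]
    · rw [mem_HomP] at hf
      refine LinearMap.ext fun v => ?_
      rw [hΩ]
      have h1 : ∀ h : H, σ h (P (f (ρ h⁻¹ v))) = f v := by
        intro h
        rw [hf.2, ← hf.1, ← Module.End.mul_apply (ρ h), ← map_mul, mul_inv_cancel, map_one, Module.End.one_apply]
      rw [Finset.sum_congr rfl fun h _ => h1 h, Finset.sum_const, Finset.card_univ, ← Nat.cast_smul_eq_nsmul ℂ, smul_smul,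
        inv_mul_cancel₀ hcard, one_smul]
  have htr := hproj.trace
  rw [← htr]
  change (Fintype.card H : ℂ) * LinearMap.trace ℂ (E →ₗ[ℂ] X) ((Fintype.card H : ℂ)⁻¹ • ∑ h : H, F h) = _
  rw [map_smul, smul_eq_mul, mul_inv_cancel_left₀ hcard, map_sum]
  refine Finset.sum_congr rfl fun h _ => ?_
  exact trace_conj_hom (σ h ∘ₗ P) (ρ h⁻¹) (F h) fun f => rfl

end Pool.Agent.Helper51.TN
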