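import Pool.Agent.Helper51.TN.R1
import Pool.Agent.Helper1.TS.JB

/-!
BLOCK TN-S2 (about 220 lines). Joint diagonalisation of the Jucys-Murphy elements.

Proofs in words.
* `jm_diag`: the `jm ρ i` commute (`jm_comm'`) and are self-adjoint for the inner product of `exists_unitary` (each transposition is), hence diagonalizable with
  real eigenvalues, also on an invariant submodule `U`. Induction on `I` (for all `U`): for `i ∈ I` the submodule `U` is the sum of the `U ⊓ ker (jm i - a)` over finitely many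
  real `a` (the restriction of `jm i` to `U` is symmetric for the restricted inner product: `LinearMap.IsSymmetric.orthogonalFamily_eigenspaces`,
  `LinearMap.IsSymmetric.orthogonalComplement_iSup_eigenspaces_eq_bot`; the eigenvalues are real; or Mathlib's simultaneous diagonalisation used in `je_exists`), each of which is stable under
  the other `jm`. See the proof of `je_exists` in `Helper1/TS/JE.lean`.
* `jm_indep`: joint eigenvectors for distinct joint eigenvalues are independent (induction on `s`: apply `jm i - c i` for an `i` where `c` and `c'` differ; or orthogonality: two joint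
  eigenvectors with different values of `c i` are orthogonal).
* `EE_span`, `EE_indep`: the case `I = DD n e`, `U = ⊤`, with `α i = c (castLE h i)`.
* `exists_ext`: `jm_diag` with `I = univ`, `U = EE ρ h α` (stable under all `jm` by `jm_comm'`): some `f c ≠ 0`, it is in `EE ρ h α`.
* `mem_CC`: `corners ρ` is contained in the set of the eigenvalues of the linear map `jm ρ ⟨0, _⟩`, which is finite
  (`Module.End.finite_hasEigenvalue` or so; cast `ℝ → ℂ` is injective).
* `corners_last`: `List.ofFn (fun x => c x.rev)` is `l ++ [c 0]` for `n ≥ 1`.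
-/

set_option autoImplicit false

open Module Equiv Pool.Agent.Helper1.TS Pool.Agent.Helper70.TU

namespace Pool.Agent.Helper51.TN

variable {n : ℕ} {V : Type*} [AddCommGroup V] [Module ℂ V] [FiniteDimensional ℂ V]

private lemma rho_sq67 (ρ : Representation ℂ (Perm (Fin n)) V) (i j : Fin n) (v : V) :
    ρ (Equiv.swap i j) (ρ (Equiv.swap i j) v) = v := by
  rw [← Module.End.mul_apply, ← map_mul, Equiv.swap_mul_self, map_one, Module.End.one_apply]

private lemma inner_jm67 (ρ : Representation ℂ (Perm (Fin n)) V)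
    {e : V ≃ₗ[ℂ] EuclideanSpace ℂ (Fin (finrank ℂ V))}
    (he : ∀ (g : Perm (Fin n)) (v w : V), inner ℂ (e (ρ g v)) (e (ρ g w)) = inner ℂ (e v) (e w))
    (i : Fin n) (v w : V) : inner ℂ (e (jm ρ i v)) (e w) = inner ℂ (e v) (e (jm ρ i w)) := by
  unfold jm
  rw [LinearMap.sum_apply, LinearMap.sum_apply, map_sum, map_sum, sum_inner, inner_sum]
  refine Finset.sum_congr rfl fun l _ => ?_
  have h1 := he (Equiv.swap i l) (ρ (Equiv.swap i l) v) w
  rw [rho_sq67] at h1
  exact h1.symm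

private lemma inner_eq_zero67 (ρ : Representation ℂ (Perm (Fin n)) V)
    {e : V ≃ₗ[ℂ] EuclideanSpace ℂ (Fin (finrank ℂ V))}
    (he : ∀ (g : Perm (Fin n)) (v w : V), inner ℂ (e (ρ g v)) (e (ρ g w)) = inner ℂ (e v) (e w))
    (i : Fin n) {a b : ℝ} {v w : V} (hw : jm ρ i w = (a : ℂ) • w) (hv : jm ρ i v = (b : ℂ) • v)
    (hab : a ≠ b) : inner ℂ (e w) (e v) = (0 : ℂ) := by
  have h1 := inner_jm67 ρ he i w v
  rw [hw, hv, map_smul, map_smul, inner_smul_left, inner_smul_right, Complex.conj_ofReal] at h1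
  have h2 : ((a : ℂ) - b) * inner ℂ (e w) (e v) = 0 := by
    rw [sub_mul, h1, sub_self]
  rcases mul_eq_zero.1 h2 with h3 | h3
  · exfalso
    apply hab
    exact_mod_cast sub_eq_zero.1 h3
  · exact h3

/-- the eigenspaces of one Jucys-Murphy element -/
private lemma top67 (ρ : Representation ℂ (Perm (Fin n)) V) (i : Fin n) :
    ⨆ a : ℝ, Module.End.eigenspace (jm ρ i) (a : ℂ) = ⊤ := by
  obtain ⟨e, he⟩ := exists_unitary ρ
  obtain ⟨J, hJ⟩ : ∃ J : EuclideanSpace ℂ (Fin (finrank ℂ V)) →ₗ[ℂ] EuclideanSpace ℂ (Fin (finrank ℂ V)),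
      J = (e.toLinearMap ∘ₗ jm ρ i) ∘ₗ e.symm.toLinearMap := ⟨_, rfl⟩
  have hJa : ∀ x, J x = e (jm ρ i (e.symm x)) := fun x => by rw [hJ]; rfl
  have hsym : J.IsSymmetric := by
    intro x y
    rw [hJa, hJa]
    have := inner_jm67 ρ he i (e.symm x) (e.symm y)
    rwa [e.apply_symm_apply, e.apply_symm_apply] at this
  have h1 : ⨆ μ, Module.End.eigenspace J μ = ⊤ :=
    Submodule.orthogonal_eq_bot_iff.1 hsym.orthogonalComplement_iSup_eigenspaces_eq_bot
  have h2 : ∀ μ : ℂ, (Module.End.eigenspace J μ).map e.symm.toLinearMap ≤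
      ⨆ a : ℝ, Module.End.eigenspace (jm ρ i) (a : ℂ) := by
    rintro μ _ ⟨x, hx, rfl⟩
    by_cases hx0 : x = 0
    · rw [hx0, map_zero]
      exact Submodule.zero_mem _
    have hx1 : J x = μ • x := Module.End.mem_eigenspace_iff.1 hx
    have h3 : (starRingEnd ℂ) μ = μ :=
      hsym.conj_eigenvalue_eq_self (Module.End.hasEigenvalue_of_hasEigenvector
        (Module.End.hasEigenvector_iff.2 ⟨hx, hx0⟩))
    have h4 : ((μ.re : ℝ) : ℂ) = μ := Complex.conj_eq_iff_re.1 h3
    refine (le_iSup (fun a : ℝ => Module.End.eigenspace (jm ρ i) (a : ℂ)) μ.re) ?_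
    rw [Module.End.mem_eigenspace_iff, h4]
    apply e.injective
    have h5 : e (jm ρ i (e.symm x)) = μ • x := by rw [← hJa, hx1]
    rw [LinearEquiv.coe_coe, h5, map_smul, e.apply_symm_apply]
  have h3 : (⊤ : Submodule ℂ V) = ⨆ μ, (Module.End.eigenspace J μ).map e.symm.toLinearMap := by
    rw [← Submodule.map_iSup, h1, Submodule.map_top, LinearMap.range_eq_top.2 e.symm.surjective]
  exact top_le_iff.1 (h3.le.trans (iSup_le h2))

/-- one Jucys-Murphy element on an invariant submodule -/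
private lemma one67 (ρ : Representation ℂ (Perm (Fin n)) V) (i : Fin n) (U : Submodule ℂ V)
    (hU : ∀ v ∈ U, jm ρ i v ∈ U) : U ≤ ⨆ a : ℝ, U ⊓ Module.End.eigenspace (jm ρ i) (a : ℂ) := by
  have h1 := Submodule.inf_iSup_genEigenspace (p := U) (f := jm ρ i) hU 1
  have h2 : (⨆ μ, Module.End.genEigenspace (jm ρ i) μ 1) = ⊤ := by
    refine top_le_iff.1 ((top67 ρ i).ge.trans (iSup_le fun a => ?_))
    exact le_iSup (fun μ => Module.End.genEigenspace (jm ρ i) μ 1) (a : ℂ)
  rw [h2, inf_top_eq] at h1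
  refine h1.le.trans (iSup_le fun μ => ?_)
  intro v hv
  rw [Submodule.mem_inf] at hv
  by_cases hv0 : v = 0
  · rw [hv0]
    exact Submodule.zero_mem _
  have hv1 : jm ρ i v = μ • v := Module.End.mem_eigenspace_iff.1 hv.2
  have h4 : ((μ.re : ℝ) : ℂ) = μ := by
    obtain ⟨e, he⟩ := exists_unitary ρ
    have h5 := inner_jm67 ρ he i v v
    rw [hv1, map_smul, inner_smul_left, inner_smul_right] at h5
    have h6 : inner ℂ (e v) (e v) ≠ (0 : ℂ) := by
      intro h0
      rw [inner_self_eq_zero] at h0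
      exact hv0 (by simpa using h0)
    exact Complex.conj_eq_iff_re.1 (mul_right_cancel₀ h6 h5)
  refine (le_iSup (fun a : ℝ => U ⊓ Module.End.eigenspace (jm ρ i) (a : ℂ)) μ.re) ?_
  rw [Submodule.mem_inf, Module.End.mem_eigenspace_iff, h4]
  exact ⟨hv.1, hv1⟩

/-- The joint eigenspaces in `U`. -/
private def JE67 (ρ : Representation ℂ (Perm (Fin n)) V) (I : Finset (Fin n)) (U : Submodule ℂ V)
    (c : Fin n → ℝ) : Submodule ℂ V where
  carrier := {v | v ∈ U ∧ (∀ i ∈ I, jm ρ i v = (c i : ℂ) • v) ∧ ((∃ i, i ∉ I ∧ c i ≠ 0) → v = 0)}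
  add_mem' := by
    rintro v w ⟨h1, h2, h3⟩ ⟨h1', h2', h3'⟩
    refine ⟨Submodule.add_mem _ h1 h1', fun i hi => ?_, fun h => ?_⟩
    · rw [map_add, h2 i hi, h2' i hi, smul_add]
    · rw [h3 h, h3' h, add_zero]
  zero_mem' := by
    refine ⟨Submodule.zero_mem _, fun i _ => ?_, fun _ => rfl⟩
    rw [map_zero, smul_zero]
  smul_mem' := by
    rintro t v ⟨h1, h2, h3⟩
    refine ⟨Submodule.smul_mem _ t h1, fun i hi => ?_, fun h => ?_⟩
    · rw [map_smul, h2 i hi, smul_comm]
    · rw [h3 h, smul_zero]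

private lemma mem_JE67 {ρ : Representation ℂ (Perm (Fin n)) V} {I : Finset (Fin n)} {U : Submodule ℂ V}
    {c : Fin n → ℝ} {v : V} : v ∈ JE67 ρ I U c ↔
      v ∈ U ∧ (∀ i ∈ I, jm ρ i v = (c i : ℂ) • v) ∧ ((∃ i, i ∉ I ∧ c i ≠ 0) → v = 0) := Iff.rfl

private lemma diag67 (ρ : Representation ℂ (Perm (Fin n)) V) (I : Finset (Fin n)) (U : Submodule ℂ V)
    (hU : ∀ i ∈ I, ∀ v ∈ U, jm ρ i v ∈ U) : U ≤ ⨆ c : Fin n → ℝ, JE67 ρ I U c := by
  induction I using Finset.induction_on with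
  | empty =>
    refine le_trans ?_ (le_iSup (fun c : Fin n → ℝ => JE67 ρ ∅ U c) (fun _ => 0))
    intro v hv
    rw [mem_JE67]
    refine ⟨hv, fun i hi => absurd hi (Finset.notMem_empty i), ?_⟩
    rintro ⟨i, -, hi⟩
    exact absurd rfl hi
  | insert i I hi ih =>
    refine (ih fun j hj => hU j (Finset.mem_insert_of_mem hj)).trans (iSup_le fun c => ?_)
    have h1 : ∀ v ∈ JE67 ρ I U c, jm ρ i v ∈ JE67 ρ I U c := by
      intro v hv
      rw [mem_JE67] at hv ⊢
      refine ⟨hU i (Finset.mem_insert_self i I) v hv.1, fun j hj => ?_, fun h => ?_⟩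
      · rw [jm_comm', hv.2.1 j hj, map_smul]
      · rw [hv.2.2 h, map_zero]
    refine (one67 ρ i _ h1).trans (iSup_le fun a => ?_)
    refine le_trans ?_ (le_iSup (fun c : Fin n → ℝ => JE67 ρ (insert i I) U c) (Function.update c i a))
    intro v hv
    rw [Submodule.mem_inf, mem_JE67, Module.End.mem_eigenspace_iff] at hv
    rw [mem_JE67]
    refine ⟨hv.1.1, fun j hj => ?_, ?_⟩
    · by_cases hji : j = i
      · rw [hji, Function.update_self]
        exact hv.2
      · rw [Function.update_of_ne hji]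
        exact hv.1.2.1 j ((Finset.mem_insert.1 hj).resolve_left hji)
    · rintro ⟨j, hj, hj0⟩
      rw [Finset.mem_insert, not_or] at hj
      rw [Function.update_of_ne hj.1] at hj0
      exact hv.1.2.2 ⟨j, hj.2, hj0⟩

theorem jm_diag (ρ : Representation ℂ (Perm (Fin n)) V) (I : Finset (Fin n)) (U : Submodule ℂ V)
    (hU : ∀ i ∈ I, ∀ v ∈ U, jm ρ i v ∈ U) (v : V) (hv : v ∈ U) :
    ∃ (s : Finset (Fin n → ℝ)) (f : (Fin n → ℝ) → V),
      (∀ c ∈ s, f c ∈ U ∧ (∀ i ∈ I, jm ρ i (f c) = (c i : ℂ) • f c) ∧ ∀ i, i ∉ I → c i = 0) ∧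
      v = ∑ c ∈ s, f c := by
  classical
  obtain ⟨f, hf, hsum⟩ := (Submodule.mem_iSup_iff_exists_finsupp _ _).1 (diag67 ρ I U hU hv)
  refine ⟨f.support, f, fun c hc => ?_, hsum.symm⟩
  obtain ⟨h1, h2, h3⟩ := mem_JE67.1 (hf c)
  refine ⟨h1, h2, fun i hi => ?_⟩
  by_contra h0
  exact Finsupp.mem_support_iff.1 hc (h3 ⟨i, hi, h0⟩)

theorem jm_indep (ρ : Representation ℂ (Perm (Fin n)) V) (I : Finset (Fin n))
    (s : Finset (Fin n → ℝ)) (f : (Fin n → ℝ) → V)
    (hf : ∀ c ∈ s, ∀ i ∈ I, jm ρ i (f c) = (c i : ℂ) • f c)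
    (hs : ∀ c ∈ s, ∀ c' ∈ s, (∀ i ∈ I, c i = c' i) → c = c') (hsum : ∑ c ∈ s, f c = 0) :
    ∀ c ∈ s, f c = 0 := by
  classical
  obtain ⟨e, he⟩ := exists_unitary ρ
  intro c hc
  have h1 : inner ℂ (e (f c)) (e (∑ c' ∈ s, f c')) = (0 : ℂ) := by
    rw [hsum, map_zero, inner_zero_right]
  rw [map_sum, inner_sum, Finset.sum_eq_single c] at h1
  · rw [inner_self_eq_zero] at h1
    simpa using h1
  · intro c' hc' hne
    have h2 : ∃ i ∈ I, c i ≠ c' i := by
      by_contra h0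
      push Not at h0
      exact hne (hs c hc c' hc' h0).symm
    obtain ⟨i, hi, hi'⟩ := h2
    exact inner_eq_zero67 ρ he i (hf c hc i hi) (hf c' hc' i hi) hi'
  · exact fun h => absurd hc h

theorem EE_span (ρ : Representation ℂ (Perm (Fin n)) V) {e : ℕ} (h : e ≤ n) :
    ⨆ α : Fin e → ℝ, EE ρ h α = ⊤ := by
  rw [eq_top_iff]
  intro v _
  obtain ⟨s, f, hf, hsum⟩ := jm_diag ρ (DD n e) ⊤ (fun _ _ _ _ => Submodule.mem_top) v Submodule.mem_top
  rw [hsum]
  refine Submodule.sum_mem _ fun c hc => ?_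
  refine (le_iSup (fun α : Fin e → ℝ => EE ρ h α) (fun i => c (Fin.castLE h i))) ?_
  intro i
  exact (hf c hc).2.1 _ (mem_DD.2 i.2)

theorem EE_indep (ρ : Representation ℂ (Perm (Fin n)) V) {e : ℕ} (h : e ≤ n) :
    iSupIndep (fun α : Fin e → ℝ => EE ρ h α) := by
  classical
  rw [iSupIndep_iff_finsetSum_eq_zero_imp_eq_zero]
  intro s v hv hv0 α hα
  obtain ⟨e', he⟩ := exists_unitary ρ
  have h1 : inner ℂ (e' (v α)) (e' (∑ α' ∈ s, v α')) = (0 : ℂ) := by
    rw [hv0, map_zero, inner_zero_right]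
  rw [map_sum, inner_sum, Finset.sum_eq_single α] at h1
  · rw [inner_self_eq_zero] at h1
    simpa using h1
  · intro α' hα' hne
    have h2 : ∃ i, α i ≠ α' i := by
      by_contra h0
      push Not at h0
      exact hne (funext h0).symm
    obtain ⟨i, hi⟩ := h2
    exact inner_eq_zero67 ρ he _ (mem_EE.1 (hv α hα) i) (mem_EE.1 (hv α' hα') i) hi
  · exact fun h => absurd hα h

theorem exists_ext (ρ : Representation ℂ (Perm (Fin n)) V) {e : ℕ} (h : e ≤ n) (α : Fin e → ℝ)
    (hne : EE ρ h α ≠ ⊥) :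
    ∃ (c : Fin n → ℝ) (w : V), IsJE ρ c w ∧ w ∈ EE ρ h α ∧ ∀ i : Fin e, c (Fin.castLE h i) = α i := by
  obtain ⟨v, hv, hv0⟩ := Submodule.exists_mem_ne_zero_of_ne_bot hne
  obtain ⟨s, f, hf, hsum⟩ := jm_diag ρ Finset.univ (EE ρ h α) (fun i _ w hw => by
    rw [mem_EE] at hw ⊢
    intro k
    rw [jm_comm', hw k, map_smul]) v hv
  have h1 : ∃ c ∈ s, f c ≠ 0 := by
    by_contra h0
    push Not at h0
    exact hv0 (hsum.trans (Finset.sum_eq_zero h0))
  obtain ⟨c, hc, hc0⟩ := h1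
  obtain ⟨h2, h3, -⟩ := hf c hc
  refine ⟨c, f c, ⟨hc0, fun i => h3 i (Finset.mem_univ i)⟩, h2, fun i => ?_⟩
  have h4 := h3 (Fin.castLE h i) (Finset.mem_univ _)
  rw [mem_EE.1 h2 i] at h4
  have h5 := smul_left_injective ℂ hc0 h4
  exact_mod_cast h5.symm

theorem mem_CC (ρ : Representation ℂ (Perm (Fin n)) V) (a : ℝ) : a ∈ CC ρ ↔ a ∈ corners ρ := by
  have hfin : (corners ρ).Finite := by
    by_cases hn : 0 < n
    · have h1 : Set.Finite {μ : ℂ | Module.End.HasEigenvalue (jm ρ ⟨0, hn⟩) μ} := Module.End.finite_hasEigenvalue _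
      have h2 : Set.Finite ((fun a : ℝ => (a : ℂ)) ⁻¹' {μ : ℂ | Module.End.HasEigenvalue (jm ρ ⟨0, hn⟩) μ}) :=
        h1.preimage (Complex.ofReal_injective.injOn)
      refine h2.subset ?_
      rintro a ⟨c, v, h, hv, rfl⟩
      exact Module.End.hasEigenvalue_of_hasEigenvector
        (Module.End.hasEigenvector_iff.2 ⟨Module.End.mem_eigenspace_iff.2 (hv.2 _), hv.1⟩)
    · have h1 : corners ρ = ∅ := by
        rw [Set.eq_empty_iff_forall_notMem]
        rintro a ⟨c, v, h, -⟩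
        exact hn h
      rw [h1]
      exact Set.finite_empty
  unfold CC
  rw [dif_pos hfin, Set.Finite.mem_toFinset]

theorem corners_last (ρ : Representation ℂ (Perm (Fin n)) V) (a : ℝ) :
    a ∈ corners ρ ↔ ∃ l : List ℝ, l ++ [a] ∈ JBaux.SS ρ := by
  constructor
  · rintro ⟨c, v, h, hv, rfl⟩
    obtain ⟨m, rfl⟩ : ∃ m, n = m + 1 := ⟨n - 1, by omega⟩
    refine ⟨List.ofFn (fun x : Fin m => c (Fin.rev (Fin.castSucc x))), c, v, hv, ?_⟩
    rw [List.ofFn_succ', List.concat_eq_append, Fin.rev_last]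
    rfl
  · rintro ⟨l, c, v, hv, hl⟩
    have hlen := congrArg List.length hl
    rw [List.length_append, List.length_singleton, List.length_ofFn] at hlen
    obtain ⟨m, rfl⟩ : ∃ m, n = m + 1 := ⟨n - 1, by omega⟩
    refine ⟨c, v, Nat.succ_pos m, hv, ?_⟩
    rw [List.ofFn_succ', List.concat_eq_append, Fin.rev_last] at hl
    have h1 := (List.append_inj' hl rfl).2
    rw [List.cons.injEq] at h1
    exact h1.1.symm

/-- The first value of a nonzero joint eigenspace is a corner. -/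
theorem mem_corners_of_EE (ρ : Representation ℂ (Perm (Fin n)) V) {e : ℕ} (h : e ≤ n) (he : 0 < e)
    (α : Fin e → ℝ) (hne : EE ρ h α ≠ ⊥) : α ⟨0, he⟩ ∈ corners ρ := by
  obtain ⟨c, w, hw, -, hc⟩ := exists_ext ρ h α hne
  exact ⟨c, w, lt_of_lt_of_le he h, hw, hc ⟨0, he⟩⟩

end Pool.Agent.Helper51.TN
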