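import Pool.Agent.Helper1.TS.JB
import Pool.Agent.Helper1.TS.JUC
import Pool.Agent.Helper1.TS.DEG

/-!
BLOCK TN-K2 (about 100 lines). All content lists of an irreducible representation have the same multiset of entries.

Proof in words. Let `IsJE ρ c v`, `IsJE ρ c' v'`. For every `k` the operator `∑_g fixN k g • ρ g` commutes with `ρ` (`fixN` is a class function; its conjugation
invariance is the private lemma `fixN_conj` in `Helper1/TS/DEG.lean`, copy it), so it is a scalar (Schur, see `schur_sum` in `Helper1/TS/WALK.lean`); by `jucys` the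
scalar is `∏ i, (k + c i)` and also `∏ i, (k + c' i)`. So the polynomials `∏ (X + c i)` and `∏ (X + c' i)` agree at all naturals, hence are equal, hence their
multisets of roots are equal (`Polynomial.roots_multiset_prod_X_sub_C`), i.e. the multisets of the `c i` and of the `c' i` are equal; the lists
`List.ofFn (fun x => c x.rev)` are permutations of each other.
-/

set_option autoImplicit false

open Module Equiv Pool.Agent.Helper1.TS

namespace Pool.Agent.Helper51.TN

variable {n : ℕ} {V : Type*} [AddCommGroup V] [Module ℂ V] [FiniteDimensional ℂ V]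

private theorem fixN_conj68 (k : ℕ) {m : ℕ} (g x : Perm (Fin m)) :
    fixN k (x * g * x⁻¹) = fixN k g := by
  unfold fixN
  have e1 : ∀ y, x⁻¹ (x y) = y := x.symm_apply_apply
  have e2 : ∀ y, x (x⁻¹ y) = y := x.apply_symm_apply
  refine Finset.card_bij (fun f _ => f ∘ ⇑x) ?_ ?_ ?_
  · intro f hf
    rw [Finset.mem_filter] at hf ⊢
    refine ⟨Finset.mem_univ _, ?_⟩
    funext y
    have h := congrFun hf.2 (x y)
    simp only [Function.comp_apply, Perm.coe_mul, e1] at h ⊢
    exact h
  · intro f _ f' _ hff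
    funext y
    have h := congrFun hff (x⁻¹ y)
    simp only [Function.comp_apply, e2] at h
    exact h
  · intro f hf
    rw [Finset.mem_filter] at hf
    refine ⟨f ∘ ⇑x⁻¹, ?_, ?_⟩
    · rw [Finset.mem_filter]
      refine ⟨Finset.mem_univ _, ?_⟩
      funext y
      have h := congrFun hf.2 (x⁻¹ y)
      simp only [Function.comp_apply, Perm.coe_mul, e1] at h ⊢
      exact h
    · funext y
      simp only [Function.comp_apply, e1]

/-- The operator of `fixN` is a scalar. -/
private theorem schur68 (ρ : Representation ℂ (Perm (Fin n)) V) [ρ.IsIrreducible] (k : ℕ) :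
    ∃ a : ℂ, ∀ v : V, ∑ g : Perm (Fin n), (fixN k g : ℂ) • ρ g v = a • v := by
  set B : V →ₗ[ℂ] V := ∑ g : Perm (Fin n), (fixN k g : ℂ) • ρ g with hB
  have hcomm : ∀ x : Perm (Fin n), ∀ v : V, B (ρ x v) = ρ x (B v) := by
    intro x w
    rw [hB, LinearMap.sum_apply, LinearMap.sum_apply, map_sum]
    refine (Fintype.sum_equiv (MulAut.conj x).toEquiv _ _ (fun g => ?_)).symm
    simp only [LinearMap.smul_apply, map_smul]
    have e : (MulAut.conj x).toEquiv g = x * g * x⁻¹ := rfl
    rw [e, fixN_conj68]
    congr 1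
    rw [← Module.End.mul_apply, ← Module.End.mul_apply, ← map_mul, ← map_mul]
    congr 2
    group
  obtain ⟨a, ha⟩ := (Representation.IsIrreducible.algebraMap_intertwiningMap_bijective_of_isAlgClosed
    (ρ := ρ)).2 (B.intertwiningMap_of_isIntertwiningMap ρ ρ hcomm)
  refine ⟨a, fun v => ?_⟩
  have h2 := congrArg (fun f : Representation.IntertwiningMap ρ ρ => f.toLinearMap) ha
  have h3 := congrArg (fun f : V →ₗ[ℂ] V => f v) h2
  have h4 : B v = (((algebraMap ℂ (Representation.IntertwiningMap ρ ρ)) a).toLinearMap) v := h3.symm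
  have h5 : B v = ∑ g : Perm (Fin n), (fixN k g : ℂ) • ρ g v := by
    rw [hB, LinearMap.sum_apply]
    rfl
  rw [← h5, h4]
  rfl

/-- The products of the contents agree. -/
private theorem prod68 (ρ : Representation ℂ (Perm (Fin n)) V) [ρ.IsIrreducible] {c c' : Fin n → ℝ} {v v' : V}
    (h : IsJE ρ c v) (h' : IsJE ρ c' v') (k : ℕ) : ∏ i, ((k : ℝ) + c i) = ∏ i, ((k : ℝ) + c' i) := by
  obtain ⟨a, ha⟩ := schur68 ρ k
  have key : ∀ (c : Fin n → ℝ) (v : V), IsJE ρ c v → a = ((∏ i, ((k : ℝ) + c i) : ℝ) : ℂ) := by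
    intro c v h
    have h1 := jucys k ρ c v h.2
    rw [ha v] at h1
    have h2 : (a - ∏ i, ((k : ℂ) + c i)) • v = 0 := by
      rw [sub_smul, h1, sub_self]
    rcases smul_eq_zero.1 h2 with h3 | h3
    · rw [sub_eq_zero] at h3
      rw [h3]
      push_cast
      rfl
    · exact absurd h3 h.1
  have h1 := (key c v h).symm.trans (key c' v' h')
  exact_mod_cast h1

private theorem ofFn68 (c : Fin n → ℝ) :
    ((List.ofFn (fun x : Fin n => c x.rev) : List ℝ) : Multiset ℝ) = (Finset.univ : Finset (Fin n)).val.map c := by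
  rw [← Fin.univ_val_map]
  have h := Multiset.map_univ_val_equiv (Fin.revPerm (n := n))
  have h2 : (Finset.univ : Finset (Fin n)).val.map (fun x => c x.rev) =
      ((Finset.univ : Finset (Fin n)).val.map (Fin.revPerm (n := n))).map c := by
    rw [Multiset.map_map]
    rfl
  rw [h2, h]

private theorem roots68 (c : Fin n → ℝ) :
    (∏ i, (Polynomial.X + Polynomial.C (c i))).roots = (Finset.univ : Finset (Fin n)).val.map fun i => - c i := by
  rw [← Polynomial.roots_multiset_prod_X_sub_C ((Finset.univ : Finset (Fin n)).val.map fun i => - c i), Multiset.map_map]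
  congr 1
  rw [Finset.prod]
  congr 1
  refine Multiset.map_congr rfl fun i _ => ?_
  simp only [Function.comp_apply, map_neg, sub_neg_eq_add]

theorem SS_perm (ρ : Representation ℂ (Perm (Fin n)) V) [ρ.IsIrreducible] :
    ∀ l ∈ JBaux.SS ρ, ∀ l' ∈ JBaux.SS ρ, l.Perm l' := by
  rintro l ⟨c, v, h, rfl⟩ l' ⟨c', v', h', rfl⟩
  rw [← Multiset.coe_eq_coe, ofFn68, ofFn68]
  have h1 : (∏ i, (Polynomial.X + Polynomial.C (c i)) : Polynomial ℝ) = ∏ i, (Polynomial.X + Polynomial.C (c' i)) := by
    refine Polynomial.eq_of_infinite_eval_eq _ _ ?_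
    refine (Set.infinite_range_of_injective (Nat.cast_injective (R := ℝ))).mono ?_
    rintro _ ⟨k, rfl⟩
    rw [Set.mem_ofPred_eq, Polynomial.eval_prod, Polynomial.eval_prod]
    simp only [Polynomial.eval_add, Polynomial.eval_X, Polynomial.eval_C]
    exact prod68 ρ h h' k
  have h2 := roots68 c
  rw [h1, roots68 c'] at h2
  have h3 := congrArg (Multiset.map fun x : ℝ => -x) h2
  rw [Multiset.map_map, Multiset.map_map] at h3
  simp only [Function.comp_def, neg_neg] at h3
  exact h3.symm

end Pool.Agent.Helper51.TN
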