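import Pool.Agent.Helper51.TN.K1
import Pool.Agent.Helper51.TN.K2
import Pool.Agent.Helper51.TN.S2

/-!
BLOCK TN-K3 (about 120 lines). Corners.

Proofs in words. `S = SS ρ` satisfies `OV` (`ov ρ`), its members are permutations of each other (`SS_perm`) and it is nonempty (`je_exists`, `ρ` irreducible so `V` nontrivial).
* `corners_gap`: `K_gap` and `corners_last`.
* `EE_ne_bot`: apply `K_many` to `L = List.ofFn (fun i : Fin e => α i.rev)` (nodup since `α` is injective): `l ++ L ∈ SS ρ`, so there is `IsJE ρ c v` with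
  `l ++ L = List.ofFn (fun x => c x.rev)`; comparing the last `e` entries (length `n`, `key` in `Helper1/TS/JB.lean` or `List.getElem`): `c (castLE h i) = α i`, so
  `v ∈ EE ρ h α`.
* `perm_of_EE`: `EE ρ h α`, `EE ρ h β` contain joint eigenvectors of all `jm` with contents `c`, `c'` which agree at the points `≥ e`; by `SS_perm` the multisets of
  all values agree, so the multisets of the values of `α` and of `β` agree; for injective `α` and `β` the images agree.
-/

set_option autoImplicit false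

open Module Equiv Pool.Agent.Helper1.TS Pool.Agent.Helper70.TU

namespace Pool.Agent.Helper51.TN

variable {n : ℕ} {V : Type*} [AddCommGroup V] [Module ℂ V] [FiniteDimensional ℂ V]

omit [FiniteDimensional ℂ V] in
private theorem nontriv69 (ρ : Representation ℂ (Perm (Fin n)) V) [ρ.IsIrreducible] : Nontrivial V := by
  by_contra hcon
  rw [not_nontrivial_iff_subsingleton] at hcon
  have h1 : Nontrivial (Subrepresentation ρ) := inferInstance
  obtain ⟨a, b, hab⟩ := h1
  apply hab
  ext v
  rw [Subsingleton.elim v 0]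
  exact ⟨fun _ => b.toSubmodule.zero_mem, fun _ => a.toSubmodule.zero_mem⟩

private theorem ofFn69 (c : Fin n → ℝ) :
    ((List.ofFn (fun x : Fin n => c x.rev) : List ℝ) : Multiset ℝ) = (Finset.univ : Finset (Fin n)).val.map c := by
  rw [← Fin.univ_val_map]
  have h := Multiset.map_univ_val_equiv (Fin.revPerm (n := n))
  have h2 : (Finset.univ : Finset (Fin n)).val.map (fun x => c x.rev) =
      ((Finset.univ : Finset (Fin n)).val.map (Fin.revPerm (n := n))).map c := by
    rw [Multiset.map_map]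
    rfl
  rw [h2, h]

theorem corners_gap (ρ : Representation ℂ (Perm (Fin n)) V) [ρ.IsIrreducible] {a b : ℝ}
    (ha : a ∈ corners ρ) (hb : b ∈ corners ρ) : b ≠ a + 1 := by
  obtain ⟨l, hl⟩ := (corners_last ρ a).1 ha
  obtain ⟨l', hl'⟩ := (corners_last ρ b).1 hb
  exact K_gap (JBaux.ov ρ) (SS_perm ρ) hl hl'

theorem EE_ne_bot (ρ : Representation ℂ (Perm (Fin n)) V) [ρ.IsIrreducible] {e : ℕ} (h : e ≤ n)
    (α : Fin e → ℝ) (hinj : Function.Injective α) (hα : ∀ i, α i ∈ corners ρ) : EE ρ h α ≠ ⊥ := by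
  have hnt := nontriv69 ρ
  have hne : (JBaux.SS ρ).Nonempty := by
    obtain ⟨c, v, hv⟩ := je_exists ρ
    exact ⟨_, c, v, hv, rfl⟩
  have hrev : ∀ s (hs : s < e), (List.ofFn (fun i : Fin e => α i.rev))[s]'(by simpa using hs) =
      α (Fin.rev ⟨s, hs⟩) := by
    intro s hs
    rw [List.getElem_ofFn]
  obtain ⟨l, c, v, hv, hl⟩ := K_many (JBaux.ov ρ) (SS_perm ρ) hne (List.ofFn (fun i : Fin e => α i.rev))
    (List.nodup_ofFn.2 fun i j hij => Fin.rev_injective (hinj hij)) (by
      intro a ha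
      rw [List.mem_ofFn] at ha
      obtain ⟨i, rfl⟩ := ha
      exact (corners_last ρ _).1 (hα i.rev))
  have hlen := congrArg List.length hl
  rw [List.length_append, List.length_ofFn, List.length_ofFn] at hlen
  have hc : ∀ i : Fin e, c (Fin.castLE h i) = α i := by
    intro i
    have hs : e - 1 - (i : ℕ) < e := by have := i.2; omega
    obtain ⟨hm, h1⟩ := JBaux.key _ l _ hl (e - 1 - (i : ℕ)) (by rw [List.length_ofFn]; exact hs)
    rw [hrev _ hs] at h1
    have e1 : Fin.rev (⟨l.length + (e - 1 - (i : ℕ)), hm⟩ : Fin n) = Fin.castLE h i := by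
      rw [Fin.ext_iff, Fin.val_rev, Fin.val_castLE]
      have := i.2
      simp only
      omega
    have e2 : Fin.rev (⟨e - 1 - (i : ℕ), hs⟩ : Fin e) = i := by
      rw [Fin.ext_iff, Fin.val_rev]
      have := i.2
      simp only
      omega
    rw [e1, e2] at h1
    exact h1
  refine (Submodule.ne_bot_iff _).2 ⟨v, ?_, hv.1⟩
  rw [mem_EE]
  intro i
  rw [hv.2, hc]

theorem perm_of_EE (ρ : Representation ℂ (Perm (Fin n)) V) [ρ.IsIrreducible] {e : ℕ} (h : e ≤ n)
    (α β : Fin e → ℝ) (c c' : Fin n → ℝ) (v w : V) (hv : IsJE ρ c v) (hw : IsJE ρ c' w)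
    (hα : ∀ i : Fin e, c (Fin.castLE h i) = α i) (hβ : ∀ i : Fin e, c' (Fin.castLE h i) = β i)
    (hc : ∀ i : Fin n, e ≤ (i : ℕ) → c i = c' i) :
    Finset.univ.image α = Finset.univ.image β := by
  have h1 := SS_perm ρ _ ⟨c, v, hv, rfl⟩ _ ⟨c', w, hw, rfl⟩
  rw [← Multiset.coe_eq_coe, ofFn69, ofFn69] at h1
  have h2 := Multiset.filter_add_not (fun i : Fin n => (i : ℕ) < e) (Finset.univ : Finset (Fin n)).val
  have h3 : (Multiset.filter (fun i : Fin n => (i : ℕ) < e) (Finset.univ : Finset (Fin n)).val).map c =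
      (Multiset.filter (fun i : Fin n => (i : ℕ) < e) (Finset.univ : Finset (Fin n)).val).map c' := by
    have h4 : (Multiset.filter (fun i : Fin n => ¬ (i : ℕ) < e) (Finset.univ : Finset (Fin n)).val).map c =
        (Multiset.filter (fun i : Fin n => ¬ (i : ℕ) < e) (Finset.univ : Finset (Fin n)).val).map c' :=
      Multiset.map_congr rfl fun i hi => hc i (not_lt.1 (Multiset.mem_filter.1 hi).2)
    rw [← h2, Multiset.map_add, Multiset.map_add, h4] at h1
    exact add_right_cancel h1
  have h5 : ∀ (γ : Fin e → ℝ) (d : Fin n → ℝ), (∀ i : Fin e, d (Fin.castLE h i) = γ i) → ∀ x : ℝ,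
      x ∈ Finset.univ.image γ ↔
        x ∈ (Multiset.filter (fun i : Fin n => (i : ℕ) < e) (Finset.univ : Finset (Fin n)).val).map d := by
    intro γ d hd x
    rw [Finset.mem_image, Multiset.mem_map]
    constructor
    · rintro ⟨i, -, rfl⟩
      exact ⟨Fin.castLE h i, Multiset.mem_filter.2 ⟨Finset.mem_univ (Fin.castLE h i), i.2⟩, hd i⟩
    · rintro ⟨i, hi, rfl⟩
      exact ⟨⟨i, (Multiset.mem_filter.1 hi).2⟩, Finset.mem_univ _, (hd _).symm⟩
  ext x
  rw [h5 α c hα, h5 β c' hβ, h3]

end Pool.Agent.Helper51.TN
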