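import Pool.Agent.Helper51.TN.Defs

/-!
BLOCK TN-L2 (about 120 lines). Traces on the space of bilinear forms.

Proof in words. Choose a basis `e_i` of `V` with dual basis `e^i`; the forms `e_ij (v, w) = e^i(v) e^j(w)` are a basis of `Bil V` (coordinates
`b ↦ b e_i e_j`), e.g. through `LinearMap.BilinForm` / `LinearMap.toMatrix₂` (`LinearMap.toMatrix₂ b b : Bil V ≃ₗ Matrix`), so the trace of a map `F` on
`Bil V` is `∑_{ij} (F e_ij) e_i e_j`. With `A e_k = ∑_i A_ik e_i`: `(pb A e_ij)(e_i, e_j) = A_ii A_jj`, sum `= (tr A)²`;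
`(pb A (fl e_ij))(e_i, e_j) = e_ij(A e_j, A e_i) = A_ij A_ji`, sum `= tr (A * A)`. The rest follows by linearity: `pe ε = (id + ε fl)/2`,
`bil ρ g = pb (ρ g⁻¹)` (by `rfl`).
-/

set_option autoImplicit false

open Module Equiv Pool.Agent.Helper1.TS Pool.Agent.Helper70.TU

namespace Pool.Agent.Helper51.TN

variable {G V : Type*} [Group G] [AddCommGroup V] [Module ℂ V] [FiniteDimensional ℂ V]

/-- The form `(v, w) ↦ v_i w_j`. -/
noncomputable def eij {ι : Type*} (b : Basis ι ℂ V) (i j : ι) : Bil V :=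
  LinearMap.mk₂ ℂ (fun v w => b.repr v i * b.repr w j)
    (by intro v v' w; rw [map_add, Finsupp.add_apply, add_mul])
    (by intro c v w; rw [map_smul, Finsupp.smul_apply, smul_mul_assoc])
    (by intro v w w'; rw [map_add, Finsupp.add_apply, mul_add])
    (by intro c v w; rw [map_smul, Finsupp.smul_apply, mul_smul_comm])

omit [FiniteDimensional ℂ V] in
theorem eij_apply {ι : Type*} (b : Basis ι ℂ V) (i j : ι) (v w : V) :
    eij b i j v w = b.repr v i * b.repr w j := rfl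

omit [FiniteDimensional ℂ V] in
theorem trace_bil {ι : Type*} [Fintype ι] [DecidableEq ι] (b : Basis ι ℂ V) (F : Bil V →ₗ[ℂ] Bil V) :
    LinearMap.trace ℂ (Bil V) F = ∑ i, ∑ j, F (eij b i j) (b i) (b j) := by
  have hB : ∀ p : ι × ι, ((Matrix.stdBasis ℂ ι ι).map (LinearMap.toMatrix₂ b b).symm) p
      = eij b p.1 p.2 := by
    rintro ⟨i, j⟩
    rw [Basis.map_apply, Matrix.stdBasis_eq_single, LinearMap.toMatrix₂_symm]
    refine LinearMap.ext₂ fun v w => ?_
    rw [Matrix.toLinearMap₂_apply, eij_apply]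
    rw [Finset.sum_eq_single i, Finset.sum_eq_single j]
    · rw [Matrix.single_apply_same, smul_eq_mul, smul_eq_mul, mul_one]
    · intro k _ hk
      rw [Matrix.single_apply_of_ne (h := by rintro ⟨_, h⟩; exact hk h.symm), smul_zero, smul_zero]
    · intro h
      exact absurd (Finset.mem_univ _) h
    · intro k _ hk
      refine Finset.sum_eq_zero fun l _ => ?_
      rw [Matrix.single_apply_of_ne (h := by rintro ⟨h, _⟩; exact hk h.symm), smul_zero, smul_zero]
    · intro h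
      exact absurd (Finset.mem_univ _) h
  rw [LinearMap.trace_eq_matrix_trace ℂ ((Matrix.stdBasis ℂ ι ι).map (LinearMap.toMatrix₂ b b).symm),
    Matrix.trace, Fintype.sum_prod_type]
  refine Finset.sum_congr rfl fun i _ => Finset.sum_congr rfl fun j _ => ?_
  rw [Matrix.diag_apply, LinearMap.toMatrix_apply, hB, Basis.map_repr, LinearEquiv.trans_apply,
    LinearEquiv.symm_symm]
  have h1 : ∀ M : Matrix ι ι ℂ, (Matrix.stdBasis ℂ ι ι).repr M (i, j) = M i j := fun M => by
    rfl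
  rw [h1, LinearMap.toMatrix₂_apply]

omit [FiniteDimensional ℂ V] in
theorem trace_lin {ι : Type*} [Fintype ι] [DecidableEq ι] (b : Basis ι ℂ V) (A : V →ₗ[ℂ] V) :
    LinearMap.trace ℂ V A = ∑ i, b.repr (A (b i)) i := by
  rw [LinearMap.trace_eq_matrix_trace ℂ b, Matrix.trace]
  refine Finset.sum_congr rfl fun i _ => ?_
  rw [Matrix.diag_apply, LinearMap.toMatrix_apply]

theorem trace_pb (A : V →ₗ[ℂ] V) : LinearMap.trace ℂ (Bil V) (pb A) = (LinearMap.trace ℂ V A) ^ 2 := by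
  classical
  have b := Module.finBasis ℂ V
  rw [trace_bil b, trace_lin b, sq, Finset.sum_mul_sum]
  refine Finset.sum_congr rfl fun i _ => Finset.sum_congr rfl fun j _ => ?_
  rw [pb_apply, eij_apply]

theorem trace_pb_fl (A : V →ₗ[ℂ] V) :
    LinearMap.trace ℂ (Bil V) (pb A ∘ₗ fl) = LinearMap.trace ℂ V (A ∘ₗ A) := by
  classical
  have b := Module.finBasis ℂ V
  rw [trace_bil b, trace_lin b]
  refine Finset.sum_congr rfl fun i _ => ?_
  rw [LinearMap.comp_apply]
  conv_rhs => rw [← b.sum_repr (A (b i)), map_sum, map_sum, Finset.sum_apply']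
  refine Finset.sum_congr rfl fun j _ => ?_
  rw [LinearMap.comp_apply, pb_apply, fl_apply, eij_apply, map_smul, map_smul, Finsupp.smul_apply,
    smul_eq_mul, mul_comm]

theorem trace_pb_pe (A : V →ₗ[ℂ] V) (ε : ℂ) :
    LinearMap.trace ℂ (Bil V) (pb A ∘ₗ pe ε) =
      ((LinearMap.trace ℂ V A) ^ 2 + ε * LinearMap.trace ℂ V (A ∘ₗ A)) / 2 := by
  have h : pb A ∘ₗ pe ε = (1 / 2 : ℂ) • (pb A + ε • (pb A ∘ₗ fl)) := by
    unfold pe
    rw [LinearMap.comp_smul, LinearMap.comp_add, LinearMap.comp_smul, LinearMap.comp_id]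
  rw [h, map_smul, map_add, map_smul, trace_pb, trace_pb_fl, smul_eq_mul, smul_eq_mul]
  ring

theorem trace_bil_pe (ρ : Representation ℂ G V) (g : G) (ε : ℂ) :
    LinearMap.trace ℂ (Bil V) (bil ρ g ∘ₗ pe ε) =
      (ρ.character g⁻¹ ^ 2 + ε * ρ.character (g⁻¹ ^ 2)) / 2 := by
  have h := trace_pb_pe (ρ g⁻¹) ε
  unfold Representation.character
  rw [sq g⁻¹, map_mul]
  exact h

omit [FiniteDimensional ℂ V] in
/-- `pe ε` is a projection for `ε = ±1`. -/
theorem pe_idem (ε : ℂ) (hε : ε ^ 2 = 1) (b : Bil V) : pe ε (pe ε b) = pe ε b := by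
  refine LinearMap.ext₂ fun v w => ?_
  rw [pe_apply, pe_apply, pe_apply]
  linear_combination (b v w / 4) * hε

omit [FiniteDimensional ℂ V] in
theorem pe_pb (ε : ℂ) (A : V →ₗ[ℂ] V) (b : Bil V) : pe ε (pb A b) = pb A (pe ε b) := by
  refine LinearMap.ext₂ fun v w => ?_
  rw [pe_apply, pb_apply, pb_apply, pb_apply, pe_apply]

end Pool.Agent.Helper51.TN
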