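import Pool.Agent.Helper51.TN.S2

/-!
BLOCK TN-S3 (about 220 lines). The projections `pJ` and the block diagonal projection `PiE`.

Proofs in words.
* `pJ_spec`: by `EE_span`, `EE_indep` the space is the internal direct sum of the `EE ρ h α` (`DirectSum.IsInternal`, only finitely many are nonzero), so there is a linear
  map with the values `p v = v` or `0` on the summands (`DirectSum.toModule`; or a sum of the projections); so the `if` in the definition of `pJ` is true.
* `ext_EE`: two linear maps that agree on all `EE ρ h α` are equal (`EE_span`).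
* `pJ_idem`, `pJ_orth`: on every `EE`.
* `pJ_comm`: the elements `jH h (x, y)` are generated by the `jT h x` (which preserve every `EE`, `EE_jT`) and `jD h s`, `s = swap i j` with `j = i + 1` in `Fin e`
  (`Equiv.Perm` is generated by adjacent transpositions: `Equiv.Perm.mclosure_swap_castSucc_succ`, see how `gen` in `Helper1/TS/JB.lean` does it);
  `jD h (swap i j) = swap (castLE h i) (castLE h j)`. For `v ∈ EE ρ h α`, `v ≠ 0`: `α i ≠ α j` (`EE_eq_bot`), and by `intertw` `s v = w + k v` with `w ∈ EE ρ h (α ∘ swap i j)`; the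
  images of `α` and `α ∘ swap i j` are equal, so `pJ (s v) = s (pJ v)`.
* `PiE_idem`: `pb (pJ J) (pb (pJ J') b) = pb (pJ J' ∘ pJ J) b` is `0` or the same. `PiE_comm`, `PiE_pe`: from `pJ_comm`, `pe_pb`-style computations.
* `PiE_apply`: for `v ∈ EE ρ h α`, `w ∈ EE ρ h β`.
-/

set_option autoImplicit false

open Module Equiv Pool.Agent.Helper1.TS Pool.Agent.Helper70.TU

namespace Pool.Agent.Helper51.TN

variable {n : ℕ} {V : Type*} [AddCommGroup V] [Module ℂ V] [FiniteDimensional ℂ V]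

/-- Projections of an internal direct sum. -/
private lemma exists_proj61 {ι : Type*} (A : ι → Submodule ℂ V) (hi : iSupIndep A)
    (hs : ⨆ i, A i = ⊤) (P : ι → Prop) [∀ i, Decidable (P i)] :
    ∃ p : V →ₗ[ℂ] V, ∀ i, ∀ v ∈ A i, p v = if P i then v else 0 := by
  classical
  have hint : DirectSum.IsInternal A :=
    (DirectSum.isInternal_submodule_iff_iSupIndep_and_iSup_eq_top A).2 ⟨hi, hs⟩
  let E : (DirectSum ι fun i => A i) ≃ₗ[ℂ] V :=
    LinearEquiv.ofBijective (DirectSum.coeLinearMap A) hint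
  let q : (DirectSum ι fun i => A i) →ₗ[ℂ] V :=
    DirectSum.toModule ℂ ι V (fun i => if P i then (A i).subtype else 0)
  refine ⟨q ∘ₗ E.symm.toLinearMap, fun i v hv => ?_⟩
  have h1 : E (DirectSum.lof ℂ ι (fun i => A i) i ⟨v, hv⟩) = v := by
    show DirectSum.coeLinearMap A (DirectSum.lof ℂ ι (fun i => A i) i ⟨v, hv⟩) = v
    rw [DirectSum.coeLinearMap_lof]
  have h2 : E.symm v = DirectSum.lof ℂ ι (fun i => A i) i ⟨v, hv⟩ := by
    rw [LinearEquiv.symm_apply_eq]
    exact h1.symm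
  show q (E.symm v) = _
  rw [h2, DirectSum.toModule_lof]
  split_ifs <;> rfl

open Classical in
theorem pJ_spec (ρ : Representation ℂ (Perm (Fin n)) V) {e : ℕ} (h : e ≤ n) (J : Finset ℝ)
    (α : Fin e → ℝ) (v : V) (hv : v ∈ EE ρ h α) :
    pJ ρ h J v = if Finset.univ.image α = J then v else 0 := by
  have hp : ∃ p : V →ₗ[ℂ] V, ∀ (α : Fin e → ℝ), ∀ v ∈ EE ρ h α,
      p v = if Finset.univ.image α = J then v else 0 :=
    exists_proj61 (fun α : Fin e → ℝ => EE ρ h α) (EE_indep ρ h) (EE_span ρ h)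
      (fun α => Finset.univ.image α = J)
  unfold pJ
  rw [dif_pos hp]
  exact hp.choose_spec α v hv

theorem ext_EE (ρ : Representation ℂ (Perm (Fin n)) V) {e : ℕ} (h : e ≤ n) {Y : Type*} [AddCommGroup Y]
    [Module ℂ Y] (A B : V →ₗ[ℂ] Y) (hAB : ∀ α : Fin e → ℝ, ∀ v ∈ EE ρ h α, A v = B v) : A = B := by
  have h1 : ⨆ α : Fin e → ℝ, EE ρ h α ≤ LinearMap.eqLocus A B :=
    iSup_le fun α v hv => hAB α v hv
  rw [EE_span ρ h, top_le_iff] at h1
  refine LinearMap.ext fun v => ?_
  have h2 : v ∈ LinearMap.eqLocus A B := by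
    rw [h1]
    trivial
  exact h2

theorem pJ_idem (ρ : Representation ℂ (Perm (Fin n)) V) {e : ℕ} (h : e ≤ n) (J : Finset ℝ) (v : V) :
    pJ ρ h J (pJ ρ h J v) = pJ ρ h J v := by
  classical
  have h1 : pJ ρ h J ∘ₗ pJ ρ h J = pJ ρ h J := by
    refine ext_EE ρ h _ _ fun α u hu => ?_
    rw [LinearMap.comp_apply, pJ_spec ρ h J α u hu]
    split_ifs with hc
    · rw [pJ_spec ρ h J α u hu, if_pos hc]
    · rw [map_zero]
  exact LinearMap.congr_fun h1 v

theorem pJ_orth (ρ : Representation ℂ (Perm (Fin n)) V) {e : ℕ} (h : e ≤ n) (J J' : Finset ℝ)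
    (hne : J ≠ J') (v : V) : pJ ρ h J (pJ ρ h J' v) = 0 := by
  classical
  have h1 : pJ ρ h J ∘ₗ pJ ρ h J' = 0 := by
    refine ext_EE ρ h _ _ fun α u hu => ?_
    rw [LinearMap.comp_apply, pJ_spec ρ h J' α u hu, LinearMap.zero_apply]
    split_ifs with hc
    · rw [pJ_spec ρ h J α u hu, if_neg (fun h0 => hne (h0.symm.trans hc))]
    · rw [map_zero]
  exact LinearMap.congr_fun h1 v

private lemma jD_swap61 {e : ℕ} (h : e ≤ n) (i j : Fin e) :
    jD h (Equiv.swap i j) = Equiv.swap (Fin.castLE h i) (Fin.castLE h j) := by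
  refine Equiv.ext fun a => ?_
  rcases lt_or_ge (a : ℕ) e with ha | ha
  · rw [jD_apply h _ a ha]
    have h1 : a = Fin.castLE h ⟨a, ha⟩ := Fin.ext rfl
    have h2 := (Fin.castLE_injective h).swap_apply i j ⟨a, ha⟩
    rw [← h1] at h2
    rw [h2]
    rfl
  · rw [jD_apply_of_le h _ a ha, Equiv.swap_apply_of_ne_of_ne]
    · intro h0
      rw [h0] at ha
      have := i.2
      simp only [Fin.val_castLE] at ha
      omega
    · intro h0
      rw [h0] at ha
      have := j.2
      simp only [Fin.val_castLE] at ha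
      omega

private lemma pJ_swap61 (ρ : Representation ℂ (Perm (Fin n)) V) {e : ℕ} (h : e ≤ n) (J : Finset ℝ)
    (i j : Fin e) (hij : (j : ℕ) = i + 1) (v : V) :
    pJ ρ h J (ρ (jD h (Equiv.swap i j)) v) = ρ (jD h (Equiv.swap i j)) (pJ ρ h J v) := by
  classical
  have h1 : pJ ρ h J ∘ₗ ρ (jD h (Equiv.swap i j)) = ρ (jD h (Equiv.swap i j)) ∘ₗ pJ ρ h J := by
    refine ext_EE ρ h _ _ fun α u hu => ?_
    rw [LinearMap.comp_apply, LinearMap.comp_apply]
    by_cases he : α i = α j
    · have h2 := EE_eq_bot ρ h α i j hij he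
      rw [h2, Submodule.mem_bot] at hu
      rw [hu, map_zero, map_zero, map_zero]
    · have h3 := intertw ρ h α i j hij he u hu
      rw [← jD_swap61 h i j] at h3
      set s := ρ (jD h (Equiv.swap i j)) with hs
      set k : ℂ := (((α i - α j)⁻¹ : ℝ) : ℂ) with hk
      have h4 : s u = (s u - k • u) + k • u := by abel
      have him : Finset.univ.image (α ∘ Equiv.swap i j) = Finset.univ.image α := by
        ext x
        simp only [Finset.mem_image, Finset.mem_univ, true_and, Function.comp_apply]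
        constructor
        · rintro ⟨a, ha⟩
          exact ⟨_, ha⟩
        · rintro ⟨a, ha⟩
          exact ⟨Equiv.swap i j a, by rw [Equiv.swap_apply_self]; exact ha⟩
      have h5 := pJ_spec ρ h J _ _ h3
      have h6 := pJ_spec ρ h J α u hu
      rw [him] at h5
      rw [h4, map_add, map_smul, h5, h6]
      split_ifs with hc
      · abel
      · rw [smul_zero, add_zero, map_zero]
  exact LinearMap.congr_fun h1 v

private lemma pJ_jD61 (ρ : Representation ℂ (Perm (Fin n)) V) {e : ℕ} (h : e ≤ n) (J : Finset ℝ)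
    (y : Perm (Fin e)) (v : V) :
    pJ ρ h J (ρ (jD h y) v) = ρ (jD h y) (pJ ρ h J v) := by
  obtain _ | e := e
  · have hy : y = 1 := Subsingleton.elim _ _
    rw [hy, map_one, map_one]
    rfl
  · have hy : y ∈ Submonoid.closure (Set.range fun i : Fin e => Equiv.swap i.castSucc i.succ) := by
      rw [Equiv.Perm.mclosure_swap_castSucc_succ]
      trivial
    induction hy using Submonoid.closure_induction generalizing v with
    | mem x hx =>
      obtain ⟨i, rfl⟩ := hx
      exact pJ_swap61 ρ h J i.castSucc i.succ (by simp) v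
    | one =>
      rw [map_one, map_one]
      rfl
    | mul a b _ _ ha hb =>
      rw [map_mul, map_mul, Module.End.mul_apply, Module.End.mul_apply, ha, hb]

theorem pJ_comm (ρ : Representation ℂ (Perm (Fin n)) V) {e : ℕ} (h : e ≤ n) (J : Finset ℝ)
    (p : Perm (Fin (n - e)) × Perm (Fin e)) (v : V) :
    pJ ρ h J (ρ (jH h p) v) = ρ (jH h p) (pJ ρ h J v) := by
  classical
  have h1 : ∀ u, pJ ρ h J (ρ (jT h p.1) u) = ρ (jT h p.1) (pJ ρ h J u) := by
    have h2 : pJ ρ h J ∘ₗ ρ (jT h p.1) = ρ (jT h p.1) ∘ₗ pJ ρ h J := by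
      refine ext_EE ρ h _ _ fun α u hu => ?_
      rw [LinearMap.comp_apply, LinearMap.comp_apply, pJ_spec ρ h J α u hu,
        pJ_spec ρ h J α _ (EE_jT ρ h α p.1 u hu)]
      split_ifs with hc
      · rfl
      · rw [map_zero]
    exact fun u => LinearMap.congr_fun h2 u
  rw [jH_apply, map_mul, Module.End.mul_apply, Module.End.mul_apply, h1, pJ_jD61]

private lemma PiE_eq61 (ρ : Representation ℂ (Perm (Fin n)) V) {e : ℕ} (h : e ≤ n) (b : Bil V)
    (v w : V) :
    PiE ρ h b v w = ∑ J ∈ (CC ρ).powersetCard e, b (pJ ρ h J v) (pJ ρ h J w) := by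
  unfold PiE
  rw [LinearMap.sum_apply, LinearMap.sum_apply, LinearMap.sum_apply]
  rfl

theorem PiE_idem (ρ : Representation ℂ (Perm (Fin n)) V) {e : ℕ} (h : e ≤ n) (b : Bil V) :
    PiE ρ h (PiE ρ h b) = PiE ρ h b := by
  refine LinearMap.ext₂ fun v w => ?_
  rw [PiE_eq61, PiE_eq61]
  refine Finset.sum_congr rfl fun J hJ => ?_
  rw [PiE_eq61, Finset.sum_eq_single_of_mem J hJ]
  · rw [pJ_idem, pJ_idem]
  · intro J' _ hne
    rw [pJ_orth ρ h J' J hne, map_zero, LinearMap.zero_apply]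

theorem PiE_comm (ρ : Representation ℂ (Perm (Fin n)) V) {e : ℕ} (h : e ≤ n)
    (p : Perm (Fin (n - e)) × Perm (Fin e)) (b : Bil V) :
    PiE ρ h (bil ρ (jH h p) b) = bil ρ (jH h p) (PiE ρ h b) := by
  refine LinearMap.ext₂ fun v w => ?_
  rw [PiE_eq61, bil_apply, PiE_eq61]
  refine Finset.sum_congr rfl fun J _ => ?_
  rw [bil_apply, ← map_inv, pJ_comm, pJ_comm]

theorem PiE_pe (ρ : Representation ℂ (Perm (Fin n)) V) {e : ℕ} (h : e ≤ n) (ε : ℂ) (b : Bil V) :
    PiE ρ h (pe ε b) = pe ε (PiE ρ h b) := by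
  refine LinearMap.ext₂ fun v w => ?_
  rw [PiE_eq61, pe_apply, PiE_eq61, PiE_eq61, Finset.mul_sum, ← Finset.sum_add_distrib,
    Finset.sum_div]
  exact Finset.sum_congr rfl fun J _ => pe_apply _ _ _ _

open Classical in
theorem PiE_apply (ρ : Representation ℂ (Perm (Fin n)) V) {e : ℕ} (h : e ≤ n) (b : Bil V)
    (α β : Fin e → ℝ) (v w : V) (hv : v ∈ EE ρ h α) (hw : w ∈ EE ρ h β) :
    PiE ρ h b v w = if Finset.univ.image α = Finset.univ.image β ∧
      Finset.univ.image α ∈ (CC ρ).powersetCard e then b v w else 0 := by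
  rw [PiE_eq61]
  have h1 : ∀ J ∈ (CC ρ).powersetCard e, b (pJ ρ h J v) (pJ ρ h J w) =
      if Finset.univ.image α = J ∧ Finset.univ.image β = J then b v w else 0 := by
    intro J _
    rw [pJ_spec ρ h J α v hv, pJ_spec ρ h J β w hw]
    by_cases h2 : Finset.univ.image α = J
    · by_cases h3 : Finset.univ.image β = J
      · rw [if_pos h2, if_pos h3, if_pos ⟨h2, h3⟩]
      · rw [if_neg h3, map_zero, if_neg (fun h0 => h3 h0.2)]
    · rw [if_neg h2, map_zero, LinearMap.zero_apply, if_neg (fun h0 => h2 h0.1)]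
  rw [Finset.sum_congr rfl h1]
  split_ifs with hc
  · rw [Finset.sum_eq_single_of_mem _ hc.2]
    · rw [if_pos ⟨rfl, hc.1.symm⟩]
    · intro J _ hne
      rw [if_neg (fun h0 => hne h0.1.symm)]
  · refine Finset.sum_eq_zero fun J hJ => ?_
    rw [if_neg]
    rintro ⟨h2, h3⟩
    exact hc ⟨h2.trans h3.symm, by rw [h2]; exact hJ⟩

end Pool.Agent.Helper51.TN
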