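import Pool.Agent.Helper51.TN.B2
import Pool.Agent.Helper51.TN.K3
import Pool.Agent.Helper51.TN.S3
import Pool.Agent.Helper51.TN.L1
import Pool.Agent.Helper51.TN.L2

/-!
BLOCK TN-A2 (about 200 lines). `c(V) = dim End_{S_{n-1}} V` is at most the number of corners.

`cV h ρ = (1/(n-1)!) ∑_{x ∈ S_{n-1}} χ(x)²`, `S_{n-1}` = permutations fixing the point `0`.

Proof in words. By `dim_hom` (`H = Perm (Fin (n-1))`, trivial representation on `ℂ`, `σ = bil ρ ∘ jT h`, `P = id`) and `trace_pb` (`bil ρ g = pb (ρ g⁻¹)`): `(n-1)! cV` is `(n-1)!` times the dimension of the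
space `Z` of the forms invariant under `Sym(TT n 1)`. Let `b ∈ Z`. For `v ∈ EE ρ h α`, `w ∈ EE ρ h β` (`α, β : Fin 1 → ℝ`) with `α 0 ≠ β 0`: `b v w = 0` (decompose `v`, `w` by `jm_diag` with `I = TT n 1`;
`form_jm` with `T = TT n 1`; if `b v_c w_{c'} ≠ 0` then `c, c'` agree at the points `≥ 1` and `perm_of_EE` gives equal images `{α 0} = {β 0}`). So (`EE_span`) `b` is determined by its restrictions to `EE ρ h α × EE ρ h α`,
`α 0 ∈ CC ρ` (`EE ≠ ⊥` implies `α 0 ∈ corners`, `mem_corners_of_EE`, `mem_CC`), which are invariant forms of the irreducible representation `repEE ρ h α`; these form a space of dimension at most `1` (Schur: if `b₁ ≠ 0`, then `b₁`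
is nondegenerate on `K = EE`, and `b₂ v w = b₁ (A v) w` with `A` commuting with the representation, so `A` is a scalar). So `dim Z ≤ |CC ρ|` (injective linear map into a product of `|CC ρ|` spaces of dimension `≤ 1`).
-/

set_option autoImplicit false

open Module Equiv Pool.Agent.Helper1.TS Pool.Agent.Helper70.TU

namespace Pool.Agent.Helper51.TN

/-- `dim End_{S_{n-1}} V`, as an average. -/
noncomputable def cV {n : ℕ} {V : Type*} [AddCommGroup V] [Module ℂ V] (h : 1 ≤ n)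
    (ρ : Representation ℂ (Perm (Fin n)) V) : ℝ :=
  (∑ x : Perm (Fin (n - 1)), (ρ.character (jT h x)).re ^ 2) / (n - 1).factorial

section Aux56

variable {n : ℕ} {V : Type*} [AddCommGroup V] [Module ℂ V] [FiniteDimensional ℂ V]

private theorem char_re56 (ρ : Representation ℂ (Perm (Fin n)) V) (g : Perm (Fin n)) :
    ρ.character g = ((ρ.character g).re : ℂ) := by
  have h0 : ρ.character g⁻¹ = ρ.character g := by
    have h1 : IsConj g g⁻¹ := by
      rw [Equiv.Perm.isConj_iff_cycleType_eq, Equiv.Perm.cycleType_inv]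
    obtain ⟨c, hc⟩ := isConj_iff.1 h1
    rw [← hc]
    exact ρ.char_conj g c
  have h1 := char_inv ρ g
  rw [h0] at h1
  exact (Complex.conj_eq_iff_re.1 h1.symm).symm

/-- Schur: two invariant forms on a joint eigenspace are proportional. -/
private theorem schur56 (ρ : Representation ℂ (Perm (Fin n)) V) [ρ.IsIrreducible] {e : ℕ} (h : e ≤ n)
    (α : Fin e → ℝ) (b₁ b₂ : Bil V)
    (h₁ : ∀ x : Perm (Fin (n - e)), ∀ v w, b₁ (ρ (jT h x) v) (ρ (jT h x) w) = b₁ v w)
    (h₂ : ∀ x : Perm (Fin (n - e)), ∀ v w, b₂ (ρ (jT h x) v) (ρ (jT h x) w) = b₂ v w)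
    (v₀ w₀ : V) (hv₀ : v₀ ∈ EE ρ h α) (hw₀ : w₀ ∈ EE ρ h α) (hne : b₁ v₀ w₀ ≠ 0) :
    ∃ c : ℂ, ∀ v ∈ EE ρ h α, ∀ w ∈ EE ρ h α, b₂ v w = c * b₁ v w := by
  set K := EE ρ h α with hK
  -- the radical of an invariant form
  have rad : ∀ b : Bil V, (∀ x : Perm (Fin (n - e)), ∀ v w, b (ρ (jT h x) v) (ρ (jT h x) w) = b v w) →
      ∀ u ∈ K, u ≠ 0 → (∀ w ∈ K, b u w = 0) → ∀ v ∈ K, ∀ w ∈ K, b v w = 0 := by
    intro b hb u hu hu0 hur
    let R : Submodule ℂ V :=
      { carrier := {v | v ∈ K ∧ ∀ w ∈ K, b v w = 0}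
        add_mem' := by
          rintro x y ⟨hx, hx'⟩ ⟨hy, hy'⟩
          refine ⟨K.add_mem hx hy, fun w hw => ?_⟩
          rw [map_add, LinearMap.add_apply, hx' w hw, hy' w hw, add_zero]
        zero_mem' := ⟨K.zero_mem, fun w _ => by rw [map_zero, LinearMap.zero_apply]⟩
        smul_mem' := by
          rintro c x ⟨hx, hx'⟩
          refine ⟨K.smul_mem c hx, fun w hw => ?_⟩
          rw [map_smul, LinearMap.smul_apply, hx' w hw, smul_zero] }
    have hR : ∀ v, v ∈ R ↔ v ∈ K ∧ ∀ w ∈ K, b v w = 0 := fun v => Iff.rfl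
    have hRst : ∀ (x : Perm (Fin (n - e))), ∀ v ∈ R, ρ (jT h x) v ∈ R := by
      intro x v hv
      obtain ⟨hv1, hv2⟩ := (hR v).1 hv
      refine (hR _).2 ⟨EE_jT ρ h α x v hv1, fun w hw => ?_⟩
      have h1 : w = ρ (jT h x) (ρ (jT h x⁻¹) w) := by
        rw [← Module.End.mul_apply, ← map_mul, ← map_mul, mul_inv_cancel, map_one, map_one]
        rfl
      rw [h1, hb]
      exact hv2 _ (EE_jT ρ h α x⁻¹ w hw)
    rcases EE_irr ρ h α R (fun v hv => ((hR v).1 hv).1) hRst with h1 | h1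
    · exfalso
      have h2 : u ∈ R := (hR u).2 ⟨hu, hur⟩
      rw [h1, Submodule.mem_bot] at h2
      exact hu0 h2
    · intro v hv w hw
      have h2 : v ∈ R := by
        rw [h1]
        exact hv
      exact ((hR v).1 h2).2 w hw
  -- the forms as maps to the dual
  let B : Bil V → (K →ₗ[ℂ] Module.Dual ℂ K) := fun b => (b.domRestrict K).compl₂ K.subtype |>.comp LinearMap.id
  have hB : ∀ (b : Bil V) (v w : K), B b v w = b v w := fun b v w => rfl
  have hinj : Function.Injective (B b₁) := by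
    rw [injective_iff_map_eq_zero]
    intro u hu
    by_contra hu0
    have h1 := rad b₁ h₁ u u.2 (fun hh => hu0 (Subtype.ext hh)) (fun w hw => by
      have := congrArg (fun f : Module.Dual ℂ K => f ⟨w, hw⟩) hu
      simpa [hB] using this)
    exact hne (h1 v₀ hv₀ w₀ hw₀)
  let E₁ : K ≃ₗ[ℂ] Module.Dual ℂ K :=
    LinearMap.linearEquivOfInjective (B b₁) hinj Subspace.dual_finrank_eq.symm
  have hE₁ : ∀ v, E₁ v = B b₁ v := fun v => LinearMap.linearEquivOfInjective_apply hinj _ v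
  let A : Module.End ℂ K := E₁.symm.toLinearMap.comp (B b₂)
  have hv₀0 : v₀ ≠ 0 := by
    intro hh
    rw [hh, map_zero, LinearMap.zero_apply] at hne
    exact hne rfl
  have : Nontrivial K := ⟨⟨⟨v₀, hv₀⟩, 0, fun hh => hv₀0 (congrArg Subtype.val hh)⟩⟩
  obtain ⟨c, hc⟩ := Module.End.exists_eigenvalue A
  obtain ⟨u, hu⟩ := hc.exists_hasEigenvector
  have hu1 := hu.apply_eq_smul
  have hu2 : B b₂ u = c • B b₁ u := by
    have h1 : E₁ (A u) = B b₂ u := LinearEquiv.apply_symm_apply E₁ _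
    rw [← h1, hu1, map_smul, hE₁]
  refine ⟨c, fun v hv w hw => ?_⟩
  have h3 : ∀ x : Perm (Fin (n - e)), ∀ v w, (b₂ - c • b₁) (ρ (jT h x) v) (ρ (jT h x) w) =
      (b₂ - c • b₁) v w := by
    intro x v w
    rw [LinearMap.sub_apply, LinearMap.sub_apply, LinearMap.smul_apply, LinearMap.smul_apply, h₁, h₂,
      LinearMap.sub_apply, LinearMap.sub_apply, LinearMap.smul_apply, LinearMap.smul_apply]
  have h4 := rad (b₂ - c • b₁) h3 u u.2 (fun hh => hu.2 (Subtype.ext hh)) (fun w hw => by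
    have := congrArg (fun f : Module.Dual ℂ K => f ⟨w, hw⟩) hu2
    rw [LinearMap.smul_apply, hB, hB] at this
    rw [LinearMap.sub_apply, LinearMap.sub_apply, LinearMap.smul_apply, LinearMap.smul_apply, this, sub_self]) v hv w hw
  rw [LinearMap.sub_apply, LinearMap.sub_apply, LinearMap.smul_apply, LinearMap.smul_apply, smul_eq_mul,
    sub_eq_zero] at h4
  exact h4

/-- An invariant form vanishes between different joint eigenspaces. -/
private theorem orth56 (ρ : Representation ℂ (Perm (Fin n)) V) [ρ.IsIrreducible] (h : 1 ≤ n)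
    (α β : Fin 1 → ℝ) (hαβ : α ≠ β) (b : Bil V)
    (hb : ∀ x : Perm (Fin (n - 1)), ∀ v w, b (ρ (jT h x) v) (ρ (jT h x) w) = b v w)
    (v w : V) (hv : v ∈ EE ρ h α) (hw : w ∈ EE ρ h β) : b v w = 0 := by
  have hst : ∀ γ : Fin 1 → ℝ, ∀ i ∈ (Finset.univ : Finset (Fin n)), ∀ v ∈ EE ρ h γ, jm ρ i v ∈ EE ρ h γ := by
    intro γ i _ v hv j
    rw [jm_comm', hv j, map_smul]
  obtain ⟨s, f, hf, hvf⟩ := jm_diag ρ Finset.univ (EE ρ h α) (hst α) v hv
  obtain ⟨s', f', hf', hwf⟩ := jm_diag ρ Finset.univ (EE ρ h β) (hst β) w hw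
  have hbs : b (∑ c ∈ s, f c) = ∑ c ∈ s, b (f c) := map_sum b f s
  rw [hvf, hwf, hbs, LinearMap.sum_apply]
  refine Finset.sum_eq_zero fun c hc => ?_
  rw [map_sum]
  refine Finset.sum_eq_zero fun c' hc' => ?_
  by_contra hne
  obtain ⟨h1, h2, -⟩ := hf c hc
  obtain ⟨h1', h2', -⟩ := hf' c' hc'
  have hf0 : f c ≠ 0 := by
    intro hh
    rw [hh, map_zero, LinearMap.zero_apply] at hne
    exact hne rfl
  have hf0' : f' c' ≠ 0 := by
    intro hh
    rw [hh, map_zero] at hne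
    exact hne rfl
  have hJ : IsJE ρ c (f c) := ⟨hf0, fun i => h2 i (Finset.mem_univ i)⟩
  have hJ' : IsJE ρ c' (f' c') := ⟨hf0', fun i => h2' i (Finset.mem_univ i)⟩
  have hcα : ∀ i : Fin 1, c (Fin.castLE h i) = α i := by
    intro i
    have h3 := h2 (Fin.castLE h i) (Finset.mem_univ _)
    rw [h1 i, ← sub_eq_zero, ← sub_smul, smul_eq_zero] at h3
    have h4 := h3.resolve_right hf0
    rw [sub_eq_zero] at h4
    exact_mod_cast h4.symm
  have hcβ : ∀ i : Fin 1, c' (Fin.castLE h i) = β i := by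
    intro i
    have h3 := h2' (Fin.castLE h i) (Finset.mem_univ _)
    rw [h1' i, ← sub_eq_zero, ← sub_smul, smul_eq_zero] at h3
    have h4 := h3.resolve_right hf0'
    rw [sub_eq_zero] at h4
    exact_mod_cast h4.symm
  have hbT : ∀ x : Perm (Fin n), x.support ⊆ TT n 1 → ∀ v w, b (ρ x v) (ρ x w) = b v w := by
    intro x hx v w
    obtain ⟨x', rfl⟩ := exists_jT h x hx
    exact hb x' v w
  have hcc : ∀ i : Fin n, 1 ≤ (i : ℕ) → c i = c' i := by
    intro i hi
    have h3 := form_jm ρ (TT n 1) b hbT i (fun j hj => by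
      rw [mem_TT]
      have : (i : ℕ) ≤ (j : ℕ) := hj
      omega) (f c) (f' c')
    rw [h2 i (Finset.mem_univ i), h2' i (Finset.mem_univ i), map_smul, map_smul, LinearMap.smul_apply,
      smul_eq_mul, smul_eq_mul] at h3
    have h4 := mul_right_cancel₀ hne h3
    exact_mod_cast h4
  have h5 := perm_of_EE ρ h α β c c' (f c) (f' c') hJ hJ' hcα hcβ hcc
  apply hαβ
  funext i
  have hi : i = 0 := Subsingleton.elim _ _
  rw [hi]
  have h6 : (Finset.univ.image α) = {α 0} := by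
    ext x
    simp
  have h7 : (Finset.univ.image β) = {β 0} := by
    ext x
    simp
  rw [h6, h7] at h5
  exact Finset.singleton_injective h5

end Aux56

theorem cV_le {n : ℕ} {V : Type*} [AddCommGroup V] [Module ℂ V] [FiniteDimensional ℂ V] (h : 1 ≤ n)
    (ρ : Representation ℂ (Perm (Fin n)) V) [ρ.IsIrreducible] : cV h ρ ≤ (CC ρ).card := by
  classical
  -- the space of the invariant forms
  let τ : Representation ℂ (Perm (Fin (n - 1))) ℂ := 1
  let σ : Representation ℂ (Perm (Fin (n - 1))) (Bil V) := (bil ρ).comp (jT h)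
  have hdim := dim_hom τ σ LinearMap.id (fun x => rfl) (fun _ _ => rfl)
  have hZ : ∀ f ∈ HomP τ σ LinearMap.id, ∀ x : Perm (Fin (n - 1)), ∀ v w,
      f 1 (ρ (jT h x) v) (ρ (jT h x) w) = f 1 v w := by
    intro f hf x v w
    have h1 := (mem_HomP.1 hf).1 x⁻¹ 1
    have h2 : f 1 v w = (σ x⁻¹ (f 1)) v w := by
      rw [← h1]
      rfl
    rw [h2]
    have h3 : (jT h x⁻¹)⁻¹ = jT h x := by rw [← map_inv, inv_inv]
    show _ = bil ρ (jT h x⁻¹) (f 1) v w
    rw [bil_apply, h3]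
  -- test vectors
  have hex : ∀ a : ℝ, ∃ p : V × V, p.1 ∈ EE ρ h (fun _ => a) ∧ p.2 ∈ EE ρ h (fun _ => a) ∧
      ∀ f ∈ HomP τ σ LinearMap.id, f 1 p.1 p.2 = 0 →
        ∀ v ∈ EE ρ h (fun _ => a), ∀ w ∈ EE ρ h (fun _ => a), f 1 v w = 0 := by
    intro a
    by_cases hall : ∀ f ∈ HomP τ σ LinearMap.id,
        ∀ v ∈ EE ρ h (fun _ => a), ∀ w ∈ EE ρ h (fun _ => a), f 1 v w = 0
    · exact ⟨(0, 0), Submodule.zero_mem _, Submodule.zero_mem _, fun f hf _ => hall f hf⟩
    · push Not at hall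
      obtain ⟨f₁, hf₁, v₀, hv₀, w₀, hw₀, hne⟩ := hall
      refine ⟨(v₀, w₀), hv₀, hw₀, fun f hf h0 v hv w hw => ?_⟩
      obtain ⟨c, hc⟩ := schur56 ρ h (fun _ => a) (f₁ 1) (f 1) (hZ f₁ hf₁) (hZ f hf) v₀ w₀ hv₀ hw₀ hne
      have h1 := hc v₀ hv₀ w₀ hw₀
      simp only at h0
      rw [h0] at h1
      have h2 : c = 0 := by
        rcases mul_eq_zero.1 h1.symm with h3 | h3
        · exact h3
        · exact absurd h3 hne
      rw [hc v hv w hw, h2, zero_mul]
  choose p hp1 hp2 hp3 using hex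
  let Φ : HomP τ σ LinearMap.id →ₗ[ℂ] (↥(CC ρ) → ℂ) :=
    { toFun := fun f a => (f : ℂ →ₗ[ℂ] Bil V) 1 (p a).1 (p a).2
      map_add' := fun f g => rfl
      map_smul' := fun c f => rfl }
  have hΦ : Function.Injective Φ := by
    rintro ⟨f₁, hf₁⟩ ⟨f₂, hf₂⟩ he
    obtain ⟨f, hfd⟩ : ∃ f : ℂ →ₗ[ℂ] Bil V, f = f₁ + (-1 : ℂ) • f₂ := ⟨_, rfl⟩
    have hf : f ∈ HomP τ σ LinearMap.id := by
      rw [hfd]
      exact Submodule.add_mem _ hf₁ (Submodule.smul_mem _ _ hf₂)
    have h1 : ∀ a ∈ CC ρ, f 1 (p a).1 (p a).2 = 0 := by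
      intro a ha
      have h3 : f₁ 1 (p a).1 (p a).2 = f₂ 1 (p a).1 (p a).2 := congrFun he ⟨a, ha⟩
      rw [hfd, LinearMap.add_apply, LinearMap.smul_apply, LinearMap.add_apply, LinearMap.add_apply,
        LinearMap.smul_apply, LinearMap.smul_apply, h3, smul_eq_mul]
      ring
    have h2 : f 1 = 0 := by
      refine ext_EE ρ h (f 1) 0 fun α v hv => ?_
      rw [LinearMap.zero_apply]
      refine ext_EE ρ h (f 1 v) 0 fun β w hw => ?_
      rw [LinearMap.zero_apply]
      by_cases hαβ : α = β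
      · subst hαβ
        by_cases hbot : EE ρ h α = ⊥
        · rw [hbot, Submodule.mem_bot] at hv
          rw [hv, map_zero, LinearMap.zero_apply]
        · have h3 := mem_corners_of_EE ρ h Nat.one_pos α hbot
          have h4 : α = fun _ => α ⟨0, Nat.one_pos⟩ := by
            funext i
            rw [Subsingleton.elim i ⟨0, Nat.one_pos⟩]
          rw [h4] at hv hw
          exact hp3 _ f hf (h1 _ ((mem_CC ρ _).2 h3)) v hv w hw
      · exact orth56 ρ h α β hαβ (f 1) (hZ f hf) v w hv hw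
    refine Subtype.ext (LinearMap.ext_ring ?_)
    show f₁ 1 = f₂ 1
    rw [hfd, LinearMap.add_apply, LinearMap.smul_apply, neg_smul, one_smul, ← sub_eq_add_neg, sub_eq_zero] at h2
    exact h2
  have hfin : finrank ℂ (HomP τ σ LinearMap.id) ≤ (CC ρ).card := by
    have h1 := LinearMap.finrank_le_finrank_of_injective hΦ
    rw [Module.finrank_fintype_fun_eq_card, Fintype.card_coe] at h1
    exact h1
  have hsum : ∑ x : Perm (Fin (n - 1)), LinearMap.trace ℂ (Bil V) (σ x ∘ₗ LinearMap.id) * τ.character x⁻¹ =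
      ((∑ x : Perm (Fin (n - 1)), (ρ.character (jT h x)).re ^ 2 : ℝ) : ℂ) := by
    push_cast
    refine Finset.sum_congr rfl fun x _ => ?_
    have h1 : τ.character x⁻¹ = 1 := by
      show LinearMap.trace ℂ ℂ (1 : Module.End ℂ ℂ) = 1
      rw [LinearMap.trace_one, Module.finrank_self, Nat.cast_one]
    have h2 : LinearMap.trace ℂ (Bil V) (σ x ∘ₗ LinearMap.id) = ρ.character (jT h x)⁻¹ ^ 2 :=
      trace_pb (ρ (jT h x)⁻¹)
    rw [h1, h2, mul_one, char_inv, char_re56 ρ (jT h x), Complex.conj_ofReal, Complex.ofReal_re]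
  rw [hsum] at hdim
  have hcard : Fintype.card (Perm (Fin (n - 1))) = (n - 1).factorial := by
    rw [Fintype.card_perm, Fintype.card_fin]
  rw [hcard] at hdim
  have hdim' : ((n - 1).factorial : ℝ) * (finrank ℂ (HomP τ σ LinearMap.id) : ℝ) =
      ∑ x : Perm (Fin (n - 1)), (ρ.character (jT h x)).re ^ 2 := by
    exact_mod_cast hdim
  have hpos : (0 : ℝ) < (n - 1).factorial := by exact_mod_cast Nat.factorial_pos _
  unfold cV
  rw [← hdim', mul_div_cancel_left₀ _ hpos.ne']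
  exact_mod_cast hfin

end Pool.Agent.Helper51.TN
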