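import Pool.Agent.Helper51.TN.A1
import Pool.Agent.Helper51.TN.A2
import Pool.Agent.Helper1.TS.A0

/-!
BLOCK TN-A4 (about 150 lines). A special case of Mackey's formula.

`G = S_n ⊇ G' = S_{n-1}` (fixing the point `0`, `jT h`), `κ` a representation of `G'` (real character, class function). Claim:
`∑_{x, y ∈ G'} χ_κ(x) χ_κ(y) #{g ∈ G : g jT(x) g⁻¹ = jT(y)} = (n-1)!² (1 + cV κ)` for irreducible `κ`, `n ≥ 2`.

Proof in words. Interchange: `∑_g ∑_{(x,y) : g jT(x) g⁻¹ = jT(y)} χ(x) χ(y)`. If `g` fixes `0`, `g = jT g'` (`exists_jT`), the pairs are `(x, g' x g'⁻¹)`, each `χ(x) χ(y) = χ(x)²`, sum `(n-1)!` (`norm_one` of `TN/B3`, or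
`Representation.char_orthonormal`); there are `(n-1)!` such `g`. If `g 0 ≠ 0` let `p = g⁻¹ 0 ≠ 0`: the pairs are those with `jT x` fixing `p` (then `g jT(x) g⁻¹` fixes `0`, so it is `jT y` for a unique `y`), and
`x`, `y` have the same cycle type (`Perm.cycleType_extendDomain`, `Perm.cycleType_conj`), so `χ(y) = χ(x)` (`Equiv.Perm.isConj_iff_cycleType_eq`); sum `∑_{x fixes p'} χ(x)²`, `p'` the point of `Fin (n-1)` corresponding
to `p`; conjugating `p'` to `0`: `= ∑_{x ∈ S_{n-1}, x 0 = 0} χ(x)² = (n-2)! cV κ`. There are `n! - (n-1)! = (n-1) (n-1)!` such `g`. Total `(n-1)!² + (n-1) (n-1)! (n-2)! cV = (n-1)!² (1 + cV)`.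
-/

set_option autoImplicit false

open Module Equiv Pool.Agent.Helper1.TS Pool.Agent.Helper70.TU

namespace Pool.Agent.Helper51.TN

private lemma jT_inj86 {n : ℕ} (h : 1 ≤ n) : Function.Injective (jT h) :=
  Perm.extendDomainHom_injective (eT h)

private lemma fix_iff86 {n : ℕ} (h : 1 ≤ n) (x : Perm (Fin n)) :
    (∃ x' : Perm (Fin (n - 1)), jT h x' = x) ↔ x ⟨0, h⟩ = ⟨0, h⟩ := by
  constructor
  · rintro ⟨x', rfl⟩
    exact jT_apply_of_lt h x' ⟨0, h⟩ Nat.zero_lt_one
  · intro hx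
    refine exists_jT h x fun i hi => ?_
    rw [mem_TT]
    by_contra hlt
    push Not at hlt
    have h1 : i = ⟨0, h⟩ := Fin.ext (show (i : ℕ) = 0 by omega)
    rw [h1] at hi
    exact Perm.mem_support.1 hi hx

private lemma char_eq86 {n : ℕ} {K : Type} [AddCommGroup K] [Module ℂ K]
    (κ : Representation ℂ (Perm (Fin n)) K) {x y : Perm (Fin n)} (h : x.cycleType = y.cycleType) :
    κ.character x = κ.character y := by
  obtain ⟨c, hc⟩ := isConj_iff.1 (Equiv.Perm.isConj_iff_cycleType_eq.2 h)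
  rw [← hc]
  exact (κ.char_conj x c).symm

private lemma jT_cycle86 {n : ℕ} (h : 1 ≤ n) (x : Perm (Fin (n - 1))) :
    (jT h x).cycleType = x.cycleType := Equiv.Perm.cycleType_extendDomain (eT h)

/-- `∑_g F(g p) = (n-1)! ∑_q F(q)`. -/
private lemma sum_perm86 {n : ℕ} (h : 1 ≤ n) (F : Fin n → ℝ) (p : Fin n) :
    ∑ g : Perm (Fin n), F (g p) = ((n - 1).factorial : ℝ) * ∑ q, F q := by
  have h1 : ∀ q : Fin n, ∑ g : Perm (Fin n), F (g q) = ∑ g : Perm (Fin n), F (g p) := by
    intro q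
    refine Fintype.sum_equiv (Equiv.mulRight (Equiv.swap p q)) _ _ fun g => ?_
    rw [Equiv.coe_mulRight, Perm.mul_apply, Equiv.swap_apply_left]
  have h2 : ∑ q : Fin n, ∑ g : Perm (Fin n), F (g q) = (n : ℝ) * ∑ g : Perm (Fin n), F (g p) := by
    rw [Finset.sum_congr rfl fun q _ => h1 q, Finset.sum_const, Finset.card_univ, Fintype.card_fin,
      nsmul_eq_mul]
  have h3 : ∑ q : Fin n, ∑ g : Perm (Fin n), F (g q) = (n.factorial : ℝ) * ∑ q, F q := by
    rw [Finset.sum_comm]
    have h4 : ∀ g : Perm (Fin n), ∑ q, F (g q) = ∑ q, F q := fun g => Equiv.sum_comp g F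
    rw [Finset.sum_congr rfl fun g _ => h4 g, Finset.sum_const, Finset.card_univ, nsmul_eq_mul,
      Fintype.card_perm, Fintype.card_fin]
  have h5 : (n.factorial : ℝ) = n * (n - 1).factorial := by
    exact_mod_cast (Nat.mul_factorial_pred (by omega : n ≠ 0)).symm
  have hn : (n : ℝ) ≠ 0 := by
    have : n ≠ 0 := by omega
    exact_mod_cast this
  refine mul_left_cancel₀ hn ?_
  rw [← h2, h3, h5]
  ring

open Classical in
private lemma sum_fix86 {m : ℕ} (h : 1 ≤ m) {K : Type} [AddCommGroup K] [Module ℂ K]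
    (κ : Representation ℂ (Perm (Fin m)) K) (p : Fin m) :
    ∑ x : Perm (Fin m), (if x p = p then (κ.character x).re ^ 2 else 0) =
      ((m - 1).factorial : ℝ) * cV h κ := by
  have h1 : ∑ x : Perm (Fin m), (if x p = p then (κ.character x).re ^ 2 else 0) =
      ∑ x : Perm (Fin m), (if x ⟨0, h⟩ = ⟨0, h⟩ then (κ.character x).re ^ 2 else 0) := by
    refine Fintype.sum_equiv (MulAut.conj (Equiv.swap p ⟨0, h⟩)).toEquiv _ _ fun x => ?_
    have e1 : (MulAut.conj (Equiv.swap p ⟨0, h⟩)).toEquiv x =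
        Equiv.swap p ⟨0, h⟩ * x * (Equiv.swap p ⟨0, h⟩)⁻¹ := rfl
    rw [e1, κ.char_conj]
    refine if_congr ?_ rfl rfl
    rw [Equiv.swap_inv, Perm.mul_apply, Perm.mul_apply, Equiv.swap_apply_right]
    constructor
    · intro hx
      rw [hx, Equiv.swap_apply_left]
    · intro hx
      have h2 := congrArg (Equiv.swap p ⟨0, h⟩) hx
      rw [Equiv.swap_apply_self, Equiv.swap_apply_right] at h2
      exact h2
  rw [h1, ← Finset.sum_filter]
  have h2 : (Finset.univ.filter (fun x : Perm (Fin m) => x ⟨0, h⟩ = ⟨0, h⟩)) =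
      Finset.univ.map ⟨jT h, jT_inj86 h⟩ := by
    ext x
    rw [Finset.mem_filter, Finset.mem_map, ← fix_iff86 h x]
    constructor
    · rintro ⟨_, x', hx'⟩
      exact ⟨x', Finset.mem_univ _, hx'⟩
    · rintro ⟨x', _, hx'⟩
      exact ⟨Finset.mem_univ _, x', hx'⟩
  rw [h2, Finset.sum_map]
  have h3 : (((m - 1).factorial : ℕ) : ℝ) ≠ 0 := by
    exact_mod_cast Nat.factorial_ne_zero _
  unfold cV
  rw [mul_div_cancel₀ _ h3]
  rfl

open Classical in
private lemma fix_card86 {n : ℕ} (h : 1 ≤ n) (x : Perm (Fin (n - 1))) :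
    ∑ q : Fin n, (if jT h x q = q then (1 : ℝ) else 0) =
      1 + ∑ p : Fin (n - 1), (if x p = p then (1 : ℝ) else 0) := by
  have h0 : (if jT h x ⟨0, h⟩ = ⟨0, h⟩ then (1 : ℝ) else 0) = 1 :=
    if_pos (jT_apply_of_lt h x ⟨0, h⟩ Nat.zero_lt_one)
  rw [← Finset.add_sum_erase Finset.univ _ (Finset.mem_univ (⟨0, h⟩ : Fin n)), h0]
  congr 1
  refine (Finset.sum_bij (fun (p : Fin (n - 1)) _ => ((eT h p : {i : Fin n // 1 ≤ (i : ℕ)}) : Fin n))
    ?_ ?_ ?_ ?_).symm
  · intro p _
    rw [Finset.mem_erase]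
    refine ⟨fun hp => ?_, Finset.mem_univ _⟩
    have h1 := (eT h p).2
    rw [hp] at h1
    exact absurd h1 (by simp)
  · intro p _ q _ hpq
    exact (eT h).injective (Subtype.ext hpq)
  · intro i hi
    have h1 : 1 ≤ (i : ℕ) := by
      by_contra hlt
      push Not at hlt
      exact (Finset.mem_erase.1 hi).1 (Fin.ext (show (i : ℕ) = 0 by omega))
    exact ⟨(eT h).symm ⟨i, h1⟩, Finset.mem_univ _, by rw [Equiv.apply_symm_apply]⟩
  · intro p _
    refine if_congr ?_ rfl rfl
    rw [jT_apply h x _ (eT h p).2]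
    have e1 : (eT h).symm ⟨((eT h p : {i : Fin n // 1 ≤ (i : ℕ)}) : Fin n), (eT h p).2⟩ = p :=
      (eT h).symm_apply_apply p
    rw [e1]
    constructor
    · intro hp
      rw [hp]
    · intro hp
      exact (eT h).injective (Subtype.ext hp)

open Classical in
theorem mackey {n : ℕ} (h : 1 ≤ n) (h' : 1 ≤ n - 1) {K : Type} [AddCommGroup K] [Module ℂ K]
    [FiniteDimensional ℂ K] (κ : Representation ℂ (Perm (Fin (n - 1))) K) [κ.IsIrreducible] :
    ∑ x : Perm (Fin (n - 1)), ∑ y : Perm (Fin (n - 1)), (κ.character x).re * (κ.character y).re *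
      ((Finset.univ.filter (fun g : Perm (Fin n) => g * jT h x * g⁻¹ = jT h y)).card : ℝ) =
      ((n - 1).factorial : ℝ) ^ 2 * (1 + cV h' κ) := by
  -- the inner sums
  have h1 : ∀ x : Perm (Fin (n - 1)), ∑ y : Perm (Fin (n - 1)), (κ.character x).re * (κ.character y).re *
      ((Finset.univ.filter (fun g : Perm (Fin n) => g * jT h x * g⁻¹ = jT h y)).card : ℝ) =
      (κ.character x).re ^ 2 * (((n - 1).factorial : ℝ) *
        ∑ q : Fin n, (if jT h x q = q then (1 : ℝ) else 0)) := by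
    intro x
    have h2 : ∀ y : Perm (Fin (n - 1)), (κ.character x).re * (κ.character y).re *
        ((Finset.univ.filter (fun g : Perm (Fin n) => g * jT h x * g⁻¹ = jT h y)).card : ℝ) =
        ∑ g : Perm (Fin n), (if g * jT h x * g⁻¹ = jT h y then (κ.character x).re ^ 2 else 0) := by
      intro y
      rw [← Finset.sum_boole, Finset.mul_sum]
      refine Finset.sum_congr rfl fun g _ => ?_
      split_ifs with hg
      · have h3 : κ.character y = κ.character x := by
          refine char_eq86 κ ?_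
          rw [← jT_cycle86 h y, ← hg, Equiv.Perm.cycleType_conj, jT_cycle86 h x]
        rw [h3, mul_one, sq]
      · rw [mul_zero]
    rw [Finset.sum_congr rfl fun y _ => h2 y, Finset.sum_comm]
    have h4 : ∀ g : Perm (Fin n),
        ∑ y : Perm (Fin (n - 1)), (if g * jT h x * g⁻¹ = jT h y then (κ.character x).re ^ 2 else 0) =
        (κ.character x).re ^ 2 * (if jT h x (g⁻¹ ⟨0, h⟩) = g⁻¹ ⟨0, h⟩ then (1 : ℝ) else 0) := by
      intro g
      have h5 : jT h x (g⁻¹ ⟨0, h⟩) = g⁻¹ ⟨0, h⟩ ↔ (g * jT h x * g⁻¹) ⟨0, h⟩ = ⟨0, h⟩ := by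
        rw [Perm.mul_apply, Perm.mul_apply]
        constructor
        · intro hx
          rw [hx]
          exact Equiv.apply_symm_apply g _
        · intro hx
          exact (Perm.eq_inv_iff_eq).2 hx
      by_cases hx : jT h x (g⁻¹ ⟨0, h⟩) = g⁻¹ ⟨0, h⟩
      · rw [if_pos hx, mul_one]
        obtain ⟨y, hy⟩ := (fix_iff86 h _).2 (h5.1 hx)
        rw [Finset.sum_eq_single y]
        · rw [if_pos hy.symm]
        · intro z _ hz
          refine if_neg fun hz' => hz (jT_inj86 h ?_)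
          rw [← hz', hy]
        · intro hy'
          exact absurd (Finset.mem_univ _) hy'
      · rw [if_neg hx, mul_zero]
        refine Finset.sum_eq_zero fun y _ => if_neg fun hy => hx (h5.2 ?_)
        exact (fix_iff86 h _).1 ⟨y, hy.symm⟩
    rw [Finset.sum_congr rfl fun g _ => h4 g, ← Finset.mul_sum]
    congr 1
    rw [← sum_perm86 h (fun q => if jT h x q = q then (1 : ℝ) else 0) ⟨0, h⟩]
    exact Fintype.sum_equiv (Equiv.inv (Perm (Fin n))) _ _ fun g => rfl
  rw [Finset.sum_congr rfl fun x _ => h1 x]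
  have h6 : ∀ x : Perm (Fin (n - 1)), (κ.character x).re ^ 2 * (((n - 1).factorial : ℝ) *
        ∑ q : Fin n, (if jT h x q = q then (1 : ℝ) else 0)) =
      ((n - 1).factorial : ℝ) * ((κ.character x).re ^ 2 +
        ∑ p : Fin (n - 1), (if x p = p then (κ.character x).re ^ 2 else 0)) := by
    intro x
    rw [fix_card86 h x]
    have h7 : ∑ p : Fin (n - 1), (if x p = p then (κ.character x).re ^ 2 else 0) =
        (κ.character x).re ^ 2 * ∑ p : Fin (n - 1), (if x p = p then (1 : ℝ) else 0) := by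
      rw [Finset.mul_sum]
      refine Finset.sum_congr rfl fun p _ => ?_
      rw [mul_ite, mul_one, mul_zero]
    rw [h7]
    ring
  rw [Finset.sum_congr rfl fun x _ => h6 x, ← Finset.mul_sum, Finset.sum_add_distrib, Finset.sum_comm]
  have h8 : ∑ x : Perm (Fin (n - 1)), (κ.character x).re ^ 2 = ((n - 1).factorial : ℝ) := by
    classical
    have hc : (Nat.card (Perm (Fin (n - 1))) : ℂ) ≠ 0 := by exact_mod_cast Nat.card_pos.ne'
    have : Invertible (Nat.card (Perm (Fin (n - 1))) : ℂ) := invertibleOfNonzero hc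
    have h := Representation.char_orthonormal κ κ
    rw [if_pos ⟨Representation.Equiv.refl κ⟩] at h
    have h2 : ∑ g : Perm (Fin (n - 1)), κ.character g * κ.character g⁻¹ =
        Nat.card (Perm (Fin (n - 1))) := by
      have h3 := congrArg (fun z => (Nat.card (Perm (Fin (n - 1))) : ℂ) * z) h
      simp only [mul_one] at h3
      rw [← mul_assoc, mul_inv_cancel₀ hc, one_mul] at h3
      exact h3
    rw [Nat.card_eq_fintype_card, Fintype.card_perm, Fintype.card_fin] at h2
    have h4 : ∀ g : Perm (Fin (n - 1)), κ.character g * κ.character g⁻¹ =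
        (((κ.character g).re ^ 2 : ℝ) : ℂ) := by
      intro g
      rw [char_perm_inv, char_perm_real κ g]
      push_cast
      rw [Complex.ofReal_re]
      ring
    rw [Finset.sum_congr rfl fun g _ => h4 g] at h2
    exact_mod_cast h2
  rw [h8, Finset.sum_congr rfl fun p _ => sum_fix86 h' κ p, Finset.sum_const, Finset.card_univ,
    Fintype.card_fin, nsmul_eq_mul]
  have h9 : ((n - 1).factorial : ℝ) = ((n - 1 : ℕ) : ℝ) * ((n - 1 - 1).factorial : ℝ) := by
    exact_mod_cast (Nat.mul_factorial_pred (by omega : n - 1 ≠ 0)).symm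
  have h10 : ((n - 1 : ℕ) : ℝ) * (((n - 1 - 1).factorial : ℝ) * cV h' κ) =
      ((n - 1).factorial : ℝ) * cV h' κ := by
    rw [h9]
    ring
  rw [h10]
  ring

end Pool.Agent.Helper51.TN
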