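import Pool.Agent.Helper51.TN.A3
import Pool.Agent.Helper51.TN.A4
import Pool.Agent.Helper1.TS.MAIN

/-!
BLOCK TN-A5 (about 200 lines). The average of `1/c(V)`.

Proof in words. `G = Perm (Fin n)`, `G' = Perm (Fin (n-1))`, `(κ_j, e_j)` the family of `exists_family2 G'` (irreducible: `irr_of_simple` in `Helper1/TS/MAIN.lean`). All characters of symmetric groups are real
(`char_perm_real`, `char_perm_inv`). `χ_i = character of U i`, `d_i` its dimension (`> 0`).
(a) `m_ij = (1/(n-1)!) ∑_{x ∈ G'} χ_i(jT x) χ'_j(x)` is a natural number: `dim_hom` (`TN/L1`) with `P = id`.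
(b) `∑_j m_ij = d_i`: `∑_j χ'_j(x) = (n-1)!` for `x = 1`, else `0`.
(c) `∑_j m_ij²/e_j = cV (U i)`: `= (1/(n-1)!²) ∑_{x,y} χ_i(jT x) χ_i(jT y) #{g' ∈ G' : g' x g'⁻¹ = y} = (1/(n-1)!²) ∑_x ∑_{g'} χ_i(jT x) χ_i(jT (g' x g'⁻¹)) = (1/(n-1)!) ∑_x χ_i(jT x)²`.
(d) Cauchy-Schwarz (`Finset.sum_mul_sq_le_sq_mul_sq` or `div_add_div_same`-style): `d_i² = (∑_{j : m_ij ≠ 0} (m_ij/√e_j) √e_j)² ≤ cV (U i) ∑_{j : m_ij ≠ 0} e_j ≤ cV (U i) ∑_j e_j m_ij²` (`m_ij ≥ 1` if it is not `0`).
    In particular `cV (U i) > 0`, and `d_i / cV (U i) ≤ ∑_j e_j m_ij²/d_i`.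
(e) `∑_i m_ij²/d_i = (1/(n-1)!²) ∑_{x,y ∈ G'} χ'_j(x) χ'_j(y) ∑_i χ_i(jT x) χ_i(jT y)/d_i = 1 + cV κ_j` by `horth` and `mackey`, and `cV κ_j ≤ |CC κ_j| ≤ e √(n-1) ≤ e √n` (`cV_le`, `card_CC_le`).
(f) `∑_i d_i/cV (U i) ≤ ∑_j e_j (1 + e √n) = (n-1)! (1 + e √n)`.
-/

set_option autoImplicit false

open Module Equiv CategoryTheory Pool.Agent.Helper1.TS Pool.Agent.Helper70.TU

namespace Pool.Agent.Helper51.TN

private lemma avg_core {N M : ℕ} (d c : Fin N → ℝ) (e : Fin M → ℝ) (m : Fin N → Fin M → ℕ) (B : ℝ)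
    (hd : ∀ i, 0 < d i) (he : ∀ j, 0 < e j)
    (hb : ∀ i, ∑ j, (m i j : ℝ) = d i) (hc : ∀ i, ∑ j, (m i j : ℝ) ^ 2 / e j = c i)
    (hf : ∀ j, ∑ i, (m i j : ℝ) ^ 2 / d i ≤ B) :
    ∑ i, d i / c i ≤ (∑ j, e j) * B := by
  have h1 : ∀ i, d i ^ 2 ≤ c i * ∑ j, e j * (m i j : ℝ) ^ 2 := by
    intro i
    rw [← hb i, ← hc i]
    refine Finset.sum_sq_le_sum_mul_sum_of_sq_le_mul Finset.univ
      (fun j _ => div_nonneg (sq_nonneg _) (he j).le)
      (fun j _ => mul_nonneg (he j).le (sq_nonneg _)) (fun j _ => ?_)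
    have h2 : (m i j : ℝ) ^ 2 / e j * (e j * (m i j : ℝ) ^ 2) = (m i j : ℝ) ^ 2 * (m i j : ℝ) ^ 2 := by
      have := (he j).ne'
      field_simp
    rw [h2]
    rcases Nat.eq_zero_or_pos (m i j) with h0 | h0
    · rw [h0]; simp
    · have h3 : (1 : ℝ) ≤ (m i j : ℝ) ^ 2 := by
        have : (1 : ℝ) ≤ (m i j : ℝ) := by exact_mod_cast h0
        nlinarith
      nlinarith
  have h2 : ∀ i, 0 < c i := by
    intro i
    have h3 : 0 ≤ c i := by
      rw [← hc i]
      exact Finset.sum_nonneg fun j _ => div_nonneg (sq_nonneg _) (he j).le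
    rcases h3.eq_or_lt with h4 | h4
    · exfalso
      have h5 := h1 i
      rw [← h4, zero_mul] at h5
      have := hd i
      nlinarith
    · exact h4
  have h3 : ∀ i, d i / c i ≤ ∑ j, e j * ((m i j : ℝ) ^ 2 / d i) := by
    intro i
    rw [div_le_iff₀ (h2 i)]
    have h4 : ∑ j, e j * ((m i j : ℝ) ^ 2 / d i) = (∑ j, e j * (m i j : ℝ) ^ 2) / d i := by
      rw [Finset.sum_div]
      refine Finset.sum_congr rfl fun j _ => ?_
      rw [mul_div_assoc]
    rw [h4, div_mul_eq_mul_div, le_div_iff₀ (hd i)]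
    have := h1 i
    nlinarith
  calc ∑ i, d i / c i ≤ ∑ i, ∑ j, e j * ((m i j : ℝ) ^ 2 / d i) := Finset.sum_le_sum fun i _ => h3 i
    _ = ∑ j, e j * ∑ i, (m i j : ℝ) ^ 2 / d i := by
        rw [Finset.sum_comm]
        refine Finset.sum_congr rfl fun j _ => ?_
        rw [Finset.mul_sum]
    _ ≤ ∑ j, e j * B := Finset.sum_le_sum fun j _ => mul_le_mul_of_nonneg_left (hf j) (he j).le
    _ = (∑ j, e j) * B := by rw [Finset.sum_mul]

open Classical in
/-- real version of the second orthogonality relation -/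
private lemma real_orth {m N : ℕ} (U : Fin N → FDRep ℂ (Perm (Fin m)))
    (horth : ∀ x y : Perm (Fin m), ∑ i, (U i).character x * (U i).character y⁻¹ / finrank ℂ (U i) =
        ((Finset.univ.filter (fun g : Perm (Fin m) => g * x * g⁻¹ = y)).card : ℂ))
    (x y : Perm (Fin m)) :
    ∑ i, (Representation.character (U i).ρ x).re * (Representation.character (U i).ρ y).re / (finrank ℂ (U i) : ℝ) =
      ((Finset.univ.filter (fun g : Perm (Fin m) => g * x * g⁻¹ = y)).card : ℝ) := by
  have h := horth x y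
  have h2 : ∀ i, (U i).character x * (U i).character y⁻¹ / (finrank ℂ (U i) : ℂ) =
      (((Representation.character (U i).ρ x).re * (Representation.character (U i).ρ y).re / (finrank ℂ (U i) : ℝ) : ℝ) : ℂ) := by
    intro i
    have e1 : (U i).character x = ((Representation.character (U i).ρ x).re : ℂ) := char_perm_real (U i).ρ x
    have e2 : (U i).character y⁻¹ = ((Representation.character (U i).ρ y).re : ℂ) :=
      (char_perm_inv (U i).ρ y).trans (char_perm_real (U i).ρ y)
    rw [e1, e2]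
    push_cast
    rfl
  rw [Finset.sum_congr rfl fun i _ => h2 i, ← Complex.ofReal_sum] at h
  exact_mod_cast h

/-- the multiplicities -/
private lemma exists_mult {n : ℕ} (h : 1 ≤ n) {X K : Type} [AddCommGroup X] [Module ℂ X]
    [FiniteDimensional ℂ X] [AddCommGroup K] [Module ℂ K] [FiniteDimensional ℂ K]
    (σ : Representation ℂ (Perm (Fin n)) X) (κ : Representation ℂ (Perm (Fin (n - 1))) K) :
    ∃ m : ℕ, ((n - 1).factorial : ℝ) * m =
      ∑ x : Perm (Fin (n - 1)), (σ.character (jT h x)).re * (κ.character x).re := by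
  refine ⟨finrank ℂ (HomP κ (σ.comp (jT h)) LinearMap.id), ?_⟩
  have h1 := dim_hom κ (σ.comp (jT h)) LinearMap.id (fun _ => rfl) (fun _ _ => rfl)
  have h2 : ∀ x : Perm (Fin (n - 1)),
      LinearMap.trace ℂ X ((σ.comp (jT h)) x ∘ₗ LinearMap.id) * κ.character x⁻¹ =
        (((σ.character (jT h x)).re * (κ.character x).re : ℝ) : ℂ) := by
    intro x
    have e1 : LinearMap.trace ℂ X ((σ.comp (jT h)) x ∘ₗ LinearMap.id) = σ.character (jT h x) := rfl
    rw [e1, char_perm_inv, char_perm_real σ (jT h x), char_perm_real κ x]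
    push_cast
    rfl
  rw [Finset.sum_congr rfl fun x _ => h2 x, ← Complex.ofReal_sum, Fintype.card_perm, Fintype.card_fin] at h1
  exact_mod_cast h1

open Classical in
theorem avg_inv_cV {n : ℕ} (h : 2 ≤ n) {N : ℕ} (U : Fin N → FDRep ℂ (Perm (Fin n)))
    (hU : ∀ i, Simple (U i))
    (horth : ∀ x y : Perm (Fin n), ∑ i, (U i).character x * (U i).character y⁻¹ / finrank ℂ (U i) =
        ((Finset.univ.filter (fun g : Perm (Fin n) => g * x * g⁻¹ = y)).card : ℂ)) :
    ∑ i, (finrank ℂ (U i) : ℝ) / cV (by omega : 1 ≤ n) (U i).ρ ≤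
      (n - 1).factorial * (1 + Real.exp 1 * Real.sqrt n) := by
  have h1 : 1 ≤ n := by omega
  have h1' : 1 ≤ n - 1 := by omega
  obtain ⟨M, κ, hκ, hκsum, hκorth, hκone⟩ := exists_family2 (Perm (Fin (n - 1)))
  have hF : (0 : ℝ) < ((n - 1).factorial : ℝ) := by exact_mod_cast Nat.factorial_pos _
  choose m hm using fun i j => exists_mult h1 (U i).ρ (κ j).ρ
  -- (b)
  have hb : ∀ i, ∑ j, (m i j : ℝ) = (finrank ℂ (U i) : ℝ) := by
    intro i
    have h2 : ((n - 1).factorial : ℝ) * ∑ j, (m i j : ℝ) = (n - 1).factorial * (finrank ℂ (U i) : ℝ) := by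
      rw [Finset.mul_sum, Finset.sum_congr rfl fun j _ => hm i j, Finset.sum_comm]
      have h3 : ∀ x : Perm (Fin (n - 1)), ∑ j, (Representation.character (U i).ρ (jT h1 x)).re * (Representation.character (κ j).ρ x).re =
          if x = 1 then (n - 1).factorial * (finrank ℂ (U i) : ℝ) else 0 := by
        intro x
        rw [← Finset.mul_sum]
        have h4 := congrArg Complex.re (hκone x)
        have h5 : ∑ j, (Representation.character (κ j).ρ x).re = if x = 1 then ((n - 1).factorial : ℝ) else 0 := by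
          have h6 : (∑ j, (κ j).character x).re = ∑ j, (Representation.character (κ j).ρ x).re := by
            rw [Complex.re_sum]
            rfl
          rw [← h6, h4]
          split_ifs with hx
          · rw [Fintype.card_perm, Fintype.card_fin, Complex.natCast_re]
          · rw [Complex.zero_re]
        rw [h5]
        split_ifs with hx
        · rw [hx, map_one, Representation.char_one, Complex.natCast_re, mul_comm]
        · rw [mul_zero]
      rw [Finset.sum_congr rfl fun x _ => h3 x, Finset.sum_ite_eq' Finset.univ, if_pos (Finset.mem_univ _)]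
    exact mul_left_cancel₀ hF.ne' h2
  -- (c)
  have hc : ∀ i, ∑ j, (m i j : ℝ) ^ 2 / (finrank ℂ (κ j) : ℝ) = cV h1 (U i).ρ := by
    intro i
    have h2 : ((n - 1).factorial : ℝ) ^ 2 * ∑ j, (m i j : ℝ) ^ 2 / (finrank ℂ (κ j) : ℝ) =
        ((n - 1).factorial : ℝ) ^ 2 * cV h1 (U i).ρ := by
      have h3 : ∀ j, ((n - 1).factorial : ℝ) ^ 2 * ((m i j : ℝ) ^ 2 / (finrank ℂ (κ j) : ℝ)) =
          ∑ x : Perm (Fin (n - 1)), ∑ y : Perm (Fin (n - 1)),
            (Representation.character (U i).ρ (jT h1 x)).re * (Representation.character (U i).ρ (jT h1 y)).re *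
              ((Representation.character (κ j).ρ x).re * (Representation.character (κ j).ρ y).re / (finrank ℂ (κ j) : ℝ)) := by
        intro j
        have h4 : ((n - 1).factorial : ℝ) ^ 2 * ((m i j : ℝ) ^ 2 / (finrank ℂ (κ j) : ℝ)) =
            ((n - 1).factorial * (m i j : ℝ)) * ((n - 1).factorial * (m i j : ℝ)) / (finrank ℂ (κ j) : ℝ) := by
          ring
        rw [h4, hm i j, Finset.sum_mul_sum, Finset.sum_div]
        refine Finset.sum_congr rfl fun x _ => ?_
        rw [Finset.sum_div]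
        refine Finset.sum_congr rfl fun y _ => ?_
        ring
      rw [Finset.mul_sum, Finset.sum_congr rfl fun j _ => h3 j, Finset.sum_comm]
      have h5 : ∀ x : Perm (Fin (n - 1)), ∑ j, ∑ y : Perm (Fin (n - 1)),
            (Representation.character (U i).ρ (jT h1 x)).re * (Representation.character (U i).ρ (jT h1 y)).re *
              ((Representation.character (κ j).ρ x).re * (Representation.character (κ j).ρ y).re / (finrank ℂ (κ j) : ℝ)) =
          (n - 1).factorial * (Representation.character (U i).ρ (jT h1 x)).re ^ 2 := by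
        intro x
        rw [Finset.sum_comm]
        have h6 : ∀ y : Perm (Fin (n - 1)), ∑ j,
            (Representation.character (U i).ρ (jT h1 x)).re * (Representation.character (U i).ρ (jT h1 y)).re *
              ((Representation.character (κ j).ρ x).re * (Representation.character (κ j).ρ y).re / (finrank ℂ (κ j) : ℝ)) =
            ((Finset.univ.filter (fun g : Perm (Fin (n - 1)) => g * x * g⁻¹ = y)).card : ℝ) *
              (Representation.character (U i).ρ (jT h1 x)).re ^ 2 := by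
          intro y
          rw [← Finset.mul_sum, real_orth κ (fun x y => by convert hκorth x y) x y]
          rcases (Finset.univ.filter (fun g : Perm (Fin (n - 1)) => g * x * g⁻¹ = y)).eq_empty_or_nonempty with
            h0 | ⟨g, hg⟩
          · rw [h0, Finset.card_empty, Nat.cast_zero, mul_zero, zero_mul]
          · have hg' := (Finset.mem_filter.1 hg).2
            have h7 : Representation.character (U i).ρ (jT h1 y) = Representation.character (U i).ρ (jT h1 x) := by
              rw [← hg', map_mul, map_mul, map_inv, Representation.char_conj]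
            rw [h7]
            ring
        rw [Finset.sum_congr rfl fun y _ => h6 y, ← Finset.sum_mul]
        congr 1
        rw [← Nat.cast_sum]
        congr 1
        have h8 := Finset.card_eq_sum_card_fiberwise (s := (Finset.univ : Finset (Perm (Fin (n - 1)))))
          (t := (Finset.univ : Finset (Perm (Fin (n - 1))))) (f := fun g => g * x * g⁻¹)
          (fun g _ => Finset.mem_coe.2 (Finset.mem_univ _))
        rw [← h8, Finset.card_univ, Fintype.card_perm, Fintype.card_fin]
      rw [Finset.sum_congr rfl fun x _ => h5 x, ← Finset.mul_sum]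
      unfold cV
      field_simp
    exact mul_left_cancel₀ (pow_ne_zero 2 hF.ne') h2
  -- (e)
  have hf : ∀ j, ∑ i, (m i j : ℝ) ^ 2 / (finrank ℂ (U i) : ℝ) ≤ 1 + Real.exp 1 * Real.sqrt n := by
    intro j
    have hirr := irr_of_simple (κ j) (hκ j)
    have h2 : ((n - 1).factorial : ℝ) ^ 2 * ∑ i, (m i j : ℝ) ^ 2 / (finrank ℂ (U i) : ℝ) =
        ((n - 1).factorial : ℝ) ^ 2 * (1 + cV h1' (κ j).ρ) := by
      rw [← mackey h1 h1' (κ j).ρ]
      have h3 : ∀ i, ((n - 1).factorial : ℝ) ^ 2 * ((m i j : ℝ) ^ 2 / (finrank ℂ (U i) : ℝ)) =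
          ∑ x : Perm (Fin (n - 1)), ∑ y : Perm (Fin (n - 1)),
            (Representation.character (κ j).ρ x).re * (Representation.character (κ j).ρ y).re *
              ((Representation.character (U i).ρ (jT h1 x)).re * (Representation.character (U i).ρ (jT h1 y)).re / (finrank ℂ (U i) : ℝ)) := by
        intro i
        have h4 : ((n - 1).factorial : ℝ) ^ 2 * ((m i j : ℝ) ^ 2 / (finrank ℂ (U i) : ℝ)) =
            ((n - 1).factorial * (m i j : ℝ)) * ((n - 1).factorial * (m i j : ℝ)) / (finrank ℂ (U i) : ℝ) := by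
          ring
        rw [h4, hm i j, Finset.sum_mul_sum, Finset.sum_div]
        refine Finset.sum_congr rfl fun x _ => ?_
        rw [Finset.sum_div]
        refine Finset.sum_congr rfl fun y _ => ?_
        ring
      rw [Finset.mul_sum, Finset.sum_congr rfl fun i _ => h3 i, Finset.sum_comm]
      refine Finset.sum_congr rfl fun x _ => ?_
      rw [Finset.sum_comm]
      refine Finset.sum_congr rfl fun y _ => ?_
      rw [← Finset.mul_sum, real_orth U horth (jT h1 x) (jT h1 y)]
    have h3 := mul_left_cancel₀ (pow_ne_zero 2 hF.ne') h2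
    rw [h3]
    have h4 := cV_le h1' (κ j).ρ
    have h5 := card_CC_le (κ j).ρ
    have h6 : Real.sqrt ((n - 1 : ℕ) : ℝ) ≤ Real.sqrt n := Real.sqrt_le_sqrt (by exact_mod_cast Nat.sub_le n 1)
    have h7 : Real.exp 1 * Real.sqrt ((n - 1 : ℕ) : ℝ) ≤ Real.exp 1 * Real.sqrt n :=
      mul_le_mul_of_nonneg_left h6 (Real.exp_pos 1).le
    linarith
  have hfin := avg_core (fun i => (finrank ℂ (U i) : ℝ)) (fun i => cV h1 (U i).ρ)
    (fun j => (finrank ℂ (κ j) : ℝ)) m (1 + Real.exp 1 * Real.sqrt n)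
    (fun i => by exact_mod_cast finrank_pos_of_irr (U i) (hU i))
    (fun j => by exact_mod_cast finrank_pos_of_irr (κ j) (hκ j)) hb hc hf
  have hs : ∑ j, (finrank ℂ (κ j) : ℝ) = (n - 1).factorial := by
    rw [← Nat.cast_sum, hκsum, Fintype.card_perm, Fintype.card_fin]
  rw [hs] at hfin
  exact hfin

end Pool.Agent.Helper51.TN
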