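import Pool.Agent.Helper51.TN.L4

/-!
BLOCK TN-L6 (about 80 lines). `rhoE` is irreducible.

Proof in words. `E = inv θ (TT n d)` is not `0` (`hd.2.1`). Let `F' ≤ E` be a nonzero subrepresentation of `rhoE θ h`; as a submodule `F` of `W` (map of the
inclusion) it is contained in `New θ d` (`inv_le_New`) and stable under `θ (jD h y)`, so by `av_new` `avT θ T (θ g v) ∈ F` for all `g` and `v ∈ F`. The span of
all `θ g v`, `v ∈ F`, is a nonzero `θ`-stable subspace of `W`, hence `W`. So `avT θ T w ∈ F` for all `w`, in particular (`avT_of_mem`) `E ≤ F`.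
(For the definition of `IsIrreducible` and a proof from every subrepresentation is `⊥` or `⊤` see `reg_decomp` in `Helper1/TS/REG.lean`.)
-/

set_option autoImplicit false

open Module Equiv Pool.Agent.Helper1.TS Pool.Agent.Helper70.TU

namespace Pool.Agent.Helper51.TN

variable {n : ℕ} {W : Type*} [AddCommGroup W] [Module ℂ W] [FiniteDimensional ℂ W]

theorem rhoE_irr (θ : Representation ℂ (Perm (Fin n)) W) [θ.IsIrreducible] {d : ℕ}
    (hd : IsDepth θ d) : (rhoE θ hd.1).IsIrreducible := by
  classical
  have hne : (⊥ : Subrepresentation (rhoE θ hd.1)) ≠ ⊤ := by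
    intro h
    have h1 : (⊥ : Submodule ℂ (inv θ (TT n d))) = ⊤ := congrArg Subrepresentation.toSubmodule h
    apply hd.2.1
    rw [eq_bot_iff]
    intro v hv
    have h2 : (⟨v, hv⟩ : inv θ (TT n d)) ∈ (⊥ : Submodule ℂ (inv θ (TT n d))) := by
      rw [h1]
      exact Submodule.mem_top
    rw [Submodule.mem_bot] at h2
    rw [Submodule.mem_bot]
    exact congrArg Subtype.val h2
  refine { exists_pair_ne := ⟨⊥, ⊤, hne⟩, eq_bot_or_eq_top := fun F' => ?_ }
  set F : Submodule ℂ W := F'.toSubmodule.map (inv θ (TT n d)).subtype with hFdef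
  have hmem : ∀ v : W, v ∈ F ↔ ∃ h : v ∈ inv θ (TT n d), (⟨v, h⟩ : inv θ (TT n d)) ∈ F'.toSubmodule := by
    intro v
    rw [hFdef, Submodule.mem_map]
    constructor
    · rintro ⟨w, hw, rfl⟩
      exact ⟨w.2, hw⟩
    · rintro ⟨h, hv⟩
      exact ⟨⟨v, h⟩, hv, rfl⟩
  have hFN : F ≤ New θ d := fun v hv => inv_le_New θ hd ((hmem v).1 hv).1
  have hst : ∀ (y : Perm (Fin d)), ∀ z ∈ F, θ (jD hd.1 y) z ∈ F := by
    intro y z hz
    obtain ⟨h, hz'⟩ := (hmem z).1 hz
    exact (hmem _).2 ⟨rhoE_mem θ hd.1 y z h, F'.apply_mem_toSubmodule y hz'⟩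
  have hav := av_new θ hd.1 F hFN hst
  by_cases hF0 : F'.toSubmodule = ⊥
  · left
    exact Subrepresentation.toSubmodule_injective hF0
  · right
    obtain ⟨v, hv, hv0⟩ := (Submodule.ne_bot_iff _).1 hF0
    have hvF : (v : W) ∈ F := (hmem _).2 ⟨v.2, hv⟩
    let M : Subrepresentation θ :=
      { toSubmodule :=
          { carrier := {w | ∀ g : Perm (Fin n), avT θ (TT n d) (θ g w) ∈ F}
            add_mem' := by
              intro a b ha hb g
              rw [map_add, map_add]
              exact Submodule.add_mem _ (ha g) (hb g)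
            zero_mem' := by
              intro g
              rw [map_zero, map_zero]
              exact Submodule.zero_mem _
            smul_mem' := by
              intro c a ha g
              rw [map_smul, map_smul]
              exact Submodule.smul_mem _ c (ha g) }
        apply_mem_toSubmodule := by
          intro h w hw g
          have h1 : θ g (θ h w) = θ (g * h) w := by
            rw [map_mul, Module.End.mul_apply]
          rw [h1]
          exact hw (g * h) }
    have hMmem : ∀ w : W, w ∈ M.toSubmodule ↔ ∀ g : Perm (Fin n), avT θ (TT n d) (θ g w) ∈ F :=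
      fun w => Iff.rfl
    have hvM : (v : W) ∈ M.toSubmodule := (hMmem _).2 fun g => hav g v hvF
    have hM : M = ⊤ := by
      rcases IsSimpleOrder.eq_bot_or_eq_top M with h | h
      · exfalso
        have h1 : M.toSubmodule = ⊥ := congrArg Subrepresentation.toSubmodule h
        rw [h1, Submodule.mem_bot] at hvM
        exact hv0 (Subtype.ext hvM)
      · exact h
    have hMt : M.toSubmodule = ⊤ := congrArg Subrepresentation.toSubmodule hM
    apply Subrepresentation.toSubmodule_injective
    show F'.toSubmodule = ⊤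
    rw [eq_top_iff]
    intro e _
    have h1 : (e : W) ∈ M.toSubmodule := by
      rw [hMt]
      exact Submodule.mem_top
    have h2 := (hMmem _).1 h1 1
    rw [map_one, Module.End.one_apply, avT_of_mem θ _ _ e.2] at h2
    obtain ⟨h3, h4⟩ := (hmem _).1 h2
    exact h4

end Pool.Agent.Helper51.TN
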