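import Pool.Agent.Helper51.TN.L3

/-!
BLOCK TN-L7 (about 150 lines). New maps from a dimension inequality.

Proof in words. `d = e + 1`, `T = TT n (e+1)`, `a₀ = ⟨e, h⟩`, `Q = qq σ T a₀`. The map `f ↦ Q ∘ f` sends `HomE h ρ σ P` to
`HomE h' (ρ.comp (jD _)) σ P'`: for `f ∈ HomE h ρ σ P` the element `(x, 1)` gives `f v = σ (jT h x) (f v)`, so `f v ∈ inv σ T` (`mem_inv_iff`); then
`Q (f v) ∈ inv σ (insert a₀ T) = inv σ (TT n e)` (`qq_mem`, `TT_insert`), i.e. it is fixed by all `σ (jT h' x)`; for `y : Perm (Fin e)`: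
`jD h (jD _ y) = jD h' y` and it commutes with all `swap a₀ t`, `t ≥ e` (it fixes the points `≥ e`), so `Q (f (ρ (jD _ y) v)) = σ (jD h' y) (Q (f v))`;
`P' (Q (f v)) = Q (f v)` by `hQ`. Since the dimension of the source is larger there is `f ≠ 0` in `HomE h ρ σ P` with `Q ∘ f = 0`
(`LinearMap.ker_ne_bot_of_finrank_lt`).
For this `f` and `a < e + 1` let `u = jD h (swap a e)` (`= swap a a₀`): `qq σ T a = σ u ∘ Q ∘ σ u⁻¹` on `inv σ T` (`u (swap a₀ t) u⁻¹ = swap a t` for `t ∈ T`; the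
terms `y = a` and `y = a₀` are the identity), so `qq σ T a (f v) = σ u (Q (σ u⁻¹ (f v))) = σ u (Q (f (ρ _ v))) = 0`.
-/

set_option autoImplicit false

open Module Equiv Pool.Agent.Helper1.TS Pool.Agent.Helper70.TU

namespace Pool.Agent.Helper51.TN

variable {n : ℕ} {E X : Type*} [AddCommGroup E] [Module ℂ E] [FiniteDimensional ℂ E]
  [AddCommGroup X] [Module ℂ X] [FiniteDimensional ℂ X]

omit [FiniteDimensional ℂ X] in
private theorem qq_conj93 (σ : Representation ℂ (Perm (Fin n)) X) {T : Finset (Fin n)} {a b : Fin n} (ha : a ∉ T)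
    (hb : b ∉ T) (u : Perm (Fin n)) (hu : ∀ t ∈ T, u t = t) (hub : u b = a) (z : X) :
    qq σ T a (σ u z) = σ u (qq σ T b z) := by
  have h1 : ∀ (c : Fin n) (w : X), c ∉ T → qq σ T c w = w + ∑ t ∈ T, σ (Equiv.swap c t) w := by
    intro c w hc
    unfold qq
    rw [Finset.sum_insert hc, LinearMap.add_apply, LinearMap.sum_apply, Equiv.swap_self]
    rw [show (Equiv.refl (Fin n) : Perm (Fin n)) = 1 from rfl, map_one]
    rfl
  rw [h1 a _ ha, h1 b _ hb, map_add, map_sum]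
  congr 1
  refine Finset.sum_congr rfl fun t ht => ?_
  rw [← Module.End.mul_apply, ← Module.End.mul_apply, ← map_mul, ← map_mul, Equiv.mul_swap_eq_swap_mul, hub, hu t ht]

omit [FiniteDimensional ℂ E] [FiniteDimensional ℂ X] in
private theorem homE_facts93 {e : ℕ} {h : e ≤ n} {ρ : Representation ℂ (Perm (Fin e)) E}
    {σ : Representation ℂ (Perm (Fin n)) X} {P : X →ₗ[ℂ] X} {f : E →ₗ[ℂ] X} (hf : f ∈ HomE h ρ σ P) :
    (∀ v, f v ∈ inv σ (TT n e)) ∧ ∀ (y : Perm (Fin e)) (v : E), f (ρ y v) = σ (jD h y) (f v) := by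
  refine ⟨fun v => (mem_inv_iff σ h _).2 fun x => ?_, fun y v => ?_⟩
  · have h1 := hf.1 (x, 1) v
    have h2 : (ρ.comp (MonoidHom.snd (Perm (Fin (n - e))) (Perm (Fin e)))) (x, 1) = 1 := by
      rw [MonoidHom.comp_apply]
      exact map_one ρ
    have h3 : (σ.comp (jH h)) (x, 1) = σ (jT h x) := by
      rw [MonoidHom.comp_apply, jH_apply]
      simp
    rw [h2, h3] at h1
    exact h1.symm
  · have h1 := hf.1 (1, y) v
    have h2 : (ρ.comp (MonoidHom.snd (Perm (Fin (n - e))) (Perm (Fin e)))) (1, y) = ρ y := rfl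
    have h3 : (σ.comp (jH h)) (1, y) = σ (jD h y) := by
      rw [MonoidHom.comp_apply, jH_apply]
      simp
    rw [h2, h3] at h1
    exact h1

private theorem jD_jD93 {e : ℕ} (h : e + 1 ≤ n) (y : Perm (Fin e)) :
    jD h (jD (Nat.le_succ e) y) = jD ((Nat.le_succ e).trans h) y := by
  refine Equiv.ext fun i => ?_
  rcases lt_or_ge (i : ℕ) e with hi | hi
  · rw [jD_apply h _ i (by omega), jD_apply _ _ i hi]
    refine Fin.ext ?_
    simp only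
    rw [jD_apply (Nat.le_succ e) y ⟨(i : ℕ), by omega⟩ hi]
  · rw [jD_apply_of_le _ _ i hi]
    rcases lt_or_ge (i : ℕ) (e + 1) with hi' | hi'
    · rw [jD_apply h _ i hi']
      refine Fin.ext ?_
      simp only
      rw [jD_apply_of_le (Nat.le_succ e) y ⟨(i : ℕ), hi'⟩ hi]
    · rw [jD_apply_of_le _ _ i hi']

omit [FiniteDimensional ℂ E] [FiniteDimensional ℂ X] in
private theorem maps93 {e : ℕ} (h : e + 1 ≤ n) (ρ : Representation ℂ (Perm (Fin (e + 1))) E)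
    (σ : Representation ℂ (Perm (Fin n)) X) (P P' : X →ₗ[ℂ] X)
    (hQ : ∀ z ∈ inv σ (TT n (e + 1)), P z = z →
      P' (qq σ (TT n (e + 1)) ⟨e, h⟩ z) = qq σ (TT n (e + 1)) ⟨e, h⟩ z) {f : E →ₗ[ℂ] X} (hf : f ∈ HomE h ρ σ P) :
    qq σ (TT n (e + 1)) ⟨e, h⟩ ∘ₗ f ∈ HomE ((Nat.le_succ e).trans h) (ρ.comp (jD (Nat.le_succ e))) σ P' := by
  obtain ⟨h1, h2⟩ := homE_facts93 hf
  have ha0 : (⟨e, h⟩ : Fin n) ∉ TT n (e + 1) := by
    rw [mem_TT]
    simp only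
    omega
  have h3 : ∀ v, qq σ (TT n (e + 1)) ⟨e, h⟩ (f v) ∈ inv σ (TT n e) := fun v => by
    rw [← TT_insert h]
    exact qq_mem σ _ _ ha0 _ (h1 v)
  refine ⟨fun p v => ?_, fun v => hQ _ (h1 v) (hf.2 v)⟩
  have h4 : (((ρ.comp (jD (Nat.le_succ e))).comp (MonoidHom.snd (Perm (Fin (n - e))) (Perm (Fin e)))) p) =
      ρ (jD (Nat.le_succ e) p.2) := rfl
  have h5 : (σ.comp (jH ((Nat.le_succ e).trans h))) p =
      σ (jT ((Nat.le_succ e).trans h) p.1) * σ (jD ((Nat.le_succ e).trans h) p.2) := by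
    rw [MonoidHom.comp_apply, jH_apply, map_mul]
  rw [h4, h5, LinearMap.comp_apply, LinearMap.comp_apply, Module.End.mul_apply]
  have h6 : σ (jD ((Nat.le_succ e).trans h) p.2) (qq σ (TT n (e + 1)) ⟨e, h⟩ (f v)) =
      qq σ (TT n (e + 1)) ⟨e, h⟩ (f (ρ (jD (Nat.le_succ e) p.2) v)) := by
    rw [h2, jD_jD93 h, qq_conj93 σ ha0 ha0]
    · intro t ht
      exact jD_apply_of_le _ _ t (by have := mem_TT.1 ht; omega)
    · exact jD_apply_of_le _ _ _ (by simp)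
  rw [h6]
  exact ((mem_inv_iff σ ((Nat.le_succ e).trans h) _).1 (h3 _) p.1).symm

/-- `f ↦ A ∘ f`. -/
private noncomputable def cp93 (A : X →ₗ[ℂ] X) : (E →ₗ[ℂ] X) →ₗ[ℂ] (E →ₗ[ℂ] X) where
  toFun f := A ∘ₗ f
  map_add' f g := LinearMap.comp_add _ _ _
  map_smul' c f := LinearMap.comp_smul _ _ _

theorem exists_new {e : ℕ} (h : e + 1 ≤ n) (ρ : Representation ℂ (Perm (Fin (e + 1))) E)
    (σ : Representation ℂ (Perm (Fin n)) X) (P P' : X →ₗ[ℂ] X)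
    (hQ : ∀ z ∈ inv σ (TT n (e + 1)), P z = z →
      P' (qq σ (TT n (e + 1)) ⟨e, h⟩ z) = qq σ (TT n (e + 1)) ⟨e, h⟩ z)
    (hlt : finrank ℂ (HomE ((Nat.le_succ e).trans h) (ρ.comp (jD (Nat.le_succ e))) σ P') <
      finrank ℂ (HomE h ρ σ P)) :
    ∃ f : E →ₗ[ℂ] X, f ≠ 0 ∧ (∀ (y : Perm (Fin (e + 1))) (v : E), f (ρ y v) = σ (jD h y) (f v)) ∧
      (∀ v, f v ∈ New σ (e + 1)) ∧ ∀ v, P (f v) = f v := by
  have hm : ∀ f ∈ HomE h ρ σ P, cp93 (qq σ (TT n (e + 1)) ⟨e, h⟩) f ∈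
      HomE ((Nat.le_succ e).trans h) (ρ.comp (jD (Nat.le_succ e))) σ P' := fun f hf => maps93 h ρ σ P P' hQ hf
  have hk := LinearMap.ker_ne_bot_of_finrank_lt (f := (cp93 (qq σ (TT n (e + 1)) ⟨e, h⟩)).restrict hm) hlt
  obtain ⟨f, hf, hf0⟩ := Submodule.exists_mem_ne_zero_of_ne_bot hk
  rw [LinearMap.mem_ker] at hf
  have hQ0 : ∀ v, qq σ (TT n (e + 1)) ⟨e, h⟩ (f.1 v) = 0 := fun v => by
    have h1 := congrArg Subtype.val hf
    exact LinearMap.congr_fun h1 v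
  obtain ⟨h1, h2⟩ := homE_facts93 f.2
  refine ⟨f.1, fun h0 => hf0 (Subtype.ext h0), h2, fun v => mem_New.2 ⟨h1 v, fun a ha => ?_⟩, f.2.2⟩
  have ha1 : ∀ b : Fin n, (b : ℕ) < e + 1 → b ∉ TT n (e + 1) := fun b hb hb' => by
    have := mem_TT.1 hb'
    omega
  have hu : ∀ t ∈ TT n (e + 1), jD h (Equiv.swap ⟨a, ha⟩ (Fin.last e)) t = t := fun t ht =>
    jD_apply_of_le _ _ t (mem_TT.1 ht)
  have hub : jD h (Equiv.swap ⟨a, ha⟩ (Fin.last e)) ⟨e, h⟩ = a := by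
    rw [jD_apply h _ _ (Nat.lt_succ_self e)]
    refine Fin.ext ?_
    have h3 : (Equiv.swap ⟨(a : ℕ), ha⟩ (Fin.last e)) ⟨e, Nat.lt_succ_self e⟩ = ⟨(a : ℕ), ha⟩ := Equiv.swap_apply_right _ _
    simp only
    rw [h3]
  have h3 : f.1 v = σ (jD h (Equiv.swap ⟨a, ha⟩ (Fin.last e)))
      (f.1 (ρ ((Equiv.swap ⟨a, ha⟩ (Fin.last e) : Perm (Fin (e + 1)))⁻¹) v)) := by
    rw [← h2, ← Module.End.mul_apply, ← map_mul, mul_inv_cancel, map_one]
    rfl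
  rw [h3, qq_conj93 σ (ha1 a ha) (ha1 ⟨e, h⟩ (Nat.lt_succ_self e)) _ hu hub, hQ0, map_zero]

end Pool.Agent.Helper51.TN
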