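import Pool.Agent.Helper1.TS.CLS

/-!
BLOCK TN-A0 (about 220 lines). The number of conjugacy classes with given support (partition numbers are subexponential).

Proof in words. (Compare `Helper70/TU/Z1.lean`, whose private lemma `key38` proves the same with the weaker bound `exp (1/(1-w)²)`; copy the reduction to a product.)
(1) For `0 < w < 1`: `∑_g w^{s(g)}/cls g = ∑ over classes of w^{s} ≤ ∏_{k=2}^n ∑_{a=0}^n w^{ka} ≤ ∏_{k=2}^n 1/(1-w^k)` (classes are determined by the numbers of `k`-cycles, `2 ≤ k ≤ n`).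
(2) `1/(1-w^k) ≤ exp (∑_{j≥1} w^{kj}/j)` (`= ` in fact, `Real.hasSum_pow_div_log_of_abs_lt_one`); and `∑_{k≥1} w^{kj} = w^j/(1-w^j) ≤ 1/(j(1-w)) * w^{?}`: since
    `(1-w^j)/(1-w) = 1 + w + ... + w^{j-1} ≥ j w^{j-1} ≥ j w^j`, `w^j/(1-w^j) ≤ 1/(j (1-w))`. So the logarithm of the product is at most `∑_j 1/(j² (1-w)) ≤ 2/(1-w)`.
    (Or avoid series: `log (1/(1-x)) ≤ ...`; any proof of `∏_{k=2}^n 1/(1-w^k) ≤ exp (2/(1-w))` will do, e.g. finite sums `∑_{k=2}^{n} ∑_{j=1}^{M} w^{kj}/j` plus a limit `M → ∞`.)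
(3) So `∑_{s(g) = s} 1/cls g ≤ w^{-s} exp (2/(1-w))`. Take `w = 1 - 1/(√s+1) = √s/(√s+1)`: `w^{-s} = (1 + 1/√s)^s ≤ exp √s`, `2/(1-w) = 2√s + 2`. Total `exp (3√s + 2) ≤ exp (5√s)` for `s ≥ 1`. For `s = 0` only
    `g = 1`: the sum is `1`.
(4) `card_classes_le'`: `sum_inv_cls` and (3) for `s = 0, ..., n`.
-/

set_option autoImplicit false

open Equiv Pool.Agent.Helper1.TS

namespace Pool.Agent.Helper51.TN

private theorem h99_geo {y : ℝ} (h0 : 0 ≤ y) (h1 : y < 1) (n : ℕ) :
    ∑ a ∈ Finset.range n, y ^ a ≤ 1 / (1 - y) := by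
  rw [le_div_iff₀ (by linarith), geom_sum_mul_neg]
  have := pow_nonneg h0 n
  linarith

private theorem h99_part {n : ℕ} (g : Perm (Fin n)) {a : ℕ} (h : a ∈ g.cycleType) : 2 ≤ a ∧ a ≤ n := by
  refine ⟨Equiv.Perm.two_le_of_mem_cycleType h, ?_⟩
  have h1 := Multiset.le_sum_of_mem h
  have h2 := Equiv.Perm.sum_cycleType_le g
  rw [Fintype.card_fin] at h2
  exact h1.trans h2

private theorem h99_count {n : ℕ} (g : Perm (Fin n)) (a : ℕ) (ha : 1 ≤ a) : g.cycleType.count a ≤ n := by
  have h2 := Equiv.Perm.sum_cycleType_le g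
  rw [Fintype.card_fin] at h2
  refine le_trans ?_ h2
  have h3 : Multiset.replicate (g.cycleType.count a) a ≤ g.cycleType :=
    Multiset.le_count_iff_replicate_le.1 le_rfl
  have h4 : (Multiset.replicate (g.cycleType.count a) a).sum ≤ g.cycleType.sum := by
    obtain ⟨r, hr⟩ := Multiset.le_iff_exists_add.1 h3
    conv_rhs => rw [hr]
    rw [Multiset.sum_add]
    exact Nat.le_add_right _ _
  rw [Multiset.sum_replicate, smul_eq_mul] at h4
  calc g.cycleType.count a = g.cycleType.count a * 1 := (mul_one _).symm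
    _ ≤ g.cycleType.count a * a := Nat.mul_le_mul_left _ ha
    _ ≤ _ := h4

private theorem h99_sum {n : ℕ} (g : Perm (Fin n)) :
    g.cycleType.sum = ∑ i : Fin n, ((i : ℕ) + 2) * g.cycleType.count ((i : ℕ) + 2) := by
  classical
  have h1 : g.cycleType.toFinset ⊆ (Finset.univ : Finset (Fin n)).image (fun i : Fin n => (i : ℕ) + 2) := by
    intro a ha
    obtain ⟨h2, h3⟩ := h99_part g (Multiset.mem_toFinset.1 ha)
    refine Finset.mem_image.2 ⟨⟨a - 2, by omega⟩, Finset.mem_univ _, ?_⟩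
    simp only
    omega
  rw [Finset.sum_multiset_count_of_subset _ _ h1, Finset.sum_image]
  · refine Finset.sum_congr rfl fun i _ => ?_
    rw [smul_eq_mul, mul_comm]
  · intro i _ j _ hij
    have : (i : ℕ) = j := by
      simp only at hij
      omega
    exact Fin.ext this

private theorem h99_inj {n : ℕ} (g h : Perm (Fin n))
    (e : ∀ i : Fin n, g.cycleType.count ((i : ℕ) + 2) = h.cycleType.count ((i : ℕ) + 2)) :
    g.cycleType = h.cycleType := by
  classical
  refine Multiset.ext.2 fun a => ?_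
  by_cases ha : 2 ≤ a ∧ a ≤ n
  · have h1 := e ⟨a - 2, by omega⟩
    have h2 : a - 2 + 2 = a := by omega
    simp only [h2] at h1
    exact h1
  · rw [Multiset.count_eq_zero.2 fun h1 => ha (h99_part g h1),
      Multiset.count_eq_zero.2 fun h1 => ha (h99_part h h1)]

/-- `∑_{j<M+1} 1/(j+1)² ≤ 2 - 1/(M+1)`. -/
private theorem h99_basel (M : ℕ) :
    ∑ j ∈ Finset.range (M + 1), 1 / ((j : ℝ) + 1) ^ 2 ≤ 2 - 1 / ((M : ℝ) + 1) := by
  induction M with
  | zero => norm_num
  | succ M ih =>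
    rw [Finset.sum_range_succ]
    have h1 : (0 : ℝ) < (M : ℝ) + 1 := by positivity
    have h2 : 1 / (((M + 1 : ℕ) : ℝ) + 1) ^ 2 + 1 / (((M + 1 : ℕ) : ℝ) + 1) ≤ 1 / ((M : ℝ) + 1) := by
      push_cast
      rw [div_add_div _ _ (by positivity) (by positivity), div_le_div_iff₀ (by positivity) (by positivity)]
      nlinarith [mul_pos h1 h1, mul_pos (mul_pos h1 h1) h1]
    linarith

/-- `x/(1-x) ≤ 1/(m(1-w))` for `x = w^m`. -/
private theorem h99_pow {w : ℝ} (hw0 : 0 < w) (hw : w < 1) (m n : ℕ) (hm : 1 ≤ m) :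
    ∑ i : Fin n, (w ^ ((i : ℕ) + 2)) ^ m ≤ 1 / (m * (1 - w)) := by
  have hw1 : 0 < 1 - w := by linarith
  have hm0 : (0 : ℝ) < m := by exact_mod_cast hm
  set x : ℝ := w ^ m with hx
  have hx0 : 0 < x := by positivity
  have hx1 : x < 1 := pow_lt_one₀ hw0.le hw (by omega)
  have hx2 : 0 < 1 - x := by linarith
  have h1 : ∑ i : Fin n, (w ^ ((i : ℕ) + 2)) ^ m ≤ x * ∑ i ∈ Finset.range n, x ^ i := by
    rw [← Fin.sum_univ_eq_sum_range (fun a => x ^ a) n, Finset.mul_sum]
    refine Finset.sum_le_sum fun i _ => ?_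
    have h2 : (w ^ ((i : ℕ) + 2)) ^ m = x ^ ((i : ℕ) + 2) := by
      rw [hx, ← pow_mul, ← pow_mul, mul_comm]
    rw [h2, ← pow_succ']
    exact pow_le_pow_of_le_one hx0.le hx1.le (by omega)
  have h3 : x * ∑ i ∈ Finset.range n, x ^ i ≤ x * (1 / (1 - x)) :=
    mul_le_mul_of_nonneg_left (h99_geo hx0.le hx1 n) hx0.le
  have h4 : (m : ℝ) * x ≤ ∑ i ∈ Finset.range m, w ^ i := by
    have h5 := Finset.card_nsmul_le_sum (Finset.range m) (fun i => w ^ i) x (fun i hi => by
      have := Finset.mem_range.1 hi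
      exact pow_le_pow_of_le_one hw0.le hw.le (by omega))
    rwa [Finset.card_range, nsmul_eq_mul] at h5
  have h6 : (∑ i ∈ Finset.range m, w ^ i) * (1 - w) = 1 - x := geom_sum_mul_neg w m
  have h7 : (m : ℝ) * x * (1 - w) ≤ 1 - x := by
    rw [← h6]
    exact mul_le_mul_of_nonneg_right h4 hw1.le
  refine h1.trans (h3.trans ?_)
  rw [mul_one_div, div_le_div_iff₀ hx2 (by positivity)]
  nlinarith

private theorem h99_prod {w : ℝ} (hw0 : 0 < w) (hw : w < 1) (n : ℕ) :
    ∏ i : Fin n, 1 / (1 - w ^ ((i : ℕ) + 2)) ≤ Real.exp (2 * (1 / (1 - w))) := by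
  have hw1 : 0 < 1 - w := by linarith
  have hy0 : ∀ i : Fin n, 0 < w ^ ((i : ℕ) + 2) := fun i => by positivity
  have hy1 : ∀ i : Fin n, w ^ ((i : ℕ) + 2) < 1 := fun i => pow_lt_one₀ hw0.le hw (by omega)
  have h1 : ∀ i : Fin n, 1 / (1 - w ^ ((i : ℕ) + 2)) = Real.exp (-Real.log (1 - w ^ ((i : ℕ) + 2))) := by
    intro i
    rw [Real.exp_neg, Real.exp_log (by have := hy1 i; linarith), one_div]
  rw [Finset.prod_congr rfl fun i _ => h1 i, ← Real.exp_sum]
  refine Real.exp_le_exp.2 ?_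
  have h2 : HasSum (fun j : ℕ => ∑ i : Fin n, (w ^ ((i : ℕ) + 2)) ^ (j + 1) / ((j : ℝ) + 1))
      (∑ i : Fin n, -Real.log (1 - w ^ ((i : ℕ) + 2))) := by
    refine hasSum_sum fun i _ => ?_
    refine Real.hasSum_pow_div_log_of_abs_lt_one ?_
    rw [abs_of_pos (hy0 i)]
    exact hy1 i
  refine le_of_tendsto' h2.tendsto_sum_nat fun M => ?_
  have h3 : ∀ j : ℕ, ∑ i : Fin n, (w ^ ((i : ℕ) + 2)) ^ (j + 1) / ((j : ℝ) + 1) ≤
      1 / ((j : ℝ) + 1) ^ 2 * (1 / (1 - w)) := by
    intro j
    have h4 := h99_pow hw0 hw (j + 1) n (by omega)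
    have hj : (0 : ℝ) < (j : ℝ) + 1 := by positivity
    rw [← Finset.sum_div]
    calc (∑ i : Fin n, (w ^ ((i : ℕ) + 2)) ^ (j + 1)) / ((j : ℝ) + 1) ≤
          (1 / (((j + 1 : ℕ) : ℝ) * (1 - w))) / ((j : ℝ) + 1) := div_le_div_of_nonneg_right h4 hj.le
      _ = 1 / ((j : ℝ) + 1) ^ 2 * (1 / (1 - w)) := by
          push_cast
          field_simp
  have hq : 0 < 1 / (1 - w) := by positivity
  calc ∑ j ∈ Finset.range M, ∑ i : Fin n, (w ^ ((i : ℕ) + 2)) ^ (j + 1) / ((j : ℝ) + 1)
      ≤ ∑ j ∈ Finset.range M, 1 / ((j : ℝ) + 1) ^ 2 * (1 / (1 - w)) :=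
        Finset.sum_le_sum fun j _ => h3 j
    _ ≤ ∑ j ∈ Finset.range (M + 1), 1 / ((j : ℝ) + 1) ^ 2 * (1 / (1 - w)) := by
        rw [Finset.sum_range_succ]
        have : 0 ≤ 1 / ((M : ℝ) + 1) ^ 2 * (1 / (1 - w)) := by positivity
        linarith
    _ = (∑ j ∈ Finset.range (M + 1), 1 / ((j : ℝ) + 1) ^ 2) * (1 / (1 - w)) := by
        rw [Finset.sum_mul]
    _ ≤ 2 * (1 / (1 - w)) := by
        refine mul_le_mul_of_nonneg_right ?_ hq.le
        have h5 := h99_basel M
        have h6 : 0 < 1 / ((M : ℝ) + 1) := by positivity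
        linarith

private theorem h99_key {w : ℝ} (hw0 : 0 < w) (hw : w < 1) (n : ℕ) :
    ∑ g : Perm (Fin n), w ^ g.support.card / (cls g : ℝ) ≤ Real.exp (2 * (1 / (1 - w))) := by
  classical
  have hw1 : 0 < 1 - w := by linarith
  set T : Finset (Multiset ℕ) := (Finset.univ : Finset (Perm (Fin n))).image fun g => g.cycleType with hT
  have h1 : ∑ g : Perm (Fin n), w ^ g.support.card / (cls g : ℝ) = ∑ M ∈ T, w ^ M.sum := by
    rw [← Finset.sum_fiberwise_of_maps_to (t := T) (g := fun g : Perm (Fin n) => g.cycleType)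
      (fun x _ => Finset.mem_image_of_mem _ (Finset.mem_univ x))]
    refine Finset.sum_congr rfl fun M hM => ?_
    obtain ⟨g, _, hg⟩ := Finset.mem_image.1 hM
    have h2 : ∀ x ∈ Finset.univ.filter (fun x : Perm (Fin n) => x.cycleType = M),
        w ^ x.support.card / (cls x : ℝ) = w ^ M.sum / (cls g : ℝ) := by
      intro x hx
      have h3 : x.cycleType = M := (Finset.mem_filter.1 hx).2
      have h4 : cls x = cls g := by
        unfold cls
        congr 1
        ext y
        simp only [Finset.mem_filter, Finset.mem_univ, true_and, Equiv.Perm.isConj_iff_cycleType_eq]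
        rw [h3, ← hg]
      rw [h4, ← Equiv.Perm.sum_cycleType, h3]
    rw [Finset.sum_congr rfl h2, Finset.sum_const, nsmul_eq_mul]
    have h5 : (Finset.univ.filter (fun x : Perm (Fin n) => x.cycleType = M)).card = cls g := by
      unfold cls
      congr 1
      ext y
      simp only [Finset.mem_filter, Finset.mem_univ, true_and, Equiv.Perm.isConj_iff_cycleType_eq]
      rw [← hg]
      exact eq_comm
    have h6 : (0 : ℝ) < cls g := by
      have : 0 < cls g := by
        rw [← h5]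
        exact Finset.card_pos.2 ⟨g, Finset.mem_filter.2 ⟨Finset.mem_univ _, hg⟩⟩
      exact_mod_cast this
    rw [h5]
    field_simp
  have h2 : ∑ M ∈ T, w ^ M.sum ≤ ∏ i : Fin n, ∑ a ∈ Finset.range (n + 1), (w ^ ((i : ℕ) + 2)) ^ a := by
    rw [Finset.prod_univ_sum]
    have h3 : ∑ M ∈ T, w ^ M.sum = ∑ M ∈ T, ∏ i : Fin n, (w ^ ((i : ℕ) + 2)) ^ (M.count ((i : ℕ) + 2)) := by
      refine Finset.sum_congr rfl fun M hM => ?_
      obtain ⟨g, _, hg⟩ := Finset.mem_image.1 hM
      subst hg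
      rw [h99_sum g, ← Finset.prod_pow_eq_pow_sum]
      exact Finset.prod_congr rfl fun i _ => by rw [pow_mul]
    have h4 : Set.InjOn (fun (M : Multiset ℕ) (i : Fin n) => M.count ((i : ℕ) + 2)) (T : Set (Multiset ℕ)) := by
      intro M hM M' hM' e
      obtain ⟨g, _, hg⟩ := Finset.mem_image.1 (Finset.mem_coe.1 hM)
      obtain ⟨g', _, hg'⟩ := Finset.mem_image.1 (Finset.mem_coe.1 hM')
      subst hg
      subst hg'
      exact h99_inj g g' fun i => congrFun e i
    rw [h3, ← Finset.sum_image (f := fun f : Fin n → ℕ => ∏ i : Fin n, (w ^ ((i : ℕ) + 2)) ^ (f i)) h4]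
    refine Finset.sum_le_sum_of_subset_of_nonneg ?_ fun f _ _ => Finset.prod_nonneg fun i _ => by positivity
    intro f hf
    obtain ⟨M, hM, hMf⟩ := Finset.mem_image.1 hf
    obtain ⟨g, _, hg⟩ := Finset.mem_image.1 hM
    rw [Fintype.mem_piFinset]
    intro i
    rw [← hMf, ← hg, Finset.mem_range]
    have := h99_count g ((i : ℕ) + 2) (by omega)
    simp only
    omega
  have h3 : ∏ i : Fin n, ∑ a ∈ Finset.range (n + 1), (w ^ ((i : ℕ) + 2)) ^ a ≤
      ∏ i : Fin n, 1 / (1 - w ^ ((i : ℕ) + 2)) := by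
    refine Finset.prod_le_prod (fun i _ => Finset.sum_nonneg fun a _ => by positivity) fun i _ => ?_
    exact h99_geo (by positivity) (pow_lt_one₀ hw0.le hw (by omega)) _
  rw [h1]
  exact h2.trans (h3.trans (h99_prod hw0 hw n))

theorem class_count (n s : ℕ) :
    ∑ g ∈ Finset.univ.filter (fun g : Perm (Fin n) => g.support.card = s), (1 : ℝ) / cls g ≤
      Real.exp (5 * Real.sqrt s) := by
  classical
  rcases Nat.eq_zero_or_pos s with hs | hs
  · subst hs
    have h1 : Finset.univ.filter (fun g : Perm (Fin n) => g.support.card = 0) = {1} := by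
      ext g
      simp only [Finset.mem_filter, Finset.mem_univ, true_and, Finset.mem_singleton,
        Finset.card_eq_zero, Equiv.Perm.support_eq_empty_iff]
    have h2 : cls (1 : Perm (Fin n)) = 1 := by
      unfold cls
      rw [Finset.card_eq_one]
      refine ⟨1, ?_⟩
      ext g
      simp only [Finset.mem_filter, Finset.mem_univ, true_and, Finset.mem_singleton,
        isConj_one_right]
    rw [h1, Finset.sum_singleton, h2]
    simp
  · have hs0 : (0 : ℝ) < s := by exact_mod_cast hs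
    have hs1 : (1 : ℝ) ≤ s := by exact_mod_cast hs
    set r : ℝ := Real.sqrt s with hr
    have hr0 : 0 < r := Real.sqrt_pos.2 hs0
    have hr1 : 1 ≤ r := by
      rw [hr]
      exact Real.one_le_sqrt.2 hs1
    have hrr : r * r = s := Real.mul_self_sqrt hs0.le
    set w : ℝ := r / (r + 1) with hw
    have hw0 : 0 < w := by positivity
    have hw1 : w < 1 := by
      rw [hw, div_lt_one (by positivity)]
      linarith
    have h1w : 1 / (1 - w) = r + 1 := by
      rw [hw]
      have : (1 : ℝ) - r / (r + 1) = 1 / (r + 1) := by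
        field_simp
        ring
      rw [this, one_div_one_div]
    have h1 : ∑ g ∈ Finset.univ.filter (fun g : Perm (Fin n) => g.support.card = s), (1 : ℝ) / cls g =
        (w ^ s)⁻¹ * ∑ g ∈ Finset.univ.filter (fun g : Perm (Fin n) => g.support.card = s),
          w ^ g.support.card / (cls g : ℝ) := by
      rw [Finset.mul_sum]
      refine Finset.sum_congr rfl fun g hg => ?_
      rw [(Finset.mem_filter.1 hg).2]
      have : w ^ s ≠ 0 := by positivity
      field_simp
    have h2 : ∑ g ∈ Finset.univ.filter (fun g : Perm (Fin n) => g.support.card = s),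
        w ^ g.support.card / (cls g : ℝ) ≤ Real.exp (2 * (1 / (1 - w))) := by
      refine le_trans (Finset.sum_le_sum_of_subset_of_nonneg (Finset.filter_subset _ _) ?_)
        (h99_key hw0 hw1 n)
      intro g _ _
      positivity
    have h3 : (w ^ s)⁻¹ ≤ Real.exp r := by
      rw [← inv_pow]
      have h4 : w⁻¹ = 1 / r + 1 := by
        rw [hw]
        field_simp
        ring
      have h5 : w⁻¹ ≤ Real.exp (1 / r) := by
        rw [h4]
        exact Real.add_one_le_exp _
      calc (w⁻¹) ^ s ≤ (Real.exp (1 / r)) ^ s := pow_le_pow_left₀ (by positivity) h5 s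
        _ = Real.exp (s * (1 / r)) := by rw [← Real.exp_nat_mul]
        _ = Real.exp r := by
            congr 1
            rw [← hrr]
            field_simp
    rw [h1]
    calc (w ^ s)⁻¹ * ∑ g ∈ Finset.univ.filter (fun g : Perm (Fin n) => g.support.card = s),
          w ^ g.support.card / (cls g : ℝ) ≤ Real.exp r * Real.exp (2 * (1 / (1 - w))) :=
          mul_le_mul h3 h2 (Finset.sum_nonneg fun g _ => by positivity) (Real.exp_pos _).le
      _ = Real.exp (r + 2 * (r + 1)) := by rw [h1w, ← Real.exp_add]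
      _ ≤ Real.exp (5 * r) := by
          refine Real.exp_le_exp.2 ?_
          linarith

theorem card_classes_le' (n : ℕ) :
    (Nat.card (ConjClasses (Perm (Fin n))) : ℝ) ≤ (n + 1) * Real.exp (5 * Real.sqrt n) := by
  classical
  rw [← sum_inv_cls]
  have h1 : ∀ g ∈ (Finset.univ : Finset (Perm (Fin n))), g.support.card ∈ Finset.range (n + 1) := by
    intro g _
    have := Finset.card_le_univ g.support
    rw [Fintype.card_fin] at this
    exact Finset.mem_range.2 (by omega)
  rw [← Finset.sum_fiberwise_of_maps_to h1]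
  have h2 : ∀ s ∈ Finset.range (n + 1),
      ∑ g ∈ Finset.univ.filter (fun g : Perm (Fin n) => g.support.card = s), (1 : ℝ) / cls g ≤
        Real.exp (5 * Real.sqrt n) := by
    intro s hs
    refine (class_count n s).trans (Real.exp_le_exp.2 ?_)
    have h3 : Real.sqrt s ≤ Real.sqrt n := by
      refine Real.sqrt_le_sqrt ?_
      have := Finset.mem_range.1 hs
      exact_mod_cast (by omega : s ≤ n)
    linarith
  have h3 := Finset.sum_le_card_nsmul _ _ _ h2
  rw [Finset.card_range, nsmul_eq_mul] at h3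
  push_cast at h3
  exact h3

end Pool.Agent.Helper51.TN
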