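import Pool.Agent.Helper51.TN.Defs
import Pool.Agent.Helper70.TU.H1

/-!
BLOCK TN-C3 (about 150 lines). The normalized character at a product of disjoint transpositions is nearly multiplicative.

Proof in words. `τ` irreducible representation of `S_d`, `t = RM τ {2}`, `r_j = RM τ (replicate j 2)`, `2 j ≤ d`. Let `g_j` be a product of `j` disjoint transpositions (`exists_cycleType`), `c` a transposition
(`d ≥ 2`). `rr_mul τ c g_j`: `t r_j = (1/d!) ∑_y rr τ (y c y⁻¹ g_j)`. If the two points moved by `y c y⁻¹` are not in `supp g_j` (and `2(j+1) ≤ d`) then `y c y⁻¹ g_j` has cycle type `replicate (j+1) 2` (disjoint: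
`Equiv.Perm.Disjoint.cycleType_mul`) and the term is `r_{j+1}`; the fraction of the `y` for which this fails is at most `2 * 2j/d` (for each of the two points `p` of `supp c` the number of `y` with `y p ∈ supp g_j` is
`2j (d-1)!`). All terms are bounded by `1` (`abs_RM_le_one`, `rr_eq_RM`). So `|t r_j - r_{j+1}| ≤ 2 * 4j/d = 8j/d` for `2(j+1) ≤ d`, and by induction `|r_j - t^j| ≤ ∑_{i<j} 8i/d = 4j(j-1)/d ≤ 4 j²/d` (`|t| ≤ 1`;
`j = 0`: `RM_zero`).
-/

set_option autoImplicit false

open Module Equiv Pool.Agent.Helper1.TS Pool.Agent.Helper70.TU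

namespace Pool.Agent.Helper51.TN

/-- The number of permutations sending `a` into `s`. -/
private theorem card_apply_mem_h34 {d : ℕ} (a : Fin d) (s : Finset (Fin d)) :
    (Finset.univ.filter (fun y : Perm (Fin d) => y a ∈ s)).card * d = s.card * d.factorial := by
  classical
  have hN : ∀ p : Fin d, (Finset.univ.filter (fun y : Perm (Fin d) => y a = p)).card
      = (Finset.univ.filter (fun y : Perm (Fin d) => y a = a)).card := by
    intro p
    refine Finset.card_equiv (Equiv.mulLeft (Equiv.swap a p)) ?_
    intro y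
    simp only [Finset.mem_filter, Finset.mem_univ, true_and, Equiv.coe_mulLeft, Perm.mul_apply]
    constructor
    · intro h
      rw [h, Equiv.swap_apply_right]
    · intro h
      have h1 := congrArg (Equiv.swap a p) h
      rw [Equiv.swap_apply_self, Equiv.swap_apply_left] at h1
      exact h1
  have h1 : (Finset.univ : Finset (Perm (Fin d))).card
      = ∑ p : Fin d, (Finset.univ.filter (fun y : Perm (Fin d) => y a = p)).card :=
    Finset.card_eq_sum_card_fiberwise (fun y _ => Finset.mem_coe.2 (Finset.mem_univ _))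
  have h2 : d.factorial = d * (Finset.univ.filter (fun y : Perm (Fin d) => y a = a)).card := by
    rw [Finset.card_univ, Fintype.card_perm, Fintype.card_fin] at h1
    rw [h1, Finset.sum_congr rfl (fun p _ => hN p), Finset.sum_const, Finset.card_univ,
      Fintype.card_fin, smul_eq_mul]
  have h3 : (Finset.univ.filter (fun y : Perm (Fin d) => y a ∈ s)).card
      = ∑ p ∈ s, (Finset.univ.filter (fun y : Perm (Fin d) => y a = p)).card := by
    rw [Finset.card_eq_sum_card_fiberwise (f := fun y : Perm (Fin d) => y a) (t := s)]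
    · refine Finset.sum_congr rfl (fun p hp => ?_)
      congr 1
      ext y
      simp only [Finset.mem_filter, Finset.mem_univ, true_and]
      constructor
      · rintro ⟨_, h⟩
        exact h
      · intro h
        exact ⟨h ▸ hp, h⟩
    · intro y hy
      simpa using hy
  rw [h3, Finset.sum_congr rfl (fun p _ => hN p), Finset.sum_const, smul_eq_mul, h2]
  ring

/-- One step. -/
private theorem RM_step_h34 {d : ℕ} {E : Type*} [AddCommGroup E] [Module ℂ E] [FiniteDimensional ℂ E]
    (τ : Representation ℂ (Perm (Fin d)) E) [τ.IsIrreducible] (j : ℕ) (hj : 2 * (j + 1) ≤ d) :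
    |RM τ {2} * RM τ (Multiset.replicate j 2) - RM τ (Multiset.replicate (j + 1) 2)|
      ≤ 8 * (j : ℝ) / d := by
  classical
  obtain ⟨g, hg⟩ : ∃ g : Perm (Fin d), g.cycleType = Multiset.replicate j 2 := by
    refine exists_cycleType (fun a ha => ?_) ?_
    · rw [Multiset.eq_of_mem_replicate ha]
    · rw [Multiset.sum_replicate, smul_eq_mul]
      omega
  have hd : 0 < d := by omega
  set a : Fin d := ⟨0, by omega⟩ with ha
  set b : Fin d := ⟨1, by omega⟩ with hb
  have hab : a ≠ b := by
    intro h
    have := congrArg Fin.val h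
    simp [ha, hb] at this
  have hc : (Equiv.swap a b).cycleType = {2} := by
    have h1 := (Equiv.Perm.isSwap_iff_cycleType (σ := Equiv.swap a b)).1 ⟨a, b, hab, rfl⟩
    exact h1
  have hsupp : g.support.card = 2 * j := by
    rw [← Equiv.Perm.sum_cycleType, hg, Multiset.sum_replicate, smul_eq_mul]
    ring
  set R := RM τ (Multiset.replicate (j + 1) 2) with hR
  have hmul := rr_mul τ (Equiv.swap a b) g
  rw [rr_eq_RM τ (Equiv.swap a b), rr_eq_RM τ g, hc, hg] at hmul
  set B : Finset (Perm (Fin d)) :=
    Finset.univ.filter (fun y : Perm (Fin d) => y a ∈ g.support) ∪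
      Finset.univ.filter (fun y : Perm (Fin d) => y b ∈ g.support) with hB
  have hterm : ∀ y : Perm (Fin d), |rr τ (y * Equiv.swap a b * y⁻¹ * g) - R| ≤ if y ∈ B then 2 else 0 := by
    intro y
    split_ifs with hy
    · have h1 := abs_rr_le_one τ (y * Equiv.swap a b * y⁻¹ * g)
      have h2 := abs_RM_le_one τ (Multiset.replicate (j + 1) 2)
      rw [← hR] at h2
      rw [abs_le] at h1 h2 ⊢
      constructor <;> linarith [h1.1, h1.2, h2.1, h2.2]
    · have hya : y a ∉ g.support := fun h => hy (by
        rw [hB, Finset.mem_union]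
        exact Or.inl (Finset.mem_filter.2 ⟨Finset.mem_univ _, h⟩))
      have hyb : y b ∉ g.support := fun h => hy (by
        rw [hB, Finset.mem_union]
        exact Or.inr (Finset.mem_filter.2 ⟨Finset.mem_univ _, h⟩))
      have hconj : y * Equiv.swap a b * y⁻¹ = Equiv.swap (y a) (y b) := by
        rw [Equiv.swap_apply_apply]
      have hyab : y a ≠ y b := fun h => hab (y.injective h)
      have hdis : Equiv.Perm.Disjoint (Equiv.swap (y a) (y b)) g := by
        rw [Equiv.Perm.disjoint_iff_disjoint_support, Equiv.Perm.support_swap hyab,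
          Finset.disjoint_left]
        intro i hi hi'
        rw [Finset.mem_insert, Finset.mem_singleton] at hi
        rcases hi with rfl | rfl
        · exact hya hi'
        · exact hyb hi'
      have hct : (y * Equiv.swap a b * y⁻¹ * g).cycleType = Multiset.replicate (j + 1) 2 := by
        rw [hconj, hdis.cycleType_mul, hg,
          (Equiv.Perm.isSwap_iff_cycleType (σ := Equiv.swap (y a) (y b))).1 ⟨y a, y b, hyab, rfl⟩,
          Multiset.replicate_succ, Multiset.singleton_add]
      rw [rr_eq_RM, hct, hR, sub_self, abs_zero]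
  have hfac : (0 : ℝ) < d.factorial := by exact_mod_cast d.factorial_pos
  have hdR : (0 : ℝ) < d := by exact_mod_cast hd
  have hsum : (d.factorial : ℝ) * (RM τ {2} * RM τ (Multiset.replicate j 2) - R)
      = ∑ y : Perm (Fin d), (rr τ (y * Equiv.swap a b * y⁻¹ * g) - R) := by
    rw [Finset.sum_sub_distrib, ← hmul, Finset.sum_const, Finset.card_univ, Fintype.card_perm,
      Fintype.card_fin, nsmul_eq_mul]
    ring
  have hBcard : (B.card : ℝ) * d ≤ 4 * j * d.factorial := by
    have h1 := card_apply_mem_h34 a g.support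
    have h2 := card_apply_mem_h34 b g.support
    have h3 : B.card ≤ (Finset.univ.filter (fun y : Perm (Fin d) => y a ∈ g.support)).card
        + (Finset.univ.filter (fun y : Perm (Fin d) => y b ∈ g.support)).card :=
      Finset.card_union_le _ _
    have h4 : B.card * d ≤ 4 * j * d.factorial := by
      calc B.card * d ≤ ((Finset.univ.filter (fun y : Perm (Fin d) => y a ∈ g.support)).card
            + (Finset.univ.filter (fun y : Perm (Fin d) => y b ∈ g.support)).card) * d :=
            Nat.mul_le_mul_right d h3
        _ = 4 * j * d.factorial := by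
            rw [add_mul, h1, h2, hsupp]
            ring
    exact_mod_cast h4
  have habs : (d.factorial : ℝ) * |RM τ {2} * RM τ (Multiset.replicate j 2) - R| ≤ 2 * B.card := by
    rw [← abs_of_pos hfac, ← abs_mul, hsum]
    refine (Finset.abs_sum_le_sum_abs _ _).trans ?_
    refine (Finset.sum_le_sum (fun y _ => hterm y)).trans ?_
    rw [← Finset.sum_filter, Finset.sum_const, Finset.filter_mem_eq_inter, Finset.univ_inter,
      nsmul_eq_mul]
    linarith
  rw [le_div_iff₀ hdR]
  have h5 : (d.factorial : ℝ) * (|RM τ {2} * RM τ (Multiset.replicate j 2) - R| * d)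
      ≤ (d.factorial : ℝ) * (8 * j) := by
    calc (d.factorial : ℝ) * (|RM τ {2} * RM τ (Multiset.replicate j 2) - R| * d)
        = ((d.factorial : ℝ) * |RM τ {2} * RM τ (Multiset.replicate j 2) - R|) * d := by ring
      _ ≤ (2 * B.card) * d := mul_le_mul_of_nonneg_right habs hdR.le
      _ = 2 * (B.card * d) := by ring
      _ ≤ 2 * (4 * j * d.factorial) := by linarith
      _ = (d.factorial : ℝ) * (8 * j) := by ring
  exact le_of_mul_le_mul_left h5 hfac

theorem RM_two {d : ℕ} {E : Type*} [AddCommGroup E] [Module ℂ E] [FiniteDimensional ℂ E]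
    (τ : Representation ℂ (Perm (Fin d)) E) [τ.IsIrreducible] (j : ℕ) (hj : 2 * j ≤ d) :
    |RM τ (Multiset.replicate j 2) - RM τ {2} ^ j| ≤ 4 * (j : ℝ) ^ 2 / d := by
  rcases Nat.eq_zero_or_pos d with hd0 | hd
  · have hj0 : j = 0 := by omega
    subst hj0
    rw [Multiset.replicate_zero, RM_zero, pow_zero, sub_self, abs_zero]
    positivity
  have hdR : (0 : ℝ) < d := by exact_mod_cast hd
  induction j with
  | zero =>
    rw [Multiset.replicate_zero, RM_zero, pow_zero, sub_self, abs_zero]
    positivity
  | succ j ih =>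
    have h1 := ih (by omega)
    have h2 := RM_step_h34 τ j hj
    have ht := abs_RM_le_one τ {2}
    have h3 : RM τ (Multiset.replicate (j + 1) 2) - RM τ {2} ^ (j + 1)
        = -(RM τ {2} * RM τ (Multiset.replicate j 2) - RM τ (Multiset.replicate (j + 1) 2))
          + RM τ {2} * (RM τ (Multiset.replicate j 2) - RM τ {2} ^ j) := by ring
    rw [h3]
    refine (abs_add_le _ _).trans ?_
    rw [abs_neg, abs_mul]
    have h4 : |RM τ {2}| * |RM τ (Multiset.replicate j 2) - RM τ {2} ^ j|
        ≤ 1 * (4 * (j : ℝ) ^ 2 / d) :=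
      mul_le_mul ht h1 (abs_nonneg _) zero_le_one
    have h5 : 8 * (j : ℝ) / d + 1 * (4 * (j : ℝ) ^ 2 / d) ≤ 4 * ((j + 1 : ℕ) : ℝ) ^ 2 / d := by
      rw [one_mul, ← add_div, div_le_div_iff_of_pos_right hdR]
      push_cast
      nlinarith
    linarith

end Pool.Agent.Helper51.TN
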