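import Pool.Agent.Helper51.TN.C2

/-!
BLOCK TN-C5 (about 300 lines). The contribution of the bad permutations.

`s = |supp g|`, `m = n - s`, `z = d/(m-d+1)`; `g` is good if `2d ≤ m` and `s z² ≤ Y`. `x = d/n ∈ [γ/√n, 1/100]`.
Constants: `ε₁ ∈ (0, 1/4)` with `(e ε₁)^γ ≤ exp (-(C₀+2))`; `A = 4 (C₀+2)`; `Y = max ((10 (C₀+10))²) (16 A²/ε₁²)`.
Proof in words. For `e ∈ {d, d-1}` put `q_e(g) = II e g / binom(n,d)`.
(1) `m ≥ n/2`, bad (so `s z² > Y`, since `2d ≤ n/50 ≤ m`): `z ≤ x/(1/2 - x) ≤ 2.1 x`. `II_le` for `e = d`: `II d g ≤ binom(m,d) exp (z² s/2)`; for `e = d-1`: `II (d-1) g ≤ binom(m,d-1) exp (z²s/2) ≤ binom(m,d) exp (z² s/2)`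
    (`choose_sub_le`, `z ≤ 1`, `(d-1)/(m-d+2) ≤ z`). `binom(m,d)/binom(n,d) = ∏_{i<d} (m-i)/(n-i) ≤ (m/n)^d = (1 - s/n)^d ≤ exp (-x s)`; `z² s/2 ≤ 2.21 x² s ≤ 0.03 x s`. So `q_e ≤ exp (-.95 x s)`. From `s z² > Y`, `z ≤ 2.1 x`:
    `x √s ≥ √Y/2.1`, `x s ≥ √Y √s/2.1`, `.95 x s ≥ .45 √Y √s ≥ (4 C₀ + 45) √s`. The contribution of all these `g` with `|supp g| = s` is at most `2 C₀ exp (C₀ √s) exp (-(4C₀+45) √s) ≤ exp (-44 √s)` (`2 C₀ ≤ exp (C₀)`),
    the sum over `s ≥ 1` is `≤ 1/100` (`exp (-44√s) ≤ 1/(100 * 2^s)`-type bounds fail for large `s`; use `exp (-44 √s) ≤ (44√s)^{-4} 24 ≤ 24/(44^4 s²)` and `∑ 1/s² ≤ 2`).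
(2) `m < n/2`, `d ≥ A √n`: `II_mul_le` with `t = d/(n-d) ≤ 1/99`: `II e g ≤ t^{-e} (1+t)^m exp (t² s/2) ≤ t^{-d} (1+t)^m exp (t² s/2)` for `e = d, d-1`. `binom(n,d) t^d ≥ (1+t)^n/(n+1)`: it is the largest of the `n+1` terms of
    `(1+t)^n = ∑ binom(n,j) t^j` (the ratio of consecutive terms `binom(n,j+1) t/binom(n,j) = (n-j) t/(j+1)` is `≥ 1` for `j < d` and `≤ 1` for `j ≥ d`). So `q_e ≤ (n+1) (1+t)^{-s} exp (t² s/2) ≤ (n+1) exp (-.9 t s) ≤ (n+1) exp (-.45 d)`
    (`log (1+t) ≥ t - t²/2`, `s ≥ n/2`, `t ≥ d/n`) `≤ (n+1) exp (-1.8 (C₀+2) √n)`.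
(3) `m < n/2`, `d < A √n`, bad: `m < ε₁ n`: otherwise (`n` large: `A√n ≤ ε₁ n/4`) `2d ≤ m` and `z ≤ A√n/(ε₁ n/2)`, `s z² ≤ n 4 A²/(ε₁² n) ≤ Y`: good. `II_mul_le` with `t = d/(ε₁ n) ≤ 1`: `II e g ≤ t^{-d} exp (t m + t² n/2) ≤
    (ε₁ n/d)^d exp (d + A²/(2ε₁²))`; `binom(n,d) ≥ (n/d)^d` (`Nat.pow_le_choose`-type). So `q_e ≤ (e ε₁)^d exp (A²/(2ε₁²)) ≤ exp (A²/(2ε₁²)) exp (-(C₀+2) √n)` (`d ≥ γ√n`).
    In (2), (3): the sum of `r(g)²` over `|supp g| = s` is `≤ C₀ exp (C₀ √n)`, and there are at most `n` values of `s`; so the contribution is `≤ 2 n C₀ exp (C₀√n) * [(n+1) exp(-1.8(C₀+2)√n) + const exp (-(C₀+2)√n)] → 0`.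
Total `≤ 1/10` for `n ≥ N`. (`s = 0`, `g = 1`, is good: `2d ≤ n`.)
-/

set_option autoImplicit false

open Module Equiv

namespace Pool.Agent.Helper51.TN

/-- `g` is good for `d`, `Y`. -/
def Good {n : ℕ} (d : ℕ) (Y : ℝ) (g : Perm (Fin n)) : Prop :=
  2 * d + g.support.card ≤ n ∧
    g.support.card * ((d : ℝ) / ((n : ℝ) - g.support.card - d + 1)) ^ 2 ≤ Y

private theorem choose_pow27 (m n : ℕ) (hmn : m ≤ n) (d : ℕ) (hd : d ≤ m) :
    (m.choose d : ℝ) * (n : ℝ) ^ d ≤ n.choose d * (m : ℝ) ^ d := by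
  induction d with
  | zero => simp
  | succ d ih =>
    have hd' : d ≤ m := by omega
    have h1 := ih hd'
    have key : ∀ N : ℕ, d ≤ N → (N.choose (d + 1) : ℝ) * (d + 1) = N.choose d * (N - d) := by
      intro N hN
      have h := Nat.choose_succ_right_eq N d
      have h' : ((N.choose (d + 1) * (d + 1) : ℕ) : ℝ) = ((N.choose d * (N - d) : ℕ) : ℝ) := by rw [h]
      rw [Nat.cast_mul, Nat.cast_mul, Nat.cast_sub hN] at h'
      push_cast at h'
      exact h'
    have e1 := key m hd'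
    have e2 := key n (by omega)
    have hpos : (0 : ℝ) < d + 1 := by positivity
    have hmd : (0 : ℝ) ≤ (m : ℝ) - d := by
      have : (d : ℝ) ≤ m := by exact_mod_cast hd'
      linarith
    have hmn' : (m : ℝ) ≤ n := by exact_mod_cast hmn
    have hdr : (0 : ℝ) ≤ d := by positivity
    refine le_of_mul_le_mul_right ?_ hpos
    calc (m.choose (d + 1) : ℝ) * (n : ℝ) ^ (d + 1) * (d + 1)
        = (m.choose (d + 1) * (d + 1)) * (n : ℝ) ^ d * n := by ring
      _ = (m.choose d * (n : ℝ) ^ d) * ((m - d) * n) := by rw [e1]; ring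
      _ ≤ (n.choose d * (m : ℝ) ^ d) * ((m - d) * n) :=
          mul_le_mul_of_nonneg_right h1 (mul_nonneg hmd (by positivity))
      _ ≤ (n.choose d * (m : ℝ) ^ d) * ((n - d) * m) :=
          mul_le_mul_of_nonneg_left (by nlinarith) (by positivity)
      _ = (n.choose d * (n - d)) * (m : ℝ) ^ d * m := by ring
      _ = n.choose (d + 1) * (m : ℝ) ^ (d + 1) * (d + 1) := by rw [← e2]; ring

private theorem choose_exp27 (m n s d : ℕ) (hms : m + s = n) (hd : d ≤ m) (hn : 0 < n) :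
    (m.choose d : ℝ) ≤ n.choose d * Real.exp (-((d : ℝ) / n * s)) := by
  have h := choose_pow27 m n (by omega) d hd
  have hnp : (0 : ℝ) < n := by exact_mod_cast hn
  have hpow : (0 : ℝ) < (n : ℝ) ^ d := by positivity
  have h1 : ((m : ℝ) / n) ^ d ≤ Real.exp (-((d : ℝ) / n * s)) := by
    have h2 : (m : ℝ) / n ≤ Real.exp (-((s : ℝ) / n)) := by
      have h3 := Real.add_one_le_exp (-((s : ℝ) / n))
      have h5 : (n : ℝ) = m + s := by exact_mod_cast hms.symm
      have h4 : (m : ℝ) / n = -((s : ℝ) / n) + 1 := by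
        have h6 : (m : ℝ) = n - s := by linarith
        rw [h6, sub_div, div_self hnp.ne']
        ring
      rw [h4]
      exact h3
    calc ((m : ℝ) / n) ^ d ≤ (Real.exp (-((s : ℝ) / n))) ^ d := pow_le_pow_left₀ (by positivity) h2 d
      _ = Real.exp (-((d : ℝ) / n * s)) := by
        rw [← Real.exp_nat_mul]
        congr 1
        ring
  calc (m.choose d : ℝ) = m.choose d * (n : ℝ) ^ d / (n : ℝ) ^ d := by
        rw [mul_div_assoc, div_self hpow.ne', mul_one]
    _ ≤ n.choose d * (m : ℝ) ^ d / (n : ℝ) ^ d := by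
        exact div_le_div_of_nonneg_right h hpow.le
    _ = n.choose d * ((m : ℝ) / n) ^ d := by rw [div_pow]; ring
    _ ≤ _ := mul_le_mul_of_nonneg_left h1 (by positivity)

private theorem two_mul_le_exp27 (x : ℝ) : 2 * x ≤ Real.exp x := by
  rcases le_or_gt x 0 with h | h
  · have := Real.exp_pos x
    linarith
  · have h1 := Real.quadratic_le_exp_of_nonneg h.le
    nlinarith [sq_nonneg (x - 1)]

private theorem finA27 (C₀ ch P x q s : ℝ) (hC : 1 ≤ C₀) (hch : 0 ≤ ch) (hq1 : 1 ≤ q) (hq2 : q ^ 2 = s)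
    (hxq : 4.7 * (C₀ + 10) ≤ x * q) (hP : P ≤ 2 * (ch * Real.exp (-(0.97 * (x * s))))) :
    P * (C₀ * Real.exp (C₀ * q)) ≤ ch * (1 / (40 * (s * (s + 1)))) := by
  have hq0 : 0 ≤ q := by linarith
  have hs1 : 1 ≤ s := by nlinarith
  have hexp : (4 * C₀ + 40) * q ≤ 0.97 * (x * s) := by
    have h1 : x * s = x * q * q := by
      rw [← hq2]
      ring
    rw [h1]
    have h2 : 4.7 * (C₀ + 10) * q ≤ x * q * q := mul_le_mul_of_nonneg_right hxq hq0
    have h3 : 0 ≤ (C₀ + 10) * q := mul_nonneg (by linarith) hq0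
    linarith
  have hsum : P ≤ 2 * (ch * Real.exp (-((4 * C₀ + 40) * q))) := by
    have h1 : ch * Real.exp (-(0.97 * (x * s))) ≤ ch * Real.exp (-((4 * C₀ + 40) * q)) :=
      mul_le_mul_of_nonneg_left (Real.exp_le_exp.2 (by linarith)) hch
    linarith
  have hCe : 0 ≤ C₀ * Real.exp (C₀ * q) := by positivity
  refine (mul_le_mul_of_nonneg_right hsum hCe).trans ?_
  have h2C : 2 * C₀ ≤ Real.exp (C₀ * q) := by
    refine (two_mul_le_exp27 C₀).trans (Real.exp_le_exp.2 ?_)
    exact le_mul_of_one_le_right (by linarith) hq1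
  have e1 : 2 * (ch * Real.exp (-((4 * C₀ + 40) * q))) * (C₀ * Real.exp (C₀ * q)) ≤
      ch * Real.exp (-(40 * q)) := by
    calc 2 * (ch * Real.exp (-((4 * C₀ + 40) * q))) * (C₀ * Real.exp (C₀ * q))
        = ch * ((2 * C₀) * (Real.exp (-((4 * C₀ + 40) * q)) * Real.exp (C₀ * q))) := by ring
      _ ≤ ch * (Real.exp (C₀ * q) * (Real.exp (-((4 * C₀ + 40) * q)) * Real.exp (C₀ * q))) := by
          refine mul_le_mul_of_nonneg_left ?_ hch
          exact mul_le_mul_of_nonneg_right h2C (by positivity)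
      _ = ch * Real.exp (-((2 * C₀ + 40) * q)) := by
          rw [← Real.exp_add, ← Real.exp_add]
          congr 2
          ring
      _ ≤ ch * Real.exp (-(40 * q)) := by
          refine mul_le_mul_of_nonneg_left (Real.exp_le_exp.2 ?_) hch
          have : 0 ≤ C₀ * q := mul_nonneg (by linarith) hq0
          linarith
  refine e1.trans (mul_le_mul_of_nonneg_left ?_ hch)
  have h40 := Real.pow_div_factorial_le_exp (40 * q) (by positivity) 4
  have hf : ((Nat.factorial 4 : ℕ) : ℝ) = 24 := by norm_num [Nat.factorial]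
  rw [hf] at h40
  have hq4 : (40 * q) ^ 4 = 2560000 * (s * s) := by
    have : (40 * q) ^ 4 = 2560000 * (q ^ 2 * q ^ 2) := by ring
    rw [this, hq2]
  rw [hq4] at h40
  rw [Real.exp_neg, ← one_div]
  refine one_div_le_one_div_of_le (by positivity) (le_trans ?_ h40)
  nlinarith

private theorem caseA27 (C₀ Y : ℝ) (hC : 1 ≤ C₀) (hY : (10 * (C₀ + 10)) ^ 2 ≤ Y) (n d s : ℕ)
    (g : Perm (Fin n)) (hs : g.support.card = s) (hs1 : 1 ≤ s) (h2s : 2 * s ≤ n) (hd1 : 1 ≤ d)
    (hd : (d : ℝ) ≤ n / 100) (hbad : Y < s * ((d : ℝ) / ((n : ℝ) - s - d + 1)) ^ 2) :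
    (II d g + II (d - 1) g) * (C₀ * Real.exp (C₀ * Real.sqrt s)) ≤
      n.choose d * (1 / (40 * (s * (s + 1)))) := by
  obtain ⟨m, hm⟩ : ∃ m, m + s = n := ⟨n - s, by omega⟩
  have hnr : (n : ℝ) = m + s := by exact_mod_cast hm.symm
  have hn0 : 0 < n := by omega
  have hnp : (0 : ℝ) < n := by exact_mod_cast hn0
  have hs1r : (1 : ℝ) ≤ s := by exact_mod_cast hs1
  have hd1r : (1 : ℝ) ≤ d := by exact_mod_cast hd1
  have h2sr : (2 : ℝ) * s ≤ n := by exact_mod_cast h2s
  have hmr : (n : ℝ) / 2 ≤ m := by linarith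
  have hz0 : (n : ℝ) - s - d + 1 = m - d + 1 := by rw [hnr]; ring
  rw [hz0] at hbad
  have hden : 0.49 * (n : ℝ) ≤ (m : ℝ) - d + 1 := by linarith
  have hdenp : (0 : ℝ) < (m : ℝ) - d + 1 := by
    have : (0 : ℝ) < 0.49 * (n : ℝ) := by positivity
    linarith
  set x : ℝ := (d : ℝ) / n with hx
  have hx0 : 0 < x := by positivity
  have hx1 : x ≤ 1 / 100 := by
    rw [hx, div_le_iff₀ hnp]
    linarith
  have hxn : x * n = d := by
    rw [hx, div_mul_cancel₀ _ hnp.ne']
  set z : ℝ := (d : ℝ) / ((m : ℝ) - d + 1) with hz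
  have hzp : 0 < z := by positivity
  have hz1 : z ≤ 2.1 * x := by
    rw [hz, div_le_iff₀ hdenp]
    have h1 : 2.1 * x * (0.49 * (n : ℝ)) ≤ 2.1 * x * ((m : ℝ) - d + 1) :=
      mul_le_mul_of_nonneg_left hden (by positivity)
    have h2 : 2.1 * x * (0.49 * (n : ℝ)) = 1.029 * d := by
      rw [← hxn]
      ring
    linarith
  have hzle1 : z ≤ 1 := by linarith
  have h2dm : 2 * d ≤ m := by
    have : (2 : ℝ) * d ≤ m := by linarith
    exact_mod_cast this
  have hdm : d ≤ m := by omega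
  have hm' : m + g.support.card = n := by rw [hs]; exact hm
  have hI1 := II_le d m g hm' h2dm
  have hI2 := II_le (d - 1) m g hm' (by omega)
  have hcs := choose_sub_le m d 1 hd1 hdm
  rw [hs] at hI1 hI2
  rw [← hz] at hI1
  have hcd : ((d - 1 : ℕ) : ℝ) = (d : ℝ) - 1 := by
    rw [Nat.cast_sub hd1, Nat.cast_one]
  rw [hcd] at hI2
  have hch := choose_exp27 m n s d hm hdm hn0
  rw [← hx] at hch
  have hzs : z ^ 2 * s / 2 ≤ 0.03 * (x * s) := by
    have h1 : z ^ 2 ≤ (2.1 * x) ^ 2 := pow_le_pow_left₀ hzp.le hz1 2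
    have h2 : (2.1 * x) ^ 2 ≤ 0.06 * x := by nlinarith
    have h3 : z ^ 2 * s ≤ 0.06 * x * s := mul_le_mul_of_nonneg_right (h1.trans h2) (by positivity)
    linarith
  have hcomb : (m.choose d : ℝ) * Real.exp (z ^ 2 * s / 2) ≤ n.choose d * Real.exp (-(0.97 * (x * s))) := by
    calc (m.choose d : ℝ) * Real.exp (z ^ 2 * s / 2)
        ≤ (n.choose d * Real.exp (-(x * s))) * Real.exp (0.03 * (x * s)) :=
          mul_le_mul hch (Real.exp_le_exp.2 hzs) (Real.exp_pos _).le (by positivity)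
      _ = n.choose d * Real.exp (-(0.97 * (x * s))) := by
          rw [mul_assoc, ← Real.exp_add]
          congr 2
          ring
  have hI1' : II d g ≤ n.choose d * Real.exp (-(0.97 * (x * s))) := hI1.trans hcomb
  have hI2' : II (d - 1) g ≤ n.choose d * Real.exp (-(0.97 * (x * s))) := by
    refine hI2.trans (le_trans ?_ hcomb)
    rw [pow_one, ← hz] at hcs
    have h1 : (m.choose (d - 1) : ℝ) ≤ m.choose d := by
      refine hcs.trans ?_
      have : (0 : ℝ) ≤ m.choose d := by positivity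
      nlinarith
    have h2 : ((d : ℝ) - 1) / ((m : ℝ) - ((d : ℝ) - 1) + 1) ≤ z := by
      rw [hz]
      exact div_le_div₀ (by positivity) (by linarith) hdenp (by linarith)
    have h3 : 0 ≤ ((d : ℝ) - 1) / ((m : ℝ) - ((d : ℝ) - 1) + 1) :=
      div_nonneg (by linarith) (by linarith)
    refine mul_le_mul h1 (Real.exp_le_exp.2 ?_) (Real.exp_pos _).le (by positivity)
    have h4 := pow_le_pow_left₀ h3 h2 2
    have h5 := mul_le_mul_of_nonneg_right h4 (show (0 : ℝ) ≤ (s : ℝ) by positivity)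
    linarith
  set q : ℝ := Real.sqrt s with hq
  have hq2 : q ^ 2 = s := Real.sq_sqrt (by positivity)
  have hq0 : 0 ≤ q := Real.sqrt_nonneg _
  have hq1 : 1 ≤ q := by
    rw [hq]
    exact Real.one_le_sqrt.2 hs1r
  have hxq : 4.7 * (C₀ + 10) ≤ x * q := by
    have h1 : (10 * (C₀ + 10)) ^ 2 < (2.1 * (x * q)) ^ 2 := by
      have h2 : z ^ 2 ≤ (2.1 * x) ^ 2 := pow_le_pow_left₀ hzp.le hz1 2
      have h3 : (s : ℝ) * z ^ 2 ≤ s * (2.1 * x) ^ 2 := mul_le_mul_of_nonneg_left h2 (by positivity)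
      have h4 : (2.1 * (x * q)) ^ 2 = s * (2.1 * x) ^ 2 := by
        rw [← hq2]
        ring
      rw [h4]
      linarith
    have h5 := lt_of_pow_lt_pow_left₀ 2 (by positivity) h1
    linarith
  refine finA27 C₀ (n.choose d) _ x q s hC (by positivity) hq1 hq2 hxq ?_
  linarith

private theorem II_mul27 {n : ℕ} (e d m : ℕ) (hed : e ≤ d) (g : Perm (Fin n)) (hm : m + g.support.card = n)
    (t : ℝ) (ht0 : 0 < t) (ht1 : t ≤ 1) :
    II e g * t ^ d ≤ (1 + t) ^ m * Real.exp (t ^ 2 * g.support.card / 2) := by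
  refine le_trans ?_ (II_mul_le e m g hm t ht0 ht1)
  exact mul_le_mul_of_nonneg_left (pow_le_pow_of_le_one ht0.le ht1 hed) (II_nonneg e g)

private theorem term_le27 (n d : ℕ) (hd : d < n) (hd1 : 1 ≤ d) (t : ℝ) (ht : t = (d : ℝ) / ((n : ℝ) - d)) (j : ℕ)
    (hj : j ≤ n) : (n.choose j : ℝ) * t ^ j ≤ n.choose d * t ^ d := by
  have hdr : (d : ℝ) < n := by exact_mod_cast hd
  have hd1r : (1 : ℝ) ≤ d := by exact_mod_cast hd1
  have hnd : (0 : ℝ) < (n : ℝ) - d := by linarith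
  have ht0 : 0 < t := by rw [ht]; positivity
  have htd : t * ((n : ℝ) - d) = d := by rw [ht, div_mul_cancel₀ _ hnd.ne']
  have key : ∀ i : ℕ, i ≤ n → (n.choose (i + 1) : ℝ) * (i + 1) = n.choose i * (n - i) := by
    intro i hi
    have h := Nat.choose_succ_right_eq n i
    have h' : ((n.choose (i + 1) * (i + 1) : ℕ) : ℝ) = ((n.choose i * (n - i) : ℕ) : ℝ) := by rw [h]
    rw [Nat.cast_mul, Nat.cast_mul, Nat.cast_sub hi] at h'
    push_cast at h'
    exact h'
  have up : ∀ i : ℕ, i < d → (n.choose i : ℝ) * t ^ i ≤ n.choose (i + 1) * t ^ (i + 1) := by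
    intro i hi
    have hir : (i : ℝ) + 1 ≤ d := by exact_mod_cast hi
    have hpos : (0 : ℝ) < (i : ℝ) + 1 := by positivity
    refine le_of_mul_le_mul_right ?_ hpos
    have h1 : (n.choose (i + 1) : ℝ) * t ^ (i + 1) * (i + 1) = n.choose i * t ^ i * (t * (n - i)) := by
      have := key i (by omega)
      calc (n.choose (i + 1) : ℝ) * t ^ (i + 1) * (i + 1)
          = (n.choose (i + 1) * (i + 1)) * t ^ (i + 1) := by ring
        _ = n.choose i * t ^ i * (t * (n - i)) := by rw [this]; ring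
    rw [h1]
    refine mul_le_mul_of_nonneg_left ?_ (by positivity)
    nlinarith
  have down : ∀ i : ℕ, d ≤ i → i < n → (n.choose (i + 1) : ℝ) * t ^ (i + 1) ≤ n.choose i * t ^ i := by
    intro i hi hin
    have hir : (d : ℝ) ≤ i := by exact_mod_cast hi
    have hpos : (0 : ℝ) < (i : ℝ) + 1 := by positivity
    refine le_of_mul_le_mul_right ?_ hpos
    have h1 : (n.choose (i + 1) : ℝ) * t ^ (i + 1) * (i + 1) = n.choose i * t ^ i * (t * (n - i)) := by
      have := key i (by omega)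
      calc (n.choose (i + 1) : ℝ) * t ^ (i + 1) * (i + 1)
          = (n.choose (i + 1) * (i + 1)) * t ^ (i + 1) := by ring
        _ = n.choose i * t ^ i * (t * (n - i)) := by rw [this]; ring
    rw [h1]
    refine mul_le_mul_of_nonneg_left ?_ (by positivity)
    nlinarith
  rcases le_total j d with hjd | hjd
  · have : ∀ i : ℕ, i ≤ d → (n.choose (d - i) : ℝ) * t ^ (d - i) ≤ n.choose d * t ^ d := by
      intro i
      induction i with
      | zero => intro _; simp
      | succ i ih =>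
        intro hi
        have h1 := up (d - (i + 1)) (by omega)
        have h2 : d - (i + 1) + 1 = d - i := by omega
        rw [h2] at h1
        exact h1.trans (ih (by omega))
    have h3 := this (d - j) (by omega)
    have h4 : d - (d - j) = j := by omega
    rwa [h4] at h3
  · have : ∀ i : ℕ, d + i ≤ n → (n.choose (d + i) : ℝ) * t ^ (d + i) ≤ n.choose d * t ^ d := by
      intro i
      induction i with
      | zero => intro _; simp
      | succ i ih =>
        intro hi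
        exact (down (d + i) (by omega) (by omega)).trans (ih (by omega))
    have h3 := this (j - d) (by omega)
    have h4 : d + (j - d) = j := by omega
    rwa [h4] at h3

private theorem one_add_pow27 (n d : ℕ) (hd : d < n) (hd1 : 1 ≤ d) (t : ℝ) (ht : t = (d : ℝ) / ((n : ℝ) - d)) :
    (1 + t) ^ n ≤ ((n : ℝ) + 1) * (n.choose d * t ^ d) := by
  rw [add_comm 1 t, add_pow]
  calc ∑ j ∈ Finset.range (n + 1), t ^ j * 1 ^ (n - j) * (n.choose j : ℝ)
      ≤ ∑ _j ∈ Finset.range (n + 1), ((n.choose d : ℝ) * t ^ d) := by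
        refine Finset.sum_le_sum fun j hj => ?_
        have hj' : j ≤ n := by
          have := Finset.mem_range.1 hj
          omega
        have := term_le27 n d hd hd1 t ht j hj'
        rw [one_pow, mul_one, mul_comm]
        exact this
    _ = ((n : ℝ) + 1) * (n.choose d * t ^ d) := by
        rw [Finset.sum_const, Finset.card_range, nsmul_eq_mul]
        push_cast
        ring

private theorem caseB27 (C₀ : ℝ) (hC : 1 ≤ C₀) (n d s : ℕ)
    (g : Perm (Fin n)) (hs : g.support.card = s) (h2s : n < 2 * s) (hsn : s ≤ n) (hd1 : 1 ≤ d)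
    (hd : (d : ℝ) ≤ n / 100) (hA : 4 * (C₀ + 2) * Real.sqrt n ≤ d) (e : ℕ) (he : e ≤ d) :
    II e g ≤ n.choose d * (((n : ℝ) + 1) * Real.exp (-((C₀ + 2) * Real.sqrt n))) := by
  obtain ⟨m, hm⟩ : ∃ m, m + s = n := ⟨n - s, by omega⟩
  have hn0 : 0 < n := by omega
  have hnp : (0 : ℝ) < n := by exact_mod_cast hn0
  have hd1r : (1 : ℝ) ≤ d := by exact_mod_cast hd1
  have h2sr : (n : ℝ) ≤ 2 * s := by exact_mod_cast h2s.le
  have hdn : d < n := by
    have : (d : ℝ) < n := by linarith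
    exact_mod_cast this
  have hnd : (0 : ℝ) < (n : ℝ) - d := by linarith
  obtain ⟨t, ht⟩ : ∃ t : ℝ, t = (d : ℝ) / ((n : ℝ) - d) := ⟨_, rfl⟩
  have ht0 : 0 < t := by rw [ht]; positivity
  have ht1 : t ≤ 1 := by
    rw [ht, div_le_one hnd]
    linarith
  set x : ℝ := (d : ℝ) / n with hx
  have hx0 : 0 < x := by positivity
  have hx1 : x ≤ 1 / 100 := by
    rw [hx, div_le_iff₀ hnp]
    linarith
  have hxn : x * n = d := by
    rw [hx, div_mul_cancel₀ _ hnp.ne']
  have htx : t * (1 - x) = x := by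
    rw [ht, hx]
    field_simp
  have ht2 : t ^ 2 / 2 ≤ 0.01 * x := by
    have h1 : t ≤ 1.02 * x := by nlinarith
    nlinarith
  have hI := II_mul27 e d m he g (by rw [hs]; exact hm) t ht0 ht1
  rw [hs] at hI
  have hP := one_add_pow27 n d hdn hd1 t ht
  have hII := II_nonneg e g
  have h1t : 0 < 1 + t := by linarith
  have h1 : II e g * (1 + t) ^ s ≤ ((n : ℝ) + 1) * n.choose d * Real.exp (t ^ 2 * s / 2) := by
    have hpm : 0 < (1 + t) ^ m := by positivity
    refine le_of_mul_le_mul_right ?_ hpm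
    have hpw : (1 + t) ^ n = (1 + t) ^ m * (1 + t) ^ s := by rw [← pow_add, hm]
    calc II e g * (1 + t) ^ s * (1 + t) ^ m = II e g * (1 + t) ^ n := by
          rw [hpw]
          ring
      _ ≤ II e g * (((n : ℝ) + 1) * (n.choose d * t ^ d)) := mul_le_mul_of_nonneg_left hP hII
      _ = ((n : ℝ) + 1) * n.choose d * (II e g * t ^ d) := by ring
      _ ≤ ((n : ℝ) + 1) * n.choose d * ((1 + t) ^ m * Real.exp (t ^ 2 * s / 2)) :=
          mul_le_mul_of_nonneg_left hI (by positivity)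
      _ = ((n : ℝ) + 1) * n.choose d * Real.exp (t ^ 2 * s / 2) * (1 + t) ^ m := by ring
  have h2 : Real.exp (x * s) ≤ (1 + t) ^ s := by
    have h3 : Real.exp x ≤ 1 + t := by
      have h4 := Real.add_one_le_exp (-x)
      have h5 : (1 + t) * (1 - x) = 1 := by linarith
      have h6 : 0 < 1 - x := by linarith
      have h7 : Real.exp x * (1 - x) ≤ 1 := by
        calc Real.exp x * (1 - x) ≤ Real.exp x * Real.exp (-x) :=
              mul_le_mul_of_nonneg_left (by linarith) (Real.exp_pos _).le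
          _ = 1 := by rw [← Real.exp_add, add_neg_cancel, Real.exp_zero]
      refine le_of_mul_le_mul_right ?_ h6
      rw [h5]
      exact h7
    calc Real.exp (x * s) = (Real.exp x) ^ s := by rw [← Real.exp_nat_mul, mul_comm]
      _ ≤ (1 + t) ^ s := pow_le_pow_left₀ (Real.exp_pos _).le h3 s
  have h3 : II e g * Real.exp (x * s) ≤ ((n : ℝ) + 1) * n.choose d * Real.exp (t ^ 2 * s / 2) :=
    (mul_le_mul_of_nonneg_left h2 hII).trans h1
  have h4 : II e g ≤ ((n : ℝ) + 1) * n.choose d * Real.exp (t ^ 2 * s / 2) * Real.exp (-(x * s)) := by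
    calc II e g = II e g * Real.exp (x * s) * Real.exp (-(x * s)) := by
          rw [mul_assoc, ← Real.exp_add, add_neg_cancel, Real.exp_zero, mul_one]
      _ ≤ _ := mul_le_mul_of_nonneg_right h3 (Real.exp_pos _).le
  refine h4.trans ?_
  have h5 : Real.exp (t ^ 2 * s / 2) * Real.exp (-(x * s)) ≤ Real.exp (-((C₀ + 2) * Real.sqrt n)) := by
    rw [← Real.exp_add]
    refine Real.exp_le_exp.2 ?_
    have hs0 : (0 : ℝ) ≤ s := by positivity
    have h6 : t ^ 2 * s / 2 ≤ 0.01 * (x * s) := by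
      have := mul_le_mul_of_nonneg_right ht2 hs0
      linarith
    have h7 : (d : ℝ) ≤ 2 * (x * s) := by
      rw [← hxn]
      have := mul_le_mul_of_nonneg_left h2sr hx0.le
      linarith
    have h8 : 0 ≤ (C₀ + 2) * Real.sqrt n := mul_nonneg (by linarith) (Real.sqrt_nonneg _)
    linarith
  calc ((n : ℝ) + 1) * n.choose d * Real.exp (t ^ 2 * s / 2) * Real.exp (-(x * s))
      = ((n : ℝ) + 1) * n.choose d * (Real.exp (t ^ 2 * s / 2) * Real.exp (-(x * s))) := by ring
    _ ≤ ((n : ℝ) + 1) * n.choose d * Real.exp (-((C₀ + 2) * Real.sqrt n)) :=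
        mul_le_mul_of_nonneg_left h5 (by positivity)
    _ = _ := by ring

private theorem caseC27 (C₀ γ ε A : ℝ) (hC : 1 ≤ C₀) (hγ : 0 < γ)
    (hε : ε = Real.exp (-1 - (C₀ + 2) / γ)) (n d s : ℕ)
    (g : Perm (Fin n)) (hs : g.support.card = s) (hsn : s ≤ n) (hd1 : 1 ≤ d)
    (hdγ : γ * Real.sqrt n ≤ d) (hdA : (d : ℝ) ≤ A * Real.sqrt n) (hn0 : 0 < n)
    (hAε : A * Real.sqrt n ≤ ε * n / 4) (hmε : (n : ℝ) - s ≤ ε * n) (e : ℕ) (he : e ≤ d) :
    II e g ≤ n.choose d * (Real.exp (A ^ 2 / (2 * ε ^ 2)) * Real.exp (-((C₀ + 2) * Real.sqrt n))) := by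
  obtain ⟨m, hm⟩ : ∃ m, m + s = n := ⟨n - s, by omega⟩
  have hnr : (n : ℝ) = m + s := by exact_mod_cast hm.symm
  have hnp : (0 : ℝ) < n := by exact_mod_cast hn0
  have hd1r : (1 : ℝ) ≤ d := by exact_mod_cast hd1
  have hdp : (0 : ℝ) < d := by linarith
  have hεp : 0 < ε := by rw [hε]; exact Real.exp_pos _
  have hε1 : ε ≤ 1 := by
    rw [hε]
    refine Real.exp_le_one_iff.2 ?_
    have : 0 ≤ (C₀ + 2) / γ := by positivity
    linarith
  have hεn : 0 < ε * n := by positivity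
  have hdn : d ≤ n := by
    have h1 : (d : ℝ) ≤ n := by nlinarith
    exact_mod_cast h1
  obtain ⟨t, ht⟩ : ∃ t : ℝ, t = (d : ℝ) / (ε * n) := ⟨_, rfl⟩
  have ht0 : 0 < t := by rw [ht]; positivity
  have ht1 : t ≤ 1 := by
    rw [ht, div_le_one hεn]
    linarith
  have htn : t * (ε * n) = d := by rw [ht, div_mul_cancel₀ _ hεn.ne']
  have hI := II_mul27 e d m he g (by rw [hs]; exact hm) t ht0 ht1
  rw [hs] at hI
  have hII := II_nonneg e g
  -- (1+t)^m ≤ exp d
  have h1 : (1 + t) ^ m ≤ Real.exp d := by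
    calc (1 + t) ^ m ≤ (Real.exp t) ^ m := by
          refine pow_le_pow_left₀ (by linarith) ?_ m
          have := Real.add_one_le_exp t
          linarith
      _ = Real.exp (m * t) := by rw [← Real.exp_nat_mul]
      _ ≤ Real.exp d := by
          refine Real.exp_le_exp.2 ?_
          have : (m : ℝ) ≤ ε * n := by linarith
          have := mul_le_mul_of_nonneg_left this ht0.le
          linarith
  have h2 : t ^ 2 * s / 2 ≤ A ^ 2 / (2 * ε ^ 2) := by
    have hsr : (s : ℝ) ≤ n := by exact_mod_cast hsn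
    have hsq : Real.sqrt n ^ 2 = n := Real.sq_sqrt hnp.le
    have h3 : (d : ℝ) ^ 2 ≤ A ^ 2 * n := by
      have := pow_le_pow_left₀ hdp.le hdA 2
      rw [mul_pow, hsq] at this
      exact this
    have h4 : t ^ 2 * s ≤ A ^ 2 / ε ^ 2 := by
      rw [ht, div_pow, mul_pow, div_mul_eq_mul_div, div_le_div_iff₀ (by positivity) (by positivity)]
      have h5 : (d : ℝ) ^ 2 * s ≤ A ^ 2 * n * n :=
        mul_le_mul h3 hsr (by positivity) (by positivity)
      nlinarith [mul_le_mul_of_nonneg_right h5 (show (0 : ℝ) ≤ ε ^ 2 by positivity)]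
    have h6 : A ^ 2 / (2 * ε ^ 2) = A ^ 2 / ε ^ 2 / 2 := by
      field_simp
    rw [h6]
    linarith
  have h3 : II e g * t ^ d ≤ Real.exp d * Real.exp (A ^ 2 / (2 * ε ^ 2)) :=
    hI.trans (mul_le_mul h1 (Real.exp_le_exp.2 h2) (Real.exp_pos _).le (Real.exp_pos _).le)
  -- n^d ≤ choose n d * d^d
  have h4 : (n : ℝ) ^ d ≤ n.choose d * (d : ℝ) ^ d := by
    have := choose_pow27 d n hdn d le_rfl
    rwa [Nat.choose_self, Nat.cast_one, one_mul] at this
  have h5 : II e g * (d : ℝ) ^ d = II e g * t ^ d * (ε ^ d * (n : ℝ) ^ d) := by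
    rw [← htn, mul_pow, mul_pow]
    ring
  have hdd : (0 : ℝ) < (d : ℝ) ^ d := by positivity
  have h6 : II e g ≤ n.choose d * (Real.exp d * Real.exp (A ^ 2 / (2 * ε ^ 2)) * ε ^ d) := by
    refine le_of_mul_le_mul_right ?_ hdd
    rw [h5]
    calc II e g * t ^ d * (ε ^ d * (n : ℝ) ^ d)
        ≤ (Real.exp d * Real.exp (A ^ 2 / (2 * ε ^ 2))) * (ε ^ d * (n.choose d * (d : ℝ) ^ d)) := by
          refine mul_le_mul h3 ?_ (by positivity) (by positivity)
          exact mul_le_mul_of_nonneg_left h4 (by positivity)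
      _ = _ := by ring
  refine h6.trans (mul_le_mul_of_nonneg_left ?_ (by positivity))
  have h7 : Real.exp d * ε ^ d = Real.exp (-((C₀ + 2) * (d / γ))) := by
    rw [hε, ← Real.exp_nat_mul, ← Real.exp_add]
    congr 1
    ring
  calc Real.exp d * Real.exp (A ^ 2 / (2 * ε ^ 2)) * ε ^ d
      = Real.exp (A ^ 2 / (2 * ε ^ 2)) * (Real.exp d * ε ^ d) := by ring
    _ = Real.exp (A ^ 2 / (2 * ε ^ 2)) * Real.exp (-((C₀ + 2) * (d / γ))) := by rw [h7]
    _ ≤ _ := by
      refine mul_le_mul_of_nonneg_left (Real.exp_le_exp.2 ?_) (Real.exp_pos _).le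
      have h8 : Real.sqrt n ≤ d / γ := by
        rw [le_div_iff₀ hγ]
        linarith
      have := mul_le_mul_of_nonneg_left h8 (show (0 : ℝ) ≤ C₀ + 2 by linarith)
      linarith

private theorem large27 (C₀ K : ℝ) (hC : 1 ≤ C₀) (hK : 1 ≤ K) (n : ℕ) (hn : 1 ≤ n)
    (hN : 1800 * (C₀ * K) ≤ n) :
    2 * (((n : ℝ) + 1) * K * Real.exp (-((C₀ + 2) * Real.sqrt n))) * (C₀ * Real.exp (C₀ * Real.sqrt n)) ≤
      1 / (40 * n) := by
  have hnp : (0 : ℝ) < n := by exact_mod_cast hn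
  have hn1 : (1 : ℝ) ≤ n := by exact_mod_cast hn
  set q : ℝ := Real.sqrt n with hq
  have hq0 : 0 ≤ q := Real.sqrt_nonneg _
  have hq2 : q ^ 2 = n := Real.sq_sqrt hnp.le
  have h1 : 2 * (((n : ℝ) + 1) * K * Real.exp (-((C₀ + 2) * q))) * (C₀ * Real.exp (C₀ * q)) =
      2 * (C₀ * K) * ((n : ℝ) + 1) * Real.exp (-(2 * q)) := by
    have : Real.exp (-(2 * q)) = Real.exp (-((C₀ + 2) * q)) * Real.exp (C₀ * q) := by
      rw [← Real.exp_add]
      congr 1
      ring
    rw [this]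
    ring
  rw [h1, Real.exp_neg, ← div_eq_mul_inv, div_le_div_iff₀ (Real.exp_pos _) (by positivity), one_mul]
  have h6 := Real.pow_div_factorial_le_exp (2 * q) (by positivity) 6
  have hf : ((Nat.factorial 6 : ℕ) : ℝ) = 720 := by norm_num [Nat.factorial]
  rw [hf] at h6
  have hq6 : (2 * q) ^ 6 = 64 * ((n : ℝ) * n * n) := by
    have : (2 * q) ^ 6 = 64 * (q ^ 2 * q ^ 2 * q ^ 2) := by ring
    rw [this, hq2]
  rw [hq6] at h6
  refine le_trans ?_ h6
  have hCK : 0 ≤ C₀ * K := by positivity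
  have h7 : 2 * (C₀ * K) * ((n : ℝ) + 1) * (40 * n) ≤ 160 * (C₀ * K) * (n * n) := by
    have : (C₀ * K) * n ≤ (C₀ * K) * (n * n) := mul_le_mul_of_nonneg_left (by nlinarith) hCK
    nlinarith
  refine h7.trans ?_
  have h8 : 1800 * (C₀ * K) * ((n : ℝ) * n) ≤ n * (n * n) := mul_le_mul_of_nonneg_right hN (by positivity)
  nlinarith

private theorem tele27 (n : ℕ) : ∑ s ∈ Finset.Icc 1 n, (1 : ℝ) / (s * (s + 1)) = 1 - 1 / ((n : ℝ) + 1) := by
  induction n with
  | zero => simp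
  | succ n ih =>
    rw [Finset.sum_Icc_succ_top (by omega), ih]
    push_cast
    field_simp
    ring

open Classical in
theorem bad_sum (C₀ γ : ℝ) (hC : 1 ≤ C₀) (hγ : 0 < γ) : ∃ (Y : ℝ) (N : ℕ), 0 ≤ Y ∧
    ∀ n ≥ N, ∀ d : ℕ, γ * Real.sqrt n ≤ d → (d : ℝ) ≤ n / 100 → ∀ r : Perm (Fin n) → ℝ,
      (∀ s : ℕ, 1 ≤ s →
        ∑ g ∈ Finset.univ.filter (fun g : Perm (Fin n) => g.support.card = s), (r g) ^ 2 ≤
          C₀ * Real.exp (C₀ * Real.sqrt s)) →
      ∑ g ∈ Finset.univ.filter (fun g : Perm (Fin n) => ¬ Good d Y g),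
        (r g) ^ 2 * (II d g + II (d - 1) g) ≤ (n.choose d : ℝ) / 10 := by
  obtain ⟨ε, hε⟩ : ∃ ε : ℝ, ε = Real.exp (-1 - (C₀ + 2) / γ) := ⟨_, rfl⟩
  have hεp : 0 < ε := by rw [hε]; exact Real.exp_pos _
  obtain ⟨A, hA⟩ : ∃ A : ℝ, A = 4 * (C₀ + 2) := ⟨_, rfl⟩
  have hA0 : 0 < A := by rw [hA]; linarith
  obtain ⟨K, hK⟩ : ∃ K : ℝ, K = Real.exp (A ^ 2 / (2 * ε ^ 2)) := ⟨_, rfl⟩
  have hK1 : 1 ≤ K := by
    rw [hK]
    exact Real.one_le_exp (by positivity)
  obtain ⟨N, hN⟩ := exists_nat_ge (1800 * (C₀ * K) + (4 * A / ε) ^ 2 + 1)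
  refine ⟨(10 * (C₀ + 10)) ^ 2 + 4 * A ^ 2 / ε ^ 2, N, by positivity, ?_⟩
  intro n hn d hdγ hd r hr
  set Y : ℝ := (10 * (C₀ + 10)) ^ 2 + 4 * A ^ 2 / ε ^ 2 with hY
  have hNr : (N : ℝ) ≤ n := by exact_mod_cast hn
  have hCK : 0 ≤ C₀ * K := by positivity
  have hn1r : (1 : ℝ) ≤ n := by nlinarith [sq_nonneg (4 * A / ε)]
  have hn1 : 1 ≤ n := by exact_mod_cast hn1r
  have hnp : (0 : ℝ) < n := by linarith
  have hnCK : 1800 * (C₀ * K) ≤ n := by nlinarith [sq_nonneg (4 * A / ε)]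
  have hsqn : 4 * A / ε ≤ Real.sqrt n := by
    refine Real.le_sqrt_of_sq_le ?_
    nlinarith
  have hq2 : Real.sqrt n ^ 2 = n := Real.sq_sqrt hnp.le
  have hqp : 0 < Real.sqrt n := Real.sqrt_pos.2 hnp
  have hAε : A * Real.sqrt n ≤ ε * n / 4 := by
    have h1 : 4 * A ≤ Real.sqrt n * ε := by rwa [div_le_iff₀ hεp] at hsqn
    have h2 := mul_le_mul_of_nonneg_right h1 hqp.le
    have h3 : Real.sqrt n * ε * Real.sqrt n = ε * n := by
      rw [← hq2]
      rw [Real.sqrt_sq hqp.le]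
      ring
    rw [h3] at h2
    linarith
  have hd1 : 1 ≤ d := by
    have h1 : (0 : ℝ) < d := lt_of_lt_of_le (by positivity) hdγ
    have h2 : 0 < d := by exact_mod_cast h1
    omega
  have hd1r : (1 : ℝ) ≤ d := by exact_mod_cast hd1
  have hch0 : (0 : ℝ) ≤ n.choose d := by positivity
  have hYA : (10 * (C₀ + 10)) ^ 2 ≤ Y := by
    have : 0 ≤ 4 * A ^ 2 / ε ^ 2 := by positivity
    linarith
  have hYC : 4 * A ^ 2 / ε ^ 2 ≤ Y := by
    have : 0 ≤ (10 * (C₀ + 10)) ^ 2 := by positivity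
    linarith
  have main : ∀ g : Perm (Fin n), ¬ Good d Y g → 1 ≤ g.support.card →
      (II d g + II (d - 1) g) * (C₀ * Real.exp (C₀ * Real.sqrt g.support.card)) ≤
        n.choose d * (1 / (40 * (g.support.card * (g.support.card + 1))) + 1 / (40 * n)) := by
    intro g hg hs1
    obtain ⟨s, hs⟩ : ∃ s, g.support.card = s := ⟨_, rfl⟩
    have hsn : s ≤ n := by
      rw [← hs]
      exact (Finset.card_le_univ _).trans (by simp)
    have hsnr : (s : ℝ) ≤ n := by exact_mod_cast hsn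
    rw [hs] at hs1
    rw [Good, hs] at hg
    rw [hs]
    rcases le_or_gt (2 * s) n with h2s | h2s
    · have h2sr : (2 : ℝ) * s ≤ n := by exact_mod_cast h2s
      have h1 : 2 * d + s ≤ n := by
        have : (2 : ℝ) * d + s ≤ n := by linarith
        exact_mod_cast this
      have h2 : Y < s * ((d : ℝ) / ((n : ℝ) - s - d + 1)) ^ 2 := by
        by_contra hcon
        exact hg ⟨h1, not_lt.1 hcon⟩
      refine (caseA27 C₀ Y hC hYA n d s g hs hs1 h2s hd1 hd h2).trans ?_
      refine mul_le_mul_of_nonneg_left ?_ hch0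
      have : (0 : ℝ) ≤ 1 / (40 * n) := by positivity
      linarith
    · have hbd : ∀ e, e ≤ d → II e g ≤ n.choose d *
          (((n : ℝ) + 1) * K * Real.exp (-((C₀ + 2) * Real.sqrt n))) := by
        intro e he
        rcases le_total (A * Real.sqrt n) d with hAd | hAd
        · have h1 := caseB27 C₀ hC n d s g hs h2s hsn hd1 hd (by rw [← hA]; exact hAd) e he
          refine h1.trans (mul_le_mul_of_nonneg_left ?_ hch0)
          refine mul_le_mul_of_nonneg_right ?_ (Real.exp_pos _).le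
          nlinarith
        · have hmε : (n : ℝ) - s ≤ ε * n := by
            by_contra hcon
            push Not at hcon
            apply hg
            have hAn : (d : ℝ) ≤ ε * n / 4 := hAd.trans hAε
            have hεn : 0 < ε * n := by positivity
            constructor
            · have : (2 : ℝ) * d + s ≤ n := by linarith
              exact_mod_cast this
            · have hden : ε * n / 2 ≤ (n : ℝ) - s - d + 1 := by linarith
              have hz : (d : ℝ) / ((n : ℝ) - s - d + 1) ≤ A * Real.sqrt n / (ε * n / 2) :=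
                div_le_div₀ (by positivity) hAd (by positivity) hden
              have hz0 : 0 ≤ (d : ℝ) / ((n : ℝ) - s - d + 1) :=
                div_nonneg (by positivity) (by linarith)
              have h2 := pow_le_pow_left₀ hz0 hz 2
              have h3 : (A * Real.sqrt n / (ε * n / 2)) ^ 2 = 4 * A ^ 2 / (ε ^ 2 * n) := by
                rw [div_pow, mul_pow, hq2]
                field_simp
                ring
              rw [h3] at h2
              calc (s : ℝ) * ((d : ℝ) / ((n : ℝ) - s - d + 1)) ^ 2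
                  ≤ n * (4 * A ^ 2 / (ε ^ 2 * n)) := mul_le_mul hsnr h2 (by positivity) hnp.le
                _ = 4 * A ^ 2 / ε ^ 2 := by field_simp
                _ ≤ Y := hYC
          have h1 := caseC27 C₀ γ ε A hC hγ hε n d s g hs hsn hd1 hdγ hAd (by omega) hAε hmε e he
          refine h1.trans (mul_le_mul_of_nonneg_left ?_ hch0)
          rw [← hK]
          refine mul_le_mul_of_nonneg_right ?_ (Real.exp_pos _).le
          nlinarith
      have h1 := hbd d le_rfl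
      have h2 := hbd (d - 1) (by omega)
      have h3 := large27 C₀ K hC hK1 n hn1 hnCK
      have h4 : C₀ * Real.exp (C₀ * Real.sqrt s) ≤ C₀ * Real.exp (C₀ * Real.sqrt n) := by
        refine mul_le_mul_of_nonneg_left (Real.exp_le_exp.2 ?_) (by linarith)
        exact mul_le_mul_of_nonneg_left (Real.sqrt_le_sqrt hsnr) (by linarith)
      calc (II d g + II (d - 1) g) * (C₀ * Real.exp (C₀ * Real.sqrt s))
          ≤ (2 * (n.choose d * (((n : ℝ) + 1) * K * Real.exp (-((C₀ + 2) * Real.sqrt n))))) *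
              (C₀ * Real.exp (C₀ * Real.sqrt n)) := by
            refine mul_le_mul (by linarith) h4 (by positivity) (by positivity)
        _ = n.choose d * (2 * (((n : ℝ) + 1) * K * Real.exp (-((C₀ + 2) * Real.sqrt n))) *
              (C₀ * Real.exp (C₀ * Real.sqrt n))) := by ring
        _ ≤ n.choose d * (1 / (40 * n)) := mul_le_mul_of_nonneg_left h3 hch0
        _ ≤ _ := by
            refine mul_le_mul_of_nonneg_left ?_ hch0
            have : (0 : ℝ) ≤ 1 / (40 * (s * (s + 1))) := by positivity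
            linarith
  have hmaps : ∀ g ∈ Finset.univ.filter (fun g : Perm (Fin n) => ¬ Good d Y g),
      g.support.card ∈ Finset.Icc 1 n := by
    intro g hg
    have hg' := (Finset.mem_filter.1 hg).2
    rw [Finset.mem_Icc]
    refine ⟨?_, (Finset.card_le_univ _).trans (by simp)⟩
    by_contra h0
    have h0' : g.support.card = 0 := by omega
    apply hg'
    rw [Good, h0']
    constructor
    · have : (2 : ℝ) * d ≤ n := by linarith
      have : 2 * d ≤ n := by exact_mod_cast this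
      omega
    · rw [Nat.cast_zero, zero_mul]
      positivity
  rw [← Finset.sum_fiberwise_of_maps_to hmaps]
  have hinner : ∀ s ∈ Finset.Icc 1 n,
      ∑ g ∈ (Finset.univ.filter (fun g : Perm (Fin n) => ¬ Good d Y g)).filter
        (fun g => g.support.card = s), (r g) ^ 2 * (II d g + II (d - 1) g) ≤
        n.choose d * (1 / (40 * (s * (s + 1))) + 1 / (40 * n)) := by
    intro s hs
    have hs1 := (Finset.mem_Icc.1 hs).1
    have hs1r : (1 : ℝ) ≤ s := by exact_mod_cast hs1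
    have hE : 0 < C₀ * Real.exp (C₀ * Real.sqrt s) := mul_pos (by linarith) (Real.exp_pos _)
    set B : ℝ := n.choose d * (1 / (40 * (s * (s + 1))) + 1 / (40 * n)) with hB
    have hB0 : 0 ≤ B := by
      rw [hB]
      have h1 : (0 : ℝ) ≤ 1 / (40 * (s * (s + 1))) := by positivity
      have h2 : (0 : ℝ) ≤ 1 / (40 * n) := by positivity
      exact mul_nonneg hch0 (by linarith)
    calc ∑ g ∈ (Finset.univ.filter (fun g : Perm (Fin n) => ¬ Good d Y g)).filter
            (fun g => g.support.card = s), (r g) ^ 2 * (II d g + II (d - 1) g)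
        ≤ ∑ g ∈ (Finset.univ.filter (fun g : Perm (Fin n) => ¬ Good d Y g)).filter
            (fun g => g.support.card = s), (r g) ^ 2 * (B / (C₀ * Real.exp (C₀ * Real.sqrt s))) := by
          refine Finset.sum_le_sum fun g hg => ?_
          rw [Finset.mem_filter, Finset.mem_filter] at hg
          obtain ⟨⟨-, hg1⟩, hg2⟩ := hg
          refine mul_le_mul_of_nonneg_left ?_ (sq_nonneg _)
          rw [le_div_iff₀ hE]
          have := main g hg1 (by rw [hg2]; exact hs1)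
          rw [hg2] at this
          exact this
      _ ≤ ∑ g ∈ Finset.univ.filter (fun g : Perm (Fin n) => g.support.card = s),
            (r g) ^ 2 * (B / (C₀ * Real.exp (C₀ * Real.sqrt s))) := by
          refine Finset.sum_le_sum_of_subset_of_nonneg ?_ fun g _ _ => ?_
          · intro g hg
            rw [Finset.mem_filter] at hg ⊢
            exact ⟨Finset.mem_univ _, hg.2⟩
          · exact mul_nonneg (sq_nonneg _) (div_nonneg hB0 hE.le)
      _ = (∑ g ∈ Finset.univ.filter (fun g : Perm (Fin n) => g.support.card = s), (r g) ^ 2) *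
            (B / (C₀ * Real.exp (C₀ * Real.sqrt s))) := by rw [Finset.sum_mul]
      _ ≤ (C₀ * Real.exp (C₀ * Real.sqrt s)) * (B / (C₀ * Real.exp (C₀ * Real.sqrt s))) :=
          mul_le_mul_of_nonneg_right (hr s hs1) (div_nonneg hB0 hE.le)
      _ = B := by rw [mul_div_cancel₀ _ hE.ne']
  refine (Finset.sum_le_sum hinner).trans ?_
  rw [← Finset.mul_sum, Finset.sum_add_distrib]
  have h1 : ∑ s ∈ Finset.Icc 1 n, (1 : ℝ) / (40 * (s * (s + 1))) ≤ 1 / 40 := by
    have h2 : ∀ s ∈ Finset.Icc 1 n, (1 : ℝ) / (40 * (s * (s + 1))) = 1 / 40 * (1 / (s * (s + 1))) := by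
      intro s _
      rw [one_div_mul_one_div]
    rw [Finset.sum_congr rfl h2, ← Finset.mul_sum, tele27]
    have : (0 : ℝ) ≤ 1 / ((n : ℝ) + 1) := by positivity
    linarith
  have h2 : ∑ _s ∈ Finset.Icc 1 n, (1 : ℝ) / (40 * n) = 1 / 40 := by
    rw [Finset.sum_const, Nat.card_Icc, nsmul_eq_mul]
    rw [Nat.add_sub_cancel]
    field_simp
  rw [h2]
  have h3 : (∑ s ∈ Finset.Icc 1 n, (1 : ℝ) / (40 * (s * (s + 1))) + 1 / 40) ≤ 1 / 10 := by linarith
  have h4 := mul_le_mul_of_nonneg_left h3 hch0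
  linarith

end Pool.Agent.Helper51.TN
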