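import Pool.Agent.Helper51.TN.C4
import Pool.Agent.Helper51.TN.C5

/-!
BLOCK TN-C6 (about 120 lines). The main sum.

Proof in words. `Y, N` from `bad_sum C₀ γ`, `D₀, z₀` from `Psi_sub_nonneg Y`; `δ = min (1/100) (z₀/3)`, `n` large: `γ√n ≥ D₀`, `≥ 1`, `2Y/n ≤ z₀²`. Split the sum into good and bad `g`.
Good `g`: with `m = n - s`, `2d ≤ m`, `s z² ≤ Y`, `z = d/(m-d+1)`: `z ≤ z₀`: if `s ≤ n/2` then `z ≤ δn/(n/2 - δn) ≤ 3 δ ≤ z₀` (`δ ≤ 1/100`); if `s > n/2` then `z² ≤ Y/s ≤ 2Y/n ≤ z₀²`. So the terms are `≥ 0`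
(`Psi_sub_nonneg`); `g = 1` is good and gives `binom(n,d) - binom(n,d-1) ≥ (9/10) binom(n,d)` (`Psi_one`, `r 1 = 1`; `binom(n,d-1) = binom(n,d) d/(n-d+1) ≤ binom(n,d)/98`).
Bad `g`: `|Psi R d g - Psi R (d-1) g| ≤ II d g + II (d-1) g` (`abs_Psi_le`), total at least `- binom(n,d)/10`.
-/

set_option autoImplicit false

open Module Equiv

namespace Pool.Agent.Helper51.TN

theorem main_sum (C₀ γ : ℝ) (hC : 1 ≤ C₀) (hγ : 0 < γ) : ∃ (δ : ℝ) (N : ℕ), 0 < δ ∧ δ ≤ 1 / 100 ∧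
    ∀ n ≥ N, ∀ d : ℕ, γ * Real.sqrt n ≤ d → (d : ℝ) ≤ δ * n → ∀ r : Perm (Fin n) → ℝ, r 1 = 1 →
      (∀ s : ℕ, 1 ≤ s →
        ∑ g ∈ Finset.univ.filter (fun g : Perm (Fin n) => g.support.card = s), (r g) ^ 2 ≤
          C₀ * Real.exp (C₀ * Real.sqrt s)) →
      ∀ R : Multiset ℕ → ℝ, (∀ M, |R M| ≤ 1) → R 0 = 1 →
      (∀ j, 2 * j ≤ d → |R (Multiset.replicate j 2) - R {2} ^ j| ≤ 4 * (j : ℝ) ^ 2 / d) →
      (n.choose d : ℝ) / 4 ≤ ∑ g, (r g) ^ 2 * (Psi R d g - Psi R (d - 1) g) := by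
  classical
  obtain ⟨Y, N1, hY0, hbad⟩ := bad_sum C₀ γ hC hγ
  obtain ⟨D₀, z₀, hz₀, hpsi⟩ := Psi_sub_nonneg Y hY0
  obtain ⟨N2, hN2⟩ := exists_nat_ge (((D₀ : ℝ) + 1) ^ 2 / γ ^ 2 + 2 * Y / z₀ ^ 2 + 1)
  refine ⟨min (1 / 100) (z₀ / 3), max N1 N2, lt_min (by norm_num) (by positivity), min_le_left _ _, ?_⟩
  intro n hn d hd hdn r hr1 hr R hR hR0 hR2
  set δ : ℝ := min (1 / 100) (z₀ / 3) with hδ
  have hδ0 : 0 < δ := lt_min (by norm_num) (by positivity)
  have hδ1 : δ ≤ 1 / 100 := min_le_left _ _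
  have hδz : 3 * δ ≤ z₀ := by
    have := min_le_right (1 / 100 : ℝ) (z₀ / 3)
    rw [← hδ] at this
    linarith
  have hnN1 : N1 ≤ n := (le_max_left _ _).trans hn
  have hnN2 : (N2 : ℝ) ≤ n := by exact_mod_cast (le_max_right N1 N2).trans hn
  have p1 : 0 ≤ ((D₀ : ℝ) + 1) ^ 2 / γ ^ 2 := by positivity
  have p2 : 0 ≤ 2 * Y / z₀ ^ 2 := by positivity
  have hn1 : (1 : ℝ) ≤ n := by linarith
  have hn0 : (0 : ℝ) < n := by linarith
  have hDn : ((D₀ : ℝ) + 1) ^ 2 / γ ^ 2 ≤ n := by linarith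
  have hYn : 2 * Y ≤ z₀ ^ 2 * n := by
    have h1 : 2 * Y / z₀ ^ 2 ≤ n := by linarith
    rw [div_le_iff₀ (by positivity)] at h1
    linarith
  have hsq : (D₀ : ℝ) + 1 ≤ γ * Real.sqrt n := by
    have h1 : ((D₀ : ℝ) + 1) / γ ≤ Real.sqrt n := by
      apply Real.le_sqrt_of_sq_le
      rw [div_pow]
      exact hDn
    rw [div_le_iff₀ hγ] at h1
    linarith
  have hdD : D₀ ≤ d := by
    have h1 : (D₀ : ℝ) ≤ d := by linarith
    exact_mod_cast h1
  have hd1 : 1 ≤ d := by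
    have h1 : (1 : ℝ) ≤ d := by
      have : (0 : ℝ) ≤ D₀ := Nat.cast_nonneg _
      linarith
    exact_mod_cast h1
  have hdn100 : (d : ℝ) ≤ n / 100 := by
    have h1 : δ * n ≤ 1 / 100 * n := mul_le_mul_of_nonneg_right hδ1 hn0.le
    linarith
  have h2dn : 2 * d ≤ n := by
    have h1 : (2 : ℝ) * d ≤ n := by linarith
    exact_mod_cast h1
  have hdle : d ≤ n := by omega
  have hch0 : (0 : ℝ) ≤ n.choose d := Nat.cast_nonneg _
  -- good permutations
  have hgood : ∀ g : Perm (Fin n), Good d Y g → 0 ≤ Psi R d g - Psi R (d - 1) g := by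
    intro g hg
    obtain ⟨hg1, hg2⟩ := hg
    set s : ℕ := g.support.card with hs
    have hm : n - s + s = n := by omega
    have hmR : ((n - s : ℕ) : ℝ) = n - s := by
      rw [Nat.cast_sub (by omega)]
    have hpos : 0 < (n : ℝ) - s - d + 1 := by
      have h1 : (2 : ℝ) * d + s ≤ n := by exact_mod_cast hg1
      have h2 : (0 : ℝ) ≤ d := Nat.cast_nonneg _
      linarith
    refine hpsi n R d (n - s) hdD hd1 hR hR2 g hm (by omega) ?_ ?_
    · rw [hmR]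
      by_cases hsn : (s : ℝ) ≤ n / 2
      · rw [div_le_iff₀ hpos]
        have h1 : 49 / 100 * (n : ℝ) ≤ n - s - d + 1 := by linarith
        have h2 : z₀ * (49 / 100 * (n : ℝ)) ≤ z₀ * (n - s - d + 1) := mul_le_mul_of_nonneg_left h1 hz₀.le
        have h3 : 3 * δ * (49 / 100 * (n : ℝ)) ≤ z₀ * (49 / 100 * n) :=
          mul_le_mul_of_nonneg_right hδz (by positivity)
        have h4 : 0 < δ * n := by positivity
        linarith
      · push Not at hsn
        set z : ℝ := (d : ℝ) / ((n : ℝ) - s - d + 1) with hz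
        have hz0 : 0 ≤ z := by positivity
        by_contra hcon
        push Not at hcon
        have h1 : z₀ ^ 2 < z ^ 2 := pow_lt_pow_left₀ hcon hz₀.le (by norm_num)
        have h2 : (n : ℝ) / 2 * z ^ 2 ≤ s * z ^ 2 := mul_le_mul_of_nonneg_right hsn.le (by positivity)
        have h3 : (n : ℝ) / 2 * z₀ ^ 2 < n / 2 * z ^ 2 := mul_lt_mul_of_pos_left h1 (by positivity)
        linarith
    · rw [hmR]
      exact hg2
  have hgood1 : Good d Y (1 : Perm (Fin n)) := by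
    refine ⟨?_, ?_⟩
    · rw [Perm.support_one, Finset.card_empty]
      omega
    · rw [Perm.support_one, Finset.card_empty, Nat.cast_zero, zero_mul]
      exact hY0
  have hterm1 : (n.choose d : ℝ) / 2 ≤ (r 1) ^ 2 * (Psi R d (1 : Perm (Fin n)) - Psi R (d - 1) (1 : Perm (Fin n))) := by
    rw [hr1, one_pow, one_mul, Psi_one R hR0, Psi_one R hR0]
    have h1 := choose_sub_le n d 1 hd1 hdle
    rw [pow_one] at h1
    have h2 : (d : ℝ) / (n - d + 1) ≤ 1 / 2 := by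
      rw [div_le_iff₀ (by linarith)]
      linarith
    have h3 : (d : ℝ) / (n - d + 1) * (n.choose d : ℝ) ≤ 1 / 2 * n.choose d := mul_le_mul_of_nonneg_right h2 hch0
    linarith
  have hsum1 : (n.choose d : ℝ) / 2 ≤ ∑ g ∈ Finset.univ.filter (fun g : Perm (Fin n) => Good d Y g),
      (r g) ^ 2 * (Psi R d g - Psi R (d - 1) g) := by
    refine hterm1.trans ?_
    exact Finset.single_le_sum (f := fun g : Perm (Fin n) => (r g) ^ 2 * (Psi R d g - Psi R (d - 1) g))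
      (fun g hg => mul_nonneg (sq_nonneg _) (hgood g (Finset.mem_filter.1 hg).2))
      (Finset.mem_filter.2 ⟨Finset.mem_univ _, hgood1⟩)
  have hsum2 : -((n.choose d : ℝ) / 10) ≤ ∑ g ∈ Finset.univ.filter (fun g : Perm (Fin n) => ¬ Good d Y g),
      (r g) ^ 2 * (Psi R d g - Psi R (d - 1) g) := by
    have h1 := hbad n hnN1 d hd hdn100 r hr
    have h2 : ∑ g ∈ Finset.univ.filter (fun g : Perm (Fin n) => ¬ Good d Y g),
        -((r g) ^ 2 * (II d g + II (d - 1) g)) ≤ ∑ g ∈ Finset.univ.filter (fun g : Perm (Fin n) => ¬ Good d Y g),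
      (r g) ^ 2 * (Psi R d g - Psi R (d - 1) g) := by
      refine Finset.sum_le_sum fun g _ => ?_
      have h3 := abs_le.1 (abs_Psi_le R hR d g)
      have h4 := abs_le.1 (abs_Psi_le R hR (d - 1) g)
      have h5 : -(II d g + II (d - 1) g) ≤ Psi R d g - Psi R (d - 1) g := by linarith [h3.1, h4.2]
      have h6 := mul_le_mul_of_nonneg_left h5 (sq_nonneg (r g))
      linarith
    rw [Finset.sum_neg_distrib] at h2
    have h3 : ∑ g ∈ Finset.univ.filter (fun g : Perm (Fin n) => ¬ Good d Y g),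
        (r g) ^ 2 * (II d g + II (d - 1) g) ≤ (n.choose d : ℝ) / 10 := by
      convert h1 using 2
    linarith
  rw [← Finset.sum_filter_add_sum_filter_not Finset.univ (fun g : Perm (Fin n) => Good d Y g)]
  linarith

end Pool.Agent.Helper51.TN
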