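import Pool.Agent.Helper51.TN.L1
import Pool.Agent.Helper51.TN.L2
import Pool.Agent.Helper1.TS.A0

/-!
BLOCK TN-C8 (about 80 lines). `dim HomE` for `P = pe ε` as an average.

Proof in words. `dim_hom` for `H = Perm (Fin (n-e)) × Perm (Fin e)`, `ρ_H = τ ∘ snd`, `σ_H = bil ρ ∘ jH h`, `P = pe ε` (`pe_idem`, `pe_pb`); `trace_bil_pe`; all characters of symmetric groups are real and
invariant under `g ↦ g⁻¹` (`char_perm_real`, `char_perm_inv`), `|H| = (n-e)! e!`, `Fintype.sum_prod_type`.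
-/

set_option autoImplicit false

open Module Equiv Pool.Agent.Helper1.TS Pool.Agent.Helper70.TU

namespace Pool.Agent.Helper51.TN

theorem finrank_pe {n e : ℕ} (h : e ≤ n) {V E : Type*} [AddCommGroup V] [Module ℂ V] [FiniteDimensional ℂ V]
    [AddCommGroup E] [Module ℂ E] [FiniteDimensional ℂ E] (ρ : Representation ℂ (Perm (Fin n)) V)
    (τ : Representation ℂ (Perm (Fin e)) E) (ε : ℝ) (hε : ε ^ 2 = 1) :
    (finrank ℂ (HomE h τ (bil ρ) (pe (ε : ℂ))) : ℝ) =
      avH h (fun g => ((ρ.character g).re ^ 2 + ε * (ρ.character (g ^ 2)).re) / 2)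
        (fun y => (τ.character y).re) := by
  classical
  have hε' : (ε : ℂ) ^ 2 = 1 := by exact_mod_cast hε
  have h1 := dim_hom (τ.comp (MonoidHom.snd (Perm (Fin (n - e))) (Perm (Fin e)))) ((bil ρ).comp (jH h)) (pe (ε : ℂ))
    (fun x => pe_idem _ hε' x) (fun p x => pe_pb (ε : ℂ) (ρ (jH h p)⁻¹) x)
  have hterm : ∀ p : Perm (Fin (n - e)) × Perm (Fin e),
      LinearMap.trace ℂ (Bil V) (((bil ρ).comp (jH h)) p ∘ₗ pe (ε : ℂ)) *
        Representation.character (τ.comp (MonoidHom.snd (Perm (Fin (n - e))) (Perm (Fin e)))) p⁻¹ =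
      (((((ρ.character (jT h p.1 * jD h p.2)).re ^ 2 + ε * (ρ.character ((jT h p.1 * jD h p.2) ^ 2)).re) / 2) *
        (τ.character p.2).re : ℝ) : ℂ) := by
    intro p
    have h2 := trace_bil_pe ρ (jH h p) (ε : ℂ)
    have h3 : (jH h p)⁻¹ ^ 2 = ((jH h p) ^ 2)⁻¹ := inv_pow _ _
    rw [h3, char_perm_inv, char_perm_inv, char_perm_real ρ (jH h p), char_perm_real ρ (jH h p ^ 2)] at h2
    have h4 : Representation.character (τ.comp (MonoidHom.snd (Perm (Fin (n - e))) (Perm (Fin e)))) p⁻¹ =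
        ((τ.character p.2).re : ℂ) := by
      have h5 : Representation.character (τ.comp (MonoidHom.snd (Perm (Fin (n - e))) (Perm (Fin e)))) p⁻¹ = τ.character (p.2)⁻¹ := rfl
      rw [h5, char_perm_inv, char_perm_real τ p.2]
      simp
    have h6 : LinearMap.trace ℂ (Bil V) (((bil ρ).comp (jH h)) p ∘ₗ pe (ε : ℂ)) =
        LinearMap.trace ℂ (Bil V) (bil ρ (jH h p) ∘ₗ pe (ε : ℂ)) := rfl
    rw [h6, h2, h4, ← jH_apply]
    push_cast
    ring
  rw [Finset.sum_congr rfl fun p _ => hterm p] at h1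
  have hcard : (Fintype.card (Perm (Fin (n - e)) × Perm (Fin e)) : ℝ) = ((n - e).factorial * e.factorial : ℝ) := by
    rw [Fintype.card_prod, Fintype.card_perm, Fintype.card_perm, Fintype.card_fin, Fintype.card_fin]
    push_cast
    ring
  have h7 : (Fintype.card (Perm (Fin (n - e)) × Perm (Fin e)) : ℝ) *
      (finrank ℂ (HomE h τ (bil ρ) (pe (ε : ℂ))) : ℝ) =
      ∑ p : Perm (Fin (n - e)) × Perm (Fin e),
        (((ρ.character (jT h p.1 * jD h p.2)).re ^ 2 + ε * (ρ.character ((jT h p.1 * jD h p.2) ^ 2)).re) / 2) *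
          (τ.character p.2).re := by
    exact_mod_cast h1
  rw [hcard, Fintype.sum_prod_type] at h7
  have hpos : (0 : ℝ) < ((n - e).factorial * e.factorial : ℝ) := by positivity
  unfold avH
  rw [eq_div_iff hpos.ne', mul_comm]
  exact h7

end Pool.Agent.Helper51.TN
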