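import Mathlib

/-!
BLOCK TN-C9 (about 80 lines). Binomial coefficients beat `exp (C √n)`.

Proof in words. Let `d₀ = ⌈γ √n⌉ ≤ d`. `binom(n, d₀) ≤ binom(n, d)` since `d₀ ≤ d ≤ n/2` (`Nat.choose_le_choose`-type monotonicity: `Nat.choose_mono`/`Nat.choose_le_middle` arguments; induction with
`Nat.choose_succ_right_eq`). `binom(n, d₀) ≥ (n/d₀)^{d₀}` (each factor `(n-i)/(d₀-i) ≥ n/d₀`; Mathlib: `Nat.pow_le_choose`). `d₀ ≤ (γ+1) √n`, so `binom(n,d₀) ≥ (√n/(γ+1))^{d₀} ≥ exp (C/γ)^{d₀} ≥ exp (C √n)` as soon as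
`√n/(γ+1) ≥ exp (C/γ)`.
-/

set_option autoImplicit false

namespace Pool.Agent.Helper51.TN

private theorem choose_mono6 (n : ℕ) : ∀ k a : ℕ, a + k ≤ n / 2 → n.choose a ≤ n.choose (a + k) := by
  intro k
  induction k with
  | zero => intro a _; simp
  | succ k ih =>
    intro a h
    have h1 := ih a (by omega)
    have h2 : n.choose (a + k) ≤ n.choose (a + k + 1) :=
      Nat.choose_le_succ_of_lt_half_left (by omega)
    have : a + (k + 1) = a + k + 1 := by ring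
    rw [this]
    exact h1.trans h2

private theorem choose_lower6 (n r : ℕ) (hr : 0 < r) (h2 : 2 * r ≤ n) :
    ((n : ℝ) / (2 * r)) ^ r ≤ (n.choose r : ℝ) := by
  have h := Nat.pow_le_choose (α := ℝ) r n
  refine le_trans ?_ h
  have hf : (0 : ℝ) < (r.factorial : ℝ) := by exact_mod_cast r.factorial_pos
  rw [le_div_iff₀ hf]
  have hfp : (r.factorial : ℝ) ≤ (r : ℝ) ^ r := by exact_mod_cast Nat.factorial_le_pow r
  have hr0 : (0 : ℝ) < (r : ℝ) := by exact_mod_cast hr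
  have hn0 : (0 : ℝ) ≤ (n : ℝ) := Nat.cast_nonneg n
  calc ((n : ℝ) / (2 * r)) ^ r * (r.factorial : ℝ)
      ≤ ((n : ℝ) / (2 * r)) ^ r * (r : ℝ) ^ r := by
        apply mul_le_mul_of_nonneg_left hfp
        positivity
    _ = ((n : ℝ) / 2) ^ r := by
        rw [← mul_pow]
        congr 1
        field_simp
    _ ≤ ((n + 1 - r : ℕ) : ℝ) ^ r := by
        apply pow_le_pow_left₀ (by positivity)
        rw [div_le_iff₀ (by norm_num)]
        have : n ≤ (n + 1 - r) * 2 := by omega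
        exact_mod_cast this

theorem choose_large (C γ : ℝ) (hC : 0 ≤ C) (hγ : 0 < γ) : ∃ N : ℕ, ∀ n ≥ N, ∀ d : ℕ,
    γ * Real.sqrt n ≤ d → (d : ℝ) ≤ n / 100 → Real.exp (C * Real.sqrt n) ≤ (n.choose d : ℝ) := by
  set K : ℝ := 2 * (γ + 1) * Real.exp (C / γ) with hK
  have hKpos : 0 < K := by positivity
  refine ⟨⌈K ^ 2⌉₊ + 1, ?_⟩
  intro n hn d hd1 hd2
  have hn1 : 1 ≤ n := by omega
  have hnR1 : (1 : ℝ) ≤ (n : ℝ) := by exact_mod_cast hn1
  have hK2 : K ^ 2 ≤ (n : ℝ) := by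
    have h1 : K ^ 2 ≤ (⌈K ^ 2⌉₊ : ℝ) := Nat.le_ceil _
    have h2 : ((⌈K ^ 2⌉₊ + 1 : ℕ) : ℝ) ≤ (n : ℝ) := by exact_mod_cast hn
    push_cast at h2
    linarith
  have hsK : K ≤ Real.sqrt n := by
    rw [show K = Real.sqrt (K ^ 2) by rw [Real.sqrt_sq hKpos.le]]
    exact Real.sqrt_le_sqrt hK2
  have hs1 : 1 ≤ Real.sqrt n := by
    rw [show (1 : ℝ) = Real.sqrt 1 by simp]
    exact Real.sqrt_le_sqrt hnR1
  have hs0 : 0 < Real.sqrt n := by linarith
  have hss : Real.sqrt n * Real.sqrt n = (n : ℝ) := Real.mul_self_sqrt (by positivity)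
  set r : ℕ := ⌈γ * Real.sqrt n⌉₊ with hr
  have hrd : r ≤ d := by
    rw [hr]
    exact Nat.ceil_le.mpr hd1
  have hr0 : 0 < r := by
    rw [hr]
    exact Nat.ceil_pos.mpr (by positivity)
  have hrle : (r : ℝ) ≤ (γ + 1) * Real.sqrt n := by
    have := Nat.ceil_lt_add_one (show 0 ≤ γ * Real.sqrt n by positivity)
    rw [← hr] at this
    nlinarith
  have hrge : γ * Real.sqrt n ≤ (r : ℝ) := by
    rw [hr]
    exact Nat.le_ceil _
  have hd3 : 100 * d ≤ n := by
    have h : (100 : ℝ) * d ≤ n := by linarith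
    exact_mod_cast h
  have hrR : (0 : ℝ) < (r : ℝ) := by exact_mod_cast hr0
  have hmono : n.choose r ≤ n.choose d := by
    have := choose_mono6 n (d - r) r (by omega)
    rwa [Nat.add_sub_cancel' hrd] at this
  have hlow := choose_lower6 n r hr0 (by omega)
  have hbase : Real.exp (C / γ) ≤ (n : ℝ) / (2 * r) := by
    rw [le_div_iff₀ (by positivity)]
    have h1 : Real.exp (C / γ) * (2 * (r : ℝ)) ≤ Real.exp (C / γ) * (2 * ((γ + 1) * Real.sqrt n)) := by
      apply mul_le_mul_of_nonneg_left _ (Real.exp_pos _).le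
      linarith
    have h2 : Real.exp (C / γ) * (2 * ((γ + 1) * Real.sqrt n)) = K * Real.sqrt n := by
      rw [hK]; ring
    have h3 : K * Real.sqrt n ≤ Real.sqrt n * Real.sqrt n :=
      mul_le_mul_of_nonneg_right hsK hs0.le
    rw [hss] at h3
    linarith
  calc Real.exp (C * Real.sqrt n) ≤ Real.exp ((r : ℝ) * (C / γ)) := by
        apply Real.exp_le_exp.mpr
        rw [show C * Real.sqrt n = (γ * Real.sqrt n) * (C / γ) by field_simp]
        exact mul_le_mul_of_nonneg_right hrge (by positivity)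
    _ = Real.exp (C / γ) ^ r := by
        rw [← Real.exp_nat_mul]
    _ ≤ ((n : ℝ) / (2 * r)) ^ r := pow_le_pow_left₀ (Real.exp_pos _).le hbase r
    _ ≤ (n.choose r : ℝ) := hlow
    _ ≤ (n.choose d : ℝ) := by exact_mod_cast hmono

end Pool.Agent.Helper51.TN
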