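import Pool.Agent.Helper51.TN.B8
import Pool.Agent.Helper51.TN.C10
import Pool.Agent.Helper51.TN.A6
import Pool.Agent.Helper70.TU.FIN

/-!
TN-FIN: assembly of Theorem N.

`U` from `exists_V`. For a simple `W` let `d` be its depth (the least `d` with a nonzero vector fixed by `Sym {i ≥ d}`).
`d + 6 ≤ |CC U|`: `shallow_sym`, `shallow_alt`. Otherwise `d ≥ √n/20`; if `d ≤ δ n`: `medium`, `exists_new`, `of_new`.
If `d > δ n`: `W` has no vector fixed by `Sym (n - d + 1)`, and `main_bal_of` of `Helper70/TU/FIN.lean` applies.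
-/

set_option autoImplicit false

open Module Equiv CategoryTheory Pool.Agent.Helper1.TS Pool.Agent.Helper70.TU

namespace Pool.Agent.Helper51.TN

theorem exists_depth {n : ℕ} {X : Type*} [AddCommGroup X] [Module ℂ X] [FiniteDimensional ℂ X]
    (θ : Representation ℂ (Perm (Fin n)) X) (h : ∃ w : X, w ≠ 0) : ∃ d, IsDepth θ d := by
  classical
  obtain ⟨w, hw⟩ := h
  have h0 : inv θ (TT n n) ≠ ⊥ := by
    intro h1
    have h2 : w ∈ inv θ (TT n n) := by
      intro x hx
      have h3 : x = 1 := by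
        refine Equiv.ext fun i => ?_
        by_contra hne
        have := mem_TT.1 (hx (Perm.mem_support.2 hne))
        omega
      rw [h3, map_one, Module.End.one_apply]
    rw [h1, Submodule.mem_bot] at h2
    exact hw h2
  have h1 : ∃ d, inv θ (TT n d) ≠ ⊥ := ⟨n, h0⟩
  exact ⟨Nat.find h1, Nat.find_min' h1 h0, Nat.find_spec h1, fun e he => not_not.1 (Nat.find_min h1 he)⟩

/-- The medium case. -/
theorem of_lt {n : ℕ} {V W : Type} [AddCommGroup V] [Module ℂ V] [FiniteDimensional ℂ V]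
    [AddCommGroup W] [Module ℂ W] [FiniteDimensional ℂ W]
    (ρ : Representation ℂ (Perm (Fin n)) V) (θ : Representation ℂ (Perm (Fin n)) W) [θ.IsIrreducible]
    {e : ℕ} (hd : IsDepth θ (e + 1)) (ε : ℝ) (hε : ε ^ 2 = 1)
    (h : finrank ℂ (HomE ((Nat.le_succ e).trans hd.1) ((rhoE θ hd.1).comp (jD (Nat.le_succ e))) (bil ρ)
        (pe (ε : ℂ))) < finrank ℂ (HomE hd.1 (rhoE θ hd.1) (bil ρ) (pe (ε : ℂ)))) :
    ∑ g : Perm (Fin n), (ρ.character g ^ 2 + (ε : ℂ) * ρ.character (g ^ 2)) / 2 * θ.character g⁻¹ ≠ 0 := by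
  obtain ⟨f, hf0, hf1, hf2, hf3⟩ := exists_new hd.1 (rhoE θ hd.1) (bil ρ) (pe (ε : ℂ)) (pe (ε : ℂ))
    (fun z _ hz => by rw [pe_qq, hz]) h
  exact of_new ρ θ hd (ε : ℂ) (by exact_mod_cast hε) f hf0 hf1 hf2 hf3

/-- `exp (6 √s) w^s ≤ exp (9/t) (√w)^s` with `t = - log √w`. -/
theorem exp_bound (w : ℝ) (h0 : 0 < w) (h1 : w < 1) (s : ℕ) :
    Real.exp (6 * Real.sqrt s) * w ^ s ≤ Real.exp (9 / (-Real.log (Real.sqrt w))) * (Real.sqrt w) ^ s := by
  have hw : 0 < Real.sqrt w := Real.sqrt_pos.2 h0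
  have hw1 : Real.sqrt w < 1 := by
    rw [Real.sqrt_lt' one_pos]
    simpa using h1
  have ht : 0 < -Real.log (Real.sqrt w) := by
    have := Real.log_neg hw hw1
    linarith
  set t := -Real.log (Real.sqrt w) with htd
  have hs : (0 : ℝ) ≤ s := Nat.cast_nonneg s
  have h2 : Real.sqrt w = Real.exp (-t) := by
    rw [htd, neg_neg, Real.exp_log hw]
  have h3 : w ^ s = Real.sqrt w ^ s * Real.sqrt w ^ s := by
    rw [← mul_pow, Real.mul_self_sqrt h0.le]
  rw [h3, ← mul_assoc]
  refine mul_le_mul_of_nonneg_right ?_ (by positivity)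
  rw [h2, ← Real.exp_nat_mul, ← Real.exp_add]
  refine Real.exp_le_exp.2 ?_
  have h4 := Real.sq_sqrt hs
  have h5 : 0 ≤ (t * Real.sqrt s - 3) ^ 2 := sq_nonneg _
  have h6 : (t * Real.sqrt s - 3) ^ 2 = t * (t * s - 6 * Real.sqrt s) + 9 := by
    calc (t * Real.sqrt s - 3) ^ 2 = t * (t * (Real.sqrt s ^ 2) - 6 * Real.sqrt s) + 9 := by ring
      _ = _ := by rw [h4]
  rw [h6] at h5
  have h7 : -(9 / t) ≤ t * s - 6 * Real.sqrt s := by
    rw [neg_le_iff_add_nonneg]
    have h8 : t * s - 6 * Real.sqrt s + 9 / t = (t * (t * s - 6 * Real.sqrt s) + 9) / t := by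
      field_simp
    rw [h8]
    positivity
  linarith

/-- The bound for the second moments. -/
noncomputable def bigA (w : ℝ) : ℝ :=
  if 0 < w ∧ w < 1 then
    1 + 240 * Real.exp (9 / (-Real.log (Real.sqrt w))) / (1 - Real.sqrt w) +
      30 * Real.exp (9 / (-Real.log (Real.sqrt w)))
  else 1

theorem one_le_bigA (w : ℝ) : 1 ≤ bigA w := by
  unfold bigA
  split_ifs with h
  · have hw1 : Real.sqrt w < 1 := by
      rw [Real.sqrt_lt' one_pos]
      simpa using h.2
    have h2 : 0 < 1 - Real.sqrt w := by linarith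
    have h3 : 0 ≤ 240 * Real.exp (9 / (-Real.log (Real.sqrt w))) / (1 - Real.sqrt w) := by positivity
    have h4 : 0 ≤ 30 * Real.exp (9 / (-Real.log (Real.sqrt w))) := by positivity
    linarith
  · exact le_rfl

theorem sum_w_le {n : ℕ} (U : FDRep ℂ (Perm (Fin n))) (hU : Simple U)
    (hs : ∀ s : ℕ, 1 ≤ s →
      ∑ g ∈ Finset.univ.filter (fun g : Perm (Fin n) => g.support.card = s), (rr U.ρ g) ^ 2 ≤
        240 * Real.exp (6 * Real.sqrt s)) (w : ℝ) (h0 : 0 < w) (h1 : w < 1) :
    ∑ g : Perm (Fin n), (rr U.ρ g) ^ 2 * w ^ g.support.card ≤ bigA w := by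
  classical
  have hw1 : Real.sqrt w < 1 := by
    rw [Real.sqrt_lt' one_pos]
    simpa using h1
  have hw0 : 0 ≤ Real.sqrt w := Real.sqrt_nonneg _
  have h2 : 0 < 1 - Real.sqrt w := by linarith
  set E : ℝ := Real.exp (9 / (-Real.log (Real.sqrt w))) with hE
  have hE0 : 0 < E := Real.exp_pos _
  have hirr := irr_of_simple U hU
  have e1 : ∑ g : Perm (Fin n), (rr U.ρ g) ^ 2 * w ^ g.support.card =
      ∑ s ∈ Finset.range (n + 1), (∑ g ∈ Finset.univ.filter (fun g : Perm (Fin n) => g.support.card = s),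
        (rr U.ρ g) ^ 2) * w ^ s := by
    rw [← Finset.sum_fiberwise_of_maps_to (s := Finset.univ) (t := Finset.range (n + 1))
      (g := fun g : Perm (Fin n) => g.support.card)]
    · refine Finset.sum_congr rfl fun s _ => ?_
      rw [Finset.sum_mul]
      refine Finset.sum_congr rfl fun g hg => ?_
      rw [(Finset.mem_filter.1 hg).2]
    · intro g _
      rw [Finset.mem_range]
      have := Finset.card_le_univ g.support
      rw [Fintype.card_fin] at this
      omega
  have e2 : ∀ s ∈ Finset.range (n + 1),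
      (∑ g ∈ Finset.univ.filter (fun g : Perm (Fin n) => g.support.card = s), (rr U.ρ g) ^ 2) * w ^ s ≤
        (if s = 0 then 1 else 0) + 240 * E * (Real.sqrt w) ^ s := by
    intro s _
    rcases Nat.eq_zero_or_pos s with rfl | hs1
    · have e3 : Finset.univ.filter (fun g : Perm (Fin n) => g.support.card = 0) = {1} := by
        ext g
        rw [Finset.mem_filter, Finset.mem_singleton, Finset.card_eq_zero, Perm.support_eq_empty_iff]
        simp
      rw [e3, Finset.sum_singleton, if_pos rfl, pow_zero, pow_zero]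
      have e4 : |rr U.ρ 1| ≤ 1 := abs_rr_le_one U.ρ 1
      have e5 : (rr U.ρ 1) ^ 2 ≤ 1 := (sq_le_one_iff_abs_le_one _).2 e4
      linarith
    · rw [if_neg (by omega), zero_add]
      have e4 := mul_le_mul_of_nonneg_right (hs s hs1) (by positivity : (0 : ℝ) ≤ w ^ s)
      refine e4.trans ?_
      have e5 := exp_bound w h0 h1 s
      rw [mul_assoc, mul_assoc]
      exact mul_le_mul_of_nonneg_left e5 (by norm_num)
  rw [e1]
  refine (Finset.sum_le_sum e2).trans ?_
  rw [Finset.sum_add_distrib, ← Finset.mul_sum]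
  have e6 : ∑ s ∈ Finset.range (n + 1), (if s = 0 then (1 : ℝ) else 0) = 1 := by
    rw [Finset.sum_ite_eq' (Finset.range (n + 1)) 0 (fun _ => (1 : ℝ)), if_pos (by simp)]
  have e7 : ∑ s ∈ Finset.range (n + 1), (Real.sqrt w) ^ s ≤ 1 / (1 - Real.sqrt w) := by
    rw [geom_sum_eq (by linarith), ← neg_div_neg_eq, neg_sub, neg_sub]
    have : 0 ≤ (Real.sqrt w) ^ (n + 1) := by positivity
    gcongr
    linarith
  rw [e6]
  unfold bigA
  rw [if_pos ⟨h0, h1⟩, ← hE]
  have e8 : 240 * E * ∑ s ∈ Finset.range (n + 1), (Real.sqrt w) ^ s ≤ 240 * E * (1 / (1 - Real.sqrt w)) :=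
    mul_le_mul_of_nonneg_left e7 (by positivity)
  have e9 : 240 * E * (1 / (1 - Real.sqrt w)) = 240 * E / (1 - Real.sqrt w) := by ring
  linarith

theorem poly_le (n : ℕ) : 10 * ((n : ℝ) + 1) * Real.exp (5 * Real.sqrt n) ≤ 30 * Real.exp (6 * Real.sqrt n) := by
  have h0 : (0 : ℝ) ≤ n := Nat.cast_nonneg n
  have h1 := Real.pow_div_factorial_le_exp (Real.sqrt n) (Real.sqrt_nonneg _) 2
  rw [Real.sq_sqrt h0, show ((Nat.factorial 2 : ℕ) : ℝ) = 2 by norm_num [Nat.factorial]] at h1
  have h2 : 1 ≤ Real.exp (Real.sqrt n) := Real.one_le_exp (Real.sqrt_nonneg _)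
  have h3 : Real.exp (6 * Real.sqrt n) = Real.exp (Real.sqrt n) * Real.exp (5 * Real.sqrt n) := by
    rw [← Real.exp_add]
    congr 1
    ring
  rw [h3, ← mul_assoc]
  refine mul_le_mul_of_nonneg_right ?_ (Real.exp_pos _).le
  linarith

theorem dim_u_le {n : ℕ} (D : ℝ) (hD : 0 ≤ D)
    (hd : (n.factorial : ℝ) ≤ 10 * (n + 1) * Real.exp (5 * Real.sqrt n) * D) (u : ℝ) (h0 : 0 < u)
    (h1 : u < 1) : (n.factorial : ℝ) * u ^ n ≤ bigA u * D := by
  have hw1 : Real.sqrt u < 1 := by
    rw [Real.sqrt_lt' one_pos]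
    simpa using h1
  have hw0 : 0 ≤ Real.sqrt u := Real.sqrt_nonneg _
  have h2 : 0 < 1 - Real.sqrt u := by linarith
  have h3 : (n.factorial : ℝ) ≤ 30 * Real.exp (6 * Real.sqrt n) * D :=
    hd.trans (mul_le_mul_of_nonneg_right (poly_le n) hD)
  have h4 := mul_le_mul_of_nonneg_right h3 (by positivity : (0 : ℝ) ≤ u ^ n)
  refine h4.trans ?_
  have h5 := exp_bound u h0 h1 n
  set E : ℝ := Real.exp (9 / (-Real.log (Real.sqrt u))) with hE
  have hE0 : 0 < E := Real.exp_pos _
  have h6 : (Real.sqrt u) ^ n ≤ 1 := pow_le_one₀ hw0 hw1.le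
  have h7 : Real.exp (6 * Real.sqrt n) * u ^ n ≤ E := by
    refine h5.trans ?_
    calc E * (Real.sqrt u) ^ n ≤ E * 1 := mul_le_mul_of_nonneg_left h6 hE0.le
      _ = E := mul_one _
  have h8 : 30 * Real.exp (6 * Real.sqrt n) * D * u ^ n = 30 * (Real.exp (6 * Real.sqrt n) * u ^ n) * D := by ring
  rw [h8]
  refine mul_le_mul_of_nonneg_right ?_ hD
  unfold bigA
  rw [if_pos ⟨h0, h1⟩, ← hE]
  have h9 : 0 ≤ 240 * E / (1 - Real.sqrt u) := by positivity
  linarith

private theorem card_Ik (n k : ℕ) (hk : k ≤ n) :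
    (Finset.univ.filter (fun i : Fin n => (i : ℕ) < k)).card = k := by
  have h1 : (Finset.univ.filter (fun i : Fin n => (i : ℕ) < k)).map Fin.valEmbedding =
      Finset.range k := by
    ext j
    rw [Finset.mem_map, Finset.mem_range]
    constructor
    · rintro ⟨i, hi, rfl⟩
      exact (Finset.mem_filter.1 hi).2
    · intro hj
      exact ⟨⟨j, hj.trans_le hk⟩, Finset.mem_filter.2 ⟨Finset.mem_univ _, hj⟩, rfl⟩
  rw [← Finset.card_map Fin.valEmbedding, h1, Finset.card_range]

private theorem card_TT51 (n d : ℕ) : (TT n d).card = n - d := by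
  rcases Nat.lt_or_ge n d with h | h
  · have : TT n d = ∅ := by
      rw [Finset.eq_empty_iff_forall_notMem]
      intro i hi
      have := mem_TT.1 hi
      omega
    rw [this, Finset.card_empty]
    omega
  · have h1 : TT n d = (Finset.univ.filter (fun i : Fin n => (i : ℕ) < d))ᶜ := by
      ext i
      rw [mem_TT, Finset.mem_compl, Finset.mem_filter]
      simp
    rw [h1, Finset.card_compl, card_Ik n d h, Fintype.card_fin]

/-- **Theorem N.** -/
theorem final (ε : ℝ) (hε : 0 < ε) (hε1 : ε < 1) : ∃ N : ℕ, ∀ n ≥ N,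
    ∃ V : FDRep ℂ (Perm (Fin n)), Simple V ∧
      ∀ W : FDRep ℂ (Perm (Fin n)), Simple W →
        ((∀ w : W, w ≠ 0 → ∃ g : Perm (Fin n), (∀ i : Fin n, (1 - ε) * n ≤ (i : ℕ) → g i = i) ∧
            W.ρ g w ≠ ((Perm.sign g : ℤ) : ℂ) • w) ∨
          (n.factorial : ℝ) ^ ε ≤ finrank ℂ W) →
        (∑ g : Perm (Fin n), ((V.character g ^ 2 + V.character (g ^ 2)) / 2) *
          W.character g⁻¹) ≠ 0 ∧
        ((∀ w : W, w ≠ 0 → ∃ g : Perm (Fin n), (∀ i : Fin n, (i : ℕ) < 2 ↔ (g i : ℕ) < 2) ∧ W.ρ g w ≠ w) →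
          (∑ g : Perm (Fin n), ((V.character g ^ 2 - V.character (g ^ 2)) / 2) *
            W.character g⁻¹) ≠ 0) := by
  classical
  obtain ⟨N₀, hV⟩ := exists_V
  obtain ⟨δ, N₁, hδ0, hδ1, hmed⟩ := medium 240 (1 / 20) (by norm_num) (by norm_num)
  set ε' : ℝ := min ε δ / 2 with hε'
  have hm0 : 0 < min ε δ := lt_min hε hδ0
  have hε'0 : 0 < ε' := by rw [hε']; linarith
  have hm1 : min ε δ ≤ ε := min_le_left _ _
  have hm2 : min ε δ ≤ δ := min_le_right _ _
  have hε'1 : ε' < 1 := by rw [hε']; linarith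
  obtain ⟨N₂, hbal⟩ := main_bal_of ε' hε'0 hε'1 bigA one_le_bigA
  obtain ⟨N₃, hN₃⟩ := real_bound_eps ε hε hε1
  obtain ⟨N₄, hN₄⟩ := exists_nat_gt (4 / min ε δ)
  refine ⟨max (max N₀ N₁) (max (max N₂ N₃) (max N₄ 10000)), fun n hn => ?_⟩
  have hn0 : N₀ ≤ n := (le_max_left _ _).trans ((le_max_left _ _).trans hn)
  have hn1 : N₁ ≤ n := (le_max_right _ _).trans ((le_max_left _ _).trans hn)
  have hn2 : N₂ ≤ n := (le_max_left _ _).trans ((le_max_left _ _).trans ((le_max_right _ _).trans hn))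
  have hn3 : N₃ ≤ n := (le_max_right _ _).trans ((le_max_left _ _).trans ((le_max_right _ _).trans hn))
  have hn4 : N₄ ≤ n := (le_max_left _ _).trans ((le_max_right _ _).trans ((le_max_right _ _).trans hn))
  have hn5 : 10000 ≤ n := (le_max_right _ _).trans ((le_max_right _ _).trans ((le_max_right _ _).trans hn))
  have hnr : (10000 : ℝ) ≤ n := by exact_mod_cast hn5
  have hnm : 4 / min ε δ < n := hN₄.trans_le (by exact_mod_cast hn4)
  have hnm2 : 4 < min ε δ * n := by
    rw [div_lt_iff₀ hm0] at hnm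
    linarith
  have hs100 : 100 ≤ Real.sqrt n := by
    rw [show (100 : ℝ) = Real.sqrt 10000 by
      rw [show (10000 : ℝ) = 100 ^ 2 by norm_num, Real.sqrt_sq (by norm_num)]]
    exact Real.sqrt_le_sqrt hnr
  obtain ⟨U, hU, hVs, hdim, hc⟩ := hV n hn0
  refine ⟨U, hU, fun W hW halt => ?_⟩
  have hirrU := irr_of_simple U hU
  have hirrW := irr_of_simple W hW
  have hW0 : ∃ w : W, w ≠ 0 := by
    have h1 : 0 < finrank ℂ W := finrank_pos_of_irr W hW
    have h2 : Nontrivial W := finrank_pos_iff.1 h1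
    exact exists_ne 0
  obtain ⟨d, hd⟩ := exists_depth W.ρ hW0
  have hchar : ∀ (X : FDRep ℂ (Perm (Fin n))) (g : Perm (Fin n)), X.character g = Representation.character X.ρ g :=
    fun _ _ => rfl
  -- it is enough to have the two sums in the other form
  have hred1 : (∑ g : Perm (Fin n), (Representation.character U.ρ g ^ 2 + ((1 : ℝ) : ℂ) * Representation.character U.ρ (g ^ 2)) / 2 *
      Representation.character W.ρ g⁻¹ ≠ 0) → (∑ g : Perm (Fin n), ((U.character g ^ 2 + U.character (g ^ 2)) / 2) *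
          W.character g⁻¹) ≠ 0 := by
    intro h1 h2
    apply h1
    rw [← h2]
    refine Finset.sum_congr rfl fun g _ => ?_
    rw [Complex.ofReal_one, one_mul]
    rfl
  have hred2 : (∑ g : Perm (Fin n), (Representation.character U.ρ g ^ 2 + ((-1 : ℝ) : ℂ) * Representation.character U.ρ (g ^ 2)) / 2 *
      Representation.character W.ρ g⁻¹ ≠ 0) → (∑ g : Perm (Fin n), ((U.character g ^ 2 - U.character (g ^ 2)) / 2) *
          W.character g⁻¹) ≠ 0 := by
    intro h1 h2
    apply h1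
    rw [← h2]
    refine Finset.sum_congr rfl fun g _ => ?_
    rw [Complex.ofReal_neg, Complex.ofReal_one, neg_one_mul, ← sub_eq_add_neg]
    rfl
  rcases le_or_gt (d + 6) (CC U.ρ).card with hsmall | hbig
  · -- small depth
    refine ⟨hred1 (shallow_sym U.ρ W.ρ hd hsmall), fun hno => hred2 (shallow_alt (by omega) U.ρ W.ρ hd hsmall ?_)⟩
    intro w hw
    by_contra hw0
    obtain ⟨g, hg, hgw⟩ := hno w hw0
    exact hgw (hw g fun i hi => (hg i).1 hi)
  · have hdl : Real.sqrt n / 20 ≤ d := by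
      have h1 : ((CC U.ρ).card : ℝ) < d + 6 := by exact_mod_cast hbig
      have h2 : ((CC U.ρ).card : ℝ) ≤ d + 5 := by
        have : (CC U.ρ).card ≤ d + 5 := by omega
        exact_mod_cast this
      linarith
    have hdpos : 0 < d := by
      rcases Nat.eq_zero_or_pos d with h | h
      · rw [h] at hdl
        push_cast at hdl
        linarith
      · exact h
    rcases le_or_gt (d : ℝ) (δ * n) with hmid | hlarge
    · -- medium depth
      obtain ⟨e, rfl⟩ : ∃ e, d = e + 1 := ⟨d - 1, by omega⟩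
      have h240 : ∀ s : ℕ, (0 : ℝ) ≤ Real.sqrt s := fun s => Real.sqrt_nonneg _
      have hs' : ∀ s : ℕ, 1 ≤ s →
          ∑ g ∈ Finset.univ.filter (fun g : Perm (Fin n) => g.support.card = s), (rr U.ρ g) ^ 2 ≤
            240 * Real.exp (240 * Real.sqrt s) := by
        intro s hs
        refine (hVs s hs).trans ?_
        refine mul_le_mul_of_nonneg_left (Real.exp_le_exp.2 ?_) (by norm_num)
        have := h240 s
        linarith
      have hdim' : (n.factorial : ℝ) ≤ 240 * Real.exp (240 * Real.sqrt n) * (finrank ℂ U : ℝ) ^ 2 := by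
        refine hdim.trans ?_
        refine mul_le_mul_of_nonneg_right ((poly_le n).trans ?_) (by positivity)
        have h1 : Real.exp (6 * Real.sqrt n) ≤ Real.exp (240 * Real.sqrt n) := by
          refine Real.exp_le_exp.2 ?_
          have := h240 n
          linarith
        have h2 := Real.exp_pos (6 * Real.sqrt n)
        linarith
      have hγ : 1 / 20 * Real.sqrt n ≤ ((e + 1 : ℕ) : ℝ) := by
        have : Real.sqrt n / 20 = 1 / 20 * Real.sqrt n := by ring
        rw [← this]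
        exact hdl
      have key : ∀ η : ℝ, η ^ 2 = 1 →
          ∑ g : Perm (Fin n), (Representation.character U.ρ g ^ 2 + (η : ℂ) * Representation.character U.ρ (g ^ 2)) / 2 *
            Representation.character W.ρ g⁻¹ ≠ 0 := by
        intro η hη
        have hirrE : (rhoE W.ρ hd.1).IsIrreducible := rhoE_irr W.ρ hd
        exact of_lt U.ρ W.ρ hd η hη (hmed n hn1 U U.ρ hs' hdim' e hd.1 hγ hmid (inv W.ρ (TT n (e + 1)))
          (rhoE W.ρ hd.1) η hη)
      exact ⟨hred1 (key 1 (by norm_num)), fun _ => hred2 (key (-1) (by norm_num))⟩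
    · -- large depth
      have hdn : d ≤ n := hd.1
      set a : ℝ := (1 - ε) * n with ha
      have ha0 : 0 ≤ a := mul_nonneg (by linarith) (by linarith)
      have han : a ≤ n := by
        rw [ha]
        have : 0 ≤ ε * n := by positivity
        linarith
      set k : ℕ := max ⌈a⌉₊ (n - (d - 1)) with hk
      have hkn : k ≤ n := max_le (Nat.ceil_le.2 han) (Nat.sub_le _ _)
      have hk1 : a ≤ k := (Nat.le_ceil a).trans (by exact_mod_cast le_max_left _ _)
      have hk2 : (k : ℝ) ≤ (1 - ε') * n := by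
        have h1 : ((⌈a⌉₊ : ℕ) : ℝ) ≤ (1 - ε') * n := by
          have h2 := (Nat.ceil_lt_add_one ha0).le
          refine h2.trans ?_
          rw [ha, hε']
          nlinarith
        have h2 : (((n - (d - 1) : ℕ) : ℕ) : ℝ) ≤ (1 - ε') * n := by
          rw [Nat.cast_sub (by omega), Nat.cast_sub (by omega)]
          push_cast
          rw [hε']
          nlinarith
        rw [hk, Nat.cast_max]
        exact max_le h1 h2
      set K₀ : Finset (Fin n) := Finset.univ.filter (fun i : Fin n => (i : ℕ) < k) with hK₀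
      have hKc : K₀.card = k := card_Ik n k hkn
      have hfix : inv W.ρ K₀ = ⊥ := by
        refine inv_bot_of_card W.ρ K₀ (TT n (d - 1)) ?_ (hd.2.2 (d - 1) (by omega))
        rw [card_TT51, hKc]
        exact le_max_right _ _
      have hB : Bal W.ρ K₀.card := by
        refine bal_conj W.ρ K₀ (fun v hv => ?_) (fun v hv => ?_)
        · have h1 : v ∈ inv W.ρ K₀ := hv
          rw [hfix, Submodule.mem_bot] at h1
          exact h1
        · by_contra h0
          rcases halt with halt | halt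
          · obtain ⟨g, hg1, hg2⟩ := halt v h0
            refine hg2 (hv g ?_)
            intro i hi
            refine Finset.mem_filter.2 ⟨Finset.mem_univ _, ?_⟩
            by_contra hcon
            refine (Perm.mem_support.1 hi) (hg1 i ?_)
            have h2 : ((k : ℕ) : ℝ) ≤ (i : ℕ) := by exact_mod_cast not_lt.1 hcon
            linarith
          · have h1 := dim_le_of_fixed W.ρ K₀ v h0 (Or.inr hv)
            have hb := hN₃ n hn3 K₀.card (by rw [hKc]; exact hkn) (by rw [hKc]; exact hk1)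
            exact absurd (halt.trans h1) (not_le.2 hb)
      have h1 := hbal n hn2 U hU (fun w h0 h1 => sum_w_le U hU hVs w h0 h1)
        (fun u h0 h1 => dim_u_le _ (by positivity) hdim u h0 h1) K₀.card (by rw [hKc]; exact hk2) W hW hB
      exact ⟨h1.1, fun _ => h1.2⟩

end Pool.Agent.Helper51.TN
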