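import Pool.Agent.Helper51.TN.Defs

/-!
BLOCK TN-L3 (about 180 lines). The operators `Q_a` and the new vectors.

Proofs in words (`inv σ K` = vectors fixed by the permutations with support in `K`).
* `qq_mem`: let `x` have support in `insert a T`, `y ∈ insert a T`, `y' = x y ∈ insert a T`. The permutation `(a y')⁻¹ x (a y)` fixes `a` (`a ↦ y ↦ y' ↦ a`)
  and has support in `insert a T`, so in `T`, and fixes `z`. So `σ x (σ (swap a y) z) = σ (swap a y') z`; sum over `y` (`y ↦ x y` permutes
  `insert a T`). `Equiv.swap a a = 1`.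
* `TT_insert`: clear.
* `New_stable`: for `u = jD h y` (which maps points `< d` to points `< d` and fixes the points `≥ d`): `σ u z ∈ inv` (`jD_support_mem`), and
  `swap a t * u = u * swap (u⁻¹ a) t` for `t ∈ TT n d`, so `qq σ T a (σ u z) = σ u (qq σ T (u⁻¹ a) z) = 0` (the terms `y = a` and `y = u⁻¹ a` are `σ 1`).
* `inv_bot_of_card`: a permutation `g` maps `K'` into `K`; `v ∈ inv θ K` implies `θ g⁻¹ v ∈ inv θ K' = ⊥`.
* `inv_le_New`: for `a < d`, `v ∈ inv θ (TT n d)`: `qq θ (TT n d) a v ∈ inv θ (insert a (TT n d)) = ⊥` by `qq_mem` and `inv_bot_of_card` with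
  `K' = TT n (d-1)` (which is `⊥` by `IsDepth`; both have `n - d + 1` elements).
* `inv_eq`: `jT` parametrizes the permutations with support in `TT n e`.
-/

set_option autoImplicit false

open Module Equiv Pool.Agent.Helper1.TS Pool.Agent.Helper70.TU

namespace Pool.Agent.Helper51.TN

variable {n : ℕ} {X : Type*} [AddCommGroup X] [Module ℂ X]

private theorem maps53 (x : Perm (Fin n)) (S : Finset (Fin n)) (hx : x.support ⊆ S) (y : Fin n) :
    y ∈ S ↔ x y ∈ S := by
  constructor
  · intro hy
    by_contra h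
    have h1 : x y ∉ x.support := fun h2 => h (hx h2)
    rw [Perm.notMem_support] at h1
    have h2 : x y = y := x.injective h1
    rw [h2] at h
    exact h hy
  · intro hy
    by_contra h
    have h1 : y ∉ x.support := fun h2 => h (hx h2)
    rw [Perm.notMem_support] at h1
    rw [h1] at hy
    exact h hy

theorem qq_mem (σ : Representation ℂ (Perm (Fin n)) X) (T : Finset (Fin n)) (a : Fin n) (ha : a ∉ T)
    (z : X) (hz : z ∈ inv σ T) : qq σ T a z ∈ inv σ (insert a T) := by
  classical
  intro x hx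
  have hS := maps53 x (insert a T) hx
  unfold qq
  rw [LinearMap.sum_apply, map_sum]
  have key : ∀ y ∈ insert a T, σ x (σ (Equiv.swap a y) z) = σ (Equiv.swap a (x y)) z := by
    intro y hy
    set g : Perm (Fin n) := Equiv.swap a (x y) * x * Equiv.swap a y with hg
    have hga : g a = a := by
      rw [hg, Perm.mul_apply, Perm.mul_apply, Equiv.swap_apply_left, Equiv.swap_apply_right]
    have hgs : g.support ⊆ T := by
      intro i hi
      by_contra hiT
      rw [Perm.mem_support] at hi
      by_cases hia : i = a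
      · exact hi (hia ▸ hga)
      · have hiS : i ∉ insert a T := by
          rw [Finset.mem_insert]
          push Not
          exact ⟨hia, hiT⟩
        have hiy : i ≠ y := fun h => hiS (h ▸ hy)
        have h1 : x i = i := by
          by_contra h2
          exact hiS (hx (Perm.mem_support.2 h2))
        have h3 : i ≠ x y := fun h => hiS (h ▸ (hS y).1 hy)
        apply hi
        rw [hg, Perm.mul_apply, Perm.mul_apply, Equiv.swap_apply_of_ne_of_ne hia hiy, h1,
          Equiv.swap_apply_of_ne_of_ne hia h3]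
    have h1 := hz g hgs
    have h2 : x * Equiv.swap a y = Equiv.swap a (x y) * g := by
      rw [hg, ← mul_assoc, ← mul_assoc, Equiv.swap_mul_self, one_mul]
    rw [← Module.End.mul_apply, ← map_mul, h2, map_mul, Module.End.mul_apply, h1]
  rw [Finset.sum_congr rfl key]
  exact Finset.sum_equiv x hS (fun y _ => rfl)

theorem TT_insert {e : ℕ} (h : e + 1 ≤ n) :
    insert (⟨e, h⟩ : Fin n) (TT n (e + 1)) = TT n e := by
  ext i
  rw [Finset.mem_insert, mem_TT, mem_TT, Fin.ext_iff]
  simp only
  omega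

theorem New_stable (σ : Representation ℂ (Perm (Fin n)) X) {d : ℕ} (h : d ≤ n) (y : Perm (Fin d))
    (z : X) (hz : z ∈ New σ d) : σ (jD h y) z ∈ New σ d := by
  classical
  obtain ⟨hz1, hz2⟩ := hz
  refine ⟨rhoE_mem σ h y z hz1, fun a ha => ?_⟩
  set u := jD h y with hu
  set b : Fin n := u⁻¹ a with hb
  have hbu : b = jD h y⁻¹ a := by rw [hb, hu, map_inv]
  have hbd : (b : ℕ) < d := by
    rw [hbu]
    exact jD_apply_lt h y⁻¹ a ha
  have haT : a ∉ TT n d := by
    rw [mem_TT]
    omega
  have hbT : b ∉ TT n d := by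
    rw [mem_TT]
    omega
  have h0 := hz2 b hbd
  unfold qq at h0 ⊢
  rw [LinearMap.sum_apply, Finset.sum_insert hbT, Equiv.swap_self] at h0
  rw [LinearMap.sum_apply, Finset.sum_insert haT, Equiv.swap_self]
  have h1 : ∀ t ∈ TT n d, σ (Equiv.swap a t) (σ u z) = σ u (σ (Equiv.swap b t) z) := by
    intro t ht
    rw [mem_TT] at ht
    have h2 : u⁻¹ t = t := by
      rw [hu, ← map_inv]
      exact jD_apply_of_le h y⁻¹ t ht
    rw [← Module.End.mul_apply, ← map_mul, Equiv.swap_mul_eq_mul_swap, h2, ← hb, map_mul,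
      Module.End.mul_apply]
  rw [Finset.sum_congr rfl h1, ← map_sum]
  have h3 : σ (Equiv.refl (Fin n)) (σ u z) = σ u (σ (Equiv.refl (Fin n)) z) := by
    have h4 : (Equiv.refl (Fin n) : Perm (Fin n)) = 1 := rfl
    rw [h4, map_one]
    rfl
  rw [h3, ← map_add, h0, map_zero]

theorem inv_bot_of_card (θ : Representation ℂ (Perm (Fin n)) X) (K K' : Finset (Fin n))
    (hcard : K'.card ≤ K.card) (hK' : inv θ K' = ⊥) : inv θ K = ⊥ := by
  classical
  obtain ⟨K₁, hK₁, hc⟩ := Finset.exists_subset_card_eq hcard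
  have e : {i // i ∈ K'} ≃ {i // i ∈ K₁} := by
    refine Fintype.equivOfCardEq ?_
    rw [Fintype.card_coe, Fintype.card_coe, hc]
  set g : Perm (Fin n) := e.extendSubtype with hg
  have hgK : ∀ i ∈ K', g i ∈ K := by
    intro i hi
    rw [hg, Equiv.extendSubtype_apply_of_mem e i hi]
    exact hK₁ (e ⟨i, hi⟩).2
  rw [eq_bot_iff]
  intro v hv
  have h1 : θ g⁻¹ v ∈ inv θ K' := by
    intro x hx
    have h2 : θ (g * x * g⁻¹) v = v := by
      refine hv _ ?_
      rw [Perm.support_conj]
      intro i hi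
      rw [Finset.mem_map] at hi
      obtain ⟨j, hj, rfl⟩ := hi
      exact hgK j (hx hj)
    have h3 : x * g⁻¹ = g⁻¹ * (g * x * g⁻¹) := by group
    rw [← Module.End.mul_apply, ← map_mul, h3, map_mul, Module.End.mul_apply, h2]
  rw [hK', Submodule.mem_bot] at h1
  rw [Submodule.mem_bot]
  have h4 : θ g (θ g⁻¹ v) = v := by
    rw [← Module.End.mul_apply, ← map_mul, mul_inv_cancel, map_one]
    rfl
  rw [← h4, h1, map_zero]

theorem inv_le_New (θ : Representation ℂ (Perm (Fin n)) X) {d : ℕ} (hd : IsDepth θ d) :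
    inv θ (TT n d) ≤ New θ d := by
  classical
  intro v hv
  refine ⟨hv, fun a ha => ?_⟩
  have haT : a ∉ TT n d := by
    rw [mem_TT]
    omega
  have h1 := qq_mem θ (TT n d) a haT v hv
  obtain ⟨e, rfl⟩ : ∃ e, d = e + 1 := ⟨d - 1, by omega⟩
  have hen : e + 1 ≤ n := hd.1
  have h2 : inv θ (insert a (TT n (e + 1))) = ⊥ := by
    refine inv_bot_of_card θ _ (TT n e) ?_ (hd.2.2 e (Nat.lt_succ_self e))
    rw [← TT_insert hen, Finset.card_insert_of_notMem haT, Finset.card_insert_of_notMem]
    rw [mem_TT]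
    simp
  rw [h2, Submodule.mem_bot] at h1
  exact h1

theorem support_jT {e : ℕ} (h : e ≤ n) (x : Perm (Fin (n - e))) : (jT h x).support ⊆ TT n e := by
  intro i hi
  rw [mem_TT]
  by_contra hlt
  exact (Perm.mem_support.1 hi) (jT_apply_of_lt h x i (by omega))

theorem exists_jT {e : ℕ} (h : e ≤ n) (x : Perm (Fin n)) (hx : x.support ⊆ TT n e) :
    ∃ x' : Perm (Fin (n - e)), jT h x' = x := by
  have hm : ∀ i : Fin n, e ≤ ((x i : Fin n) : ℕ) ↔ e ≤ (i : ℕ) := by
    intro i
    have := maps53 x (TT n e) hx i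
    rw [mem_TT, mem_TT] at this
    exact this.symm
  let x₁ : Perm {i : Fin n // e ≤ (i : ℕ)} := x.subtypePerm hm
  refine ⟨(eT h).trans (x₁.trans (eT h).symm), ?_⟩
  refine Equiv.ext fun i => ?_
  rcases lt_or_ge (i : ℕ) e with hi | hi
  · rw [jT_apply_of_lt h _ i hi]
    by_contra hne
    have := mem_TT.1 (hx (Perm.mem_support.2 (Ne.symm hne)))
    omega
  · rw [jT_apply h _ i hi]
    simp only [Equiv.trans_apply, Equiv.apply_symm_apply]
    rfl

theorem mem_inv_iff (σ : Representation ℂ (Perm (Fin n)) X) {e : ℕ} (h : e ≤ n) (z : X) :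
    z ∈ inv σ (TT n e) ↔ ∀ x : Perm (Fin (n - e)), σ (jT h x) z = z := by
  constructor
  · intro hz x
    exact hz _ (support_jT h x)
  · intro hz x hx
    obtain ⟨x', rfl⟩ := exists_jT h x hx
    exact hz x'

end Pool.Agent.Helper51.TN
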