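import Pool.Agent.Helper51.TN.K3
import Pool.Agent.Helper51.TN.S3
import Pool.Agent.Helper51.TN.L3

/-!
BLOCK TN-B6 (about 200 lines). `Q` maps block diagonal forms to block diagonal forms.

Proof in words. `d = e + 1`, `T = TT n (e+1)`, `Q = qq (bil ρ) T ⟨e, h⟩`, `h' : e ≤ n`. `γ = Q b` is fixed by `Sym(TT n e)` (`qq_mem`, `TT_insert`), i.e. `γ (ρ x v) (ρ x w) = γ v w` for `x` with
support in `TT n e`. By `EE_span` (level `e`) it is enough to show for `v ∈ EE ρ h' α'`, `w ∈ EE ρ h' α''`: `PiE ρ h' γ v w = γ v w`. By `PiE_apply` the left side is `γ v w` if the images of `α'` and `α''`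
are equal and an `e`-element subset of `CC ρ`, and `0` otherwise. So we have to show `γ v w = 0` in the other case.
`γ v w = ∑_{y ∈ insert e T} b (ρ (swap e y) v) (ρ (swap e y) w)` (`swap⁻¹ = swap`), `ρ (swap e y) v ∈ EE ρ h' α'` (`EE_jT`). `EE ρ h' α'` is the span of the `EE ρ h (α', t)`, `t` real
(`(α', t) = Fin.snoc α' t`; `jm_diag` with `I = {e}`), and `b = PiE ρ h b` vanishes on `EE ρ h (α', t) × EE ρ h (α'', t')` unless `(α', t)` and `(α'', t')` have the same image, an `(e+1)`-element subset `J`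
of `CC ρ` (`PiE_apply`). So if `γ v w ≠ 0` then for some `t, t'` this holds; then `α', α''` are injective with values in `CC ρ`, images `J' , J''` of `e` elements. It remains to exclude `J' ≠ J''`.
Decompose `v`, `w` by `jm_diag` with `I = TT n e`, `U = EE ρ h' α'` resp. `EE ρ h' α''`: `v = ∑ v_c`, `w = ∑ w_{c'}`. `γ` is invariant under `Sym(TT n e)`, so `form_jm` gives `(c i - c' i) γ v_c w_{c'} = 0` for `i ≥ e`;
so `γ v w ≠ 0` implies `γ v_c w_{c'} ≠ 0` for some `c, c'` which agree at all `i ≥ e`; `v_c`, `w_{c'}` are joint eigenvectors of all `jm` (contents `α'` resp. `α''` at the points `< e`), so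
`perm_of_EE` gives that the images of `α'` and `α''` are equal.
-/

set_option autoImplicit false

open Module Equiv Pool.Agent.Helper1.TS Pool.Agent.Helper70.TU

namespace Pool.Agent.Helper51.TN

section Aux_h94

variable {n : ℕ} {V : Type*} [AddCommGroup V] [Module ℂ V] [FiniteDimensional ℂ V]

private theorem EE_stable_h94 (ρ : Representation ℂ (Perm (Fin n)) V) {e : ℕ} (h : e ≤ n) (α : Fin e → ℝ)
    (i : Fin n) (v : V) (hv : v ∈ EE ρ h α) : jm ρ i v ∈ EE ρ h α := by
  intro k
  rw [jm_comm', hv k, map_smul]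

omit [FiniteDimensional ℂ V] in
/-- Two families with values in finite sums: a nonzero value of the form comes from a nonzero value on a pair. -/
private theorem exists_pair_h94 {ι κ : Type*} (b : Bil V) (s : Finset ι) (s' : Finset κ) (f : ι → V) (f' : κ → V)
    (hne : b (∑ c ∈ s, f c) (∑ c' ∈ s', f' c') ≠ 0) : ∃ c ∈ s, ∃ c' ∈ s', b (f c) (f' c') ≠ 0 := by
  by_contra hcon
  push Not at hcon
  apply hne
  rw [map_sum b, LinearMap.sum_apply]
  refine Finset.sum_eq_zero fun c hc => ?_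
  rw [map_sum (b (f c))]
  exact Finset.sum_eq_zero fun c' hc' => hcon c hc c' hc'

omit [FiniteDimensional ℂ V] in
/-- The last coordinate can be added. -/
private theorem snoc_mem_h94 (ρ : Representation ℂ (Perm (Fin n)) V) {e : ℕ} (h : e + 1 ≤ n) (α : Fin e → ℝ) (t : ℝ)
    (v : V) (hv : v ∈ EE ρ ((Nat.le_succ e).trans h) α) (ht : jm ρ ⟨e, h⟩ v = (t : ℂ) • v) :
    v ∈ EE ρ h (Fin.snoc (α := fun _ => ℝ) α t) := by
  intro i
  refine Fin.lastCases ?_ (fun k => ?_) i
  · rw [Fin.snoc_last]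
    exact ht
  · rw [Fin.snoc_castSucc]
    exact hv k

private theorem image_snoc_h94 {e : ℕ} (α : Fin e → ℝ) (t : ℝ) (S : Finset ℝ)
    (h : Finset.univ.image (Fin.snoc (α := fun _ => ℝ) α t) ∈ S.powersetCard (e + 1)) :
    Finset.univ.image α ∈ S.powersetCard e := by
  rw [Finset.mem_powersetCard] at h ⊢
  obtain ⟨h1, h2⟩ := h
  have hinj : Function.Injective (Fin.snoc (α := fun _ => ℝ) α t : Fin (e + 1) → ℝ) := by
    have h3 : (Finset.univ.image (Fin.snoc (α := fun _ => ℝ) α t)).card = (Finset.univ : Finset (Fin (e + 1))).card := by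
      rw [h2, Finset.card_univ, Fintype.card_fin]
    have h4 := Finset.card_image_iff.1 h3
    intro x y hxy
    exact h4 (Finset.mem_coe.2 (Finset.mem_univ x)) (Finset.mem_coe.2 (Finset.mem_univ y)) hxy
  have hinj' : Function.Injective α := by
    intro x y hxy
    have h5 := @hinj x.castSucc y.castSucc (by rw [Fin.snoc_castSucc, Fin.snoc_castSucc]; exact hxy)
    exact Fin.castSucc_injective e h5
  refine ⟨fun x hx => ?_, ?_⟩
  · rw [Finset.mem_image] at hx
    obtain ⟨i, -, rfl⟩ := hx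
    refine h1 (Finset.mem_image.2 ⟨i.castSucc, Finset.mem_univ _, ?_⟩)
    rw [Fin.snoc_castSucc]
  · rw [Finset.card_image_of_injective _ hinj', Finset.card_univ, Fintype.card_fin]

/-- The decomposition with respect to the last coordinate. -/
private theorem split_h94 (ρ : Representation ℂ (Perm (Fin n)) V) {e : ℕ} (h : e + 1 ≤ n) (α : Fin e → ℝ)
    (v : V) (hv : v ∈ EE ρ ((Nat.le_succ e).trans h) α) :
    ∃ (s : Finset (Fin n → ℝ)) (f : (Fin n → ℝ) → V) (t : (Fin n → ℝ) → ℝ),
      (∀ c ∈ s, f c ∈ EE ρ h (Fin.snoc (α := fun _ => ℝ) α (t c))) ∧ v = ∑ c ∈ s, f c := by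
  obtain ⟨s, f, hf, hsum⟩ := jm_diag ρ {⟨e, h⟩} (EE ρ ((Nat.le_succ e).trans h) α)
    (fun i _ v hv => EE_stable_h94 ρ _ α i v hv) v hv
  refine ⟨s, f, fun c => c ⟨e, h⟩, fun c hc => ?_, hsum⟩
  obtain ⟨h1, h2, -⟩ := hf c hc
  exact snoc_mem_h94 ρ h α _ _ h1 (h2 _ (Finset.mem_singleton_self _))

end Aux_h94

theorem image_block {n : ℕ} {V : Type*} [AddCommGroup V] [Module ℂ V] [FiniteDimensional ℂ V]
    (ρ : Representation ℂ (Perm (Fin n)) V) [ρ.IsIrreducible] {e : ℕ} (h : e + 1 ≤ n) (b : Bil V)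
    (hb : b ∈ inv (bil ρ) (TT n (e + 1))) (hP : PiE ρ h b = b) :
    PiE ρ ((Nat.le_succ e).trans h) (qq (bil ρ) (TT n (e + 1)) ⟨e, h⟩ b) =
      qq (bil ρ) (TT n (e + 1)) ⟨e, h⟩ b := by
  classical
  set h' : e ≤ n := (Nat.le_succ e).trans h with hh'
  set γ : Bil V := qq (bil ρ) (TT n (e + 1)) ⟨e, h⟩ b with hγdef
  have haT : (⟨e, h⟩ : Fin n) ∉ TT n (e + 1) := by
    rw [mem_TT]
    simp
  have hmem : γ ∈ inv (bil ρ) (TT n e) := by
    have h1 := qq_mem (bil ρ) (TT n (e + 1)) ⟨e, h⟩ haT b hb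
    rw [TT_insert h] at h1
    exact h1
  have hγ : ∀ x : Perm (Fin n), x.support ⊆ TT n e → ∀ v w, γ (ρ x v) (ρ x w) = γ v w := by
    intro x hx v w
    have h1 := hmem x⁻¹ (by rw [Perm.support_inv]; exact hx)
    have h2 : bil ρ x⁻¹ γ v w = γ v w := by rw [h1]
    rw [bil_apply, inv_inv] at h2
    exact h2
  -- the key claim
  have key : ∀ (α β : Fin e → ℝ) (v w : V), v ∈ EE ρ h' α → w ∈ EE ρ h' β → γ v w ≠ 0 →
      Finset.univ.image α = Finset.univ.image β ∧ Finset.univ.image α ∈ (CC ρ).powersetCard e := by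
    intro α β v w hv hw hne
    constructor
    · -- equality of the images
      have hst : ∀ (δ : Fin e → ℝ) (i : Fin n), i ∈ TT n e → ∀ u ∈ EE ρ h' δ, jm ρ i u ∈ EE ρ h' δ :=
        fun δ i _ u hu => EE_stable_h94 ρ h' δ i u hu
      obtain ⟨s, f, hf, hsum⟩ := jm_diag ρ (TT n e) (EE ρ h' α) (hst α) v hv
      obtain ⟨s', f', hf', hsum'⟩ := jm_diag ρ (TT n e) (EE ρ h' β) (hst β) w hw
      have hne' : γ (∑ c ∈ s, f c) (∑ c' ∈ s', f' c') ≠ 0 := by rw [← hsum, ← hsum']; exact hne
      obtain ⟨c, hc, c', hc', hcc⟩ := exists_pair_h94 γ s s' f f' hne'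
      obtain ⟨a1, a2, -⟩ := hf c hc
      obtain ⟨b1, b2, -⟩ := hf' c' hc'
      have hagree : ∀ i : Fin n, e ≤ (i : ℕ) → c i = c' i := by
        intro i hi
        have hiT : i ∈ TT n e := mem_TT.2 hi
        have h1 := form_jm ρ (TT n e) γ hγ i (fun j hj => mem_TT.2 (hi.trans (Fin.le_def.1 hj))) (f c) (f' c')
        rw [a2 i hiT, b2 i hiT, map_smul, LinearMap.smul_apply, map_smul, smul_eq_mul, smul_eq_mul] at h1
        have h2 := mul_right_cancel₀ hcc h1
        exact_mod_cast h2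
      have hfc : f c ≠ 0 := by
        intro h0
        apply hcc
        rw [h0, map_zero, LinearMap.zero_apply]
      have hfc' : f' c' ≠ 0 := by
        intro h0
        apply hcc
        rw [h0, map_zero]
      refine perm_of_EE ρ h' α β (fun i => if hi : (i : ℕ) < e then α ⟨i, hi⟩ else c i)
        (fun i => if hi : (i : ℕ) < e then β ⟨i, hi⟩ else c' i) (f c) (f' c') ⟨hfc, fun i => ?_⟩
        ⟨hfc', fun i => ?_⟩ (fun i => ?_) (fun i => ?_) (fun i hi => ?_)
      · by_cases hi : (i : ℕ) < e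
        · simp only [dif_pos hi]
          exact a1 ⟨i, hi⟩
        · simp only [dif_neg hi]
          exact a2 i (mem_TT.2 (not_lt.1 hi))
      · by_cases hi : (i : ℕ) < e
        · simp only [dif_pos hi]
          exact b1 ⟨i, hi⟩
        · simp only [dif_neg hi]
          exact b2 i (mem_TT.2 (not_lt.1 hi))
      · have hi : ((Fin.castLE h' i : Fin n) : ℕ) < e := i.2
        simp only [dif_pos hi]
        rfl
      · have hi : ((Fin.castLE h' i : Fin n) : ℕ) < e := i.2
        simp only [dif_pos hi]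
        rfl
      · have hi' : ¬ ((i : ℕ) < e) := not_lt.2 hi
        simp only [dif_neg hi']
        exact hagree i hi
    · -- the image of `α`
      have h1 : γ v w = ∑ y ∈ insert (⟨e, h⟩ : Fin n) (TT n (e + 1)),
          b (ρ (Equiv.swap ⟨e, h⟩ y) v) (ρ (Equiv.swap ⟨e, h⟩ y) w) := by
        rw [hγdef]
        unfold qq
        rw [LinearMap.sum_apply, LinearMap.sum_apply, LinearMap.sum_apply]
        refine Finset.sum_congr rfl fun y _ => ?_
        rw [bil_apply, Equiv.swap_inv]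
      rw [h1] at hne
      obtain ⟨y, hy, hyne⟩ := Finset.exists_ne_zero_of_sum_ne_zero hne
      have hsup : (Equiv.swap (⟨e, h⟩ : Fin n) y).support ⊆ TT n e := by
        intro i hi
        rw [TT_insert h] at hy
        rw [Perm.mem_support] at hi
        by_contra hiT
        apply hi
        refine Equiv.swap_apply_of_ne_of_ne ?_ ?_
        · rintro rfl
          exact hiT (mem_TT.2 le_rfl)
        · rintro rfl
          exact hiT hy
      obtain ⟨x, hx⟩ := exists_jT h' _ hsup
      have hv' : ρ (Equiv.swap (⟨e, h⟩ : Fin n) y) v ∈ EE ρ h' α := by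
        rw [← hx]
        exact EE_jT ρ h' α x v hv
      have hw' : ρ (Equiv.swap (⟨e, h⟩ : Fin n) y) w ∈ EE ρ h' β := by
        rw [← hx]
        exact EE_jT ρ h' β x w hw
      obtain ⟨s, f, t, hf, hsum⟩ := split_h94 ρ h α _ hv'
      obtain ⟨s', f', t', hf', hsum'⟩ := split_h94 ρ h β _ hw'
      rw [hsum, hsum'] at hyne
      obtain ⟨c, hc, c', hc', hcc⟩ := exists_pair_h94 b s s' f f' hyne
      have h2 := PiE_apply ρ h b _ _ (f c) (f' c') (hf c hc) (hf' c' hc')
      rw [hP] at h2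
      by_cases hif : Finset.univ.image (Fin.snoc (α := fun _ => ℝ) α (t c)) =
          Finset.univ.image (Fin.snoc (α := fun _ => ℝ) β (t' c')) ∧
          Finset.univ.image (Fin.snoc (α := fun _ => ℝ) α (t c)) ∈ (CC ρ).powersetCard (e + 1)
      · exact image_snoc_h94 α (t c) (CC ρ) hif.2
      · exfalso
        apply hcc
        rw [h2, if_neg]
        convert hif
  refine ext_EE ρ h' _ _ fun α v hv => ext_EE ρ h' _ _ fun β w hw => ?_
  rw [PiE_apply ρ h' γ α β v w hv hw]
  by_cases hif : Finset.univ.image α = Finset.univ.image β ∧ Finset.univ.image α ∈ (CC ρ).powersetCard e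
  · rw [if_pos]
    convert hif
  · rw [if_neg]
    · by_contra hne
      exact hif (key α β v w hv hw (Ne.symm hne))
    · convert hif

end Pool.Agent.Helper51.TN
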