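import Pool.Agent.Helper51.TN.Defs

/-!
BLOCK TN-B7 (about 150 lines). Numbers of involutions and the numerical inequalities.

Proofs in words. `inv d` = number of `y ∈ S_d` with `y² = 1`.
* `card_invol_le`: for `d ≥ 3` `3 * inv d ≤ 2 * d!`. `d = 3`: `inv 3 = 4` (`decide`). `d ≥ 4`: split by `y (last)` or `y 0`: the `y` with `y 0 = 0` correspond to the involutions of the other `d - 1` points
  (`3 * inv (d-1) ≤ 2 (d-1)!`), the `y` with `y 0 = j ≠ 0` satisfy `y j = 0` and are determined by their restriction to the other `d - 2` points: at most `(d-2)!` for each of the `d - 1` values `j`. So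
  `3 inv d ≤ 2 (d-1)! + 3 (d-1)! = 5 (d-1)! ≤ 2 d!` since `d ≥ 3`.
* `num_ge3`: `c ≥ d + 6`, `d ≥ 3`, `D > 0` (dimension), `|I| ≤ inv d * D`, `|I'| ≤ inv (d-1) * D ≤ (d-1)! D`, `ε = ±1`: since `binom(c,d) * d = binom(c,d-1) * (c-d+1)` and `c - d + 1 ≥ 7`:
  `d * binom(c,d) (d! D + ε I) ≥ binom(c,d-1) * 7 * d! D / 3 > binom(c,d-1) * 2 * d! D ≥ d * binom(c,d-1) * ((d-1)! D + ε I')`.
-/

set_option autoImplicit false

open Module Equiv

namespace Pool.Agent.Helper51.TN

open Equiv.Perm in
theorem b7_fixcard (m : ℕ) (j : Fin (m + 1)) :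
    (Finset.univ.filter (fun e : Perm (Fin (m + 1)) => e j = j)).card ≤ m.factorial := by
  have hc : Fintype.card (Perm (Fin m)) = m.factorial := by
    rw [Fintype.card_perm, Fintype.card_fin]
  rw [← hc, ← Finset.card_univ]
  apply Finset.card_le_card_of_injOn (fun e => (decomposeFin (swap 0 j * e * swap 0 j)).2)
  · intro e _
    exact Finset.mem_coe.2 (Finset.mem_univ _)
  · intro e he f hf h
    have key : ∀ g : Perm (Fin (m + 1)), g j = j →
        (decomposeFin (swap 0 j * g * swap 0 j)).1 = 0 := by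
      intro g hg
      have h1 : decomposeFin.symm ((decomposeFin (swap 0 j * g * swap 0 j)).1,
          (decomposeFin (swap 0 j * g * swap 0 j)).2) 0
          = (decomposeFin (swap 0 j * g * swap 0 j)).1 := decomposeFin_symm_apply_zero _ _
      rw [← h1]
      simp only [Prod.mk.eta, Equiv.symm_apply_apply, Equiv.Perm.coe_mul, Function.comp_apply,
        Equiv.swap_apply_left, hg, Equiv.swap_apply_right]
    have he' : e j = j := by simpa using he
    have hf' : f j = j := by simpa using hf
    have h2 : decomposeFin (swap 0 j * e * swap 0 j) = decomposeFin (swap 0 j * f * swap 0 j) := by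
      apply Prod.ext
      · rw [key e he', key f hf']
      · exact h
    have h3 := decomposeFin.injective h2
    exact mul_left_cancel (mul_right_cancel h3)

open Equiv.Perm in
theorem b7_step (d : ℕ) (hd : 1 ≤ d) :
    (Finset.univ.filter (fun y : Perm (Fin (d + 1)) => y ^ 2 = 1)).card
      ≤ (Finset.univ.filter (fun y : Perm (Fin d) => y ^ 2 = 1)).card + d.factorial := by
  classical
  have hsub : (Finset.univ.filter (fun y : Perm (Fin (d + 1)) => y ^ 2 = 1)) ⊆
      ((Finset.univ.filter (fun y : Perm (Fin d) => y ^ 2 = 1)).image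
        (fun e => decomposeFin.symm ((0 : Fin (d + 1)), e))) ∪
      (Finset.univ : Finset (Fin d)).biUnion (fun j =>
        (Finset.univ.filter (fun e : Perm (Fin d) => e j = j)).image
          (fun e => decomposeFin.symm (j.succ, e))) := by
    intro y hy
    have hy2 : ∀ x, y (y x) = x := by
      intro x
      have h := (Finset.mem_filter.1 hy).2
      have h' := congrArg (fun z : Perm (Fin (d + 1)) => z x) h
      simpa [pow_two] using h'
    obtain ⟨⟨p, e⟩, hpe⟩ : ∃ q : Fin (d + 1) × Perm (Fin d), decomposeFin.symm q = y :=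
      ⟨decomposeFin y, Equiv.symm_apply_apply _ _⟩
    rw [Finset.mem_union]
    rcases Fin.eq_zero_or_eq_succ p with hp | ⟨j, hp⟩
    · left
      subst hp
      refine Finset.mem_image.2 ⟨e, Finset.mem_filter.2 ⟨Finset.mem_univ _, ?_⟩, hpe⟩
      ext x
      have h1 : ∀ x : Fin d, y x.succ = (e x).succ := by
        intro x
        rw [← hpe, decomposeFin_symm_apply_succ]
        simp
      have h2 := hy2 x.succ
      rw [h1, h1] at h2
      have h3 := Fin.succ_injective _ h2
      simp [pow_two, h3]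
    · right
      subst hp
      refine Finset.mem_biUnion.2 ⟨j, Finset.mem_univ _, Finset.mem_image.2
        ⟨e, Finset.mem_filter.2 ⟨Finset.mem_univ _, ?_⟩, hpe⟩⟩
      have h0 : y 0 = j.succ := by rw [← hpe, decomposeFin_symm_apply_zero]
      have h1 : y j.succ = 0 := by rw [← h0]; exact hy2 0
      rw [← hpe, decomposeFin_symm_apply_succ] at h1
      have h2 : (e j).succ = (swap 0 j.succ).symm 0 := by
        rw [Equiv.eq_symm_apply]
        exact h1
      rw [Equiv.symm_swap, Equiv.swap_apply_left] at h2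
      exact Fin.succ_injective _ h2
  calc (Finset.univ.filter (fun y : Perm (Fin (d + 1)) => y ^ 2 = 1)).card
      ≤ _ := Finset.card_le_card hsub
    _ ≤ _ := Finset.card_union_le _ _
    _ ≤ (Finset.univ.filter (fun y : Perm (Fin d) => y ^ 2 = 1)).card + d.factorial := by
        apply Nat.add_le_add
        · exact Finset.card_image_le
        · refine le_trans Finset.card_biUnion_le ?_
          obtain ⟨m, rfl⟩ : ∃ m, d = m + 1 := ⟨d - 1, by omega⟩
          calc _ ≤ ∑ j : Fin (m + 1), m.factorial := by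
                apply Finset.sum_le_sum
                intro j _
                exact le_trans Finset.card_image_le (b7_fixcard m j)
            _ = (m + 1).factorial := by
                simp [Nat.factorial_succ]

theorem card_invol_le (d : ℕ) (hd : 3 ≤ d) :
    3 * (Finset.univ.filter (fun y : Perm (Fin d) => y ^ 2 = 1)).card ≤ 2 * d.factorial := by
  induction d, hd using Nat.le_induction with
  | base => decide +kernel
  | succ d hd ih =>
      have h := b7_step d (by omega)
      have h2 : (d + 1).factorial = (d + 1) * d.factorial := Nat.factorial_succ d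
      have h3 : 4 * d.factorial ≤ (d + 1) * d.factorial := Nat.mul_le_mul_right _ (by omega)
      omega

theorem num_ge3 (c d : ℕ) (hd : 3 ≤ d) (hc : d + 6 ≤ c) (D I I' ε : ℝ) (hD : 0 < D)
    (hε : ε = 1 ∨ ε = -1)
    (hI : |I| ≤ (Finset.univ.filter (fun y : Perm (Fin d) => y ^ 2 = 1)).card * D)
    (hI' : |I'| ≤ (d - 1).factorial * D) :
    (c.choose (d - 1) : ℝ) * ((d - 1).factorial * D + ε * I') < c.choose d * (d.factorial * D + ε * I) := by
  obtain ⟨k, rfl⟩ : ∃ k, d = k + 1 := ⟨d - 1, by omega⟩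
  have hinv := card_invol_le (k + 1) hd
  simp only [Nat.add_sub_cancel] at hI' ⊢
  have hinv' : 3 * ((Finset.univ.filter (fun y : Perm (Fin (k + 1)) => y ^ 2 = 1)).card : ℝ)
      ≤ 2 * ((k + 1).factorial : ℝ) := by exact_mod_cast hinv
  set N : ℝ := ((Finset.univ.filter (fun y : Perm (Fin (k + 1)) => y ^ 2 = 1)).card : ℝ) with hN
  have hfac : ((k + 1).factorial : ℝ) = (k + 1 : ℝ) * (k.factorial : ℝ) := by
    rw [Nat.factorial_succ]; push_cast; ring
  have hF : (0 : ℝ) < (k.factorial : ℝ) := by exact_mod_cast Nat.factorial_pos k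
  have hA : (0 : ℝ) < (c.choose k : ℝ) := by
    exact_mod_cast Nat.choose_pos (by omega)
  have hB : (c.choose (k + 1) : ℝ) * (k + 1 : ℝ) = (c.choose k : ℝ) * ((c : ℝ) - k) := by
    have h := Nat.choose_succ_right_eq c k
    have h' : ((c.choose (k + 1) * (k + 1) : ℕ) : ℝ) = ((c.choose k * (c - k) : ℕ) : ℝ) := by
      rw [h]
    rw [Nat.cast_mul, Nat.cast_mul, Nat.cast_sub (by omega)] at h'
    push_cast at h'
    exact h'
  have hc' : (7 : ℝ) ≤ (c : ℝ) - k := by
    have : ((k + 1 + 6 : ℕ) : ℝ) ≤ (c : ℝ) := by exact_mod_cast hc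
    push_cast at this
    linarith
  have hB0 : (0 : ℝ) ≤ (c.choose (k + 1) : ℝ) := Nat.cast_nonneg _
  have e1 : ε * I' ≤ |I'| := by
    rcases hε with h | h
    · rw [h, one_mul]; exact le_abs_self _
    · rw [h, neg_one_mul]; exact neg_le_abs _
  have e2 : -|I| ≤ ε * I := by
    rcases hε with h | h
    · rw [h, one_mul]; exact neg_abs_le _
    · rw [h, neg_one_mul]; exact neg_le_neg (le_abs_self _)
  have e3 : |I| ≤ 2 / 3 * ((k + 1 : ℝ) * (k.factorial : ℝ)) * D := by
    refine le_trans hI ?_
    apply mul_le_mul_of_nonneg_right _ hD.le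
    rw [← hfac]
    linarith
  have e4 : (c.choose (k + 1) : ℝ) * (1 / 3 * ((k + 1 : ℝ) * (k.factorial : ℝ)) * D)
      ≤ (c.choose (k + 1) : ℝ) * (((k + 1).factorial : ℝ) * D + ε * I) := by
    apply mul_le_mul_of_nonneg_left _ hB0
    rw [hfac]
    linarith
  have e5 : (c.choose (k + 1) : ℝ) * (1 / 3 * ((k + 1 : ℝ) * (k.factorial : ℝ)) * D)
      = (c.choose k : ℝ) * ((c : ℝ) - k) * (1 / 3 * (k.factorial : ℝ) * D) := by
    rw [← hB]; ring
  have e6 : (c.choose k : ℝ) * 7 * (1 / 3 * (k.factorial : ℝ) * D)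
      ≤ (c.choose k : ℝ) * ((c : ℝ) - k) * (1 / 3 * (k.factorial : ℝ) * D) := by
    apply mul_le_mul_of_nonneg_right
    · exact mul_le_mul_of_nonneg_left hc' hA.le
    · positivity
  have e7 : (c.choose k : ℝ) * ((k.factorial : ℝ) * D + ε * I')
      ≤ (c.choose k : ℝ) * (2 * ((k.factorial : ℝ) * D)) := by
    apply mul_le_mul_of_nonneg_left _ hA.le
    linarith
  have e8 : 0 < (c.choose k : ℝ) * ((k.factorial : ℝ) * D) := by positivity
  have e9 : (c.choose k : ℝ) * (2 * ((k.factorial : ℝ) * D))
      < (c.choose k : ℝ) * 7 * (1 / 3 * (k.factorial : ℝ) * D) := by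
    have : (c.choose k : ℝ) * 7 * (1 / 3 * (k.factorial : ℝ) * D)
        = (7 / 3) * ((c.choose k : ℝ) * ((k.factorial : ℝ) * D)) := by ring
    rw [this]
    have h2 : (c.choose k : ℝ) * (2 * ((k.factorial : ℝ) * D))
        = 2 * ((c.choose k : ℝ) * ((k.factorial : ℝ) * D)) := by ring
    rw [h2]
    linarith
  linarith

end Pool.Agent.Helper51.TN
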