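import Pool.Agent.Helper51.TN.L3

/-!
BLOCK TN-L4 (about 180 lines). The average over `Sym(T_d)` of a translate of a new vector.

Proofs in words. `T = TT n d`, `P = avT σ T`, the average of `σ x` over the (nonempty, closed under multiplication and inverse) set of the `x` with support in
`T`.
* `avT_of_mem`, `avT_mem`, `avT_mul` (right and left invariance): reindexing the sum.
* `av_new`: induction on `b(g) = #{a : a < d, d ≤ g a}`, for all `z ∈ F`. If `b(g) = 0` then `g` maps `{< d}` to itself, hence `T` to itself, so
  `g = τ * jD h y` with `τ` of support in `T` (`y` the restriction of `g` to the points `< d`, `τ = g * (jD h y)⁻¹`); so `P (σ g z) = P (σ (jD h y) z) =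
  σ (jD h y) z ∈ F` (`σ (jD h y) z ∈ F ≤ New ≤ inv`).
  If `b(g) > 0` choose `a < d` with `g a ∈ T`. Since `z` is new, `∑_{y ∈ insert a T} σ (swap a y) z = 0`; apply `σ g` and `P`:
  `∑_{y ∈ insert a T} P (σ (g * swap a y) z) = 0`. The term `y = a` is `P (σ g z)`. For `y ∈ T` with `g y ∈ T`: `g * swap a y = swap (g a) (g y) * g`, and
  `g a, g y ∈ T`, so the term is `P (σ g z)` again (left invariance). For `y ∈ T` with `g y < d`: `g' = g * swap a y` has `g' a = g y < d`, and
  `g' a' = g a'` for the other `a' < d`, so `b(g') = b(g) - 1` and `P (σ g' z) ∈ F` by induction. So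
  `(1 + #{y ∈ T : g y ∈ T}) • P (σ g z) ∈ F`, and the coefficient is not `0`.
-/

set_option autoImplicit false

open Module Equiv Pool.Agent.Helper1.TS Pool.Agent.Helper70.TU

namespace Pool.Agent.Helper51.TN

variable {n : ℕ} {X : Type*} [AddCommGroup X] [Module ℂ X]

private theorem avT_apply27 (σ : Representation ℂ (Perm (Fin n)) X) (T : Finset (Fin n)) (z : X) :
    avT σ T z = ((Finset.univ.filter (fun x : Perm (Fin n) => x.support ⊆ T)).card : ℂ)⁻¹ •
      ∑ x ∈ Finset.univ.filter (fun x : Perm (Fin n) => x.support ⊆ T), σ x z := by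
  unfold avT
  rw [LinearMap.smul_apply, LinearMap.sum_apply]

private theorem supp_mul27 {T : Finset (Fin n)} {x y : Perm (Fin n)} (hx : x.support ⊆ T)
    (hy : y.support ⊆ T) : (x * y).support ⊆ T := by
  intro i hi
  have h := Perm.support_mul_le x y hi
  rcases Finset.mem_union.1 h with h | h
  · exact hx h
  · exact hy h

private theorem supp_inv27 {T : Finset (Fin n)} {x : Perm (Fin n)} (hx : x.support ⊆ T) :
    x⁻¹.support ⊆ T := by
  rw [Perm.support_inv]
  exact hx

theorem avT_of_mem (σ : Representation ℂ (Perm (Fin n)) X) (T : Finset (Fin n)) (z : X)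
    (hz : z ∈ inv σ T) : avT σ T z = z := by
  rw [avT_apply27]
  have h1 : ∀ x ∈ Finset.univ.filter (fun x : Perm (Fin n) => x.support ⊆ T), σ x z = z := by
    intro x hx
    exact hz x (Finset.mem_filter.1 hx).2
  rw [Finset.sum_congr rfl h1, Finset.sum_const, ← Nat.cast_smul_eq_nsmul ℂ, smul_smul, inv_mul_cancel₀, one_smul]
  have : (1 : Perm (Fin n)) ∈ Finset.univ.filter (fun x : Perm (Fin n) => x.support ⊆ T) := by
    rw [Finset.mem_filter]
    exact ⟨Finset.mem_univ _, by rw [Perm.support_one]; exact Finset.empty_subset _⟩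
  exact_mod_cast (Finset.card_pos.2 ⟨_, this⟩).ne'

theorem avT_mem (σ : Representation ℂ (Perm (Fin n)) X) (T : Finset (Fin n)) (z : X) :
    avT σ T z ∈ inv σ T := by
  intro y hy
  rw [avT_apply27, map_smul, map_sum]
  congr 1
  refine Finset.sum_equiv (Equiv.mulLeft y) ?_ ?_
  · intro x
    rw [Finset.mem_filter, Finset.mem_filter]
    refine ⟨fun h => ⟨Finset.mem_univ _, supp_mul27 hy h.2⟩, fun h => ⟨Finset.mem_univ _, ?_⟩⟩
    have h2 := supp_mul27 (supp_inv27 hy) h.2
    rw [Equiv.coe_mulLeft, inv_mul_cancel_left] at h2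
    exact h2
  · intro x _
    rw [Equiv.coe_mulLeft, map_mul, Module.End.mul_apply]

theorem avT_mul (σ : Representation ℂ (Perm (Fin n)) X) (T : Finset (Fin n)) (x : Perm (Fin n))
    (hx : x.support ⊆ T) (z : X) : avT σ T (σ x z) = avT σ T z := by
  rw [avT_apply27, avT_apply27]
  congr 1
  refine Finset.sum_equiv (Equiv.mulRight x) ?_ ?_
  · intro y
    rw [Finset.mem_filter, Finset.mem_filter]
    refine ⟨fun h => ⟨Finset.mem_univ _, supp_mul27 h.2 hx⟩, fun h => ⟨Finset.mem_univ _, ?_⟩⟩
    have h2 := supp_mul27 h.2 (supp_inv27 hx)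
    rw [Equiv.coe_mulRight, mul_inv_cancel_right] at h2
    exact h2
  · intro y _
    rw [Equiv.coe_mulRight, map_mul, Module.End.mul_apply]

private theorem exists_jD27 {d : ℕ} (h : d ≤ n) (g : Perm (Fin n))
    (hg : ∀ i : Fin n, (i : ℕ) < d → ((g i : Fin n) : ℕ) < d) :
    ∃ y : Perm (Fin d), ∀ i : Fin n, (i : ℕ) < d → jD h y i = g i := by
  have hiff : ∀ i : Fin n, ((g i : Fin n) : ℕ) < d ↔ (i : ℕ) < d := by
    intro i
    refine ⟨fun hi => ?_, hg i⟩
    have himg : (DD n d).image g = DD n d := by
      apply Finset.eq_of_subset_of_card_le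
      · intro j hj
        obtain ⟨i, hi, rfl⟩ := Finset.mem_image.1 hj
        exact mem_DD.2 (hg i (mem_DD.1 hi))
      · rw [Finset.card_image_of_injective _ g.injective]
    have h1 : g i ∈ (DD n d).image g := by
      rw [himg]
      exact mem_DD.2 hi
    obtain ⟨j, hj, hij⟩ := Finset.mem_image.1 h1
    rw [← g.injective hij]
    exact mem_DD.1 hj
  refine ⟨(eD h).symm.permCongr (g.subtypePerm hiff), fun i hi => ?_⟩
  rw [jD_apply h _ i hi]
  apply Fin.ext
  rfl

private theorem swap_supp27 {T : Finset (Fin n)} {a b : Fin n} (ha : a ∈ T) (hb : b ∈ T) :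
    (Equiv.swap a b).support ⊆ T := by
  intro i hi
  by_contra hiT
  refine (Perm.mem_support.1 hi) (Equiv.swap_apply_of_ne_of_ne ?_ ?_)
  · rintro rfl
    exact hiT ha
  · rintro rfl
    exact hiT hb

theorem av_new (σ : Representation ℂ (Perm (Fin n)) X) {d : ℕ} (h : d ≤ n) (F : Submodule ℂ X)
    (hF : F ≤ New σ d) (hst : ∀ (y : Perm (Fin d)), ∀ z ∈ F, σ (jD h y) z ∈ F)
    (g : Perm (Fin n)) (z : X) (hz : z ∈ F) : avT σ (TT n d) (σ g z) ∈ F := by
  classical
  have main : ∀ (m : ℕ) (g : Perm (Fin n)),
      (Finset.univ.filter (fun i : Fin n => (i : ℕ) < d ∧ d ≤ ((g i : Fin n) : ℕ))).card = m →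
      avT σ (TT n d) (σ g z) ∈ F := by
    intro m
    induction m using Nat.strong_induction_on with
    | _ m ih =>
      intro g hm
      by_cases hb : ∀ i : Fin n, (i : ℕ) < d → ((g i : Fin n) : ℕ) < d
      · obtain ⟨y, hy⟩ := exists_jD27 h g hb
        have hτ : (g * (jD h y)⁻¹).support ⊆ TT n d := by
          intro i hi
          rw [mem_TT]
          by_contra hlt
          push Not at hlt
          refine (Perm.mem_support.1 hi) ?_
          rw [Perm.mul_apply]
          have h1 : (((jD h y)⁻¹ i : Fin n) : ℕ) < d := by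
            rw [← map_inv]
            exact jD_apply_lt h _ i hlt
          rw [← hy _ h1]
          rw [← Perm.mul_apply, mul_inv_cancel, Perm.one_apply]
        have e1 : σ g z = σ (g * (jD h y)⁻¹) (σ (jD h y) z) := by
          rw [← Module.End.mul_apply, ← map_mul, inv_mul_cancel_right]
        rw [e1, avT_mul σ _ _ hτ]
        have h2 := hst y z hz
        rw [avT_of_mem σ _ _ (hF h2).1]
        exact h2
      · push Not at hb
        obtain ⟨a, ha, hga⟩ := hb
        have hnew := (hF hz).2 a ha
        have haT : a ∉ TT n d := by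
          rw [mem_TT]
          omega
        set w := avT σ (TT n d) (σ g z) with hw
        have h0 : ∑ y ∈ insert a (TT n d), avT σ (TT n d) (σ (g * Equiv.swap a y) z) = 0 := by
          have h1 : avT σ (TT n d) (σ g (qq σ (TT n d) a z)) = 0 := by
            rw [hnew, map_zero, map_zero]
          rw [← h1]
          unfold qq
          rw [LinearMap.sum_apply, map_sum, map_sum]
          refine Finset.sum_congr rfl fun y _ => ?_
          rw [map_mul, Module.End.mul_apply]
        rw [Finset.sum_insert haT, Equiv.swap_self] at h0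
        have hone : g * Equiv.refl (Fin n) = g := rfl
        rw [hone, ← hw, ← Finset.sum_filter_add_sum_filter_not (TT n d) (fun y => d ≤ ((g y : Fin n) : ℕ))] at h0
        have h1 : ∀ y ∈ (TT n d).filter (fun y => d ≤ ((g y : Fin n) : ℕ)),
            avT σ (TT n d) (σ (g * Equiv.swap a y) z) = w := by
          intro y hy
          rw [Finset.mem_filter] at hy
          rw [Equiv.mul_swap_eq_swap_mul, map_mul, Module.End.mul_apply, avT_mul]
          exact swap_supp27 (mem_TT.2 hga) (mem_TT.2 hy.2)
        have h2 : ∀ y ∈ (TT n d).filter (fun y => ¬ d ≤ ((g y : Fin n) : ℕ)),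
            avT σ (TT n d) (σ (g * Equiv.swap a y) z) ∈ F := by
          intro y hy
          rw [Finset.mem_filter, mem_TT] at hy
          refine ih _ ?_ (g * Equiv.swap a y) rfl
          rw [← hm]
          apply Finset.card_lt_card
          rw [Finset.ssubset_iff_of_subset]
          · refine ⟨a, ?_, ?_⟩
            · rw [Finset.mem_filter]
              exact ⟨Finset.mem_univ _, ha, hga⟩
            · rw [Finset.mem_filter]
              rintro ⟨_, _, h3⟩
              rw [Perm.mul_apply, Equiv.swap_apply_left] at h3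
              exact hy.2 h3
          · intro i hi
            rw [Finset.mem_filter] at hi ⊢
            obtain ⟨_, hi1, hi2⟩ := hi
            refine ⟨Finset.mem_univ _, hi1, ?_⟩
            have hia : i ≠ a := by
              rintro rfl
              rw [Perm.mul_apply, Equiv.swap_apply_left] at hi2
              exact hy.2 hi2
            have hiy : i ≠ y := by
              rintro rfl
              omega
            rw [Perm.mul_apply, Equiv.swap_apply_of_ne_of_ne hia hiy] at hi2
            exact hi2
        rw [Finset.sum_congr rfl h1, Finset.sum_const, ← Nat.cast_smul_eq_nsmul ℂ] at h0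
        set N := ((TT n d).filter (fun y => d ≤ ((g y : Fin n) : ℕ))).card with hN
        have hs := Submodule.sum_mem F h2
        set s := ∑ y ∈ (TT n d).filter (fun y => ¬ d ≤ ((g y : Fin n) : ℕ)),
            avT σ (TT n d) (σ (g * Equiv.swap a y) z) with hsdef
        have h3 : (1 + (N : ℂ)) • w = - s := by
          rw [add_smul, one_smul]
          have : w + (N : ℂ) • w + s = 0 := by
            rw [add_assoc]
            exact h0
          exact eq_neg_of_add_eq_zero_left this
        have hne : (1 + (N : ℂ)) ≠ 0 := by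
          have : ((1 + N : ℕ) : ℂ) ≠ 0 := Nat.cast_ne_zero.2 (by omega)
          push_cast at this
          exact this
        have h4 : w = (1 + (N : ℂ))⁻¹ • (- s) := by
          rw [← h3, smul_smul, inv_mul_cancel₀ hne, one_smul]
        rw [h4]
        exact F.smul_mem _ (F.neg_mem hs)
  exact main _ g rfl

end Pool.Agent.Helper51.TN
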