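import Pool.Agent.Helper51.TN.L1
import Pool.Agent.Helper51.TN.L4

/-!
BLOCK TN-L5 (about 200 lines). From a new map to a constituent.

Proof in words. `T = TT n d`, `E = inv θ T`, `P_T = avT _ T`, `h : d ≤ n` from `hd.1`.
(1) `avT σ T (σ g (φ v)) = φ (avT θ T (θ g v))` for all `g`, `v ∈ E` (note `avT θ T _ ∈ E`, `avT_mem`): apply `av_new` to the direct product
    representation of `σ` and `θ` on `X × W` (`x ↦ (σ g x.1, θ g x.2)`) and `F = {(φ v, v) : v ∈ E}` (range of `v ↦ (φ v, v)`), which is contained in `New`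
    (`hN`, `inv_le_New`) and stable (`hφ`): the average of `(σ g (φ v), θ g v)` is in `F`.
(2) Choose `v' ∈ E` with `φ v' ≠ 0` (so `v' ≠ 0`) and a functional `l` on `E` with `l v' = 1`. Put `A w = ∑_g l (P_T (θ g⁻¹ w)) • θ g v'` (an endomorphism of
    `W`): it commutes with `θ`, so `A = c` (Schur: `Representation.IsIrreducible.algebraMap_intertwiningMap_bijective_of_isAlgClosed`, see
    `TS.schur_sum`), and `c * dim W = tr A = ∑_g l (P_T (θ g⁻¹ θ g v')) = n! * l v' = n!` (the trace of `w ↦ f w • u` is `f u`), so `c ≠ 0`.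
(3) `Θ w = ∑_g l (P_T (θ g⁻¹ w)) • σ g (φ v')` is an element of `HomP θ σ P` (`P` commutes with `σ`, `P (φ v') = φ v'`), and
    `P_T (Θ v') = ∑_g l(..) • φ (P_T (θ g v')) = φ (P_T (A v')) = c • φ v' ≠ 0` by (1), (2). So `HomP θ σ P ≠ ⊥`, its finrank is not `0`, and `dim_hom` (with
    `Fintype.card (Perm (Fin n)) ≠ 0`) gives the claim.
-/

set_option autoImplicit false

open Module Equiv Pool.Agent.Helper1.TS Pool.Agent.Helper70.TU

namespace Pool.Agent.Helper51.TN

variable {n : ℕ} {X W : Type*} [AddCommGroup X] [Module ℂ X] [FiniteDimensional ℂ X]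
  [AddCommGroup W] [Module ℂ W] [FiniteDimensional ℂ W]

theorem link (θ : Representation ℂ (Perm (Fin n)) W) [θ.IsIrreducible]
    (σ : Representation ℂ (Perm (Fin n)) X) (P : X →ₗ[ℂ] X) (hP : ∀ x, P (P x) = P x)
    (hc : ∀ (g : Perm (Fin n)) (x : X), P (σ g x) = σ g (P x)) {d : ℕ} (hd : IsDepth θ d)
    (φ : inv θ (TT n d) →ₗ[ℂ] X) (hφ0 : φ ≠ 0)
    (hφ : ∀ (y : Perm (Fin d)) (v : inv θ (TT n d)), φ (rhoE θ hd.1 y v) = σ (jD hd.1 y) (φ v))
    (hN : ∀ v, φ v ∈ New σ d) (hPφ : ∀ v, P (φ v) = φ v) :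
    ∑ g : Perm (Fin n), LinearMap.trace ℂ X (σ g ∘ₗ P) * θ.character g⁻¹ ≠ 0 := by
  classical
  have hdn : d ≤ n := hd.1
  -- the direct product representation
  let π : Representation ℂ (Perm (Fin n)) (X × W) :=
    { toFun := fun g => (σ g).prodMap (θ g)
      map_one' := by
        refine LinearMap.ext fun x => ?_
        rw [map_one, map_one]
        rfl
      map_mul' := fun a b => by
        refine LinearMap.ext fun x => ?_
        rw [map_mul, map_mul]
        rfl }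
  have hπ : ∀ (g : Perm (Fin n)) (x : X × W), π g x = (σ g x.1, θ g x.2) := fun g x => rfl
  have hsum : ∀ (s : Finset (Perm (Fin n))) (f : Perm (Fin n) → X × W),
      ∑ x ∈ s, f x = (∑ x ∈ s, (f x).1, ∑ x ∈ s, (f x).2) := by
    intro s f
    refine Prod.ext ?_ ?_
    · rw [Prod.fst_sum]
    · rw [Prod.snd_sum]
  have hsum' : ∀ (s : Finset (Fin n)) (f : Fin n → X × W),
      ∑ x ∈ s, f x = (∑ x ∈ s, (f x).1, ∑ x ∈ s, (f x).2) := by
    intro s f
    refine Prod.ext ?_ ?_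
    · rw [Prod.fst_sum]
    · rw [Prod.snd_sum]
  have havT : ∀ x : X × W, avT π (TT n d) x = (avT σ (TT n d) x.1, avT θ (TT n d) x.2) := by
    intro x
    unfold avT
    rw [LinearMap.smul_apply, LinearMap.smul_apply, LinearMap.smul_apply, LinearMap.sum_apply,
      LinearMap.sum_apply, LinearMap.sum_apply, hsum]
    rfl
  have hqq : ∀ (a : Fin n) (x : X × W), qq π (TT n d) a x = (qq σ (TT n d) a x.1, qq θ (TT n d) a x.2) := by
    intro a x
    unfold qq
    rw [LinearMap.sum_apply, LinearMap.sum_apply, LinearMap.sum_apply, hsum']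
    rfl
  let F : Submodule ℂ (X × W) := LinearMap.range (φ.prod (Submodule.subtype (inv θ (TT n d))))
  have hFmem : ∀ v : inv θ (TT n d), ((φ v, (v : W)) : X × W) ∈ F := fun v => ⟨v, rfl⟩
  have hFmem' : ∀ z ∈ F, ∃ v : inv θ (TT n d), z = (φ v, (v : W)) := by
    rintro z ⟨v, rfl⟩
    exact ⟨v, rfl⟩
  have hFN : F ≤ New π d := by
    intro z hz
    obtain ⟨v, rfl⟩ := hFmem' z hz
    have h1 := hN v
    have h2 := inv_le_New θ hd v.2
    rw [mem_New] at h1 h2 ⊢
    refine ⟨fun x hx => ?_, fun a ha => ?_⟩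
    · rw [hπ]
      exact Prod.ext (h1.1 x hx) (h2.1 x hx)
    · rw [hqq]
      have h3 := h1.2 a ha
      have h4 := h2.2 a ha
      exact Prod.ext h3 h4
  have hFst : ∀ (y : Perm (Fin d)), ∀ z ∈ F, π (jD hdn y) z ∈ F := by
    intro y z hz
    obtain ⟨v, rfl⟩ := hFmem' z hz
    rw [hπ]
    have h1 := hFmem (rhoE θ hdn y v)
    rw [hφ, rhoE_coe] at h1
    exact h1
  have key : ∀ (g : Perm (Fin n)) (v : inv θ (TT n d)),
      avT σ (TT n d) (σ g (φ v)) = φ ⟨avT θ (TT n d) (θ g v), avT_mem θ (TT n d) _⟩ := by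
    intro g v
    have h1 := av_new π hdn F hFN hFst g _ (hFmem v)
    rw [havT, hπ] at h1
    obtain ⟨v₂, hv₂⟩ := hFmem' _ h1
    have h2 : avT σ (TT n d) (σ g (φ v)) = φ v₂ := congrArg Prod.fst hv₂
    have h3 : avT θ (TT n d) (θ g v) = (v₂ : W) := congrArg Prod.snd hv₂
    rw [h2]
    congr 1
    exact Subtype.ext h3.symm
  -- the vector and the functional
  obtain ⟨v', hv'⟩ : ∃ v', φ v' ≠ 0 := by
    by_contra hne
    push Not at hne
    exact hφ0 (LinearMap.ext fun v => by rw [hne v, LinearMap.zero_apply])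
  have hv0 : v' ≠ 0 := by
    rintro rfl
    exact hv' (map_zero φ)
  obtain ⟨l, hl⟩ : ∃ l : Module.Dual ℂ (inv θ (TT n d)), l v' = 1 :=
    Module.Projective.exists_dual_eq_one ℂ hv0
  -- the projection to `E`
  let PE : W →ₗ[ℂ] inv θ (TT n d) := (avT θ (TT n d)).codRestrict (inv θ (TT n d)) (fun w => avT_mem θ (TT n d) w)
  have hPE : ∀ w, (PE w : W) = avT θ (TT n d) w := fun w => rfl
  have hPEv : PE (v' : W) = v' := Subtype.ext (avT_of_mem θ (TT n d) _ v'.2)
  have key' : ∀ (g : Perm (Fin n)) (v : inv θ (TT n d)), avT σ (TT n d) (σ g (φ v)) = φ (PE (θ g v)) := key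
  let lP : W →ₗ[ℂ] ℂ := l ∘ₗ PE
  -- the endomorphism
  let A : W →ₗ[ℂ] W := ∑ g : Perm (Fin n), (lP ∘ₗ θ g⁻¹).smulRight (θ g v')
  have hA : ∀ w, A w = ∑ g : Perm (Fin n), lP (θ g⁻¹ w) • θ g v' := by
    intro w
    change (∑ g : Perm (Fin n), (lP ∘ₗ θ g⁻¹).smulRight (θ g v')) w = _
    rw [LinearMap.sum_apply]
    rfl
  have hAc : ∀ (x : Perm (Fin n)) (w : W), A (θ x w) = θ x (A w) := by
    intro x w
    rw [hA, hA, map_sum]
    refine Fintype.sum_equiv (Equiv.mulLeft x⁻¹) _ _ fun g => ?_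
    rw [Equiv.coe_mulLeft, map_smul, ← Module.End.mul_apply (θ x), ← map_mul, mul_inv_cancel_left, mul_inv_rev, inv_inv,
      map_mul, Module.End.mul_apply]
  obtain ⟨c, hc'⟩ := (Representation.IsIrreducible.algebraMap_intertwiningMap_bijective_of_isAlgClosed
    (ρ := θ)).2 (A.intertwiningMap_of_isIntertwiningMap θ θ hAc)
  have hAcc : ∀ w, A w = c • w := by
    intro w
    have h2 := congrArg (fun f : Representation.IntertwiningMap θ θ => f.toLinearMap) hc'
    have h3 := congrArg (fun f : W →ₗ[ℂ] W => f w) h2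
    have h4 : A w = (((algebraMap ℂ (Representation.IntertwiningMap θ θ)) c).toLinearMap) w := h3.symm
    rw [h4]
    rfl
  have hcard : (Fintype.card (Perm (Fin n)) : ℂ) ≠ 0 := Nat.cast_ne_zero.2 Fintype.card_ne_zero
  have htrA : LinearMap.trace ℂ W A = (Fintype.card (Perm (Fin n)) : ℂ) := by
    change LinearMap.trace ℂ W (∑ g : Perm (Fin n), (lP ∘ₗ θ g⁻¹).smulRight (θ g v')) = _
    rw [map_sum]
    have h1 : ∀ g : Perm (Fin n), LinearMap.trace ℂ W ((lP ∘ₗ θ g⁻¹).smulRight (θ g v')) = 1 := by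
      intro g
      rw [LinearMap.trace_smulRight, LinearMap.comp_apply, ← Module.End.mul_apply, ← map_mul, inv_mul_cancel, map_one,
        Module.End.one_apply]
      change l (PE v') = 1
      rw [hPEv, hl]
    rw [Finset.sum_congr rfl fun g _ => h1 g, Finset.sum_const, Finset.card_univ, nsmul_eq_mul, mul_one]
  have hc0 : c ≠ 0 := by
    rintro rfl
    have h1 : A = 0 := LinearMap.ext fun w => by rw [hAcc w, zero_smul, LinearMap.zero_apply]
    rw [h1, map_zero] at htrA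
    exact hcard htrA.symm
  -- the intertwining map
  let Θ : W →ₗ[ℂ] X := ∑ g : Perm (Fin n), (lP ∘ₗ θ g⁻¹).smulRight (σ g (φ v'))
  have hΘ : ∀ w, Θ w = ∑ g : Perm (Fin n), lP (θ g⁻¹ w) • σ g (φ v') := by
    intro w
    change (∑ g : Perm (Fin n), (lP ∘ₗ θ g⁻¹).smulRight (σ g (φ v'))) w = _
    rw [LinearMap.sum_apply]
    rfl
  have hΘmem : Θ ∈ HomP θ σ P := by
    rw [mem_HomP]
    refine ⟨fun x w => ?_, fun w => ?_⟩
    · rw [hΘ, hΘ, map_sum]
      refine Fintype.sum_equiv (Equiv.mulLeft x⁻¹) _ _ fun g => ?_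
      rw [Equiv.coe_mulLeft, map_smul, ← Module.End.mul_apply (σ x), ← map_mul, mul_inv_cancel_left, mul_inv_rev, inv_inv,
        map_mul, Module.End.mul_apply]
    · rw [hΘ, map_sum]
      refine Finset.sum_congr rfl fun g _ => ?_
      rw [map_smul, hc, hPφ]
  have hΘ0 : Θ ≠ 0 := by
    intro h0
    have h1 : avT σ (TT n d) (Θ v') = c • φ v' := by
      rw [hΘ, map_sum]
      have h2 : ∀ g : Perm (Fin n), avT σ (TT n d) (lP (θ g⁻¹ v') • σ g (φ v')) = φ (PE (lP (θ g⁻¹ v') • θ g v')) := by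
        intro g
        rw [map_smul, key', map_smul, map_smul]
      rw [Finset.sum_congr rfl fun g _ => h2 g, ← map_sum, ← map_sum, ← hA, hAcc, map_smul, hPEv, map_smul]
    rw [h0, LinearMap.zero_apply, map_zero] at h1
    rcases smul_eq_zero.1 h1.symm with h2 | h2
    · exact hc0 h2
    · exact hv' h2
  have hfin : (finrank ℂ (HomP θ σ P) : ℂ) ≠ 0 := by
    rw [Nat.cast_ne_zero]
    intro h0
    have h1 : HomP θ σ P = ⊥ := Submodule.finrank_eq_zero.1 h0
    rw [h1, Submodule.mem_bot] at hΘmem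
    exact hΘ0 hΘmem
  rw [← dim_hom θ σ P hP hc]
  exact mul_ne_zero hcard hfin

end Pool.Agent.Helper51.TN
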