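import Pool.Agent.Helper51.TN.B5
import Pool.Agent.Helper51.TN.B6
import Pool.Agent.Helper51.TN.B7
import Pool.Agent.Helper51.TN.L5
import Pool.Agent.Helper51.TN.L6
import Pool.Agent.Helper51.TN.L7

/-!
TN-B8: small depth (`d + 6 ≤` number of corners).
-/

set_option autoImplicit false

open Module Equiv Pool.Agent.Helper1.TS Pool.Agent.Helper70.TU

namespace Pool.Agent.Helper51.TN

section Proj

variable {n : ℕ} {V : Type} [AddCommGroup V] [Module ℂ V] [FiniteDimensional ℂ V]

/-- `pe ε` commutes with the representation. -/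
theorem pe_bil (ρ : Representation ℂ (Perm (Fin n)) V) (ε : ℂ) (g : Perm (Fin n)) (b : Bil V) :
    pe ε (bil ρ g b) = bil ρ g (pe ε b) := pe_pb ε (ρ g⁻¹) b

theorem pe_qq (ρ : Representation ℂ (Perm (Fin n)) V) (ε : ℂ) (T : Finset (Fin n)) (a : Fin n)
    (b : Bil V) : pe ε (qq (bil ρ) T a b) = qq (bil ρ) T a (pe ε b) := by
  unfold qq
  rw [LinearMap.sum_apply, LinearMap.sum_apply, map_sum]
  exact Finset.sum_congr rfl fun y _ => pe_bil ρ ε _ b

theorem pe_of_proj (ρ : Representation ℂ (Perm (Fin n)) V) {e : ℕ} (h : e ≤ n) (ε : ℂ) (hε : ε ^ 2 = 1)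
    (b : Bil V) (hb : PiE ρ h (pe ε b) = b) : pe ε b = b := by
  have h1 : pe ε (PiE ρ h (pe ε b)) = PiE ρ h (pe ε b) := by
    rw [← PiE_pe, pe_idem ε hε]
  rwa [hb] at h1

theorem PiE_of_proj (ρ : Representation ℂ (Perm (Fin n)) V) {e : ℕ} (h : e ≤ n) (ε : ℂ)
    (b : Bil V) (hb : PiE ρ h (pe ε b) = b) : PiE ρ h b = b := by
  have h1 : PiE ρ h (PiE ρ h (pe ε b)) = PiE ρ h (pe ε b) := PiE_idem ρ h _
  rwa [hb] at h1

end Proj

section Main

variable {n : ℕ} {V W : Type} [AddCommGroup V] [Module ℂ V] [FiniteDimensional ℂ V]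
  [AddCommGroup W] [Module ℂ W] [FiniteDimensional ℂ W]

/-- A new map gives a constituent of the square. -/
theorem of_new (ρ : Representation ℂ (Perm (Fin n)) V) (θ : Representation ℂ (Perm (Fin n)) W)
    [θ.IsIrreducible] {d : ℕ} (hd : IsDepth θ d) (ε : ℂ) (hε : ε ^ 2 = 1)
    (f : inv θ (TT n d) →ₗ[ℂ] Bil V) (hf0 : f ≠ 0)
    (hf : ∀ (y : Perm (Fin d)) (v : inv θ (TT n d)), f (rhoE θ hd.1 y v) = bil ρ (jD hd.1 y) (f v))
    (hN : ∀ v, f v ∈ New (bil ρ) d) (hP : ∀ v, pe ε (f v) = f v) :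
    ∑ g : Perm (Fin n), (ρ.character g ^ 2 + ε * ρ.character (g ^ 2)) / 2 * θ.character g⁻¹ ≠ 0 := by
  have h1 := link θ (bil ρ) (pe ε) (pe_idem ε hε) (fun g x => pe_bil ρ ε g x) hd f hf0 hf hN hP
  intro h2
  apply h1
  rw [← h2]
  refine Finset.sum_congr rfl fun g _ => ?_
  rw [trace_bil_pe, inv_pow, char_perm_inv ρ g, char_perm_inv ρ (g ^ 2)]

/-- `I_e`, the sum of the character over the involutions, is bounded. -/
theorem re_sum_le {m : ℕ} {E : Type*} [AddCommGroup E] [Module ℂ E] [FiniteDimensional ℂ E]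
    (τ : Representation ℂ (Perm (Fin m)) E) {ι : Type*} (s : Finset ι) (x : ι → Perm (Fin m)) :
    |∑ y ∈ s, (τ.character (x y)).re| ≤ s.card * finrank ℂ E := by
  refine (Finset.abs_sum_le_sum_abs _ _).trans ?_
  rw [← nsmul_eq_mul]
  refine Finset.sum_le_card_nsmul _ _ _ fun y _ => ?_
  exact (Complex.abs_re_le_norm _).trans (norm_char_le τ (x y))

/-- The real form of `finrank_block`. -/
theorem finrank_block_real (ρ : Representation ℂ (Perm (Fin n)) V) [ρ.IsIrreducible] {e : ℕ} (h : e ≤ n)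
    {E : Type*} [AddCommGroup E] [Module ℂ E] [FiniteDimensional ℂ E]
    (τ : Representation ℂ (Perm (Fin e)) E) (ε : ℝ) (hε : ε ^ 2 = 1) :
    2 * (finrank ℂ (HomE h τ (bil ρ) (PiE ρ h ∘ₗ pe (ε : ℂ))) : ℝ) =
      ((CC ρ).card.choose e : ℝ) * (e.factorial * finrank ℂ E +
        ε * ∑ y ∈ Finset.univ.filter (fun y : Perm (Fin e) => y ^ 2 = 1), (τ.character y).re) := by
  have h1 := finrank_block ρ h τ (ε : ℂ) (by exact_mod_cast hε)
  have h2 : (∑ y ∈ Finset.univ.filter (fun y : Perm (Fin e) => y ^ 2 = 1), τ.character y : ℂ) =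
      ((∑ y ∈ Finset.univ.filter (fun y : Perm (Fin e) => y ^ 2 = 1), (τ.character y).re : ℝ) : ℂ) := by
    rw [Complex.ofReal_sum]
    exact Finset.sum_congr rfl fun y _ => char_perm_real τ y
  have h3 : 2 * (finrank ℂ (HomE h τ (bil ρ) (PiE ρ h ∘ₗ pe (ε : ℂ))) : ℂ) =
      ((CC ρ).card.choose e : ℂ) * (e.factorial * finrank ℂ E +
        ε * ∑ y ∈ Finset.univ.filter (fun y : Perm (Fin e) => y ^ 2 = 1), τ.character y) := by
    convert h1
  rw [h2] at h3
  exact_mod_cast h3

theorem shallow_zero (ρ : Representation ℂ (Perm (Fin n)) V) [ρ.IsIrreducible]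
    (θ : Representation ℂ (Perm (Fin n)) W) [θ.IsIrreducible] (hd : IsDepth θ 0) :
    ∑ g : Perm (Fin n), (ρ.character g ^ 2 + (1 : ℂ) * ρ.character (g ^ 2)) / 2 * θ.character g⁻¹ ≠ 0 := by
  classical
  have hE : 0 < finrank ℂ (inv θ (TT n 0)) := by
    rw [Module.finrank_pos_iff, Submodule.nontrivial_iff_ne_bot]
    exact hd.2.1
  have h1 := finrank_block_real ρ hd.1 (rhoE θ hd.1) 1 (by norm_num)
  have h2 : ∑ y ∈ Finset.univ.filter (fun y : Perm (Fin 0) => y ^ 2 = 1),
      ((rhoE θ hd.1).character y).re = finrank ℂ (inv θ (TT n 0)) := by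
    have h3 : (Finset.univ.filter (fun y : Perm (Fin 0) => y ^ 2 = 1)) = {1} := by
      ext y
      simp [Subsingleton.elim y 1]
    rw [h3, Finset.sum_singleton, Representation.char_one]
    simp
  rw [h2, Nat.choose_zero_right, Nat.factorial_zero] at h1
  have h4 : 0 < finrank ℂ (HomE hd.1 (rhoE θ hd.1) (bil ρ) (PiE ρ hd.1 ∘ₗ pe ((1 : ℝ) : ℂ))) := by
    have h5 : (0 : ℝ) < finrank ℂ (inv θ (TT n 0)) := by exact_mod_cast hE
    have h6 : (0 : ℝ) < finrank ℂ (HomE hd.1 (rhoE θ hd.1) (bil ρ) (PiE ρ hd.1 ∘ₗ pe ((1 : ℝ) : ℂ))) := by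
      push_cast at h1 ⊢
      linarith
    exact_mod_cast h6
  have h4' : HomE hd.1 (rhoE θ hd.1) (bil ρ) (PiE ρ hd.1 ∘ₗ pe ((1 : ℝ) : ℂ)) ≠ ⊥ := by
    intro hbot
    rw [hbot, finrank_bot] at h4
    exact lt_irrefl _ h4
  obtain ⟨f, hf, hf0⟩ := Submodule.exists_mem_ne_zero_of_ne_bot h4'
  obtain ⟨hf1, hf2⟩ := mem_HomP.1 hf
  have hε : ((1 : ℝ) : ℂ) ^ 2 = 1 := by norm_num
  have hpe : ∀ v, pe (1 : ℂ) (f v) = f v := fun v => by
    have := pe_of_proj ρ hd.1 ((1 : ℝ) : ℂ) hε (f v) (hf2 v)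
    rwa [Complex.ofReal_one] at this
  refine of_new ρ θ hd 1 (by norm_num) f hf0 ?_ ?_ hpe
  · intro y v
    have h7 : f (rhoE θ hd.1 y v) = bil ρ (jT hd.1 1 * jD hd.1 y) (f v) :=
      hf1 ((1, y) : Perm (Fin (n - 0)) × Perm (Fin 0)) v
    rw [map_one, one_mul] at h7
    exact h7
  · intro v
    refine ⟨(mem_inv_iff (bil ρ) hd.1 (f v)).2 fun x => ?_, fun a ha => absurd ha (Nat.not_lt_zero _)⟩
    have h7 : f (rhoE θ hd.1 1 v) = bil ρ (jT hd.1 x * jD hd.1 1) (f v) :=
      hf1 ((x, 1) : Perm (Fin (n - 0)) × Perm (Fin 0)) v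
    rw [map_one, map_one, mul_one, Module.End.one_apply] at h7
    exact h7.symm

theorem shallow_of_lt (ρ : Representation ℂ (Perm (Fin n)) V) [ρ.IsIrreducible]
    (θ : Representation ℂ (Perm (Fin n)) W) [θ.IsIrreducible] {e : ℕ} (hd : IsDepth θ (e + 1)) (ε : ℝ)
    (hε : ε ^ 2 = 1)
    (hlt : finrank ℂ (HomE ((Nat.le_succ e).trans hd.1) ((rhoE θ hd.1).comp (jD (Nat.le_succ e))) (bil ρ)
        (PiE ρ ((Nat.le_succ e).trans hd.1) ∘ₗ pe (ε : ℂ))) <
      finrank ℂ (HomE hd.1 (rhoE θ hd.1) (bil ρ) (PiE ρ hd.1 ∘ₗ pe (ε : ℂ)))) :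
    ∑ g : Perm (Fin n), (ρ.character g ^ 2 + (ε : ℂ) * ρ.character (g ^ 2)) / 2 * θ.character g⁻¹ ≠ 0 := by
  have hε' : (ε : ℂ) ^ 2 = 1 := by exact_mod_cast hε
  have hQ : ∀ z ∈ inv (bil ρ) (TT n (e + 1)), (PiE ρ hd.1 ∘ₗ pe (ε : ℂ)) z = z →
      (PiE ρ ((Nat.le_succ e).trans hd.1) ∘ₗ pe (ε : ℂ)) (qq (bil ρ) (TT n (e + 1)) ⟨e, hd.1⟩ z) =
        qq (bil ρ) (TT n (e + 1)) ⟨e, hd.1⟩ z := by
    intro z hz hPz
    have h1 : pe (ε : ℂ) z = z := pe_of_proj ρ hd.1 (ε : ℂ) hε' z hPz
    have h2 : PiE ρ hd.1 z = z := PiE_of_proj ρ hd.1 (ε : ℂ) z hPz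
    rw [LinearMap.comp_apply, pe_qq, h1]
    exact image_block ρ hd.1 z hz h2
  obtain ⟨f, hf0, hf1, hf2, hf3⟩ := exists_new hd.1 (rhoE θ hd.1) (bil ρ)
    (PiE ρ hd.1 ∘ₗ pe (ε : ℂ)) (PiE ρ ((Nat.le_succ e).trans hd.1) ∘ₗ pe (ε : ℂ)) hQ hlt
  exact of_new ρ θ hd (ε : ℂ) hε' f hf0 hf1 hf2 (fun v => pe_of_proj ρ hd.1 (ε : ℂ) hε' (f v) (hf3 v))

theorem invol_card_le (e : ℕ) :
    (Finset.univ.filter (fun y : Perm (Fin e) => y ^ 2 = 1)).card ≤ e.factorial := by
  refine (Finset.card_filter_le _ _).trans ?_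
  rw [Finset.card_univ, Fintype.card_perm, Fintype.card_fin]

/-- The dimension inequality, real form. -/
theorem lt_of_real (ρ : Representation ℂ (Perm (Fin n)) V) [ρ.IsIrreducible]
    (θ : Representation ℂ (Perm (Fin n)) W) [θ.IsIrreducible] {e : ℕ} (hd : IsDepth θ (e + 1)) (ε : ℝ)
    (hε : ε ^ 2 = 1)
    (hlt : ((CC ρ).card.choose e : ℝ) * (e.factorial * finrank ℂ (inv θ (TT n (e + 1))) +
        ε * ∑ y ∈ Finset.univ.filter (fun y : Perm (Fin e) => y ^ 2 = 1),
          ((rhoE θ hd.1).character (jD (Nat.le_succ e) y)).re) <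
      ((CC ρ).card.choose (e + 1) : ℝ) * ((e + 1).factorial * finrank ℂ (inv θ (TT n (e + 1))) +
        ε * ∑ y ∈ Finset.univ.filter (fun y : Perm (Fin (e + 1)) => y ^ 2 = 1),
          ((rhoE θ hd.1).character y).re)) :
    ∑ g : Perm (Fin n), (ρ.character g ^ 2 + (ε : ℂ) * ρ.character (g ^ 2)) / 2 * θ.character g⁻¹ ≠ 0 := by
  refine shallow_of_lt ρ θ hd ε hε ?_
  have h1 := finrank_block_real ρ hd.1 (rhoE θ hd.1) ε hε
  have h0 := finrank_block_real ρ ((Nat.le_succ e).trans hd.1) ((rhoE θ hd.1).comp (jD (Nat.le_succ e))) ε hε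
  have h2 : ∀ y : Perm (Fin e), Representation.character ((rhoE θ hd.1).comp (jD (Nat.le_succ e))) y =
      (rhoE θ hd.1).character (jD (Nat.le_succ e) y) := fun y => rfl
  simp only [h2] at h0
  have h3 : (finrank ℂ (HomE ((Nat.le_succ e).trans hd.1) ((rhoE θ hd.1).comp (jD (Nat.le_succ e))) (bil ρ)
        (PiE ρ ((Nat.le_succ e).trans hd.1) ∘ₗ pe (ε : ℂ))) : ℝ) <
      finrank ℂ (HomE hd.1 (rhoE θ hd.1) (bil ρ) (PiE ρ hd.1 ∘ₗ pe (ε : ℂ))) := by
    linarith
  exact_mod_cast h3

theorem depth_pos_finrank (θ : Representation ℂ (Perm (Fin n)) W) {d : ℕ} (hd : IsDepth θ d) :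
    0 < finrank ℂ (inv θ (TT n d)) := by
  rw [Module.finrank_pos_iff, Submodule.nontrivial_iff_ne_bot]
  exact hd.2.1

theorem shallow_ge3 (ρ : Representation ℂ (Perm (Fin n)) V) [ρ.IsIrreducible]
    (θ : Representation ℂ (Perm (Fin n)) W) [θ.IsIrreducible] {e : ℕ} (hd : IsDepth θ (e + 1))
    (he : 2 ≤ e) (hc : e + 1 + 6 ≤ (CC ρ).card) (ε : ℝ) (hε : ε = 1 ∨ ε = -1) :
    ∑ g : Perm (Fin n), (ρ.character g ^ 2 + (ε : ℂ) * ρ.character (g ^ 2)) / 2 * θ.character g⁻¹ ≠ 0 := by
  have hε2 : ε ^ 2 = 1 := by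
    rcases hε with rfl | rfl <;> norm_num
  refine lt_of_real ρ θ hd ε hε2 ?_
  have hD : (0 : ℝ) < finrank ℂ (inv θ (TT n (e + 1))) := by
    exact_mod_cast depth_pos_finrank θ hd
  have h1 := num_ge3 (CC ρ).card (e + 1) (by omega) hc (finrank ℂ (inv θ (TT n (e + 1))))
    (∑ y ∈ Finset.univ.filter (fun y : Perm (Fin (e + 1)) => y ^ 2 = 1), ((rhoE θ hd.1).character y).re)
    (∑ y ∈ Finset.univ.filter (fun y : Perm (Fin e) => y ^ 2 = 1),
      ((rhoE θ hd.1).character (jD (Nat.le_succ e) y)).re) ε hD hε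
    (re_sum_le (rhoE θ hd.1) _ (fun y => y)) ?_
  · exact h1
  · refine (re_sum_le (rhoE θ hd.1) _ _).trans ?_
    refine mul_le_mul_of_nonneg_right ?_ hD.le
    rw [Nat.add_sub_cancel]
    exact_mod_cast invol_card_le e

theorem sum_invol_one (F : Perm (Fin 1) → ℝ) :
    ∑ y ∈ Finset.univ.filter (fun y : Perm (Fin 1) => y ^ 2 = 1), F y = F 1 := by
  have h3 : (Finset.univ.filter (fun y : Perm (Fin 1) => y ^ 2 = 1)) = {1} := by
    ext y
    simp [Subsingleton.elim y 1]
  rw [h3, Finset.sum_singleton]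

theorem sum_invol_zero (F : Perm (Fin 0) → ℝ) :
    ∑ y ∈ Finset.univ.filter (fun y : Perm (Fin 0) => y ^ 2 = 1), F y = F 1 := by
  have h3 : (Finset.univ.filter (fun y : Perm (Fin 0) => y ^ 2 = 1)) = {1} := by
    ext y
    simp [Subsingleton.elim y 1]
  rw [h3, Finset.sum_singleton]

theorem sum_invol_two (F : Perm (Fin 2) → ℝ) :
    ∑ y ∈ Finset.univ.filter (fun y : Perm (Fin 2) => y ^ 2 = 1), F y = F 1 + F (Equiv.swap 0 1) := by
  have h3 : (Finset.univ.filter (fun y : Perm (Fin 2) => y ^ 2 = 1)) = {1, Equiv.swap 0 1} := by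
    decide
  rw [h3, Finset.sum_pair (by decide)]

theorem char_one_re {m : ℕ} {E : Type*} [AddCommGroup E] [Module ℂ E] [FiniteDimensional ℂ E]
    (τ : Representation ℂ (Perm (Fin m)) E) : (τ.character 1).re = finrank ℂ E := by
  rw [Representation.char_one]
  simp

theorem shallow_one (ρ : Representation ℂ (Perm (Fin n)) V) [ρ.IsIrreducible]
    (θ : Representation ℂ (Perm (Fin n)) W) [θ.IsIrreducible] (hd : IsDepth θ (0 + 1))
    (hc : 2 ≤ (CC ρ).card) :
    ∑ g : Perm (Fin n), (ρ.character g ^ 2 + ((1 : ℝ) : ℂ) * ρ.character (g ^ 2)) / 2 * θ.character g⁻¹ ≠ 0 := by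
  refine lt_of_real ρ θ hd 1 (by norm_num) ?_
  have hD : (0 : ℝ) < finrank ℂ (inv θ (TT n (0 + 1))) := by
    exact_mod_cast depth_pos_finrank θ hd
  rw [sum_invol_zero, sum_invol_one, map_one, char_one_re, Nat.choose_zero_right, Nat.choose_one_right,
    Nat.factorial_zero, Nat.factorial_one]
  have h2 : (2 : ℝ) ≤ (CC ρ).card := by exact_mod_cast hc
  push_cast
  nlinarith

theorem choose_two_real (c : ℕ) : (c.choose 2 : ℝ) = c * (c - 1) / 2 := by
  rw [Nat.cast_choose_two]

theorem shallow_two_sym (ρ : Representation ℂ (Perm (Fin n)) V) [ρ.IsIrreducible]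
    (θ : Representation ℂ (Perm (Fin n)) W) [θ.IsIrreducible] (hd : IsDepth θ (1 + 1))
    (hc : 4 ≤ (CC ρ).card) :
    ∑ g : Perm (Fin n), (ρ.character g ^ 2 + ((1 : ℝ) : ℂ) * ρ.character (g ^ 2)) / 2 * θ.character g⁻¹ ≠ 0 := by
  refine lt_of_real ρ θ hd 1 (by norm_num) ?_
  have hD : (0 : ℝ) < finrank ℂ (inv θ (TT n (1 + 1))) := by
    exact_mod_cast depth_pos_finrank θ hd
  have hs : -(finrank ℂ (inv θ (TT n (1 + 1))) : ℝ) ≤ ((rhoE θ hd.1).character (Equiv.swap 0 1)).re := by
    have h1 := (Complex.abs_re_le_norm _).trans (norm_char_le (rhoE θ hd.1) (Equiv.swap 0 1))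
    exact (abs_le.1 h1).1
  rw [sum_invol_one, sum_invol_two, map_one, char_one_re, Nat.choose_one_right,
    Nat.factorial_one, choose_two_real]
  have h2 : (4 : ℝ) ≤ (CC ρ).card := by exact_mod_cast hc
  have h3 : ((1 + 1).factorial : ℝ) = 2 := by norm_num [Nat.factorial]
  rw [h3]
  set D : ℝ := (finrank ℂ (inv θ (TT n (1 + 1))) : ℝ)
  set X : ℝ := ((rhoE θ hd.1).character (Equiv.swap 0 1)).re
  set c : ℝ := ((CC ρ).card : ℝ)
  push_cast
  have h4 : 0 < c := by linarith
  have h5 : 2 * D ≤ 2 * D + (D + X) := by linarith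
  have h6 : c * (D + D) < c * (c - 1) / 2 * (2 * D) := by
    have : c * (c - 1) / 2 * (2 * D) - c * (D + D) = c * D * (c - 3) := by ring
    have h7 : 0 < c * D * (c - 3) := by
      have : 0 < c - 3 := by linarith
      positivity
    linarith
  have h8 : c * (c - 1) / 2 * (2 * D) ≤ c * (c - 1) / 2 * (2 * D + (D + X)) := by
    refine mul_le_mul_of_nonneg_left h5 ?_
    have : 0 ≤ c - 1 := by linarith
    positivity
  linarith

theorem shallow_two_alt (ρ : Representation ℂ (Perm (Fin n)) V) [ρ.IsIrreducible]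
    (θ : Representation ℂ (Perm (Fin n)) W) [θ.IsIrreducible] (hd : IsDepth θ (1 + 1))
    (hc : 4 ≤ (CC ρ).card)
    (hno : ∀ v : inv θ (TT n (1 + 1)), rhoE θ hd.1 (Equiv.swap 0 1) v = v → v = 0) :
    ∑ g : Perm (Fin n), (ρ.character g ^ 2 + ((-1 : ℝ) : ℂ) * ρ.character (g ^ 2)) / 2 * θ.character g⁻¹ ≠ 0 := by
  refine lt_of_real ρ θ hd (-1) (by norm_num) ?_
  have hD : (0 : ℝ) < finrank ℂ (inv θ (TT n (1 + 1))) := by
    exact_mod_cast depth_pos_finrank θ hd
  have hs : rhoE θ hd.1 (Equiv.swap 0 1) = -LinearMap.id := by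
    refine LinearMap.ext fun v => ?_
    have h1 := hno (v + rhoE θ hd.1 (Equiv.swap 0 1) v) (by
      rw [map_add, ← Module.End.mul_apply, ← map_mul, Equiv.swap_mul_self, map_one, Module.End.one_apply]
      exact add_comm _ _)
    rw [LinearMap.neg_apply, LinearMap.id_apply]
    exact (neg_eq_of_add_eq_zero_right h1).symm
  have hs2 : ((rhoE θ hd.1).character (Equiv.swap 0 1)).re = -(finrank ℂ (inv θ (TT n (1 + 1))) : ℝ) := by
    unfold Representation.character
    rw [hs, map_neg, LinearMap.trace_id]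
    simp
  rw [sum_invol_one, sum_invol_two, map_one, char_one_re, Nat.choose_one_right,
    Nat.factorial_one, choose_two_real, hs2]
  have h2 : (4 : ℝ) ≤ (CC ρ).card := by exact_mod_cast hc
  have h3 : ((1 + 1).factorial : ℝ) = 2 := by norm_num [Nat.factorial]
  rw [h3]
  set D : ℝ := (finrank ℂ (inv θ (TT n (1 + 1))) : ℝ)
  set c : ℝ := ((CC ρ).card : ℝ)
  push_cast
  have h4 : 0 < c := by linarith
  have h5 : 0 < c * (c - 1) / 2 * (2 * D) := by
    have : 0 < c - 1 := by linarith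
    positivity
  have h6 : c * (1 * D + -1 * D) = 0 := by ring
  have h7 : c * (c - 1) / 2 * (2 * D + -1 * (D + -D)) = c * (c - 1) / 2 * (2 * D) := by ring
  rw [h6, h7]
  exact h5

/-- Small depth, symmetric square. -/
theorem shallow_sym (ρ : Representation ℂ (Perm (Fin n)) V) [ρ.IsIrreducible]
    (θ : Representation ℂ (Perm (Fin n)) W) [θ.IsIrreducible] {d : ℕ} (hd : IsDepth θ d)
    (hc : d + 6 ≤ (CC ρ).card) :
    ∑ g : Perm (Fin n), (ρ.character g ^ 2 + ((1 : ℝ) : ℂ) * ρ.character (g ^ 2)) / 2 * θ.character g⁻¹ ≠ 0 := by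
  rcases d with _ | e
  · rw [Complex.ofReal_one]
    exact shallow_zero ρ θ hd
  · rcases e with _ | e
    · exact shallow_one ρ θ hd (by omega)
    · rcases e with _ | e
      · exact shallow_two_sym ρ θ hd (by omega)
      · exact shallow_ge3 ρ θ hd (by omega) hc 1 (Or.inl rfl)

/-- Small depth, exterior square. -/
theorem shallow_alt (hn : 3 ≤ n) (ρ : Representation ℂ (Perm (Fin n)) V) [ρ.IsIrreducible]
    (θ : Representation ℂ (Perm (Fin n)) W) [θ.IsIrreducible] {d : ℕ} (hd : IsDepth θ d)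
    (hc : d + 6 ≤ (CC ρ).card)
    (hno : ∀ w : W, (∀ g : Perm (Fin n), (∀ i : Fin n, (i : ℕ) < 2 → ((g i : Fin n) : ℕ) < 2) → θ g w = w) →
      w = 0) :
    ∑ g : Perm (Fin n), (ρ.character g ^ 2 + ((-1 : ℝ) : ℂ) * ρ.character (g ^ 2)) / 2 * θ.character g⁻¹ ≠ 0 := by
  -- a vector fixed by `Sym(T_2)` and `(0 1)` is zero
  have h01 : ∀ a b : Fin n, (a : ℕ) = 0 → (b : ℕ) = 1 → ∀ w : W, w ∈ inv θ (TT n 2) →
      θ (Equiv.swap a b) w = w → w = 0 := by
    intro a b ha hb w hw hs
    refine hno w fun g hg => ?_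
    have hab : a ≠ b := by
      intro h
      rw [h] at ha
      omega
    have key : ∀ x : Perm (Fin n), x a = a → x b = b → θ x w = w := by
      intro x h1 h2
      refine hw x fun i hi => ?_
      rw [mem_TT]
      by_contra hlt
      have hi' : i = a ∨ i = b := by
        rcases Nat.lt_or_ge (i : ℕ) 1 with h4 | h4
        · left
          exact Fin.ext (by omega)
        · right
          exact Fin.ext (by omega)
      rcases hi' with h5 | h5
      · rw [h5] at hi
        exact (Perm.mem_support.1 hi) h1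
      · rw [h5] at hi
        exact (Perm.mem_support.1 hi) h2
    have hcase : (g a = a ∧ g b = b) ∨ (g a = b ∧ g b = a) := by
      have h1 := hg a (by omega)
      have h2 := hg b (by omega)
      have h3 : g a ≠ g b := fun h => hab (g.injective h)
      have e1 : g a = a ∨ g a = b := by
        rcases Nat.lt_or_ge ((g a : Fin n) : ℕ) 1 with h4 | h4
        · left
          exact Fin.ext (by omega)
        · right
          exact Fin.ext (by omega)
      have e2 : g b = a ∨ g b = b := by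
        rcases Nat.lt_or_ge ((g b : Fin n) : ℕ) 1 with h4 | h4
        · left
          exact Fin.ext (by omega)
        · right
          exact Fin.ext (by omega)
      rcases e1 with e1 | e1 <;> rcases e2 with e2 | e2
      · exact absurd (e1.trans e2.symm) h3
      · exact Or.inl ⟨e1, e2⟩
      · exact Or.inr ⟨e1, e2⟩
      · exact absurd (e1.trans e2.symm) h3
    rcases hcase with ⟨h1, h2⟩ | ⟨h1, h2⟩
    · exact key g h1 h2
    · have h3 := key (g * Equiv.swap a b) (by rw [Perm.mul_apply, Equiv.swap_apply_left, h2])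
        (by rw [Perm.mul_apply, Equiv.swap_apply_right, h1])
      rw [map_mul, Module.End.mul_apply, hs] at h3
      exact h3
  rcases d with _ | e
  · exfalso
    obtain ⟨w, hw, hw0⟩ := Submodule.exists_mem_ne_zero_of_ne_bot hd.2.1
    apply hw0
    refine hno w fun g _ => hw g fun i _ => ?_
    rw [mem_TT]
    exact Nat.zero_le _
  · rcases e with _ | e
    · exfalso
      obtain ⟨w, hw, hw0⟩ := Submodule.exists_mem_ne_zero_of_ne_bot hd.2.1
      obtain ⟨a, ha⟩ : ∃ a : Fin n, (a : ℕ) = 0 := ⟨⟨0, by omega⟩, rfl⟩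
      obtain ⟨b, hb⟩ : ∃ b : Fin n, (b : ℕ) = 1 := ⟨⟨1, by omega⟩, rfl⟩
      have hab : b ≠ a := by
        intro h
        rw [h] at hb
        omega
      have hfix : ∀ x : Perm (Fin n), x a = a → θ x w = w := by
        intro x h1
        refine hw x fun i hi => ?_
        rw [mem_TT]
        by_contra hlt
        have h2 : i = a := Fin.ext (by omega)
        rw [h2] at hi
        exact (Perm.mem_support.1 hi) h1
      set u := θ (Equiv.swap a b) w with hu
      have h1 : w + u = 0 := by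
        refine h01 a b ha hb (w + u) ?_ ?_
        · intro x hx
          have hxa : x a = a := by
            by_contra hne
            have := mem_TT.1 (hx (Perm.mem_support.2 hne))
            omega
          have hxb : x b = b := by
            by_contra hne
            have := mem_TT.1 (hx (Perm.mem_support.2 hne))
            omega
          have h2 : x * Equiv.swap a b = Equiv.swap a b * x := by
            have h3 := Equiv.swap_apply_apply x a b
            rw [hxa, hxb] at h3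
            exact (mul_inv_eq_iff_eq_mul.1 h3.symm)
          rw [map_add, hfix x hxa, hu, ← Module.End.mul_apply, ← map_mul, h2, map_mul, Module.End.mul_apply,
            hfix x hxa]
        · rw [map_add, hu, ← Module.End.mul_apply, ← map_mul, Equiv.swap_mul_self, map_one,
            Module.End.one_apply]
          exact add_comm _ _
      have h2 : ∀ y : Fin n, y ≠ a → θ (Equiv.swap a y) w = -w := by
        intro y hy
        have h3 : Equiv.swap a y = Equiv.swap b y * Equiv.swap a b * (Equiv.swap b y)⁻¹ := by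
          rw [← Equiv.swap_apply_apply, Equiv.swap_apply_left]
          congr 1
          rw [Equiv.swap_apply_of_ne_of_ne]
          · exact fun h => hab h.symm
          · exact fun h => hy h.symm
        have h4 : Equiv.swap b y a = a := by
          rw [Equiv.swap_apply_of_ne_of_ne]
          · exact fun h => hab h.symm
          · exact fun h => hy h.symm
        rw [h3, map_mul, map_mul, Module.End.mul_apply, Module.End.mul_apply, Equiv.swap_inv,
          hfix _ h4, ← hu, (neg_eq_of_add_eq_zero_right h1).symm, map_neg, hfix _ h4]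
      have h5 := (inv_le_New θ hd hw).2 a (by omega)
      have h6 : qq θ (TT n (0 + 1)) a w = w + ((n - 1 : ℕ) : ℂ) • (-w) := by
        unfold qq
        rw [LinearMap.sum_apply, Finset.sum_insert (by rw [mem_TT]; omega), Equiv.swap_self]
        congr 1
        · have : θ (Equiv.refl (Fin n)) = 1 := map_one θ
          rw [this, Module.End.one_apply]
        · rw [Finset.sum_congr rfl (fun y hy => h2 y (by
            intro h
            rw [h, mem_TT] at hy
            omega)), Finset.sum_const]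
          have : (TT n (0 + 1)).card = n - 1 := by
            have h7 : TT n (0 + 1) = (Finset.univ : Finset (Fin n)).erase a := by
              ext i
              rw [mem_TT, Finset.mem_erase]
              constructor
              · intro h
                refine ⟨fun h8 => ?_, Finset.mem_univ _⟩
                rw [h8] at h
                omega
              · rintro ⟨h, _⟩
                by_contra h8
                exact h (Fin.ext (by omega))
            rw [h7, Finset.card_erase_of_mem (Finset.mem_univ _), Finset.card_univ, Fintype.card_fin]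
          rw [this, Nat.cast_smul_eq_nsmul]
      rw [h6] at h5
      have h7 : (1 - ((n - 1 : ℕ) : ℂ)) • w = 0 := by
        rw [sub_smul, one_smul, ← h5, smul_neg]
        abel
      rcases smul_eq_zero.1 h7 with h8 | h8
      · have h9 : ((n - 1 : ℕ) : ℂ) = 1 := (sub_eq_zero.1 h8).symm
        have h10 : n - 1 = 1 := by exact_mod_cast h9
        omega
      · exact hw0 h8
    · rcases e with _ | e
      · refine shallow_two_alt ρ θ hd (by omega) ?_
        intro v hv
        have h1 := congrArg (Submodule.subtype _) hv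
        have h2 : θ (jD hd.1 (Equiv.swap 0 1)) (v : W) = v := h1
        obtain ⟨a, ha⟩ : ∃ a : Fin n, (a : ℕ) = 0 := ⟨⟨0, by omega⟩, rfl⟩
        obtain ⟨b, hb⟩ : ∃ b : Fin n, (b : ℕ) = 1 := ⟨⟨1, by omega⟩, rfl⟩
        have h3 : jD hd.1 (Equiv.swap 0 1) = Equiv.swap a b := by
          refine Equiv.ext fun i => ?_
          rcases Nat.lt_or_ge (i : ℕ) 2 with h4 | h4
          · rw [jD_apply hd.1 _ i h4]
            rcases Nat.lt_or_ge (i : ℕ) 1 with h5 | h5
            · have h6 : i = a := Fin.ext (by omega)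
              have h7 : (⟨(i : ℕ), h4⟩ : Fin (1 + 1)) = 0 := Fin.ext (by simp; omega)
              have e1 : (Equiv.swap a b) i = b := by rw [h6, Equiv.swap_apply_left]
              have e2 : (((Equiv.swap (0 : Fin (1 + 1)) 1) ⟨(i : ℕ), h4⟩ : Fin (1 + 1)) : ℕ) = 1 := by
                rw [h7, Equiv.swap_apply_left]
                rfl
              exact Fin.ext (e2.trans (hb.symm.trans (congrArg _ e1.symm)))
            · have h6 : i = b := Fin.ext (by omega)
              have h7 : (⟨(i : ℕ), h4⟩ : Fin (1 + 1)) = 1 := Fin.ext (by simp; omega)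
              have e1 : (Equiv.swap a b) i = a := by rw [h6, Equiv.swap_apply_right]
              have e2 : (((Equiv.swap (0 : Fin (1 + 1)) 1) ⟨(i : ℕ), h4⟩ : Fin (1 + 1)) : ℕ) = 0 := by
                rw [h7, Equiv.swap_apply_right]
                rfl
              exact Fin.ext (e2.trans (ha.symm.trans (congrArg _ e1.symm)))
          · rw [jD_apply_of_le hd.1 _ i h4, Equiv.swap_apply_of_ne_of_ne]
            · intro h
              rw [h] at h4
              omega
            · intro h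
              rw [h] at h4
              omega
        rw [h3] at h2
        exact Subtype.ext (h01 a b ha hb v v.2 h2)
      · exact shallow_ge3 ρ θ hd (by omega) hc (-1) (Or.inr rfl)

end Main

end Pool.Agent.Helper51.TN
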