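import Pool.Agent.Helper51.TN.B2
import Pool.Agent.Helper51.TN.L1
import Pool.Agent.Helper51.TN.L2
import Pool.Agent.Helper1.TS.A0

/-!
BLOCK TN-B3 (about 220 lines). All irreducible representations of `S_n` are of orthogonal type.

Proofs in words.
* `norm_one`: `Representation.char_orthonormal` (see `reg_simple` in `Helper1/TS/REG.lean`) and `char_perm_inv`: `∑ χ(g)² = n!`.
* `form_symm`: every `ρ`-invariant form `b` on an irreducible `V` is symmetric. Induction on `n` (for all `V`). `n = 0`: `Perm (Fin 0)` is trivial, so every submodule is invariant,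
  `V` is a line and `b` is symmetric. `n ≥ 1`: let `b ≠ 0`. The radical is a subrepresentation, so `b` is nondegenerate. The space of invariant forms is at most one-dimensional (Schur: `b'(v,w) = b(A v, w)` with
  `A` commuting with `ρ`, nondegeneracy, `A = c`; or by `dim_hom` for the trivial representation), so `b.flip = c b`, `c² = 1`. `jm 0` is self-adjoint for `b` (`form_jm`,
  `T = univ`), so `b v w = 0` for eigenvectors of `jm 0` with different eigenvalues. Let `α : Fin 1 → ℝ` with `EE ρ _ α ≠ ⊥` (`EE_span`), `v ≠ 0` in it; `b v w ≠ 0` for some `w`, which by `EE_span` can be taken in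
  some `EE ρ _ β`, and then `β = α`. So `b` restricted to `EE ρ _ α` is not `0`; it is invariant under `repEE ρ h α`, irreducible by `repEE_irr`, so symmetric by induction (`n - 1`). So
  `c = 1`.
* `fs`: for `ε = ±1` `dim_hom` for `H = Perm (Fin n)`, the trivial representation on `ℂ`, `σ = bil ρ`, `P = pe ε`: `n! * dim (HomP) = ∑ (χ(g)² + ε χ(g²))/2` (`trace_bil_pe`, reindex `g ↦ g⁻¹`, and
  the characters are real). For `ε = -1` the space is `0` by `form_symm` (an invariant form is symmetric, `pe (-1) b = b` says it is antisymmetric), so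
  `∑ χ(g)² = ∑ χ(g²)`.
-/

set_option autoImplicit false

open Module Equiv Pool.Agent.Helper1.TS Pool.Agent.Helper70.TU

namespace Pool.Agent.Helper51.TN

private lemma irr38 {G V : Type*} [Group G] [AddCommGroup V] [Module ℂ V]
    (ρ : Representation ℂ G V) [hρ : ρ.IsIrreducible] (W : Submodule ℂ V)
    (hW : ∀ g, ∀ v ∈ W, ρ g v ∈ W) : W = ⊥ ∨ W = ⊤ := by
  have h := hρ.eq_bot_or_eq_top (⟨W, fun g v hv => hW g v hv⟩ : Subrepresentation ρ)
  rcases h with h | h
  · left
    exact congrArg Subrepresentation.toSubmodule h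
  · right
    exact congrArg Subrepresentation.toSubmodule h

private lemma nontrivial38 {G V : Type*} [Group G] [AddCommGroup V] [Module ℂ V]
    (ρ : Representation ℂ G V) [hρ : ρ.IsIrreducible] : Nontrivial V := by
  rcases subsingleton_or_nontrivial V with hs | hn
  · exfalso
    obtain ⟨W, W', hne⟩ := hρ.exists_pair_ne
    refine hne (Subrepresentation.toSubmodule_injective ?_)
    exact Subsingleton.elim _ _
  · exact hn

private lemma inj38 {G V : Type*} [Group G] [AddCommGroup V] [Module ℂ V]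
    (ρ : Representation ℂ G V) [ρ.IsIrreducible] (b : Bil V)
    (hb : ∀ (g : G) (v w : V), b (ρ g v) (ρ g w) = b v w) (hne : b ≠ 0) :
    LinearMap.ker b = ⊥ := by
  rcases irr38 ρ (LinearMap.ker b) (by
    intro g v hv
    rw [LinearMap.mem_ker] at hv ⊢
    refine LinearMap.ext fun w => ?_
    have h1 : w = ρ g (ρ g⁻¹ w) := by
      rw [← Module.End.mul_apply, ← map_mul, mul_inv_cancel, map_one, Module.End.one_apply]
    rw [h1, hb, hv, LinearMap.zero_apply, LinearMap.zero_apply]) with h | h
  · exact h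
  · exact absurd (LinearMap.ker_eq_top.1 h) hne

private lemma schur38 {G V : Type*} [Group G] [AddCommGroup V] [Module ℂ V] [FiniteDimensional ℂ V]
    (ρ : Representation ℂ G V) [ρ.IsIrreducible] (b b' : Bil V)
    (hb : ∀ (g : G) (v w : V), b (ρ g v) (ρ g w) = b v w) (hne : b ≠ 0)
    (hb' : ∀ (g : G) (v w : V), b' (ρ g v) (ρ g w) = b' v w) :
    ∃ c : ℂ, ∀ v w, b' v w = c * b v w := by
  have hker := inj38 ρ b hb hne
  have hinj : Function.Injective b := LinearMap.ker_eq_bot.1 hker
  have hdim : finrank ℂ V = finrank ℂ (V →ₗ[ℂ] ℂ) := by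
    exact (Subspace.dual_finrank_eq).symm
  let e : V ≃ₗ[ℂ] (V →ₗ[ℂ] ℂ) := LinearEquiv.ofInjectiveOfFinrankEq b hinj hdim
  have he : ∀ v, e v = b v := fun v => rfl
  let A : V →ₗ[ℂ] V := e.symm.toLinearMap ∘ₗ b'
  have hA : ∀ v, b (A v) = b' v := by
    intro v
    rw [← he]
    exact e.apply_symm_apply (b' v)
  have hgg : ∀ (g : G) (w : V), w = ρ g (ρ g⁻¹ w) := by
    intro g w
    rw [← Module.End.mul_apply, ← map_mul, mul_inv_cancel, map_one, Module.End.one_apply]
  have hcomm : ∀ (g : G) (v : V), A (ρ g v) = ρ g (A v) := by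
    intro g v
    refine hinj (LinearMap.ext fun w => ?_)
    rw [hA, hgg g w, hb', hb, hA]
  have := nontrivial38 ρ
  obtain ⟨c, hc⟩ := Module.End.exists_eigenvalue A
  refine ⟨c, fun v w => ?_⟩
  have htop : Module.End.eigenspace A c = ⊤ := by
    rcases irr38 ρ (Module.End.eigenspace A c) (by
      intro g v hv
      rw [Module.End.mem_eigenspace_iff] at hv ⊢
      rw [hcomm, hv, map_smul]) with h | h
    · exact absurd h hc
    · exact h
  have hv : v ∈ Module.End.eigenspace A c := by
    rw [htop]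
    exact Submodule.mem_top
  rw [Module.End.mem_eigenspace_iff] at hv
  rw [← hA, hv, map_smul, LinearMap.smul_apply, smul_eq_mul]

private lemma EE_orth38 {n : ℕ} {V : Type*} [AddCommGroup V] [Module ℂ V] [FiniteDimensional ℂ V]
    (ρ : Representation ℂ (Perm (Fin n)) V) (b : Bil V)
    (hb : ∀ (g : Perm (Fin n)) (v w : V), b (ρ g v) (ρ g w) = b v w) {e : ℕ} (h : e ≤ n)
    (α β : Fin e → ℝ) (hne : α ≠ β) (v w : V) (hv : v ∈ EE ρ h α) (hw : w ∈ EE ρ h β) : b v w = 0 := by
  obtain ⟨i, hi⟩ := Function.ne_iff.1 hne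
  have h1 := form_jm ρ Finset.univ b (fun x _ => hb x) (Fin.castLE h i) (fun j _ => Finset.mem_univ j) v w
  rw [mem_EE.1 hv i, mem_EE.1 hw i, map_smul, map_smul, LinearMap.smul_apply, smul_eq_mul, smul_eq_mul] at h1
  have h2 : ((α i : ℂ) - (β i : ℂ)) * b v w = 0 := by
    rw [sub_mul, h1, sub_self]
  rcases mul_eq_zero.1 h2 with h3 | h3
  · exact absurd (by exact_mod_cast sub_eq_zero.1 h3) hi
  · exact h3

theorem norm_one {n : ℕ} {V : Type*} [AddCommGroup V] [Module ℂ V] [FiniteDimensional ℂ V]
    (ρ : Representation ℂ (Perm (Fin n)) V) [ρ.IsIrreducible] :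
    ∑ g : Perm (Fin n), ρ.character g ^ 2 = (n.factorial : ℂ) := by
  classical
  have hc : (Nat.card (Perm (Fin n)) : ℂ) ≠ 0 := by exact_mod_cast Nat.card_pos.ne'
  have : Invertible (Nat.card (Perm (Fin n)) : ℂ) := invertibleOfNonzero hc
  have h := Representation.char_orthonormal ρ ρ
  rw [if_pos ⟨Representation.Equiv.refl ρ⟩] at h
  have h2 : ∑ g : Perm (Fin n), ρ.character g * ρ.character g⁻¹ = Nat.card (Perm (Fin n)) := by
    have h3 := congrArg (fun z => (Nat.card (Perm (Fin n)) : ℂ) * z) h
    simp only [mul_one] at h3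
    rw [← mul_assoc, mul_inv_cancel₀ hc, one_mul] at h3
    exact h3
  rw [Nat.card_eq_fintype_card, Fintype.card_perm, Fintype.card_fin] at h2
  rw [← h2]
  refine Finset.sum_congr rfl fun g _ => ?_
  rw [char_perm_inv, sq]

theorem form_symm (n : ℕ) : ∀ (V : Type) [AddCommGroup V] [Module ℂ V] [FiniteDimensional ℂ V]
    (ρ : Representation ℂ (Perm (Fin n)) V) [ρ.IsIrreducible] (b : Bil V)
    (_ : ∀ (g : Perm (Fin n)) (v w : V), b (ρ g v) (ρ g w) = b v w) (v w : V), b v w = b w v := by
  induction n using Nat.strong_induction_on with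
  | _ n ih =>
    intro V _ _ _ ρ _ b hb v w
    have hnt := nontrivial38 ρ
    by_cases hb0 : b = 0
    · rw [hb0]
      rfl
    rcases Nat.eq_zero_or_pos n with hn | hn
    · subst hn
      by_cases hv : v = 0
      · rw [hv, map_zero, map_zero, LinearMap.zero_apply]
      · rcases irr38 ρ (ℂ ∙ v) (by
          intro g x hx
          rw [Subsingleton.elim g 1, map_one, Module.End.one_apply]
          exact hx) with h | h
        · exact absurd (Submodule.span_singleton_eq_bot.1 h) hv
        · have hw : w ∈ (ℂ ∙ v) := by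
            rw [h]
            exact Submodule.mem_top
          obtain ⟨c, rfl⟩ := Submodule.mem_span_singleton.1 hw
          rw [map_smul, map_smul, LinearMap.smul_apply]
    · have h1 : 1 ≤ n := hn
      obtain ⟨c, hc⟩ := schur38 ρ b b.flip hb hb0 (fun g v w => by
        rw [LinearMap.flip_apply, LinearMap.flip_apply, hb])
      have hex : ∃ α : Fin 1 → ℝ, EE ρ h1 α ≠ ⊥ := by
        by_contra hcon
        push Not at hcon
        have h2 := EE_span ρ h1
        rw [iSup_congr hcon, iSup_bot] at h2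
        exact bot_ne_top h2
      obtain ⟨α, hα⟩ := hex
      obtain ⟨x, hx, hx0⟩ := (Submodule.ne_bot_iff _).1 hα
      have hbx : b x ≠ 0 := by
        intro h0
        have h2 := inj38 ρ b hb hb0
        have h3 : x ∈ LinearMap.ker b := h0
        rw [h2] at h3
        exact hx0 ((Submodule.mem_bot ℂ).1 h3)
      have hy : ∃ y ∈ EE ρ h1 α, b x y ≠ 0 := by
        by_contra hcon
        push Not at hcon
        apply hbx
        rw [← LinearMap.ker_eq_top, eq_top_iff, ← EE_span ρ h1]
        refine iSup_le fun β y hy => ?_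
        rw [LinearMap.mem_ker]
        by_cases hβ : α = β
        · rw [← hβ] at hy
          exact hcon y hy
        · exact EE_orth38 ρ b hb h1 α β hβ x y hx hy
      obtain ⟨y, hy, hxy⟩ := hy
      have hirr := repEE_irr ρ h1 α hα
      have h5 := ih (n - 1) (by omega) (EE ρ h1 α) (repEE ρ h1 α)
        (b.compl₁₂ (EE ρ h1 α).subtype (EE ρ h1 α).subtype)
        (fun g v w => hb (jT h1 g) (v : V) (w : V)) ⟨x, hx⟩ ⟨y, hy⟩
      have h6 : b x y = b y x := h5
      have h7 := hc x y
      rw [LinearMap.flip_apply, ← h6] at h7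
      have h8 : c = 1 := by
        have h9 : (c - 1) * b x y = 0 := by
          rw [sub_mul, one_mul, ← h7, sub_self]
        rcases mul_eq_zero.1 h9 with h10 | h10
        · exact sub_eq_zero.1 h10
        · exact absurd h10 hxy
      have h11 := hc w v
      rw [LinearMap.flip_apply, h8, one_mul] at h11
      exact h11

theorem fs {n : ℕ} {V : Type} [AddCommGroup V] [Module ℂ V] [FiniteDimensional ℂ V]
    (ρ : Representation ℂ (Perm (Fin n)) V) [ρ.IsIrreducible] :
    ∑ g : Perm (Fin n), ρ.character (g ^ 2) = (n.factorial : ℂ) := by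
  classical
  have hP : ∀ b : Bil V, pe (-1) (pe (-1) b) = pe (-1) b := pe_idem (-1) (by norm_num)
  have hc : ∀ (h : Perm (Fin n)) (b : Bil V), pe (-1) (bil ρ h b) = bil ρ h (pe (-1) b) :=
    fun h b => pe_pb (-1) (ρ h⁻¹) b
  have hdim := dim_hom (Representation.trivial ℂ (Perm (Fin n)) ℂ) (bil ρ) (pe (-1)) hP hc
  have hbot : HomP (Representation.trivial ℂ (Perm (Fin n)) ℂ) (bil ρ) (pe (-1)) = ⊥ := by
    rw [Submodule.eq_bot_iff]
    intro f hf
    obtain ⟨hf1, hf2⟩ := mem_HomP.1 hf
    refine LinearMap.ext fun z => ?_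
    have hinv : ∀ (g : Perm (Fin n)) (v w : V), f z (ρ g v) (ρ g w) = f z v w := by
      intro g v w
      have h1 : f z = bil ρ g⁻¹ (f z) := hf1 g⁻¹ z
      have h2 := congrArg (fun b : Bil V => b v w) h1
      simp only [bil_apply, inv_inv] at h2
      exact h2.symm
    have hsymm := form_symm n V ρ (f z) hinv
    refine LinearMap.ext₂ fun v w => ?_
    have h3 := congrArg (fun b : Bil V => b v w) (hf2 z)
    simp only [pe_apply] at h3
    rw [← h3, hsymm w v]
    simp
  rw [hbot, finrank_bot, Nat.cast_zero, mul_zero] at hdim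
  have htr : ∀ g : Perm (Fin n), (Representation.trivial ℂ (Perm (Fin n)) ℂ).character g = 1 := by
    intro g
    unfold Representation.character
    have h1 : (Representation.trivial ℂ (Perm (Fin n)) ℂ) g = LinearMap.id := rfl
    rw [h1, LinearMap.trace_id, finrank_self, Nat.cast_one]
  have h4 : ∑ h : Perm (Fin n), (ρ.character h⁻¹ ^ 2 + (-1) * ρ.character (h⁻¹ ^ 2)) / 2 = 0 := by
    rw [hdim]
    refine Finset.sum_congr rfl fun h _ => ?_
    rw [trace_bil_pe, htr, mul_one]
  have h5 : ∑ h : Perm (Fin n), (ρ.character h⁻¹ ^ 2 + (-1) * ρ.character (h⁻¹ ^ 2)) / 2 =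
      ∑ h : Perm (Fin n), (ρ.character h ^ 2 + (-1) * ρ.character (h ^ 2)) / 2 :=
    Equiv.sum_comp (Equiv.inv (Perm (Fin n)))
      (fun h : Perm (Fin n) => (ρ.character h ^ 2 + (-1) * ρ.character (h ^ 2)) / 2)
  rw [h5, ← Finset.sum_div, Finset.sum_add_distrib, norm_one, ← Finset.mul_sum] at h4
  linear_combination (-2) * h4

end Pool.Agent.Helper51.TN
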