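import Pool.Agent.Helper51.TN.B4

/-!
BLOCK TN-B5 (about 150 lines). The dimension of the space of block diagonal equivariant maps.

Proof in words. `dim_hom` for `H = Perm (Fin (n-e)) × Perm (Fin e)`, `ρ_H = τ ∘ snd`, `σ_H = bil ρ ∘ jH h`, `P = PiE ρ h ∘ pe ε` (a projection commuting with `σ_H`: `PiE_idem`, `PiE_comm`, `PiE_pe`, `pe_idem`,
`pe_pb`). For `p = (x, y) ∈ H`, `A_J = ρ (jH h p⁻¹) ∘ pJ ρ h J`: `bil ρ (jH h p) ∘ PiE ∘ pe ε = ∑_J pb (A_J) ∘ pe ε` (`pb (ρ g⁻¹) ∘ pb (pJ) = pb (pJ ∘ ρ g⁻¹)` and `pJ` commutes), with trace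
`∑_J ((tr A_J)² + ε tr (A_J ∘ A_J))/2` (`trace_pb_pe`), and `A_J ∘ A_J = ρ (jH h (p⁻¹)²) ∘ pJ`. By `trace_pJ` (with `χ = χ_J`): `tr A_J = e! χ_J(x⁻¹)` if `y = 1`, else `0`; `tr (A_J ∘ A_J) = e! χ_J(x⁻²)` if
`y² = 1`, else `0`. The number of `J ∈ (CC ρ).powersetCard e` is `binom(c, e)` and their elements are corners (`mem_CC`). Sum over `x`, `y` against `τ.character y⁻¹` (reindex by inverses; `∑_x χ_J(x)² =
∑_x χ_J(x²) = (n-e)!`; `τ.character 1 = dim E`): `(n-e)! e! dim HomE = ∑_J ((e!)² (n-e)! dim E + ε e! (n-e)! I)/2`, `I = ∑_{y² = 1} τ.character y` (`y⁻¹ = y` there). Divide.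
-/

set_option autoImplicit false

open Module Equiv Pool.Agent.Helper1.TS Pool.Agent.Helper70.TU

namespace Pool.Agent.Helper51.TN

theorem b5_PiE {n : ℕ} {V : Type} [AddCommGroup V] [Module ℂ V] [FiniteDimensional ℂ V]
    (ρ : Representation ℂ (Perm (Fin n)) V) {e : ℕ} (h : e ≤ n) (b : Bil V) (v w : V) :
    PiE ρ h b v w = ∑ J ∈ (CC ρ).powersetCard e, b (pJ ρ h J v) (pJ ρ h J w) := by
  unfold PiE
  rw [LinearMap.sum_apply, LinearMap.sum_apply, LinearMap.sum_apply]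
  rfl

theorem b5_op {n : ℕ} {V : Type} [AddCommGroup V] [Module ℂ V] [FiniteDimensional ℂ V]
    (ρ : Representation ℂ (Perm (Fin n)) V) {e : ℕ} (h : e ≤ n) (ε : ℂ)
    (p : Perm (Fin (n - e)) × Perm (Fin e)) :
    ((bil ρ).comp (jH h)) p ∘ₗ (PiE ρ h ∘ₗ pe ε) =
      ∑ J ∈ (CC ρ).powersetCard e, pb (ρ (jH h p⁻¹) ∘ₗ pJ ρ h J) ∘ₗ pe ε := by
  refine LinearMap.ext fun b => LinearMap.ext₂ fun v w => ?_
  rw [LinearMap.sum_apply, LinearMap.sum_apply, LinearMap.sum_apply]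
  have h1 : (((bil ρ).comp (jH h)) p ∘ₗ (PiE ρ h ∘ₗ pe ε)) b v w =
      PiE ρ h (pe ε b) (ρ (jH h p⁻¹) v) (ρ (jH h p⁻¹) w) := by
    rw [map_inv]
    rfl
  rw [h1, b5_PiE]
  refine Finset.sum_congr rfl fun J _ => ?_
  rw [pJ_comm, pJ_comm]
  rfl

theorem b5_trace {n : ℕ} {V : Type} [AddCommGroup V] [Module ℂ V] [FiniteDimensional ℂ V]
    (ρ : Representation ℂ (Perm (Fin n)) V) {e : ℕ} (h : e ≤ n) (ε : ℂ)
    (p : Perm (Fin (n - e)) × Perm (Fin e)) :
    LinearMap.trace ℂ (Bil V) (((bil ρ).comp (jH h)) p ∘ₗ (PiE ρ h ∘ₗ pe ε)) =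
      ∑ J ∈ (CC ρ).powersetCard e, ((LinearMap.trace ℂ V (ρ (jH h p⁻¹) ∘ₗ pJ ρ h J)) ^ 2 +
        ε * LinearMap.trace ℂ V (ρ (jH h (p⁻¹ ^ 2)) ∘ₗ pJ ρ h J)) / 2 := by
  rw [b5_op, map_sum]
  refine Finset.sum_congr rfl fun J _ => ?_
  rw [trace_pb_pe]
  have h2 : (ρ (jH h p⁻¹) ∘ₗ pJ ρ h J) ∘ₗ (ρ (jH h p⁻¹) ∘ₗ pJ ρ h J) =
      ρ (jH h (p⁻¹ ^ 2)) ∘ₗ pJ ρ h J := by
    refine LinearMap.ext fun v => ?_
    rw [LinearMap.comp_apply, LinearMap.comp_apply, LinearMap.comp_apply, LinearMap.comp_apply,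
      pJ_comm, pJ_idem, sq, map_mul, map_mul, Module.End.mul_apply]
  rw [h2]

open Classical in
theorem finrank_block {n : ℕ} {V : Type} [AddCommGroup V] [Module ℂ V] [FiniteDimensional ℂ V]
    (ρ : Representation ℂ (Perm (Fin n)) V) [ρ.IsIrreducible] {e : ℕ} (h : e ≤ n)
    {E : Type*} [AddCommGroup E] [Module ℂ E] [FiniteDimensional ℂ E]
    (τ : Representation ℂ (Perm (Fin e)) E) (ε : ℂ) (hε : ε ^ 2 = 1) :
    2 * (finrank ℂ (HomE h τ (bil ρ) (PiE ρ h ∘ₗ pe ε)) : ℂ) =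
      ((CC ρ).card.choose e : ℂ) * (e.factorial * finrank ℂ E +
        ε * ∑ y ∈ Finset.univ.filter (fun y : Perm (Fin e) => y ^ 2 = 1), τ.character y) := by
  have hmain := dim_hom (τ.comp (MonoidHom.snd (Perm (Fin (n - e))) (Perm (Fin e))))
    ((bil ρ).comp (jH h)) (PiE ρ h ∘ₗ pe ε)
    (fun b => by
      rw [LinearMap.comp_apply, LinearMap.comp_apply, ← PiE_pe, pe_idem ε hε, PiE_idem])
    (fun p b => by
      rw [LinearMap.comp_apply, LinearMap.comp_apply]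
      change PiE ρ h (pe ε (pb (ρ (jH h p)⁻¹) b)) = bil ρ (jH h p) (PiE ρ h (pe ε b))
      rw [pe_pb, ← PiE_comm]
      rfl)
  have hχ : ∀ J ∈ (CC ρ).powersetCard e, ∃ χ : Perm (Fin (n - e)) → ℂ,
      (∀ (x : Perm (Fin (n - e))) (y : Perm (Fin e)),
        LinearMap.trace ℂ V (ρ (jH h (x, y)) ∘ₗ pJ ρ h J) =
          if y = 1 then (e.factorial : ℂ) * χ x else 0) ∧
      ∑ x, χ x ^ 2 = ((n - e).factorial : ℂ) ∧ ∑ x, χ (x ^ 2) = ((n - e).factorial : ℂ) := by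
    intro J hJ
    rw [Finset.mem_powersetCard] at hJ
    exact trace_pJ ρ h J (fun a ha => (mem_CC ρ a).1 (hJ.1 ha)) hJ.2
  choose! χ hχ1 hχ2 hχ3 using hχ
  set I : ℂ := ∑ y ∈ Finset.univ.filter (fun y : Perm (Fin e) => y ^ 2 = 1), τ.character y with hI
  have hsum : ∑ p : Perm (Fin (n - e)) × Perm (Fin e),
      LinearMap.trace ℂ (Bil V) (((bil ρ).comp (jH h)) p ∘ₗ (PiE ρ h ∘ₗ pe ε)) *
        τ.character p⁻¹.2 =
      ∑ J ∈ (CC ρ).powersetCard e,
        (((e.factorial : ℂ) ^ 2 * (n - e).factorial * finrank ℂ E +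
          ε * (e.factorial * (n - e).factorial * I)) / 2) := by
    have h1 : ∀ p : Perm (Fin (n - e)) × Perm (Fin e),
        LinearMap.trace ℂ (Bil V) (((bil ρ).comp (jH h)) p ∘ₗ (PiE ρ h ∘ₗ pe ε)) *
          τ.character p⁻¹.2 =
        (fun q : Perm (Fin (n - e)) × Perm (Fin e) => ∑ J ∈ (CC ρ).powersetCard e,
          (((if q.2 = 1 then (e.factorial : ℂ) * χ J q.1 else 0) ^ 2 +
            ε * (if q.2 ^ 2 = 1 then (e.factorial : ℂ) * χ J (q.1 ^ 2) else 0)) / 2 *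
              τ.character q.2)) p⁻¹ := by
      intro p
      rw [b5_trace, Finset.sum_mul]
      refine Finset.sum_congr rfl fun J hJ => ?_
      have h2 := hχ1 J hJ p⁻¹.1 p⁻¹.2
      have h3 := hχ1 J hJ (p⁻¹ ^ 2).1 (p⁻¹ ^ 2).2
      have h4 : (p⁻¹.1, p⁻¹.2) = p⁻¹ := rfl
      have h5 : ((p⁻¹ ^ 2).1, (p⁻¹ ^ 2).2) = p⁻¹ ^ 2 := rfl
      rw [h4] at h2
      rw [h5] at h3
      rw [h2, h3]
      rfl
    rw [Finset.sum_congr rfl fun p _ => h1 p]
    refine (Equiv.sum_comp (Equiv.inv (Perm (Fin (n - e)) × Perm (Fin e)))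
      (fun q : Perm (Fin (n - e)) × Perm (Fin e) => ∑ J ∈ (CC ρ).powersetCard e,
          (((if q.2 = 1 then (e.factorial : ℂ) * χ J q.1 else 0) ^ 2 +
            ε * (if q.2 ^ 2 = 1 then (e.factorial : ℂ) * χ J (q.1 ^ 2) else 0)) / 2 *
              τ.character q.2))).trans ?_
    rw [Finset.sum_comm]
    refine Finset.sum_congr rfl fun J hJ => ?_
    rw [Fintype.sum_prod_type]
    have h6 : ∀ x : Perm (Fin (n - e)), ∑ y : Perm (Fin e),
        (((if y = 1 then (e.factorial : ℂ) * χ J x else 0) ^ 2 +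
            ε * (if y ^ 2 = 1 then (e.factorial : ℂ) * χ J (x ^ 2) else 0)) / 2 *
              τ.character y) =
        ((e.factorial : ℂ) ^ 2 * (χ J x ^ 2) * finrank ℂ E +
          ε * (e.factorial * χ J (x ^ 2) * I)) / 2 := by
      intro x
      have h7 : ∀ y : Perm (Fin e), (((if y = 1 then (e.factorial : ℂ) * χ J x else 0) ^ 2 +
            ε * (if y ^ 2 = 1 then (e.factorial : ℂ) * χ J (x ^ 2) else 0)) / 2 *
              τ.character y) =
          (if y = 1 then ((e.factorial : ℂ) * χ J x) ^ 2 / 2 * τ.character 1 else 0) +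
          ε * ((e.factorial : ℂ) * χ J (x ^ 2)) / 2 * (if y ^ 2 = 1 then τ.character y else 0) := by
        intro y
        by_cases hy : y = 1
        · subst hy
          simp only [if_true, one_pow]
          ring
        · rw [if_neg hy, if_neg hy]
          split_ifs
          · ring
          · ring
      rw [Finset.sum_congr rfl fun y _ => h7 y, Finset.sum_add_distrib, Finset.sum_ite_eq',
        if_pos (Finset.mem_univ _), ← Finset.mul_sum, ← Finset.sum_filter, ← hI,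
        Representation.char_one]
      ring
    have h8 : ∑ x : Perm (Fin (n - e)), (((e.factorial : ℂ) ^ 2 * (χ J x ^ 2) * finrank ℂ E +
          ε * (e.factorial * χ J (x ^ 2) * I)) / 2) =
        (((e.factorial : ℂ) ^ 2 * (n - e).factorial * finrank ℂ E +
          ε * (e.factorial * (n - e).factorial * I)) / 2) := by
      rw [← Finset.sum_div, Finset.sum_add_distrib, ← Finset.mul_sum, ← Finset.sum_mul,
        ← Finset.mul_sum, ← Finset.sum_mul, ← Finset.mul_sum, hχ2 J hJ, hχ3 J hJ]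
    rw [← h8]
    refine Finset.sum_congr rfl fun x _ => ?_
    exact h6 x
  have hmain' := hmain.trans hsum
  clear hmain
  rename' hmain' => hmain
  rw [Finset.sum_const, Finset.card_powersetCard, nsmul_eq_mul] at hmain
  have hcard : (Fintype.card (Perm (Fin (n - e)) × Perm (Fin e)) : ℂ) =
      (n - e).factorial * e.factorial := by
    rw [Fintype.card_prod, Fintype.card_perm, Fintype.card_perm, Fintype.card_fin,
      Fintype.card_fin]
    push_cast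
    ring
  rw [hcard] at hmain
  have hn : ((n - e).factorial : ℂ) ≠ 0 := Nat.cast_ne_zero.2 (Nat.factorial_ne_zero _)
  have he : (e.factorial : ℂ) ≠ 0 := Nat.cast_ne_zero.2 (Nat.factorial_ne_zero _)
  apply mul_left_cancel₀ (mul_ne_zero hn he)
  calc (((n - e).factorial : ℂ) * e.factorial) * (2 * (finrank ℂ (HomE h τ (bil ρ)
        (PiE ρ h ∘ₗ pe ε)) : ℂ))
      = 2 * ((((n - e).factorial : ℂ) * e.factorial) * (finrank ℂ (HomE h τ (bil ρ)
        (PiE ρ h ∘ₗ pe ε)) : ℂ)) := by ring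
    _ = 2 * (((CC ρ).card.choose e : ℂ) * (((e.factorial : ℂ) ^ 2 * (n - e).factorial *
          finrank ℂ E + ε * (e.factorial * (n - e).factorial * I)) / 2)) := by
        rw [← hmain]
        rfl
    _ = _ := by ring

end Pool.Agent.Helper51.TN
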