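import Pool.Agent.Helper1.TS.REG

/-!
BLOCK TN-A1 (about 200 lines). The decomposition of the regular representation, with both orthogonality relations.

Proof in words. As `exists_family` in `Helper1/TS/REG.lean` (its private lemmas `reg_decomp`, `reg_scalar`, `regRep`, `regRep_char` can be copied). `reg_decomp` gives `U i` simple and irreducible with
`∑ finrank = |G|` and `∑_i χ_i(g) = χ_reg(g) = |G|` for `g = 1`, `0` otherwise: this is `sum2`. For the other relation: for irreducible `U`: `∑_{y,z} χ(y a y⁻¹ (z b z⁻¹)) = |G|² χ(a) χ(b)/dim` (as `reg_irr`, with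
`a`, `b` instead of `g, g⁻¹`), so `|G|² ∑_i χ_i(a) χ_i(b)/d_i = ∑_{y,z} χ_reg(y a y⁻¹ z b z⁻¹) = |G| #{(y,z) : y a y⁻¹ = (z b z⁻¹)⁻¹ = z b⁻¹ z⁻¹} = |G| * |G| * #{g : g a g⁻¹ = b⁻¹}` (substitute `g = z⁻¹ y`).
Take `a = x`, `b = y⁻¹`.
-/

set_option autoImplicit false

open Module Equiv CategoryTheory Pool.Agent.Helper1.TS

namespace Pool.Agent.Helper51.TN

section RegAux

variable {G : Type} [Group G]

private lemma reg_simple [Fintype G] {V : Type} [AddCommGroup V] [Module ℂ V]
    [FiniteDimensional ℂ V] (ρ : Representation ℂ G V) (hρ : ρ.IsIrreducible) :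
    Simple (FDRep.of ρ) := by
  classical
  rw [FDRep.simple_iff_char_is_norm_one]
  have hc : (Nat.card G : ℂ) ≠ 0 := by exact_mod_cast Nat.card_pos.ne'
  have : Invertible (Nat.card G : ℂ) := invertibleOfNonzero hc
  have h := Representation.char_orthonormal ρ ρ
  rw [if_pos ⟨Representation.Equiv.refl ρ⟩] at h
  have h2 : ∑ g : G, ρ.character g * ρ.character g⁻¹ = Nat.card G := by
    have h3 := congrArg (fun z => (Nat.card G : ℂ) * z) h
    simp only [mul_one] at h3
    rw [← mul_assoc, mul_inv_cancel₀ hc, one_mul] at h3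
    exact h3
  exact h2

private lemma reg_compl {V : Type} [AddCommGroup V] [Module ℂ V] {ρ : Representation ℂ G V}
    {W W' : Subrepresentation ρ} (h : IsCompl W W') : IsCompl W.toSubmodule W'.toSubmodule := by
  rw [isCompl_iff, disjoint_iff, codisjoint_iff] at h ⊢
  constructor
  · rw [← Subrepresentation.toSubmodule_inf, h.1]
    rfl
  · rw [← Subrepresentation.toSubmodule_sup, h.2]
    rfl

private lemma reg_char {V : Type} [AddCommGroup V] [Module ℂ V] [FiniteDimensional ℂ V]
    {ρ : Representation ℂ G V} {W W' : Subrepresentation ρ} (h : IsCompl W W') (g : G) :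
    W.toRepresentation.character g + W'.toRepresentation.character g = ρ.character g := by
  let e := Submodule.prodEquivOfIsCompl W.toSubmodule W'.toSubmodule (reg_compl h)
  have he : ρ g = e.conj (LinearMap.prodMap (W.toRepresentation g) (W'.toRepresentation g)) := by
    refine LinearMap.ext fun v => ?_
    obtain ⟨x, rfl⟩ := e.surjective v
    rw [LinearEquiv.conj_apply_apply, e.symm_apply_apply, Submodule.coe_prodEquivOfIsCompl',
      Submodule.coe_prodEquivOfIsCompl', map_add]
    rfl
  unfold Representation.character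
  rw [he, LinearMap.trace_conj', LinearMap.trace_prodMap']

private lemma reg_decomp [Fintype G] (n : ℕ) : ∀ (V : Type) [AddCommGroup V] [Module ℂ V]
    [FiniteDimensional ℂ V] (ρ : Representation ℂ G V), finrank ℂ V = n →
    ∃ (N : ℕ) (U : Fin N → FDRep ℂ G),
      (∀ i, Simple (U i) ∧ Representation.IsIrreducible (U i).ρ) ∧
      ∑ i, finrank ℂ (U i) = n ∧ ∀ g, ∑ i, (U i).character g = ρ.character g := by
  induction n using Nat.strong_induction_on with
  | _ n ih =>
    intro V _ _ _ ρ hV
    by_cases hirr : ρ.IsIrreducible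
    · refine ⟨1, fun _ => FDRep.of ρ, fun _ => ⟨reg_simple ρ hirr, hirr⟩, ?_, ?_⟩
      · rw [Fin.sum_univ_one]
        exact hV
      · intro g
        rw [Fin.sum_univ_one]
        rfl
    · rcases subsingleton_or_nontrivial V with hs | hn
      · refine ⟨0, fun i => i.elim0, fun i => i.elim0, ?_, ?_⟩
        · rw [← hV, finrank_zero_of_subsingleton]
          rfl
        · intro g
          have h1 : ρ g = 0 := LinearMap.ext fun v => Subsingleton.elim _ _
          unfold Representation.character
          rw [h1, map_zero]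
          rfl
      · -- a proper subrepresentation
        obtain ⟨W, hW1, hW2⟩ : ∃ W : Subrepresentation ρ, W ≠ ⊥ ∧ W ≠ ⊤ := by
          by_contra hcon
          push Not at hcon
          apply hirr
          have hne : (⊥ : Subrepresentation ρ) ≠ ⊤ := by
            intro h
            have h1 := congrArg Subrepresentation.toSubmodule h
            exact bot_ne_top (α := Submodule ℂ V) h1
          exact { exists_pair_ne := ⟨⊥, ⊤, hne⟩
                  eq_bot_or_eq_top := fun W => by
                    by_cases h : W = ⊥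
                    · exact Or.inl h
                    · exact Or.inr (hcon W h) }
        obtain ⟨W', hW'⟩ := exists_isCompl W
        have hc := reg_compl hW'
        have hsum := Submodule.finrank_add_eq_of_isCompl hc
        have h1 : 0 < finrank ℂ W.toSubmodule := by
          rw [Module.finrank_pos_iff, Submodule.nontrivial_iff_ne_bot]
          intro h
          exact hW1 (Subrepresentation.toSubmodule_injective h)
        have h2 : 0 < finrank ℂ W'.toSubmodule := by
          rw [Module.finrank_pos_iff, Submodule.nontrivial_iff_ne_bot]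
          intro h
          have h3 := hc.sup_eq_top
          rw [h, sup_bot_eq] at h3
          exact hW2 (Subrepresentation.toSubmodule_injective h3)
        obtain ⟨N, U, hU1, hU2, hU3⟩ := ih _ (by omega) W.toSubmodule W.toRepresentation rfl
        obtain ⟨N', U', hU1', hU2', hU3'⟩ := ih _ (by omega) W'.toSubmodule W'.toRepresentation rfl
        refine ⟨N + N', Fin.append U U', ?_, ?_, ?_⟩
        · intro i
          refine Fin.addCases (fun i => ?_) (fun i => ?_) i
          · rw [Fin.append_left]; exact hU1 i
          · rw [Fin.append_right]; exact hU1' i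
        · rw [Fin.sum_univ_add]
          have e1 : ∀ i ∈ (Finset.univ : Finset (Fin N)),
              finrank ℂ ((Fin.append U U' : Fin (N + N') → FDRep ℂ G) (Fin.castAdd N' i)) =
                finrank ℂ (U i) := by
            intro i _
            rw [Fin.append_left]
          have e2 : ∀ i ∈ (Finset.univ : Finset (Fin N')),
              finrank ℂ ((Fin.append U U' : Fin (N + N') → FDRep ℂ G) (Fin.natAdd N i)) =
                finrank ℂ (U' i) := by
            intro i _
            rw [Fin.append_right]
          rw [Finset.sum_congr rfl e1, Finset.sum_congr rfl e2, hU2, hU2', hsum, hV]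
        · intro g
          rw [Fin.sum_univ_add]
          have e1 : ∀ i ∈ (Finset.univ : Finset (Fin N)),
              ((Fin.append U U' : Fin (N + N') → FDRep ℂ G) (Fin.castAdd N' i)).character g =
                (U i).character g := by
            intro i _
            rw [Fin.append_left]
          have e2 : ∀ i ∈ (Finset.univ : Finset (Fin N')),
              ((Fin.append U U' : Fin (N + N') → FDRep ℂ G) (Fin.natAdd N i)).character g =
                (U' i).character g := by
            intro i _
            rw [Fin.append_right]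
          rw [Finset.sum_congr rfl e1, Finset.sum_congr rfl e2, hU3, hU3', reg_char hW' g]

/-- The sum over the conjugates is a scalar. -/
private lemma reg_scalar [Fintype G] {V : Type} [AddCommGroup V] [Module ℂ V]
    [FiniteDimensional ℂ V] (ρ : Representation ℂ G V) (hρ : ρ.IsIrreducible) (g : G) :
    ∃ c : ℂ, (∑ y : G, ρ (y * g * y⁻¹)) = c • (1 : Module.End ℂ V) ∧
      c * finrank ℂ V = Fintype.card G * ρ.character g := by
  have hcomm : ∀ (h : G) (v : V), (∑ y : G, ρ (y * g * y⁻¹)) (ρ h v) =
      ρ h ((∑ y : G, ρ (y * g * y⁻¹)) v) := by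
    intro h v
    rw [LinearMap.sum_apply, LinearMap.sum_apply, map_sum]
    refine Fintype.sum_equiv (Equiv.mulLeft h⁻¹) _ _ fun y => ?_
    rw [← Module.End.mul_apply, ← Module.End.mul_apply, ← map_mul, ← map_mul]
    congr 2
    simp only [Equiv.coe_mulLeft, mul_inv_rev, inv_inv]
    group
  let T : Representation.IntertwiningMap ρ ρ :=
    LinearMap.intertwiningMap_of_isIntertwiningMap ρ ρ _ hcomm
  obtain ⟨c, hc⟩ := (Representation.IsIrreducible.algebraMap_intertwiningMap_bijective_of_isAlgClosed
    (ρ := ρ)).2 T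
  have hT : (∑ y : G, ρ (y * g * y⁻¹)) = c • (1 : Module.End ℂ V) := by
    have h1 : T.toLinearMap = (algebraMap ℂ (Representation.IntertwiningMap ρ ρ) c).toLinearMap := by
      rw [hc]
    rw [Representation.IntertwiningMap.algebraMap_apply] at h1
    exact h1
  refine ⟨c, hT, ?_⟩
  have h2 := congrArg (LinearMap.trace ℂ V) hT
  rw [map_sum, map_smul, LinearMap.trace_one, smul_eq_mul] at h2
  rw [← h2]
  have h3 : ∀ y ∈ (Finset.univ : Finset G), LinearMap.trace ℂ V (ρ (y * g * y⁻¹)) =
      ρ.character g := fun y _ => Representation.char_conj ρ g y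
  rw [Finset.sum_congr rfl h3, Finset.sum_const, Finset.card_univ, nsmul_eq_mul]

private lemma reg_irr2 [Fintype G] {V : Type} [AddCommGroup V] [Module ℂ V]
    [FiniteDimensional ℂ V] (ρ : Representation ℂ G V) (hρ : ρ.IsIrreducible) (g h : G) :
    ∑ y : G, ∑ z : G, ρ.character (y * g * y⁻¹ * (z * h * z⁻¹)) =
      (Fintype.card G : ℂ) ^ 2 * (ρ.character g * ρ.character h / finrank ℂ V) := by
  obtain ⟨c, hc1, hc2⟩ := reg_scalar ρ hρ g
  obtain ⟨c', hc1', hc2'⟩ := reg_scalar ρ hρ h
  have hnt : Nontrivial V := by
    by_contra hcon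
    rw [not_nontrivial_iff_subsingleton] at hcon
    obtain ⟨a, b, hab⟩ := hρ.exists_pair_ne
    apply hab
    apply Subrepresentation.toSubmodule_injective
    exact Subsingleton.elim _ _
  have hd : (finrank ℂ V : ℂ) ≠ 0 := by
    have : 0 < finrank ℂ V := finrank_pos
    exact_mod_cast this.ne'
  have h1 : ∑ y : G, ∑ z : G, ρ.character (y * g * y⁻¹ * (z * h * z⁻¹)) =
      LinearMap.trace ℂ V ((∑ y : G, ρ (y * g * y⁻¹)) * (∑ z : G, ρ (z * h * z⁻¹))) := by
    rw [Finset.sum_mul_sum, map_sum]
    refine Finset.sum_congr rfl fun y _ => ?_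
    rw [map_sum]
    refine Finset.sum_congr rfl fun z _ => ?_
    rw [← map_mul]
    rfl
  rw [h1, hc1, hc1', smul_mul_smul_comm, mul_one, map_smul, LinearMap.trace_one, smul_eq_mul]
  have e : (Fintype.card G : ℂ) ^ 2 * (ρ.character g * ρ.character h / finrank ℂ V) =
      (Fintype.card G * ρ.character g) * (Fintype.card G * ρ.character h) / finrank ℂ V := by
    ring
  rw [e, ← hc2, ← hc2']
  field_simp

/-- The regular representation. -/
private noncomputable def regRep (G : Type) [Group G] : Representation ℂ G (G → ℂ) where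
  toFun g := LinearMap.funLeft ℂ ℂ (fun x => g⁻¹ * x)
  map_one' := by
    refine LinearMap.ext fun f => funext fun x => ?_
    rw [LinearMap.funLeft_apply, inv_one, one_mul]
    rfl
  map_mul' g h := by
    refine LinearMap.ext fun f => funext fun x => ?_
    rw [Module.End.mul_apply, LinearMap.funLeft_apply, LinearMap.funLeft_apply,
      LinearMap.funLeft_apply, mul_inv_rev, mul_assoc]

open Classical in
private lemma regRep_char [Fintype G] (g : G) :
    (regRep G).character g = if g = 1 then (Fintype.card G : ℂ) else 0 := by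
  unfold Representation.character
  rw [LinearMap.trace_eq_matrix_trace ℂ (Pi.basisFun ℂ G), Matrix.trace]
  have h1 : ∀ x : G, (LinearMap.toMatrix (Pi.basisFun ℂ G) (Pi.basisFun ℂ G) (regRep G g)).diag x =
      if g = 1 then 1 else 0 := by
    intro x
    rw [Matrix.diag_apply, LinearMap.toMatrix_apply, Pi.basisFun_repr, Pi.basisFun_apply]
    have h2 : regRep G g (Pi.single x 1) x = (Pi.single x 1 : G → ℂ) (g⁻¹ * x) := rfl
    rw [h2, Pi.single_apply]
    refine if_congr ?_ rfl rfl
    constructor
    · intro h
      have h3 : g⁻¹ = 1 := mul_eq_right.1 h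
      exact inv_eq_one.1 h3
    · intro h
      rw [h, inv_one, one_mul]
  rw [Finset.sum_congr rfl fun x _ => h1 x]
  split_ifs with h
  · simp
  · simp

open Classical in
private lemma reg_count2 [Fintype G] (x y : G) :
    (∑ a : G, ∑ b : G, if a * x * a⁻¹ * (b * y⁻¹ * b⁻¹) = 1 then (1 : ℂ) else 0) =
      (Fintype.card G : ℂ) * ((Finset.univ.filter (fun g : G => g * x * g⁻¹ = y)).card : ℂ) := by
  have hfib : ∀ a : G, (Finset.univ.filter (fun b : G => b * y * b⁻¹ = a * x * a⁻¹)).card =
      (Finset.univ.filter (fun g : G => g * x * g⁻¹ = y)).card := by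
    intro a
    refine Finset.card_bij' (fun b _ => b⁻¹ * a) (fun g _ => a * g⁻¹) ?_ ?_ ?_ ?_
    · intro b hb
      rw [Finset.mem_filter] at hb ⊢
      refine ⟨Finset.mem_univ _, ?_⟩
      calc b⁻¹ * a * x * (b⁻¹ * a)⁻¹ = b⁻¹ * (a * x * a⁻¹) * b := by group
        _ = y := by rw [← hb.2]; group
    · intro g hg
      rw [Finset.mem_filter] at hg ⊢
      refine ⟨Finset.mem_univ _, ?_⟩
      rw [← hg.2]
      group
    · intro b _
      group
    · intro g _
      group
  have h1 : ∀ a : G, ∑ b : G, (if a * x * a⁻¹ * (b * y⁻¹ * b⁻¹) = 1 then (1 : ℂ) else 0) =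
      ((Finset.univ.filter (fun g : G => g * x * g⁻¹ = y)).card : ℂ) := by
    intro a
    rw [← hfib a, Finset.sum_boole]
    congr 2
    ext b
    rw [Finset.mem_filter, Finset.mem_filter]
    refine and_congr_right fun _ => ?_
    have e : b * y⁻¹ * b⁻¹ = (b * y * b⁻¹)⁻¹ := by group
    rw [e, mul_inv_eq_one]
    exact eq_comm
  rw [Finset.sum_congr rfl fun a _ => h1 a, Finset.sum_const, Finset.card_univ, nsmul_eq_mul]

end RegAux

open Classical in
theorem exists_family2 (G : Type) [Group G] [Fintype G] :
    ∃ (N : ℕ) (U : Fin N → FDRep ℂ G), (∀ i, Simple (U i)) ∧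
      ∑ i, finrank ℂ (U i) = Fintype.card G ∧
      (∀ x y : G, ∑ i, (U i).character x * (U i).character y⁻¹ / finrank ℂ (U i) =
        ((Finset.univ.filter (fun g : G => g * x * g⁻¹ = y)).card : ℂ)) ∧
      ∀ x : G, ∑ i, (U i).character x = if x = 1 then (Fintype.card G : ℂ) else 0 := by
  classical
  obtain ⟨N, U, h1, h2, h3⟩ := reg_decomp (Fintype.card G) (G → ℂ) (regRep G)
    (by rw [Module.finrank_fintype_fun_eq_card])
  refine ⟨N, U, fun i => (h1 i).1, h2, ?_, ?_⟩
  · intro x y
    have hG : (Fintype.card G : ℂ) ≠ 0 := by exact_mod_cast Fintype.card_ne_zero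
    have h4 : (Fintype.card G : ℂ) ^ 2 *
        ∑ i, (U i).character x * (U i).character y⁻¹ / finrank ℂ (U i) =
        Fintype.card G * ∑ a : G, ∑ b : G,
          (if a * x * a⁻¹ * (b * y⁻¹ * b⁻¹) = 1 then (1 : ℂ) else 0) := by
      rw [Finset.mul_sum]
      have h5 : ∀ i, (Fintype.card G : ℂ) ^ 2 *
          ((U i).character x * (U i).character y⁻¹ / finrank ℂ (U i)) =
          ∑ a : G, ∑ b : G, (U i).character (a * x * a⁻¹ * (b * y⁻¹ * b⁻¹)) := fun i =>
        (reg_irr2 (U i).ρ (h1 i).2 x y⁻¹).symm
      rw [Finset.sum_congr rfl fun i _ => h5 i, Finset.sum_comm, Finset.mul_sum]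
      refine Finset.sum_congr rfl fun a _ => ?_
      rw [Finset.sum_comm, Finset.mul_sum]
      refine Finset.sum_congr rfl fun b _ => ?_
      rw [h3, regRep_char, mul_ite, mul_one, mul_zero]
    have h6 := reg_count2 x y
    have h7 : (Fintype.card G : ℂ) ^ 2 *
        (∑ i, (U i).character x * (U i).character y⁻¹ / finrank ℂ (U i)) =
        (Fintype.card G : ℂ) ^ 2 *
          ((Finset.univ.filter (fun g : G => g * x * g⁻¹ = y)).card : ℂ) := by
      rw [h4, h6]
      ring
    have h8 := mul_left_cancel₀ (pow_ne_zero 2 hG) h7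
    rw [h8]
  · intro x
    rw [h3, regRep_char]

end Pool.Agent.Helper51.TN
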