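import Pool.Agent.Helper51.TN.B4

/-!
BLOCK TN-A3 (about 150 lines). The number of corners is at most `e √n`.

Proof in words. `c = |CC ρ|`, `J = CC ρ`. `c ≤ n` : if `n = 0` then `corners = ∅`; in general take a permutation of `J` as values: by `K_many`-type lists the content list has length `n` and contains all corners
(`corners_last`, `SS_perm`: every corner is an entry of a fixed list of length `n`, `CC ⊆ l.toFinset`, so `c ≤ n`). Put `e = c`, `h : c ≤ n`, `trace_pJ` with `J = CC ρ`: `tr (ρ (jT h x) ∘ pJ) = c! χ(x)`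
(`y = 1`), `∑ χ(x)² = (n-c)!`. The space `V = range pJ ⊕ ker pJ` is a decomposition as representation of `Perm (Fin (n-c))` (`pJ_comm`), so `χ_V(jT x) = c! χ(x) + ψ(x)` with `ψ` the character of `ker pJ`.
All characters are real; `∑_x χ_V(jT x)² = c!² ∑ χ² + 2 c! ∑ χ ψ + ∑ ψ²`, and `∑_x χ_1(x) χ_2(x⁻¹) ≥ 0` for any two representations (`dim_hom` with `P = id`: it is `|H|` times a dimension), so
`∑_x χ_V(jT h x)² ≥ c!² (n-c)!`. And `∑_x χ_V(jT h x)² ≤ ∑_g χ_V(g)² = n!` (`norm_one`; `jT` is injective, the terms are `≥ 0`). So `c!² ≤ n!/(n-c)! ≤ n^c`. Since `c! ≥ (c/e)^c` (`c^c/c! ≤ exp c`: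
`Real.pow_div_factorial_le_exp`) we get `(c/e)^{2c} ≤ n^c`, so `c² ≤ e² n` (if `c ≥ 1`).
-/

set_option autoImplicit false

open Module Equiv Pool.Agent.Helper1.TS Pool.Agent.Helper70.TU

namespace Pool.Agent.Helper51.TN

/-- The representation on the range of an invariant projection. -/
private theorem exists_rep61 {H V : Type*} [Group H] [AddCommGroup V] [Module ℂ V]
    [FiniteDimensional ℂ V] (σ : Representation ℂ H V) (P : V →ₗ[ℂ] V) (hP : ∀ v, P (P v) = P v)
    (hc : ∀ (h : H) (v : V), P (σ h v) = σ h (P v)) :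
    ∃ τ : Representation ℂ H (LinearMap.range P),
      ∀ h, τ.character h = LinearMap.trace ℂ V (σ h ∘ₗ P) := by
  have hmem : ∀ (h : H), ∀ v ∈ LinearMap.range P, σ h v ∈ LinearMap.range P := by
    rintro h _ ⟨v, rfl⟩
    exact ⟨σ h v, hc h v⟩
  refine ⟨{ toFun := fun h => (σ h).restrict (hmem h)
            map_one' := ?_
            map_mul' := ?_ }, fun h => ?_⟩
  · refine LinearMap.ext fun v => Subtype.ext ?_
    rw [LinearMap.coe_restrict_apply, map_one]
    rfl
  · intro a b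
    refine LinearMap.ext fun v => Subtype.ext ?_
    rw [LinearMap.coe_restrict_apply, map_mul, Module.End.mul_apply, Module.End.mul_apply,
      LinearMap.coe_restrict_apply, LinearMap.coe_restrict_apply]
  · show LinearMap.trace ℂ (LinearMap.range P) ((σ h).restrict (hmem h)) = _
    have h1 : σ h ∘ₗ P = (LinearMap.range P).subtype ∘ₗ
        ((σ h).restrict (hmem h) ∘ₗ P.rangeRestrict) := by
      refine LinearMap.ext fun v => ?_
      rfl
    have h2 : ((σ h).restrict (hmem h) ∘ₗ P.rangeRestrict) ∘ₗ (LinearMap.range P).subtype =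
        (σ h).restrict (hmem h) := by
      refine LinearMap.ext fun v => Subtype.ext ?_
      obtain ⟨_, w, rfl⟩ := v
      show σ h (P (P w)) = σ h (P w)
      rw [hP]
    rw [h1, LinearMap.trace_comp_comm', h2]

/-- Two invariant complementary projections: the square norm of the character. -/
private theorem sq_le61 {m : ℕ} {V : Type*} [AddCommGroup V] [Module ℂ V]
    [FiniteDimensional ℂ V] (σ : Representation ℂ (Perm (Fin m)) V) (P : V →ₗ[ℂ] V)
    (hP : ∀ v, P (P v) = P v) (hc : ∀ (h : Perm (Fin m)) (v : V), P (σ h v) = σ h (P v))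
    (a : Perm (Fin m) → ℝ) (ha : ∀ x, LinearMap.trace ℂ V (σ x ∘ₗ P) = a x) :
    ∑ x, a x ^ 2 ≤ ∑ x, (σ.character x).re ^ 2 := by
  obtain ⟨τ, hτ⟩ := exists_rep61 σ P hP hc
  have hd := dim_hom τ σ (LinearMap.id - P)
    (fun v => by
      simp only [LinearMap.sub_apply, LinearMap.id_apply, map_sub, hP]
      abel)
    (fun h v => by
      simp only [LinearMap.sub_apply, LinearMap.id_apply, map_sub, hc])
  have h1 : ∀ x : Perm (Fin m), LinearMap.trace ℂ V (σ x ∘ₗ (LinearMap.id - P)) *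
      τ.character x⁻¹ = ((((σ.character x).re - a x) * a x : ℝ) : ℂ) := by
    intro x
    have e1 : σ x ∘ₗ (LinearMap.id - P) = σ x - σ x ∘ₗ P := by
      rw [LinearMap.comp_sub, LinearMap.comp_id]
    have e2 : LinearMap.trace ℂ V (σ x) = ((σ.character x).re : ℂ) := char_perm_real σ x
    rw [char_perm_inv, hτ, ha, e1, map_sub, ha, e2]
    push_cast
    ring
  rw [Finset.sum_congr rfl fun x _ => h1 x, ← Complex.ofReal_sum] at hd
  have h2 : 0 ≤ ∑ x, ((σ.character x).re - a x) * a x := by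
    have h3 := congrArg Complex.re hd
    rw [Complex.ofReal_re] at h3
    rw [← h3]
    have h4 : (Fintype.card (Perm (Fin m)) : ℂ) *
        (finrank ℂ (HomP τ σ (LinearMap.id - P)) : ℂ) =
        (((Fintype.card (Perm (Fin m)) * finrank ℂ (HomP τ σ (LinearMap.id - P)) : ℕ) : ℝ) : ℂ) := by
      push_cast
      ring
    rw [h4, Complex.ofReal_re]
    exact Nat.cast_nonneg _
  have h5 : ∑ x, (σ.character x).re ^ 2 - ∑ x, a x ^ 2 =
      2 * ∑ x, ((σ.character x).re - a x) * a x + ∑ x, ((σ.character x).re - a x) ^ 2 := by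
    rw [Finset.mul_sum, ← Finset.sum_add_distrib, ← Finset.sum_sub_distrib]
    refine Finset.sum_congr rfl fun x _ => ?_
    ring
  have h6 : 0 ≤ ∑ x, ((σ.character x).re - a x) ^ 2 :=
    Finset.sum_nonneg fun x _ => sq_nonneg _
  linarith

private theorem CC_le61 {n : ℕ} {V : Type} [AddCommGroup V] [Module ℂ V] [FiniteDimensional ℂ V]
    (ρ : Representation ℂ (Perm (Fin n)) V) [ρ.IsIrreducible] : (CC ρ).card ≤ n := by
  rcases (CC ρ).eq_empty_or_nonempty with h0 | ⟨a, ha⟩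
  · rw [h0]
    simp
  · obtain ⟨l, hl⟩ := (corners_last ρ a).1 ((mem_CC ρ a).1 ha)
    obtain ⟨l', hl'⟩ := K_many (JBaux.ov ρ) (SS_perm ρ) ⟨_, hl⟩ (CC ρ).toList
      (CC ρ).nodup_toList
      (fun b hb => (corners_last ρ b).1 ((mem_CC ρ b).1 (Finset.mem_toList.1 hb)))
    obtain ⟨c, v, _, hc⟩ := hl'
    have h1 := congrArg List.length hc
    rw [List.length_append, List.length_ofFn, Finset.length_toList] at h1
    omega

private theorem fact61 {n : ℕ} {V : Type} [AddCommGroup V] [Module ℂ V] [FiniteDimensional ℂ V]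
    (ρ : Representation ℂ (Perm (Fin n)) V) [ρ.IsIrreducible] :
    (CC ρ).card.factorial ^ 2 * (n - (CC ρ).card).factorial ≤ n.factorial := by
  have h : (CC ρ).card ≤ n := CC_le61 ρ
  obtain ⟨χ, hχ, hsq, -⟩ := trace_pJ ρ h (CC ρ) (fun a ha => (mem_CC ρ a).1 ha) rfl
  let σ : Representation ℂ (Perm (Fin (n - (CC ρ).card))) V := ρ.comp (jT h)
  have hc : ∀ (x : Perm (Fin (n - (CC ρ).card))) (v : V),
      pJ ρ h (CC ρ) (σ x v) = σ x (pJ ρ h (CC ρ) v) := by
    intro x v
    have h1 := pJ_comm ρ h (CC ρ) (x, 1) v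
    have h2 : jH h (x, (1 : Perm (Fin (CC ρ).card))) = jT h x := by
      rw [jH_apply, map_one, mul_one]
    rw [h2] at h1
    exact h1
  have htr : ∀ x, LinearMap.trace ℂ V (σ x ∘ₗ pJ ρ h (CC ρ)) =
      ((CC ρ).card.factorial : ℂ) * χ x := by
    intro x
    have h1 := hχ x 1
    have h2 : jH h (x, (1 : Perm (Fin (CC ρ).card))) = jT h x := by
      rw [jH_apply, map_one, mul_one]
    rw [h2, if_pos rfl] at h1
    exact h1
  obtain ⟨τ, hτ⟩ := exists_rep61 σ (pJ ρ h (CC ρ)) (pJ_idem ρ h (CC ρ)) hc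
  have hre : ∀ x, LinearMap.trace ℂ V (σ x ∘ₗ pJ ρ h (CC ρ)) = ((τ.character x).re : ℂ) := by
    intro x
    rw [← hτ]
    exact char_perm_real τ x
  have hle := sq_le61 σ (pJ ρ h (CC ρ)) (pJ_idem ρ h (CC ρ)) hc (fun x => (τ.character x).re) hre
  have hA : ∑ x, (τ.character x).re ^ 2 =
      ((CC ρ).card.factorial : ℝ) ^ 2 * ((n - (CC ρ).card).factorial : ℝ) := by
    have h1 : ((∑ x, (τ.character x).re ^ 2 : ℝ) : ℂ) =
        ((CC ρ).card.factorial : ℂ) ^ 2 * ((n - (CC ρ).card).factorial : ℂ) := by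
      rw [← hsq, Finset.mul_sum, Complex.ofReal_sum]
      refine Finset.sum_congr rfl fun x _ => ?_
      rw [Complex.ofReal_pow, ← hre, htr]
      ring
    exact_mod_cast h1
  have hB : ∑ x, (σ.character x).re ^ 2 ≤ (n.factorial : ℝ) := by
    have h1 : ∑ g : Perm (Fin n), (ρ.character g).re ^ 2 = (n.factorial : ℝ) := by
      have h2 : ((∑ g : Perm (Fin n), (ρ.character g).re ^ 2 : ℝ) : ℂ) = (n.factorial : ℂ) := by
        rw [← norm_one ρ, Complex.ofReal_sum]
        refine Finset.sum_congr rfl fun g _ => ?_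
        rw [Complex.ofReal_pow, ← char_perm_real]
      exact_mod_cast h2
    rw [← h1]
    have h3 : Function.Injective (jT h) := Perm.extendDomainHom_injective (eT h)
    have h4 : ∑ x, (σ.character x).re ^ 2 =
        ∑ g ∈ Finset.univ.map ⟨jT h, h3⟩, (ρ.character g).re ^ 2 := by
      rw [Finset.sum_map]
      rfl
    rw [h4]
    exact Finset.sum_le_univ_sum_of_nonneg fun g => sq_nonneg _
  rw [hA] at hle
  have h5 := hle.trans hB
  exact_mod_cast h5

theorem card_CC_le {n : ℕ} {V : Type} [AddCommGroup V] [Module ℂ V] [FiniteDimensional ℂ V]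
    (ρ : Representation ℂ (Perm (Fin n)) V) [ρ.IsIrreducible] :
    ((CC ρ).card : ℝ) ≤ Real.exp 1 * Real.sqrt n := by
  have h := CC_le61 ρ
  have hf := fact61 ρ
  set c := (CC ρ).card with hc
  rcases Nat.eq_zero_or_pos c with h0 | hpos
  · rw [h0, Nat.cast_zero]
    positivity
  have h1 : c.factorial ^ 2 ≤ n ^ c := by
    rw [← Nat.factorial_mul_descFactorial h, mul_comm (c.factorial ^ 2)] at hf
    exact (Nat.le_of_mul_le_mul_left hf (Nat.factorial_pos _)).trans (Nat.descFactorial_le_pow n c)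
  have h2 : (c.factorial : ℝ) ^ 2 ≤ (n : ℝ) ^ c := by exact_mod_cast h1
  have h3 := Real.pow_div_factorial_le_exp (c : ℝ) (Nat.cast_nonneg c) c
  have hfp : (0 : ℝ) < c.factorial := Nat.cast_pos.2 (Nat.factorial_pos _)
  rw [div_le_iff₀ hfp] at h3
  have h4 : ((c : ℝ) ^ 2) ^ c ≤ (Real.exp 1 ^ 2 * n) ^ c := by
    have e1 : ((c : ℝ) ^ 2) ^ c = ((c : ℝ) ^ c) ^ 2 := by
      rw [← pow_mul, ← pow_mul, mul_comm]
    have e2 : (Real.exp 1 ^ 2 * n) ^ c = (Real.exp c) ^ 2 * (n : ℝ) ^ c := by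
      rw [mul_pow, ← pow_mul, mul_comm 2 c, pow_mul, ← Real.exp_nat_mul, mul_one]
    rw [e1, e2]
    calc ((c : ℝ) ^ c) ^ 2 ≤ (Real.exp c * c.factorial) ^ 2 :=
          pow_le_pow_left₀ (by positivity) h3 2
      _ = Real.exp c ^ 2 * (c.factorial : ℝ) ^ 2 := by ring
      _ ≤ Real.exp c ^ 2 * (n : ℝ) ^ c := by gcongr
  have h5 : (c : ℝ) ^ 2 ≤ Real.exp 1 ^ 2 * n :=
    (pow_le_pow_iff_left₀ (by positivity) (by positivity) hpos.ne').1 h4
  have h6 : (c : ℝ) ^ 2 ≤ (Real.exp 1 * Real.sqrt n) ^ 2 := by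
    rw [mul_pow, Real.sq_sqrt (Nat.cast_nonneg n)]
    exact h5
  exact (pow_le_pow_iff_left₀ (by positivity) (by positivity) two_ne_zero).1 h6

theorem card_CC_le_n {n : ℕ} {V : Type} [AddCommGroup V] [Module ℂ V] [FiniteDimensional ℂ V]
    (ρ : Representation ℂ (Perm (Fin n)) V) [ρ.IsIrreducible] : (CC ρ).card ≤ n :=
  CC_le61 ρ

end Pool.Agent.Helper51.TN
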