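import Pool.Agent.Helper51.TN.S2
import Pool.Agent.Helper51.TN.L3

/-!
BLOCK TN-B2 (about 250 lines). The joint eigenspaces are irreducible (multiplicity free branching).

Proofs in words. For `l ≤ n` call a submodule `U` of `V` `l`-irreducible if `U ≠ ⊥`, it is stable under `Sym(T_l)` (permutations fixing all points `< l`), and its only
`Sym(T_l)`-stable submodules are `⊥` and `U`.
STEP: if `U` is `l`-irreducible, `l < n`, `a` real, `U' = U ⊓ ker (jm l - a)`, then every `Sym(T_{l+1})`-stable `K ≤ U'` is `⊥` or `U'`. Proof: let `K ≠ ⊥`.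
If `l + 1 = n` then `Sym(T_l)` is trivial, so `U` is a line (every submodule is stable) and `K = U'`. If `l + 1 < n` let `s = swap l (l+1)` and
`Y = K ⊔ ⨆_{b ≠ a} (U ⊓ ker (jm l - b))` (real `b`). `Y` is `Sym(T_{l+1})`-stable (`jm l` commutes with `Sym(T_{l+1})`). `s K ≤ Y`: by `jm_diag` (`I = {l+1}`, `U := K`, which is stable
under `jm (l+1)`, an element of the group algebra of `Sym(T_{l+1})`) it is enough to consider `v ∈ K`, `jm (l+1) v = b v`, `v ≠ 0`. `b ≠ a` (as in `je_ne`/`EE_eq_bot`: if `b = a` then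
`(jm l - a)(s v) = v`, `(jm l - a)² (s v) = 0`, and `jm l` is self-adjoint, so `v = 0`), and `w = s v - (a-b)⁻¹ v` satisfies `jm l w = b w` (`jm_swap1`), `w ∈ U`. So `s v ∈ Y`.
Every `x ∈ Sym(T_l)` is in `Sym(T_{l+1})` or of the form `x₁ s x₂` with `x₁, x₂ ∈ Sym(T_{l+1})` (if `x l = t > l`: `x₁ = swap (l+1) t`, then `x₁⁻¹ x` maps `l` to `l+1`; ...). So `x K ≤ Y` for
all `x ∈ Sym(T_l)`; the span of the `x K` is a nonzero stable submodule of `U`, so it is `U`: `U ≤ Y`. For `u ∈ U' ` write `u = k + ∑ u_b`; independence of the eigenspaces of `jm l`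
(`jm_indep` or `Module.End.eigenspaces_iSupIndep`) gives `u = k ∈ K`.
* `EE_irr`: induction on `e`: `e = 0`: `EE ρ h α = ⊤` is `0`-irreducible (`ρ` irreducible). `EE` for `e + 1` is `EE` for `e` intersected with `ker (jm e - a)`.
The `Sym(T_l)` are the permutations `jT h x` (`support_jT`, `exists_jT` in `TN/L3.lean`; import it if convenient).
-/

set_option autoImplicit false

open Module Equiv Pool.Agent.Helper1.TS Pool.Agent.Helper70.TU

namespace Pool.Agent.Helper51.TN

variable {n : ℕ} {V : Type*} [AddCommGroup V] [Module ℂ V] [FiniteDimensional ℂ V]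

/-- `K` is stable under the permutations that fix all points `< l`. -/
private def St97 (ρ : Representation ℂ (Perm (Fin n)) V) (l : ℕ) (K : Submodule ℂ V) : Prop :=
  ∀ g : Perm (Fin n), (∀ i : Fin n, (i : ℕ) < l → g i = i) → ∀ v ∈ K, ρ g v ∈ K

omit [FiniteDimensional ℂ V] in
private lemma jm_st97 (ρ : Representation ℂ (Perm (Fin n)) V) {l : ℕ} {K : Submodule ℂ V}
    (hK : St97 ρ l K) (i : Fin n) (hi : l ≤ (i : ℕ)) (v : V) (hv : v ∈ K) : jm ρ i v ∈ K := by
  unfold jm
  rw [LinearMap.sum_apply]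
  refine Submodule.sum_mem _ fun j hj => ?_
  have hij : i < j := (Finset.mem_filter.1 hj).2
  refine hK _ (fun k hk => ?_) v hv
  refine Equiv.swap_apply_of_ne_of_ne ?_ ?_
  · intro he
    rw [he] at hk
    omega
  · intro he
    rw [he] at hk
    have : (i : ℕ) < (j : ℕ) := hij
    omega

private lemma jm_fix97 (ρ : Representation ℂ (Perm (Fin n)) V) {l : ℕ} (hl : l + 1 ≤ n) (g : Perm (Fin n))
    (hg : ∀ i : Fin n, (i : ℕ) < l + 1 → g i = i) (v : V) :
    jm ρ ⟨l, hl⟩ (ρ g v) = ρ g (jm ρ ⟨l, hl⟩ v) := by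
  have hs : g.support ⊆ TT n (l + 1) := by
    intro i hi
    rw [mem_TT]
    by_contra hlt
    exact (Perm.mem_support.1 hi) (hg i (by omega))
  obtain ⟨x, rfl⟩ := exists_jT hl g hs
  exact jm_jT ρ hl x ⟨l, hl⟩ (Nat.lt_succ_self l) v

omit [FiniteDimensional ℂ V] in
private lemma snoc_mem97 (ρ : Representation ℂ (Perm (Fin n)) V) {l : ℕ} (hl : l + 1 ≤ n) (α : Fin (l + 1) → ℝ) (v : V) :
    v ∈ EE ρ hl α ↔ v ∈ EE ρ (Nat.le_of_succ_le hl) (fun i : Fin l => α i.castSucc) ∧
      jm ρ ⟨l, hl⟩ v = (α (Fin.last l) : ℂ) • v := by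
  rw [mem_EE, mem_EE]
  constructor
  · intro h
    exact ⟨fun i => h i.castSucc, h (Fin.last l)⟩
  · rintro ⟨h1, h2⟩ i
    refine Fin.lastCases ?_ (fun i => ?_) i
    · exact h2
    · exact h1 i

private lemma step97 (ρ : Representation ℂ (Perm (Fin n)) V) {l : ℕ} (hl : l + 1 ≤ n) (α : Fin (l + 1) → ℝ)
    (hU : St97 ρ l (EE ρ (Nat.le_of_succ_le hl) (fun i : Fin l => α i.castSucc)))
    (ih : ∀ K : Submodule ℂ V, K ≤ EE ρ (Nat.le_of_succ_le hl) (fun i : Fin l => α i.castSucc) → St97 ρ l K →
      K = ⊥ ∨ K = EE ρ (Nat.le_of_succ_le hl) (fun i : Fin l => α i.castSucc))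
    (K : Submodule ℂ V) (hK : K ≤ EE ρ hl α) (hKs : St97 ρ (l + 1) K) : K = ⊥ ∨ K = EE ρ hl α := by
  by_cases hK0 : K = ⊥
  · exact Or.inl hK0
  right
  refine le_antisymm hK ?_
  set U := EE ρ (Nat.le_of_succ_le hl) (fun i : Fin l => α i.castSucc) with hUdef
  obtain ⟨a, ha⟩ : ∃ a, a = α (Fin.last l) := ⟨_, rfl⟩
  have hU' : ∀ v, v ∈ EE ρ hl α ↔ v ∈ U ∧ jm ρ ⟨l, hl⟩ v = (a : ℂ) • v := by
    intro v
    rw [snoc_mem97, ha]
  have hKU : K ≤ U := fun v hv => ((hU' v).1 (hK hv)).1
  by_cases hln : l + 1 = n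
  · -- trivial group
    have hst : St97 ρ l K := by
      intro g hg v hv
      have h1 : g = 1 := by
        refine Equiv.ext fun i => ?_
        rw [Perm.one_apply]
        by_cases hi : (i : ℕ) < l
        · exact hg i hi
        · have hi2 := i.2
          have hi' : (i : ℕ) = l := by omega
          by_contra hne
          have h2 : ((g i : Fin n) : ℕ) < l := by
            have h3 := (g i).2
            have h4 : ((g i : Fin n) : ℕ) ≠ (i : ℕ) := fun h => hne (Fin.ext h)
            omega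
          have h5 := hg (g i) h2
          exact hne (g.injective h5)
      rw [h1, map_one]
      exact hv
    rcases ih K hKU hst with h1 | h1
    · exact absurd h1 hK0
    · rw [h1]
      intro v hv
      exact ((hU' v).1 hv).1
  · have hl2 : l + 2 ≤ n := by omega
    obtain ⟨L, hL⟩ : ∃ L : Fin n, L = ⟨l, hl⟩ := ⟨_, rfl⟩
    obtain ⟨L', hL'⟩ : ∃ L' : Fin n, L' = ⟨l + 1, hl2⟩ := ⟨_, rfl⟩
    have hLv : (L : ℕ) = l := by rw [hL]
    have hLv' : (L' : ℕ) = l + 1 := by rw [hL']
    have hLL : (L' : ℕ) = L + 1 := by rw [hLv, hLv']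
    rw [← hL] at hU'
    obtain ⟨s, hs⟩ : ∃ s : Perm (Fin n), s = Equiv.swap L L' := ⟨_, rfl⟩
    have hsfix : ∀ i : Fin n, (i : ℕ) < l → s i = i := by
      intro i hi
      rw [hs]
      refine Equiv.swap_apply_of_ne_of_ne ?_ ?_
      · intro he
        rw [he, hLv] at hi
        omega
      · intro he
        rw [he, hLv'] at hi
        omega
    obtain ⟨Z, hZ⟩ : ∃ Z : Submodule ℂ V, Z = ⨆ b : ℝ, ⨆ _ : b ≠ a, U ⊓ Module.End.eigenspace (jm ρ L) (b : ℂ) := ⟨_, rfl⟩
    obtain ⟨Y, hY⟩ : ∃ Y : Submodule ℂ V, Y = K ⊔ Z := ⟨_, rfl⟩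
    have hmemZ : ∀ (b : ℝ), b ≠ a → ∀ w ∈ U, jm ρ L w = (b : ℂ) • w → w ∈ Z := by
      intro b hb w hw hw'
      rw [hZ]
      refine Submodule.mem_iSup_of_mem b (Submodule.mem_iSup_of_mem hb ?_)
      exact ⟨hw, Module.End.mem_eigenspace_iff.2 hw'⟩
    have hZst : St97 ρ (l + 1) Z := by
      intro g hg v hv
      have h1 : Z ≤ Z.comap (ρ g) := by
        conv_lhs => rw [hZ]
        refine iSup_le fun b => iSup_le fun hb => ?_
        rintro w ⟨hw1, hw2⟩
        rw [SetLike.mem_coe, Module.End.mem_eigenspace_iff] at hw2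
        rw [Submodule.mem_comap]
        refine hmemZ b hb _ (hU g (fun i hi => hg i (by omega)) w hw1) ?_
        have h2 := jm_fix97 ρ hl g hg w
        rw [← hL] at h2
        rw [h2, hw2, map_smul]
      exact h1 hv
    have hYst : St97 ρ (l + 1) Y := by
      intro g hg v hv
      rw [hY, Submodule.mem_sup] at hv ⊢
      obtain ⟨k, hk, z, hz, rfl⟩ := hv
      exact ⟨ρ g k, hKs g hg k hk, ρ g z, hZst g hg z hz, (map_add _ _ _).symm⟩
    have hKY : K ≤ Y := by rw [hY]; exact le_sup_left
    have hZY : Z ≤ Y := by rw [hY]; exact le_sup_right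
    -- the swap
    have hsK : ∀ k ∈ K, ρ s k ∈ Y := by
      intro k hk
      obtain ⟨t, f, hf, hkf⟩ := jm_diag ρ {L'} K (fun i hi v hv => by
        rw [Finset.mem_singleton] at hi
        rw [hi]
        exact jm_st97 ρ hKs L' (by rw [hLv']) v hv) k hk
      rw [hkf, map_sum]
      refine Submodule.sum_mem _ fun c hc => ?_
      obtain ⟨hv1, hv2, -⟩ := hf c hc
      have hv3 := hv2 L' (Finset.mem_singleton_self L')
      obtain ⟨v, hvd⟩ : ∃ v, v = f c := ⟨_, rfl⟩
      obtain ⟨b, hbd⟩ : ∃ b, b = c L' := ⟨_, rfl⟩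
      rw [← hvd] at hv1 hv3
      rw [← hbd] at hv3
      rw [← hvd]
      obtain ⟨hvU, hvj⟩ := (hU' v).1 (hK hv1)
      by_cases hab : b = a
      · -- then `v = 0`
        have h1 : v ∈ EE ρ hl2 (Fin.snoc (α := fun _ => ℝ) α b : Fin (l + 2) → ℝ) := by
          rw [snoc_mem97]
          refine ⟨?_, ?_⟩
          · have h2 : (fun i : Fin (l + 1) => (Fin.snoc (α := fun _ => ℝ) α b : Fin (l + 2) → ℝ) i.castSucc) = α := by
              funext i
              exact Fin.snoc_castSucc (α := fun _ => ℝ) b α i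
            rw [h2]
            exact hK hv1
          · rw [Fin.snoc_last, ← hL']
            exact hv3
        have h3 := EE_eq_bot ρ hl2 (Fin.snoc (α := fun _ => ℝ) α b : Fin (l + 2) → ℝ) (Fin.last l).castSucc
          (Fin.last (l + 1)) (by simp) (by
            rw [Fin.snoc_castSucc, Fin.snoc_last, ← ha, hab])
        rw [h3, Submodule.mem_bot] at h1
        rw [h1, map_zero]
        exact Submodule.zero_mem _
      · have hab' : (a : ℂ) - b ≠ 0 := by
          rw [sub_ne_zero]
          exact_mod_cast (Ne.symm hab)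
        have hw1 : ρ s v - ((a : ℂ) - b)⁻¹ • v ∈ U :=
          Submodule.sub_mem _ (hU s hsfix v hvU) (Submodule.smul_mem _ _ hvU)
        have hw2 : jm ρ L (ρ s v - ((a : ℂ) - b)⁻¹ • v) = (b : ℂ) • (ρ s v - ((a : ℂ) - b)⁻¹ • v) := by
          rw [map_sub, map_smul, hvj, hs, jm_swap1 ρ hLL, hv3, map_smul, smul_sub, smul_smul, smul_smul]
          have h4 : v = (((a : ℂ) - b) * ((a : ℂ) - b)⁻¹) • v := by
            rw [mul_inv_cancel₀ hab', one_smul]
          have h5 : (b : ℂ) • ρ (Equiv.swap L L') v + v - (((a : ℂ) - b)⁻¹ * a) • v =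
              (b : ℂ) • ρ (Equiv.swap L L') v + (((a : ℂ) - b) * ((a : ℂ) - b)⁻¹) • v - (((a : ℂ) - b)⁻¹ * a) • v := by
            rw [← h4]
          rw [h5, add_sub_assoc, ← sub_smul, sub_eq_add_neg (a := (b : ℂ) • ρ (Equiv.swap L L') v), ← neg_smul]
          congr 2
          ring
        have hw3 := hmemZ b hab _ hw1 hw2
        have hw4 : ρ s v = (ρ s v - ((a : ℂ) - b)⁻¹ • v) + ((a : ℂ) - b)⁻¹ • v := by
          rw [sub_add_cancel]
        rw [hw4]
        exact Submodule.add_mem _ (hZY hw3) (Submodule.smul_mem _ _ (hKY hv1))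
    -- all of `Sym(T_l)`
    have hall : ∀ g : Perm (Fin n), (∀ i : Fin n, (i : ℕ) < l → g i = i) → ∀ k ∈ K, ρ g k ∈ Y := by
      intro g hg k hk
      by_cases hgL : g L = L
      · refine hKY (hKs g (fun i hi => ?_) k hk)
        by_cases hi' : (i : ℕ) < l
        · exact hg i hi'
        · have h1 : i = L := Fin.ext (by rw [hLv]; omega)
          rw [h1, hgL]
      · have hgl : l + 1 ≤ ((g L : Fin n) : ℕ) := by
          by_contra hlt
          have h1 : ((g L : Fin n) : ℕ) < l := by
            have h2 : ((g L : Fin n) : ℕ) ≠ (L : ℕ) := fun h => hgL (Fin.ext h)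
            omega
          exact hgL (g.injective (hg _ h1))
        obtain ⟨x, hx⟩ : ∃ x : Perm (Fin n), x = Equiv.swap L' (g L) := ⟨_, rfl⟩
        have hxfix : ∀ i : Fin n, (i : ℕ) < l + 1 → x i = i := by
          intro i hi
          rw [hx]
          refine Equiv.swap_apply_of_ne_of_ne ?_ ?_
          · intro he
            rw [he, hLv'] at hi
            omega
          · intro he
            rw [he] at hi
            omega
        have hxx : x * x = 1 := by rw [hx, Equiv.swap_mul_self]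
        have hss : s * s = 1 := by rw [hs, Equiv.swap_mul_self]
        have hgd : g = x * (s * (s * (x * g))) := by
          rw [← mul_assoc s s, hss, one_mul, ← mul_assoc, hxx, one_mul]
        have hx2 : ∀ i : Fin n, (i : ℕ) < l + 1 → (s * (x * g)) i = i := by
          intro i hi
          rw [Perm.mul_apply, Perm.mul_apply]
          by_cases hi' : (i : ℕ) < l
          · rw [hg i hi', hxfix i hi, hsfix i hi']
          · have h1 : i = L := Fin.ext (by rw [hLv]; omega)
            rw [h1, hx, Equiv.swap_apply_right, hs, Equiv.swap_apply_right]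
        rw [hgd, map_mul, Module.End.mul_apply, map_mul, Module.End.mul_apply]
        exact hYst x hxfix _ (hsK _ (hKs _ hx2 k hk))
    -- the span
    obtain ⟨W, hW⟩ : ∃ W : Submodule ℂ V, W = Submodule.span ℂ {v | ∃ g : Perm (Fin n),
        (∀ i : Fin n, (i : ℕ) < l → g i = i) ∧ ∃ k ∈ K, v = ρ g k} := ⟨_, rfl⟩
    have hKW : K ≤ W := by
      intro k hk
      rw [hW]
      refine Submodule.subset_span ⟨1, fun i _ => rfl, k, hk, ?_⟩
      rw [map_one]
      rfl
    have hWU : W ≤ U := by
      rw [hW, Submodule.span_le]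
      rintro v ⟨g, hg, k, hk, rfl⟩
      exact hU g hg k (hKU hk)
    have hWY : W ≤ Y := by
      rw [hW, Submodule.span_le]
      rintro v ⟨g, hg, k, hk, rfl⟩
      exact hall g hg k hk
    have hWst : St97 ρ l W := by
      intro g hg v hv
      have h1 : W ≤ W.comap (ρ g) := by
        conv_lhs => rw [hW]
        rw [Submodule.span_le]
        rintro w ⟨g', hg', k, hk, rfl⟩
        rw [SetLike.mem_coe, Submodule.mem_comap, hW]
        refine Submodule.subset_span ⟨g * g', fun i hi => ?_, k, hk, ?_⟩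
        · rw [Perm.mul_apply, hg' i hi, hg i hi]
        · rw [map_mul, Module.End.mul_apply]
      exact h1 hv
    have hWe : W = U := by
      rcases ih W hWU hWst with h1 | h1
      · exfalso
        rw [h1, le_bot_iff] at hKW
        exact hK0 hKW
      · exact h1
    have hUY : U ≤ Y := hWe ▸ hWY
    intro u hu
    obtain ⟨hu1, hu2⟩ := (hU' u).1 hu
    have hu3 := hUY hu1
    rw [hY, Submodule.mem_sup] at hu3
    obtain ⟨k, hk, z, hz, hkz⟩ := hu3
    have hk2 := ((hU' k).1 (hK hk)).2
    have hz1 : z ∈ Module.End.eigenspace (jm ρ L) (a : ℂ) := by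
      have h1 : z = u - k := by rw [← hkz]; abel
      rw [h1]
      refine Submodule.sub_mem _ ?_ ?_
      · exact Module.End.mem_eigenspace_iff.2 hu2
      · exact Module.End.mem_eigenspace_iff.2 hk2
    have hz2 : z ∈ ⨆ μ : ℂ, ⨆ _ : μ ≠ (a : ℂ), Module.End.eigenspace (jm ρ L) μ := by
      have h1 : Z ≤ ⨆ μ : ℂ, ⨆ _ : μ ≠ (a : ℂ), Module.End.eigenspace (jm ρ L) μ := by
        rw [hZ]
        refine iSup_le fun b => iSup_le fun hb => ?_
        refine le_trans inf_le_right ?_
        have hb' : (b : ℂ) ≠ (a : ℂ) := by exact_mod_cast hb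
        exact le_iSup_of_le (b : ℂ) (le_iSup_of_le hb' le_rfl)
      exact h1 hz
    have hz0 : z = 0 := by
      have h1 := (Module.End.eigenspaces_iSupIndep (jm ρ L)) (a : ℂ)
      rw [Submodule.disjoint_def] at h1
      exact h1 z hz1 hz2
    rw [hz0, add_zero] at hkz
    rw [← hkz]
    exact hk

private lemma stEE97 (ρ : Representation ℂ (Perm (Fin n)) V) {l : ℕ} (hl : l ≤ n) (α : Fin l → ℝ) :
    St97 ρ l (EE ρ hl α) := by
  intro g hg v hv
  have hs : g.support ⊆ TT n l := by
    intro i hi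
    rw [mem_TT]
    by_contra hlt
    exact (Perm.mem_support.1 hi) (hg i (by omega))
  obtain ⟨x, rfl⟩ := exists_jT hl g hs
  exact EE_jT ρ hl α x v hv

private lemma irr97 (ρ : Representation ℂ (Perm (Fin n)) V) [ρ.IsIrreducible] (l : ℕ) : ∀ (hl : l ≤ n) (α : Fin l → ℝ)
    (K : Submodule ℂ V), K ≤ EE ρ hl α → St97 ρ l K → K = ⊥ ∨ K = EE ρ hl α := by
  induction l with
  | zero =>
    intro hl α K hK hKs
    have h1 : EE ρ hl α = ⊤ := by
      rw [eq_top_iff]
      intro v _
      rw [mem_EE]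
      intro i
      exact i.elim0
    rw [h1]
    let S : Subrepresentation ρ := ⟨K, fun g v hv => hKs g (fun i hi => absurd hi (Nat.not_lt_zero _)) v hv⟩
    rcases eq_bot_or_eq_top S with h2 | h2
    · left
      exact congrArg Subrepresentation.toSubmodule h2
    · right
      exact congrArg Subrepresentation.toSubmodule h2
  | succ l ih =>
    intro hl α K hK hKs
    exact step97 ρ hl α (stEE97 ρ _ _) (fun K' => ih _ _ K') K hK hKs

theorem EE_irr (ρ : Representation ℂ (Perm (Fin n)) V) [ρ.IsIrreducible] {e : ℕ} (h : e ≤ n)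
    (α : Fin e → ℝ) (F : Submodule ℂ V) (hF : F ≤ EE ρ h α)
    (hst : ∀ (x : Perm (Fin (n - e))), ∀ v ∈ F, ρ (jT h x) v ∈ F) : F = ⊥ ∨ F = EE ρ h α := by
  refine irr97 ρ e h α F hF (fun g hg v hv => ?_)
  have hs : g.support ⊆ TT n e := by
    intro i hi
    rw [mem_TT]
    by_contra hlt
    exact (Perm.mem_support.1 hi) (hg i (by omega))
  obtain ⟨x, rfl⟩ := exists_jT h g hs
  exact hst x v hv

/-- The representation of `S_{n-e}` on `EE ρ h α`. -/
noncomputable def repEE (ρ : Representation ℂ (Perm (Fin n)) V) {e : ℕ} (h : e ≤ n) (α : Fin e → ℝ) :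
    Representation ℂ (Perm (Fin (n - e))) (EE ρ h α) where
  toFun x := (ρ (jT h x)).restrict (fun v hv => EE_jT ρ h α x v hv)
  map_one' := by
    refine LinearMap.ext fun v => Subtype.ext ?_
    rw [LinearMap.coe_restrict_apply, map_one, map_one]
    rfl
  map_mul' a b := by
    refine LinearMap.ext fun v => Subtype.ext ?_
    rw [LinearMap.coe_restrict_apply, map_mul, map_mul, Module.End.mul_apply, Module.End.mul_apply,
      LinearMap.coe_restrict_apply, LinearMap.coe_restrict_apply]

theorem repEE_irr (ρ : Representation ℂ (Perm (Fin n)) V) [ρ.IsIrreducible] {e : ℕ} (h : e ≤ n)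
    (α : Fin e → ℝ) (hne : EE ρ h α ≠ ⊥) : (repEE ρ h α).IsIrreducible := by
  have hbt : (⊥ : Subrepresentation (repEE ρ h α)) ≠ ⊤ := by
    intro hc
    have h1 := congrArg Subrepresentation.toSubmodule hc
    have h2 : (⊥ : Submodule ℂ (EE ρ h α)) = ⊤ := h1
    apply hne
    rw [Submodule.eq_bot_iff]
    intro v hv
    have h3 : (⟨v, hv⟩ : EE ρ h α) ∈ (⊥ : Submodule ℂ (EE ρ h α)) := by
      rw [h2]
      exact Submodule.mem_top
    rw [Submodule.mem_bot] at h3
    exact congrArg Subtype.val h3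
  exact { exists_pair_ne := ⟨⊥, ⊤, hbt⟩
          eq_bot_or_eq_top := fun W => by
            have h1 := EE_irr ρ h α (W.toSubmodule.map (EE ρ h α).subtype) (by
              rintro v ⟨w, -, rfl⟩
              exact w.2) (by
              rintro x v ⟨w, hw, rfl⟩
              exact ⟨repEE ρ h α x w, W.apply_mem_toSubmodule x hw, rfl⟩)
            rcases h1 with h1 | h1
            · left
              apply Subrepresentation.toSubmodule_injective
              have h2 : W.toSubmodule = ⊥ := by
                rw [Submodule.eq_bot_iff]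
                intro w hw
                have h3 : (w : V) ∈ W.toSubmodule.map (EE ρ h α).subtype := ⟨w, hw, rfl⟩
                rw [h1, Submodule.mem_bot] at h3
                exact Subtype.ext h3
              exact h2
            · right
              apply Subrepresentation.toSubmodule_injective
              have h2 : W.toSubmodule = ⊤ := by
                rw [eq_top_iff]
                intro w _
                have h3 : (w : V) ∈ W.toSubmodule.map (EE ρ h α).subtype := by
                  rw [h1]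
                  exact w.2
                obtain ⟨w', hw', he⟩ := h3
                have h4 : w' = w := Subtype.ext he
                rw [← h4]
                exact hw'
              exact h2 }

end Pool.Agent.Helper51.TN
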