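import Pool.Agent.Helper51.TN.Defs
import Pool.Agent.Helper70.TU.H1

/-!
BLOCK TN-C1 (about 300 lines). The character induced from `S_{n-e} × S_e`, in terms of cycles.

Proof in words. Let `K g = ∑ over the e-element sets D' ⊆ Fin n with g D' = D' of R(type of g on D')`, where the type of `g` on `D'` is the multiset of the lengths of the nontrivial cycles of `g` contained in `D'`.
(1) `K = Psi R e`: `g D' = D'` iff `D'` is the union of the supports of a set `S` of cycles `c ∈ g.cycleFactorsFinset` and a set `B` of fixed points of `g` (`S` = the cycles whose support is contained in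
    `D'`; a cycle that meets `D'` is contained in it), `|D'| = |B| + ∑_{c ∈ S} |supp c|`, and for given `S` with `|S| ≤ e` (total length) there are `binom(m, e - |S|)` sets `B`, `m = n - |supp g|`.
(2) For a class function `f`: `∑_g f(g) K(g) = ∑_{D'} ∑_{g : g D' = D'} f(g) R(type)`. For each of the `binom(n,e)` sets `D'` choose a permutation `u` with `u D' = DD n e`; `g ↦ u g u⁻¹` is a bijection onto the
    permutations preserving `DD n e`, `f` and the type are unchanged. The permutations preserving `DD n e` are the `jT h x * jD h y` (uniquely), and the type on `DD n e` is `y.cycleType` (`Perm.cycleType_extendDomain`,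
    the cycles of `jT x * jD y` inside `DD n e` are those of `jD y`). So `∑_g f(g) K(g) = binom(n,e) ∑_{x,y} f(jT x * jD y) R(y.cycleType)`; divide by `n! = binom(n,e) e! (n-e)!`.
    (One may avoid choosing `u`: `∑_u ∑_{g : u g u⁻¹ preserves DD} f(g) R(type of u g u⁻¹ on DD)` counted in two ways; each `D'` is `u⁻¹ DD` for `e! (n-e)!` permutations `u`.)
(3) `R = RM τ`: `rr τ (jD he y) = RM τ ((jD he y).cycleType) = RM τ y.cycleType` (`rr_eq_RM`, `Perm.cycleType_extendDomain`).
The general form `avH_eq` is for an arbitrary function `R` of the cycle type.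
-/

set_option autoImplicit false

open Module Equiv Pool.Agent.Helper1.TS Pool.Agent.Helper70.TU

namespace Pool.Agent.Helper51.TN

theorem cycleType_jD {n e : ℕ} (h : e ≤ n) (y : Perm (Fin e)) : (jD h y).cycleType = y.cycleType :=
  Perm.cycleType_extendDomain (eD h)

private def Iv24 {n : ℕ} (g : Perm (Fin n)) (A : Finset (Fin n)) : Prop := ∀ x, g x ∈ A ↔ x ∈ A

private theorem iv_pow24 {n : ℕ} {g : Perm (Fin n)} {A : Finset (Fin n)} (h : Iv24 g A) (k : ℕ)
    (x : Fin n) : (g ^ k) x ∈ A ↔ x ∈ A := by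
  induction k with
  | zero => simp
  | succ k ih => rw [pow_succ', Perm.mul_apply, h, ih]

private theorem iv_of24 {n : ℕ} {g : Perm (Fin n)} {A : Finset (Fin n)}
    (h : ∀ x ∈ A, g x ∈ A) : Iv24 g A := by
  intro x
  refine ⟨fun hx => ?_, h x⟩
  have h1 : A.image g ⊆ A := by
    intro y hy
    obtain ⟨z, hz, rfl⟩ := Finset.mem_image.1 hy
    exact h z hz
  have h2 : A.image g = A := by
    apply Finset.eq_of_subset_of_card_le h1
    rw [Finset.card_image_of_injective _ g.injective]
  rw [← h2] at hx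
  obtain ⟨z, hz, hzx⟩ := Finset.mem_image.1 hx
  rw [← g.injective hzx]
  exact hz

open Classical in
private noncomputable def rD24 {n : ℕ} (g : Perm (Fin n)) (A : Finset (Fin n)) : Perm (Fin n) :=
  if h : ∀ x, g x ∈ A ↔ x ∈ A then
    Perm.ofSubtype (Perm.subtypePerm (p := fun x => x ∈ A) g h) else 1

private theorem rD_mem24 {n : ℕ} {g : Perm (Fin n)} {A : Finset (Fin n)} (h : Iv24 g A)
    {x : Fin n} (hx : x ∈ A) : rD24 g A x = g x := by
  have h' : ∀ x, g x ∈ A ↔ x ∈ A := h
  unfold rD24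
  rw [dif_pos h']
  rw [Perm.ofSubtype_apply_of_mem (p := fun x => x ∈ A) _ hx, Perm.subtypePerm_apply]

private theorem rD_not24 {n : ℕ} {g : Perm (Fin n)} {A : Finset (Fin n)} (h : Iv24 g A)
    {x : Fin n} (hx : x ∉ A) : rD24 g A x = x := by
  have h' : ∀ x, g x ∈ A ↔ x ∈ A := h
  unfold rD24
  rw [dif_pos h']
  exact Perm.ofSubtype_apply_of_not_mem (p := fun x => x ∈ A) _ hx

/-- The cycles of `g` inside `A`. -/
private noncomputable def cyc24 {n : ℕ} (g : Perm (Fin n)) (A : Finset (Fin n)) :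
    Finset (Perm (Fin n)) := g.cycleFactorsFinset.filter fun c => c.support ⊆ A

private theorem factors24 {n : ℕ} {g : Perm (Fin n)} {A : Finset (Fin n)} (h : Iv24 g A) :
    (rD24 g A).cycleFactorsFinset = cyc24 g A := by
  ext c
  rw [cyc24, Finset.mem_filter, Perm.mem_cycleFactorsFinset_iff, Perm.mem_cycleFactorsFinset_iff]
  constructor
  · rintro ⟨h1, h2⟩
    have h3 : c.support ⊆ A := by
      intro a ha
      by_contra haA
      have h4 := h2 a ha
      rw [rD_not24 h haA] at h4
      exact Perm.mem_support.1 ha h4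
    refine ⟨⟨h1, fun a ha => ?_⟩, h3⟩
    rw [h2 a ha, rD_mem24 h (h3 ha)]
  · rintro ⟨⟨h1, h2⟩, h3⟩
    refine ⟨h1, fun a ha => ?_⟩
    rw [rD_mem24 h (h3 ha), h2 a ha]

private theorem ct24 {n : ℕ} {g : Perm (Fin n)} {A : Finset (Fin n)} (h : Iv24 g A) :
    (rD24 g A).cycleType = (cyc24 g A).val.map (fun c => c.support.card) := by
  rw [Perm.cycleType_def, factors24 h]
  rfl

/-- Union of supports. -/
private def U24 {n : ℕ} (S : Finset (Perm (Fin n))) : Finset (Fin n) := S.biUnion fun c => c.support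

private theorem mem_U24 {n : ℕ} {S : Finset (Perm (Fin n))} {x : Fin n} :
    x ∈ U24 S ↔ ∃ c ∈ S, x ∈ c.support := by
  simp [U24]

private theorem card_U24 {n : ℕ} {g : Perm (Fin n)} {S : Finset (Perm (Fin n))}
    (hS : S ⊆ g.cycleFactorsFinset) : (U24 S).card = ∑ c ∈ S, c.support.card := by
  apply Finset.card_biUnion
  intro c hc d hd hcd
  exact (Perm.cycleFactorsFinset_pairwise_disjoint g (hS hc) (hS hd) hcd).disjoint_support

private theorem decomp24 {n : ℕ} {g : Perm (Fin n)} {A : Finset (Fin n)} (h : Iv24 g A) :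
    U24 (cyc24 g A) ∪ A.filter (fun x => g x = x) = A := by
  ext x
  rw [Finset.mem_union, mem_U24, Finset.mem_filter]
  constructor
  · rintro (⟨c, hc, hx⟩ | ⟨hx, _⟩)
    · exact (Finset.mem_filter.1 hc).2 hx
    · exact hx
  · intro hx
    by_cases hgx : g x = x
    · exact Or.inr ⟨hx, hgx⟩
    · left
      refine ⟨g.cycleOf x, ?_, ?_⟩
      · rw [cyc24, Finset.mem_filter]
        refine ⟨Perm.cycleOf_mem_cycleFactorsFinset_iff.2 (Perm.mem_support.2 hgx), ?_⟩
        intro y hy
        obtain ⟨k, hk⟩ := ((Perm.mem_support_cycleOf_iff' hgx).1 hy).exists_nat_pow_eq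
        rw [← hk]
        exact (iv_pow24 h k x).2 hx
      · exact (Perm.mem_support_cycleOf_iff' hgx).2 (Perm.SameCycle.refl _ _)

private theorem disj24 {n : ℕ} {g : Perm (Fin n)} {S : Finset (Perm (Fin n))}
    (hS : S ⊆ g.cycleFactorsFinset) {x : Fin n} (hx : x ∈ U24 S) : g x ≠ x := by
  obtain ⟨c, hc, hxc⟩ := mem_U24.1 hx
  have h1 := (Perm.mem_cycleFactorsFinset_iff.1 (hS hc)).2 x hxc
  rw [← h1]
  exact Perm.mem_support.1 hxc

private theorem iv_union24 {n : ℕ} {g : Perm (Fin n)} {S : Finset (Perm (Fin n))}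
    (hS : S ⊆ g.cycleFactorsFinset) {B : Finset (Fin n)} (hB : ∀ x ∈ B, g x = x) :
    Iv24 g (U24 S ∪ B) := by
  apply iv_of24
  intro x hx
  rw [Finset.mem_union] at hx ⊢
  rcases hx with hx | hx
  · left
    obtain ⟨c, hc, hxc⟩ := mem_U24.1 hx
    have h1 := (Perm.mem_cycleFactorsFinset_iff.1 (hS hc)).2 x hxc
    rw [← h1]
    exact mem_U24.2 ⟨c, hc, Perm.apply_mem_support.2 hxc⟩
  · right
    rw [hB x hx]
    exact hx

private theorem cyc_union24 {n : ℕ} {g : Perm (Fin n)} {S : Finset (Perm (Fin n))}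
    (hS : S ⊆ g.cycleFactorsFinset) {B : Finset (Fin n)} (hB : ∀ x ∈ B, g x = x) :
    cyc24 g (U24 S ∪ B) = S := by
  ext c
  rw [cyc24, Finset.mem_filter]
  constructor
  · rintro ⟨hc, hcs⟩
    obtain ⟨hcyc, hcg⟩ := Perm.mem_cycleFactorsFinset_iff.1 hc
    obtain ⟨x, hx, _⟩ := hcyc
    have hxs : x ∈ c.support := Perm.mem_support.2 hx
    rcases Finset.mem_union.1 (hcs hxs) with h | h
    · obtain ⟨d, hd, hxd⟩ := mem_U24.1 h
      by_cases hcd : c = d
      · rw [hcd]
        exact hd
      · have h1 := (Perm.cycleFactorsFinset_pairwise_disjoint g hc (hS hd) hcd).disjoint_support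
        exact absurd hxd (Finset.disjoint_left.1 h1 hxs)
    · have h1 := hcg x hxs
      rw [hB x h] at h1
      exact absurd h1 hx
  · intro hc
    refine ⟨hS hc, ?_⟩
    intro x hx
    exact Finset.mem_union_left _ (mem_U24.2 ⟨c, hc, hx⟩)

open Classical in
private theorem count24 {n : ℕ} (g : Perm (Fin n)) (e : ℕ) {S : Finset (Perm (Fin n))}
    (hS : S ⊆ g.cycleFactorsFinset) :
    (((Finset.powersetCard e (Finset.univ : Finset (Fin n))).filter (fun A => Iv24 g A)).filter
      (fun A => cyc24 g A = S)).card =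
      if ∑ c ∈ S, c.support.card ≤ e then
        (n - g.support.card).choose (e - ∑ c ∈ S, c.support.card) else 0 := by
  have hcardA : ∀ A : Finset (Fin n), Iv24 g A → cyc24 g A = S →
      A.card = ∑ c ∈ S, c.support.card + (A.filter (fun x => g x = x)).card := by
    intro A hA hAS
    conv_lhs => rw [← decomp24 hA]
    rw [Finset.card_union_of_disjoint, hAS, card_U24 hS]
    rw [Finset.disjoint_left]
    intro x hx hx'
    exact disj24 (hAS ▸ hS : cyc24 g A ⊆ g.cycleFactorsFinset) hx (Finset.mem_filter.1 hx').2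
  split_ifs with hle
  · have hfix : (Finset.univ.filter (fun x : Fin n => g x = x)).card = n - g.support.card := by
      have h1 : Finset.univ.filter (fun x : Fin n => g x = x) = g.supportᶜ := by
        ext x
        simp
      rw [h1, Finset.card_compl, Fintype.card_fin]
    rw [← hfix, ← Finset.card_powersetCard]
    refine Finset.card_bij' (fun A _ => A.filter (fun x => g x = x)) (fun B _ => U24 S ∪ B)
      ?_ ?_ ?_ ?_
    · intro A hA
      obtain ⟨hA1, hAS⟩ := Finset.mem_filter.1 hA
      obtain ⟨hA2, hAI⟩ := Finset.mem_filter.1 hA1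
      have hAc := (Finset.mem_powersetCard.1 hA2).2
      rw [Finset.mem_powersetCard]
      refine ⟨Finset.filter_subset_filter _ (Finset.subset_univ _), ?_⟩
      have := hcardA A hAI hAS
      omega
    · intro B hB
      obtain ⟨hB1, hB2⟩ := Finset.mem_powersetCard.1 hB
      have hBf : ∀ x ∈ B, g x = x := fun x hx => (Finset.mem_filter.1 (hB1 hx)).2
      rw [Finset.mem_filter, Finset.mem_filter, Finset.mem_powersetCard]
      refine ⟨⟨⟨Finset.subset_univ _, ?_⟩, iv_union24 hS hBf⟩, cyc_union24 hS hBf⟩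
      rw [Finset.card_union_of_disjoint, card_U24 hS, hB2]
      · omega
      · rw [Finset.disjoint_left]
        intro x hx hx'
        exact disj24 hS hx (hBf x hx')
    · intro A hA
      obtain ⟨hA1, hAS⟩ := Finset.mem_filter.1 hA
      obtain ⟨hA2, hAI⟩ := Finset.mem_filter.1 hA1
      have := decomp24 hAI
      rw [hAS] at this
      exact this
    · intro B hB
      obtain ⟨hB1, hB2⟩ := Finset.mem_powersetCard.1 hB
      have hBf : ∀ x ∈ B, g x = x := fun x hx => (Finset.mem_filter.1 (hB1 hx)).2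
      ext x
      simp only [Finset.mem_filter, Finset.mem_union]
      constructor
      · rintro ⟨h1 | h1, h2⟩
        · exact absurd h2 (disj24 hS h1)
        · exact h1
      · intro h1
        exact ⟨Or.inr h1, hBf x h1⟩
  · rw [Finset.card_eq_zero, Finset.eq_empty_iff_forall_notMem]
    intro A hA
    obtain ⟨hA1, hAS⟩ := Finset.mem_filter.1 hA
    obtain ⟨hA2, hAI⟩ := Finset.mem_filter.1 hA1
    have hAc := (Finset.mem_powersetCard.1 hA2).2
    have := hcardA A hAI hAS
    omega

open Classical in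
private theorem psi24 {n : ℕ} (R : Multiset ℕ → ℝ) (e : ℕ) (g : Perm (Fin n)) :
    Psi R e g = ∑ A ∈ Finset.powersetCard e (Finset.univ : Finset (Fin n)),
      if Iv24 g A then R (rD24 g A).cycleType else 0 := by
  rw [← Finset.sum_filter]
  have hmaps : ∀ A ∈ (Finset.powersetCard e (Finset.univ : Finset (Fin n))).filter
      (fun A => Iv24 g A), cyc24 g A ∈ g.cycleFactorsFinset.powerset := by
    intro A _
    rw [Finset.mem_powerset]
    exact Finset.filter_subset _ _
  rw [← Finset.sum_fiberwise_of_maps_to hmaps]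
  unfold Psi
  apply Finset.sum_congr rfl
  intro S hS
  rw [Finset.mem_powerset] at hS
  have h1 : ∀ A ∈ ((Finset.powersetCard e (Finset.univ : Finset (Fin n))).filter
      (fun A => Iv24 g A)).filter (fun A => cyc24 g A = S),
      R (rD24 g A).cycleType = R (S.val.map (fun c => c.support.card)) := by
    intro A hA
    obtain ⟨hA1, hAS⟩ := Finset.mem_filter.1 hA
    obtain ⟨hA2, hAI⟩ := Finset.mem_filter.1 hA1
    rw [ct24 hAI, hAS]
  rw [Finset.sum_congr rfl h1, Finset.sum_const, count24 g e hS, nsmul_eq_mul]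
  split_ifs
  · rfl
  · simp

private theorem aiv24 {n : ℕ} (u : Perm (Fin n)) (x : Fin n) : u (u⁻¹ x) = x := by
  rw [← Perm.mul_apply, mul_inv_cancel, Perm.one_apply]

private theorem iav24 {n : ℕ} (u : Perm (Fin n)) (x : Fin n) : u⁻¹ (u x) = x := by
  rw [← Perm.mul_apply, inv_mul_cancel, Perm.one_apply]

open Classical in
private theorem move24 {n : ℕ} (R : Multiset ℕ → ℝ) (f : Perm (Fin n) → ℝ)
    (hf : ∀ x g, f (x * g * x⁻¹) = f g) (A B : Finset (Fin n)) (u : Perm (Fin n))
    (hu : ∀ x, u x ∈ B ↔ x ∈ A) :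
    ∑ g : Perm (Fin n), f g * (if Iv24 g A then R (rD24 g A).cycleType else 0) =
      ∑ g : Perm (Fin n), f g * (if Iv24 g B then R (rD24 g B).cycleType else 0) := by
  have hu' : ∀ x, u⁻¹ x ∈ A ↔ x ∈ B := by
    intro x
    rw [← hu, aiv24]
  rw [← Equiv.sum_comp (MulAut.conj u).toEquiv
    (fun g => f g * (if Iv24 g B then R (rD24 g B).cycleType else 0))]
  apply Finset.sum_congr rfl
  intro g _
  have h1 : (MulAut.conj u).toEquiv g = u * g * u⁻¹ := rfl
  rw [h1, hf]
  have hiff : Iv24 g A ↔ Iv24 (u * g * u⁻¹) B := by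
    constructor
    · intro h x
      rw [Perm.mul_apply, Perm.mul_apply, hu, h, hu']
    · intro h x
      have := h (u x)
      rw [Perm.mul_apply, Perm.mul_apply, iav24, hu, hu] at this
      exact this
  by_cases h : Iv24 g A
  · rw [if_pos h, if_pos (hiff.1 h)]
    have h2 : rD24 (u * g * u⁻¹) B = u * rD24 g A * u⁻¹ := by
      refine Equiv.ext fun x => ?_
      rw [Perm.mul_apply, Perm.mul_apply]
      by_cases hx : x ∈ B
      · rw [rD_mem24 (hiff.1 h) hx, rD_mem24 h ((hu' x).2 hx)]
        rfl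
      · rw [rD_not24 (hiff.1 h) hx, rD_not24 h (fun h' => hx ((hu' x).1 h')),
          aiv24]
    rw [h2, Perm.cycleType_conj]
  · rw [if_neg h, if_neg (fun h' => h (hiff.2 h'))]

private theorem exists_u24 {n : ℕ} {A B : Finset (Fin n)} (h : A.card = B.card) :
    ∃ u : Perm (Fin n), ∀ x, u x ∈ B ↔ x ∈ A := by
  classical
  have h1 : Fintype.card {x // x ∈ A} = Fintype.card {x // x ∈ B} := by simpa using h
  let e : {x // x ∈ A} ≃ {x // x ∈ B} := Fintype.equivOfCardEq h1
  refine ⟨e.extendSubtype, fun x => ⟨fun hx => ?_, fun hx => e.extendSubtype_mem x hx⟩⟩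
  by_contra hxA
  exact e.extendSubtype_not_mem x hxA hx

private theorem iv_jH24 {n e : ℕ} (h : e ≤ n) (x : Perm (Fin (n - e))) (y : Perm (Fin e)) :
    Iv24 (jT h x * jD h y) (DD n e) := by
  apply iv_of24
  intro i hi
  rw [mem_DD] at hi ⊢
  rw [Perm.mul_apply, jT_apply_of_lt h x _ (jD_apply_lt h y i hi)]
  exact jD_apply_lt h y i hi

private theorem rD_jH24 {n e : ℕ} (h : e ≤ n) (x : Perm (Fin (n - e))) (y : Perm (Fin e)) :
    rD24 (jT h x * jD h y) (DD n e) = jD h y := by
  refine Equiv.ext fun i => ?_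
  by_cases hi : (i : ℕ) < e
  · rw [rD_mem24 (iv_jH24 h x y) (mem_DD.2 hi), Perm.mul_apply,
      jT_apply_of_lt h x _ (jD_apply_lt h y i hi)]
  · rw [rD_not24 (iv_jH24 h x y) (fun h' => hi (mem_DD.1 h')),
      jD_apply_of_le h y i (by omega)]

private theorem surj24 {n e : ℕ} (h : e ≤ n) {g : Perm (Fin n)} (hg : Iv24 g (DD n e)) :
    ∃ x y, jT h x * jD h y = g := by
  have hg1 : ∀ i : Fin n, ((g i : Fin n) : ℕ) < e ↔ (i : ℕ) < e := by
    intro i
    have := hg i
    rwa [mem_DD, mem_DD] at this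
  have hg2 : ∀ i : Fin n, e ≤ ((g i : Fin n) : ℕ) ↔ e ≤ (i : ℕ) := by
    intro i
    have := hg1 i
    omega
  refine ⟨(eT h).symm.permCongr (Perm.subtypePerm (p := fun i : Fin n => e ≤ (i : ℕ)) g hg2),
    (eD h).symm.permCongr (Perm.subtypePerm (p := fun i : Fin n => (i : ℕ) < e) g hg1), ?_⟩
  refine Equiv.ext fun i => ?_
  rw [Perm.mul_apply]
  rcases lt_or_ge (i : ℕ) e with hi | hi
  · rw [jT_apply_of_lt h _ _ (jD_apply_lt h _ i hi), jD_apply h _ i hi]
    rfl
  · rw [jD_apply_of_le h _ i hi, jT_apply h _ i hi]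
    rw [Equiv.permCongr_apply, Equiv.symm_symm, Equiv.apply_symm_apply, Equiv.apply_symm_apply]
    rfl

open Classical in
private theorem sum_jH24 {n e : ℕ} (h : e ≤ n) (R : Multiset ℕ → ℝ) (f : Perm (Fin n) → ℝ) :
    ∑ g : Perm (Fin n), f g * (if Iv24 g (DD n e) then R (rD24 g (DD n e)).cycleType else 0) =
      ∑ x : Perm (Fin (n - e)), ∑ y : Perm (Fin e), f (jT h x * jD h y) * R y.cycleType := by
  rw [← Finset.sum_product' (f := fun x y => f (jT h x * jD h y) * R y.cycleType)]
  have h0 : ∑ g : Perm (Fin n), f g * (if Iv24 g (DD n e) then R (rD24 g (DD n e)).cycleType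
      else 0) = ∑ g ∈ Finset.univ.filter (fun g : Perm (Fin n) => Iv24 g (DD n e)),
        f g * R (rD24 g (DD n e)).cycleType := by
    rw [Finset.sum_filter]
    apply Finset.sum_congr rfl
    intro g _
    split_ifs <;> simp
  rw [h0]
  symm
  refine Finset.sum_bij (fun p _ => jT h p.1 * jD h p.2) ?_ ?_ ?_ ?_
  · intro p _
    rw [Finset.mem_filter]
    exact ⟨Finset.mem_univ _, iv_jH24 h p.1 p.2⟩
  · intro p _ q _ hpq
    have hD : jD h p.2 = jD h q.2 := by
      rw [← rD_jH24 h p.1 p.2, ← rD_jH24 h q.1 q.2, hpq]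
    have h2 : p.2 = q.2 := Perm.extendDomainHom_injective (eD h) hD
    have hT : jT h p.1 = jT h q.1 := by
      have hpq' : jT h p.1 * jD h p.2 = jT h q.1 * jD h q.2 := hpq
      rw [hD] at hpq'
      exact mul_right_cancel hpq'
    have h1 : p.1 = q.1 := Perm.extendDomainHom_injective (eT h) hT
    exact Prod.ext h1 h2
  · intro g hg
    obtain ⟨x, y, hxy⟩ := surj24 h (Finset.mem_filter.1 hg).2
    exact ⟨(x, y), by simp, hxy⟩
  · intro p _
    rw [rD_jH24, cycleType_jD]

theorem avH_eq {n e : ℕ} (h : e ≤ n) (R : Multiset ℕ → ℝ) (f : Perm (Fin n) → ℝ)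
    (hf : ∀ x g, f (x * g * x⁻¹) = f g) :
    avH h f (fun y => R y.cycleType) = (∑ g : Perm (Fin n), f g * Psi R e g) / n.factorial := by
  classical
  have h1 : ∑ g : Perm (Fin n), f g * Psi R e g = (n.choose e : ℝ) *
      ∑ x : Perm (Fin (n - e)), ∑ y : Perm (Fin e), f (jT h x * jD h y) * R y.cycleType := by
    rw [← sum_jH24 h R f]
    simp only [psi24, Finset.mul_sum (s := Finset.powersetCard e (Finset.univ : Finset (Fin n)))]
    rw [Finset.sum_comm]
    have h2 : ∀ A ∈ Finset.powersetCard e (Finset.univ : Finset (Fin n)),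
        ∑ g : Perm (Fin n), f g * (if Iv24 g A then R (rD24 g A).cycleType else 0) =
        ∑ g : Perm (Fin n), f g * (if Iv24 g (DD n e) then R (rD24 g (DD n e)).cycleType
          else 0) := by
      intro A hA
      have hc : (DD n e).card = e := by
        have h3 : (DD n e) = (Finset.univ : Finset (Fin e)).map (Fin.castLEEmb h) := by
          ext i
          rw [mem_DD, Finset.mem_map]
          constructor
          · intro hi
            exact ⟨⟨i, hi⟩, Finset.mem_univ _, rfl⟩
          · rintro ⟨j, _, rfl⟩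
            exact j.2
        rw [h3, Finset.card_map, Finset.card_univ, Fintype.card_fin]
      obtain ⟨u, hu⟩ := exists_u24 (((Finset.mem_powersetCard.1 hA).2).trans hc.symm)
      exact move24 R f hf A (DD n e) u hu
    rw [Finset.sum_congr rfl h2, Finset.sum_const, Finset.card_powersetCard, Finset.card_univ,
      Fintype.card_fin, nsmul_eq_mul]
  rw [h1, avH]
  have h4 : (n.choose e : ℝ) * e.factorial * (n - e).factorial = n.factorial := by
    exact_mod_cast Nat.choose_mul_factorial_mul_factorial h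
  have h5 : (e.factorial : ℝ) ≠ 0 := by exact_mod_cast e.factorial_ne_zero
  have h6 : ((n - e).factorial : ℝ) ≠ 0 := by exact_mod_cast (n - e).factorial_ne_zero
  have h7 : (n.factorial : ℝ) ≠ 0 := by exact_mod_cast n.factorial_ne_zero
  rw [div_eq_div_iff (mul_ne_zero h6 h5) h7, ← h4]
  ring

private theorem rr_eq_RM24 {n : ℕ} {V : Type*} [AddCommGroup V] [Module ℂ V]
    (ρ : Representation ℂ (Perm (Fin n)) V) (g : Perm (Fin n)) : rr ρ g = RM ρ g.cycleType := by
  classical
  unfold RM
  have h : ∃ h : Perm (Fin n), h.cycleType = g.cycleType := ⟨g, rfl⟩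
  rw [dif_pos h]
  unfold rr
  obtain ⟨c, hc⟩ := isConj_iff.1 (Equiv.Perm.isConj_iff_cycleType_eq.2 h.choose_spec)
  have h1 : ρ.character g = ρ.character h.choose :=
    (congrArg ρ.character hc).symm.trans (ρ.char_conj _ c)
  rw [h1]

theorem avH_rr {n d e : ℕ} (h : e ≤ n) (he : e ≤ d) {E : Type*} [AddCommGroup E] [Module ℂ E]
    (τ : Representation ℂ (Perm (Fin d)) E) (f : Perm (Fin n) → ℝ)
    (hf : ∀ x g, f (x * g * x⁻¹) = f g) :
    avH h f (fun y => rr τ (jD he y)) = (∑ g : Perm (Fin n), f g * Psi (RM τ) e g) / n.factorial := by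
  rw [← avH_eq h (RM τ) f hf]
  congr 1
  funext y
  rw [rr_eq_RM24, cycleType_jD]

end Pool.Agent.Helper51.TN
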