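import Pool.Agent.Helper51.TN.Defs

/-!
BLOCK TN-C2 (about 220 lines). Upper bounds for `Psi`, `II`.

Notation: `s = g.support.card`, `m = n - s` (natural subtraction, `s ≤ n`), `|S| = ∑_{c ∈ S} |supp c|` for `S ⊆ g.cycleFactorsFinset`; `∑_{c ∈ cycleFactorsFinset} |supp c| = s` (`Equiv.Perm.sum_cycleType`,
`cycleType_def`), every `|supp c| ≥ 2`.
* `abs_Psi_le`: termwise. `II_one`: for `g = 1` the only `S` is `∅`. `Psi_one` the same with `R 0`.
* `prod_le`: for `0 ≤ t ≤ 1`: `∑_{S} t^{|S|} = ∏_{c} (1 + t^{|supp c|})` (`Finset.prod_one_add` / `Finset.prod_add`), and `1 + t^l ≤ exp (t^l) ≤ exp (t²)` for `l ≥ 2`; the number of cycles is at most `s/2`. So it is `≤ exp (t² s/2)`.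
* `choose_sub_le`: for `a ≤ e ≤ m`: `binom(m, e-a) ≤ z^a binom(m, e)`, `z = e/(m-e+1)`: induction on `a`: `binom(m, e-a-1) = binom(m, e-a) (e-a)/(m-e+a+1) ≤ binom(m,e-a) z`. 
* `II_le`: `II e g ≤ ∑_S z^{|S|} binom(m,e) ≤ binom(m,e) exp (z² s/2)` if `z ≤ 1`.
* `II_mul_le`: `binom(m, e-|S|) t^{e-|S|} ≤ (1+t)^m` (a term of the binomial expansion), so `II e g * t^e ≤ ∑_S t^{|S|} (1+t)^m ≤ (1+t)^m exp (t² s/2)`.
-/

set_option autoImplicit false

open Module Equiv

namespace Pool.Agent.Helper51.TN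

variable {n : ℕ}

private theorem sum_card77 (g : Perm (Fin n)) :
    ∑ c ∈ g.cycleFactorsFinset, c.support.card = g.support.card := by
  have h := Equiv.Perm.sum_cycleType g
  rw [Equiv.Perm.cycleType_def] at h
  exact h

private theorem two_le77 (g : Perm (Fin n)) : ∀ c ∈ g.cycleFactorsFinset, 2 ≤ c.support.card := by
  intro c hc
  exact (Equiv.Perm.mem_cycleFactorsFinset_iff.1 hc).1.two_le_card_support

private theorem two_card77 (g : Perm (Fin n)) :
    2 * g.cycleFactorsFinset.card ≤ g.support.card := by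
  have h := Finset.card_nsmul_le_sum g.cycleFactorsFinset (fun c => c.support.card) 2 (two_le77 g)
  rw [sum_card77, smul_eq_mul] at h
  omega

theorem II_nonneg (e : ℕ) (g : Perm (Fin n)) : 0 ≤ II e g := by
  unfold II Psi
  refine Finset.sum_nonneg fun S _ => ?_
  split_ifs
  · positivity
  · exact le_rfl

theorem abs_Psi_le (R : Multiset ℕ → ℝ) (hR : ∀ M, |R M| ≤ 1) (e : ℕ) (g : Perm (Fin n)) :
    |Psi R e g| ≤ II e g := by
  unfold II Psi
  refine (Finset.abs_sum_le_sum_abs _ _).trans (Finset.sum_le_sum fun S _ => ?_)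
  split_ifs
  · rw [abs_mul, Nat.abs_cast]
    exact mul_le_mul_of_nonneg_left (hR _) (Nat.cast_nonneg _)
  · rw [abs_zero]

theorem Psi_one (R : Multiset ℕ → ℝ) (hR0 : R 0 = 1) (e : ℕ) : Psi R e (1 : Perm (Fin n)) = n.choose e := by
  unfold Psi
  rw [Equiv.Perm.cycleFactorsFinset_one, Finset.powerset_empty, Finset.sum_singleton]
  simp [hR0]

theorem prod_le (t : ℝ) (ht0 : 0 ≤ t) (ht1 : t ≤ 1) (g : Perm (Fin n)) :
    ∑ S ∈ g.cycleFactorsFinset.powerset, t ^ (∑ c ∈ S, c.support.card) ≤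
      Real.exp (t ^ 2 * g.support.card / 2) := by
  have h1 : ∑ S ∈ g.cycleFactorsFinset.powerset, t ^ (∑ c ∈ S, c.support.card) =
      ∏ c ∈ g.cycleFactorsFinset, (1 + t ^ c.support.card) := by
    rw [Finset.prod_one_add]
    refine Finset.sum_congr rfl fun S _ => ?_
    rw [Finset.prod_pow_eq_pow_sum]
  rw [h1]
  have h2 : ∏ c ∈ g.cycleFactorsFinset, (1 + t ^ c.support.card) ≤
      ∏ _c ∈ g.cycleFactorsFinset, Real.exp (t ^ 2) := by
    refine Finset.prod_le_prod (fun c _ => by positivity) fun c hc => ?_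
    have h3 : t ^ c.support.card ≤ t ^ 2 := pow_le_pow_of_le_one ht0 ht1 (two_le77 g c hc)
    have h4 := Real.add_one_le_exp (t ^ c.support.card)
    have h5 := Real.exp_le_exp.2 h3
    linarith
  refine h2.trans ?_
  rw [Finset.prod_const, ← Real.exp_nat_mul]
  refine Real.exp_le_exp.2 ?_
  have h6 : (2 : ℝ) * g.cycleFactorsFinset.card ≤ g.support.card := by
    exact_mod_cast two_card77 g
  nlinarith [sq_nonneg t]

theorem choose_sub_le (m e a : ℕ) (hae : a ≤ e) (hem : e ≤ m) :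
    (m.choose (e - a) : ℝ) ≤ ((e : ℝ) / (m - e + 1)) ^ a * m.choose e := by
  have hem' : (e : ℝ) ≤ m := by exact_mod_cast hem
  have hpos : (0 : ℝ) < m - e + 1 := by linarith
  have he0 : (0 : ℝ) ≤ e := Nat.cast_nonneg e
  induction a with
  | zero => simp
  | succ a ih =>
    have ih' := ih (by omega)
    obtain ⟨k, hk⟩ : ∃ k, e - a = k + 1 := ⟨e - a - 1, by omega⟩
    have hk' : e - (a + 1) = k := by omega
    rw [hk'] 
    rw [hk] at ih'
    have h1 := Nat.choose_succ_right_eq m k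
    have hkm : k ≤ m := by omega
    have h2 : (m.choose (k + 1) : ℝ) * ((k : ℝ) + 1) = m.choose k * ((m : ℝ) - k) := by
      have h3 : ((m.choose (k + 1) * (k + 1) : ℕ) : ℝ) = ((m.choose k * (m - k) : ℕ) : ℝ) := by
        rw [h1]
      rw [Nat.cast_mul, Nat.cast_mul, Nat.cast_sub hkm, Nat.cast_add, Nat.cast_one] at h3
      exact h3
    have hke : (k : ℝ) + 1 ≤ e := by
      have : k + 1 ≤ e := by omega
      exact_mod_cast this
    have hc0 : (0 : ℝ) ≤ m.choose (k + 1) := Nat.cast_nonneg _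
    have hc1 : (0 : ℝ) ≤ m.choose k := Nat.cast_nonneg _
    have h4 : (m.choose k : ℝ) * ((m : ℝ) - e + 1) ≤ m.choose (k + 1) * e := by
      nlinarith
    have h5 : (m.choose k : ℝ) ≤ m.choose (k + 1) * ((e : ℝ) / (m - e + 1)) := by
      rw [← mul_div_assoc, le_div_iff₀ hpos]
      exact h4
    refine h5.trans ?_
    have hz : (0 : ℝ) ≤ (e : ℝ) / (m - e + 1) := by positivity
    calc (m.choose (k + 1) : ℝ) * ((e : ℝ) / (m - e + 1))
        ≤ (((e : ℝ) / (m - e + 1)) ^ a * m.choose e) * ((e : ℝ) / (m - e + 1)) :=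
          mul_le_mul_of_nonneg_right ih' hz
      _ = ((e : ℝ) / (m - e + 1)) ^ (a + 1) * m.choose e := by ring

theorem II_le (e m : ℕ) (g : Perm (Fin n)) (hm : m + g.support.card = n) (hem : 2 * e ≤ m) :
    II e g ≤ m.choose e * Real.exp (((e : ℝ) / (m - e + 1)) ^ 2 * g.support.card / 2) := by
  have hem' : (2 : ℝ) * e ≤ m := by exact_mod_cast hem
  have he0 : (0 : ℝ) ≤ e := Nat.cast_nonneg e
  have hpos : (0 : ℝ) < m - e + 1 := by linarith
  have hz0 : (0 : ℝ) ≤ (e : ℝ) / (m - e + 1) := by positivity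
  have hz1 : (e : ℝ) / (m - e + 1) ≤ 1 := by
    rw [div_le_one hpos]
    linarith
  have hmn : n - g.support.card = m := by omega
  have h1 : II e g ≤ ∑ S ∈ g.cycleFactorsFinset.powerset,
      (m.choose e : ℝ) * ((e : ℝ) / (m - e + 1)) ^ (∑ c ∈ S, c.support.card) := by
    unfold II Psi
    refine Finset.sum_le_sum fun S _ => ?_
    split_ifs with h
    · rw [hmn, mul_one, mul_comm (m.choose e : ℝ)]
      exact choose_sub_le m e _ h (by omega)
    · positivity
  refine h1.trans ?_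
  rw [← Finset.mul_sum]
  exact mul_le_mul_of_nonneg_left (prod_le _ hz0 hz1 g) (Nat.cast_nonneg _)

theorem II_mul_le (e m : ℕ) (g : Perm (Fin n)) (hm : m + g.support.card = n) (t : ℝ) (ht0 : 0 < t)
    (ht1 : t ≤ 1) : II e g * t ^ e ≤ (1 + t) ^ m * Real.exp (t ^ 2 * g.support.card / 2) := by
  have hmn : n - g.support.card = m := by omega
  have hterm : ∀ k : ℕ, (m.choose k : ℝ) * t ^ k ≤ (1 + t) ^ m := by
    intro k
    rcases Nat.lt_or_ge m k with hk | hk
    · rw [Nat.choose_eq_zero_of_lt hk, Nat.cast_zero, zero_mul]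
      positivity
    · have h1 := add_pow t (1 : ℝ) m
      rw [add_comm t 1] at h1
      rw [h1]
      have h2 := Finset.single_le_sum (f := fun k => t ^ k * (1 : ℝ) ^ (m - k) * (m.choose k : ℝ))
        (fun i _ => by positivity) (Finset.mem_range.2 (Nat.lt_succ_of_le hk))
      refine le_trans (le_of_eq ?_) h2
      simp only [one_pow, mul_one]
      ring
  have h1 : II e g * t ^ e ≤ ∑ S ∈ g.cycleFactorsFinset.powerset,
      (1 + t) ^ m * t ^ (∑ c ∈ S, c.support.card) := by
    unfold II Psi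
    rw [Finset.sum_mul]
    refine Finset.sum_le_sum fun S _ => ?_
    split_ifs with h
    · rw [hmn, mul_one]
      have h3 : t ^ e = t ^ (e - ∑ c ∈ S, c.support.card) * t ^ (∑ c ∈ S, c.support.card) := by
        rw [← pow_add]
        congr 1
        omega
      rw [h3, ← mul_assoc]
      exact mul_le_mul_of_nonneg_right (hterm _) (by positivity)
    · rw [zero_mul]
      positivity
  refine h1.trans ?_
  rw [← Finset.mul_sum]
  exact mul_le_mul_of_nonneg_left (prod_le t ht0.le ht1 g) (by positivity)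

end Pool.Agent.Helper51.TN
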