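import Pool.Agent.Helper51.TN.C2

/-!
BLOCK TN-C4 (about 280 lines). Lower bound for `Psi` at good permutations.

Notation: `s = |supp g|`, `m + s = n`, `2d ≤ m`, `d ≥ 1`, `z = d/(m-d+1) ≤ 1/2`, `s z² ≤ Y`. `m₂` = number of 2-cycles of `g`; `2 m₂ ≤ s`.
Proof in words. Split `S = S₂ ∪ S₃` (2-cycles, longer cycles). In the sum `Psi R d g` the terms with `S₃ ≠ ∅` are at most (`choose_sub_le`, `|R| ≤ 1`)
`binom(m,d) ∑_{S₂} z^{2|S₂|} ∑_{S₃ ≠ ∅} z^{|S₃|} ≤ binom(m,d) (1+z²)^{m₂} (∏_{len ≥ 3} (1 + z^{len}) - 1) ≤ binom(m,d) exp (Y/2) (exp (z³ s/3) - 1) ≤ binom(m,d) exp(Y/2) (exp (zY/3) - 1)`.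
The terms with `S₃ = ∅`: `∑_{j=0}^{m₂} binom(m₂, j) b_j R(2^j)`, `b_j = binom(m, d-2j)` (`0` if `2j > d`). Put `c_j = b_j/binom(m,d)`. Claim: `|c_j R(2^j) - z^{2j} t^j| ≤ 8 j² z^{2j}/d`, `t = R {2}`. If `2j > d`: `c_j = 0` and
`8j²/d ≥ 4j ≥ 1` (`j ≥ 1`). If `2j ≤ d`: `c_j = ∏_{i<2j} (d-i)/(m-d+1+i) ≤ z^{2j}`, and `c_j ≥ z^{2j} ∏_{i<2j} (1 - i/d) ∏_{i<2j} (1 - i/(m-d+1)) ≥ z^{2j} (1 - 2j²/d - 2j²/(m-d+1)) ≥ z^{2j} (1 - 4j²/d)`
(`m - d + 1 ≥ d`; `∑_{i<2j} i ≤ 2j²`; if the lower bound is negative nothing is to prove); with `|R(2^j) - t^j| ≤ 4j²/d` the claim follows.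
`∑_j binom(m₂,j) z^{2j} t^j = (1 + z² t)^{m₂} ≥ (1 - z²)^{m₂} ≥ exp (-2 z² m₂) ≥ exp (-Y)` (`1 - x ≥ exp (-2x)` for `0 ≤ x ≤ 1/2`), and `∑_j binom(m₂,j) z^{2j} j² ≤ ∑_j binom(m₂,j) (4 z²)^j = (1+4z²)^{m₂} ≤
exp (2Y)` (`j² ≤ 4^j`). So the sum over `S₃ = ∅` is `≥ binom(m,d) (exp (-Y) - (8/d) exp (2Y))`.
* `Psi_sub_nonneg`: `D₀`, `z₀` depend only on `Y`: choose them such that `(8/d) exp(2Y) + exp(Y/2)(exp(zY/3)-1) + z exp (Y/2) ≤ exp (-Y)` for `d ≥ D₀`, `z ≤ z₀ ≤ 1/2`; and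
  `|Psi R (d-1) g| ≤ II (d-1) g ≤ binom(m,d-1) exp (z'^2 s/2) ≤ z binom(m,d) exp (Y/2)` (`II_le` for `e = d-1`, `z' = (d-1)/(m-d+2) ≤ z`; `choose_sub_le` with `a = 1`).
-/

set_option autoImplicit false

open Module Equiv

namespace Pool.Agent.Helper51.TN

variable {n : ℕ}

private theorem two_le_h47 {g c : Perm (Fin n)} (hc : c ∈ g.cycleFactorsFinset) : 2 ≤ c.support.card :=
  (Equiv.Perm.mem_cycleFactorsFinset_iff.1 hc).1.two_le_card_support

private theorem sum_supp_h47 (g : Perm (Fin n)) : ∑ c ∈ g.cycleFactorsFinset, c.support.card = g.support.card := by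
  have h1 := Equiv.Perm.sum_cycleType g
  rw [Equiv.Perm.cycleType_def] at h1
  exact h1

/-- Lower bound for the binomial coefficients. -/
private theorem choose_sub_ge_h47 (m d a : ℕ) (had : a ≤ d) (hd : 1 ≤ d) (hdm : 2 * d ≤ m) :
    ((d : ℝ) / (m - d + 1)) ^ a * (1 - (a : ℝ) ^ 2 / d) * m.choose d ≤ (m.choose (d - a) : ℝ) := by
  have hdR : (1 : ℝ) ≤ d := by exact_mod_cast hd
  have hmd : (2 : ℝ) * d ≤ m := by exact_mod_cast hdm
  have hw : (d : ℝ) ≤ (m : ℝ) - d + 1 := by linarith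
  have hw0 : (0 : ℝ) < (m : ℝ) - d + 1 := by linarith
  induction a with
  | zero => simp
  | succ a ih =>
    have ih' := ih (by omega)
    set z : ℝ := (d : ℝ) / (m - d + 1) with hz
    have hz0 : 0 < z := by rw [hz]; positivity
    have hC : (0 : ℝ) ≤ m.choose d := Nat.cast_nonneg _
    have hC1 : (0 : ℝ) ≤ m.choose (d - a) := Nat.cast_nonneg _
    have hC2 : (0 : ℝ) ≤ m.choose (d - (a + 1)) := Nat.cast_nonneg _
    have haR : ((a : ℝ) + 1) ≤ d := by exact_mod_cast had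
    have ha0 : (0 : ℝ) ≤ a := Nat.cast_nonneg a
    push_cast
    by_cases hneg : 1 - ((a : ℝ) + 1) ^ 2 / d ≤ 0
    · have : z ^ (a + 1) * (1 - ((a : ℝ) + 1) ^ 2 / d) * m.choose d ≤ 0 :=
        mul_nonpos_of_nonpos_of_nonneg (mul_nonpos_of_nonneg_of_nonpos (by positivity) hneg) hC
      linarith
    · push Not at hneg
      have h1 : ((a : ℝ) + 1) ^ 2 / d < 1 := by linarith
      rw [div_lt_one (by linarith)] at h1
      have h2 : 0 ≤ 1 - (a : ℝ) ^ 2 / d := by
        rw [sub_nonneg, div_le_one (by linarith)]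
        nlinarith
      have h3 : 0 ≤ 1 - 2 * (a : ℝ) / d := by
        rw [sub_nonneg, div_le_one (by linarith)]
        nlinarith
      -- the recursion
      have h4 : (m.choose (d - a) : ℝ) * (d - a) = m.choose (d - (a + 1)) * (m - d + a + 1) := by
        have h5 := Nat.choose_succ_right_eq m (d - (a + 1))
        have h6 : d - (a + 1) + 1 = d - a := by omega
        rw [h6] at h5
        have h7 : (m.choose (d - a) : ℝ) * ((d - a : ℕ) : ℝ) =
            m.choose (d - (a + 1)) * ((m - (d - (a + 1)) : ℕ) : ℝ) := by exact_mod_cast h5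
        rw [Nat.cast_sub (by omega), Nat.cast_sub (by omega), Nat.cast_sub (by omega)] at h7
        push_cast at h7
        rw [h7]
        ring
      have hq : (0 : ℝ) < m - d + a + 1 := by linarith
      have h8 : (m.choose (d - (a + 1)) : ℝ) = m.choose (d - a) * ((d - a) / (m - d + a + 1)) := by
        field_simp
        linarith
      have h9 : z * (1 - 2 * a / d) ≤ ((d : ℝ) - a) / (m - d + a + 1) := by
        have h10 : z * (1 - 2 * a / d) = ((d : ℝ) - 2 * a) / (m - d + 1) := by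
          rw [hz]
          field_simp
        rw [h10, div_le_div_iff₀ hw0 hq]
        nlinarith
      rw [h8]
      calc z ^ (a + 1) * (1 - ((a : ℝ) + 1) ^ 2 / d) * m.choose d
          ≤ z ^ (a + 1) * ((1 - (a : ℝ) ^ 2 / d) * (1 - 2 * a / d)) * m.choose d := by
            refine mul_le_mul_of_nonneg_right (mul_le_mul_of_nonneg_left ?_ (by positivity)) hC
            have h11 : (1 - (a : ℝ) ^ 2 / d) * (1 - 2 * a / d) - (1 - ((a : ℝ) + 1) ^ 2 / d) =
                1 / d + (a : ℝ) ^ 2 * (2 * a) / d ^ 2 := by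
              field_simp
              ring
            have h12 : (0 : ℝ) ≤ 1 / d + (a : ℝ) ^ 2 * (2 * a) / d ^ 2 := by positivity
            linarith
        _ = (z ^ a * (1 - (a : ℝ) ^ 2 / d) * m.choose d) * (z * (1 - 2 * a / d)) := by ring
        _ ≤ m.choose (d - a) * ((d - a) / (m - d + a + 1)) :=
            mul_le_mul ih' h9 (by positivity) hC1

private theorem sum_pow_card_h47 {ι : Type*} (A : Finset ι) (x : ℝ) :
    ∑ S ∈ A.powerset, x ^ S.card = (1 + x) ^ A.card := by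
  have h1 := Finset.sum_pow_mul_eq_add_pow x 1 A
  simp only [one_pow, mul_one] at h1
  rw [h1, add_comm]

private theorem sq_le_four_pow_h47 (j : ℕ) : (j : ℝ) ^ 2 ≤ 4 ^ j := by
  have h1 : j < 2 ^ j := Nat.lt_two_pow_self
  have h2 : (j : ℝ) ≤ 2 ^ j := by exact_mod_cast h1.le
  calc (j : ℝ) ^ 2 ≤ (2 ^ j) ^ 2 := pow_le_pow_left₀ (Nat.cast_nonneg j) h2 2
    _ = 4 ^ j := by rw [← pow_mul, mul_comm, pow_mul]; norm_num

private theorem one_add_pow_le_h47 (x : ℝ) (hx : 0 ≤ x) (k : ℕ) : (1 + x) ^ k ≤ Real.exp (x * k) := by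
  rw [mul_comm, Real.exp_nat_mul]
  refine pow_le_pow_left₀ (by linarith) ?_ k
  have := Real.add_one_le_exp x
  linarith

private theorem one_sub_pow_ge_h47 (x : ℝ) (hx : 0 ≤ x) (hx2 : x ≤ 1 / 2) (k : ℕ) :
    Real.exp (-(2 * x * k)) ≤ (1 - x) ^ k := by
  have h1 : Real.exp (-(2 * x * k)) = Real.exp (-(2 * x)) ^ k := by
    rw [← Real.exp_nat_mul]
    ring_nf
  rw [h1]
  refine pow_le_pow_left₀ (Real.exp_pos _).le ?_ k
  rw [Real.exp_neg]
  have h2 : 1 + 2 * x ≤ Real.exp (2 * x) := by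
    have := Real.add_one_le_exp (2 * x)
    linarith
  have h3 : (Real.exp (2 * x))⁻¹ ≤ (1 + 2 * x)⁻¹ := inv_anti₀ (by linarith) h2
  refine h3.trans ?_
  rw [inv_le_iff_one_le_mul₀ (by linarith)]
  nlinarith

private theorem term_h47 (R : Multiset ℕ → ℝ) (d m : ℕ) (hd : 1 ≤ d) (hR : ∀ M, |R M| ≤ 1)
    (hR2 : ∀ j, 2 * j ≤ d → |R (Multiset.replicate j 2) - R {2} ^ j| ≤ 4 * (j : ℝ) ^ 2 / d)
    (hdm : 2 * d ≤ m) (z : ℝ) (hz : z = (d : ℝ) / (m - d + 1)) (j : ℕ) :
    |(if 2 * j ≤ d then (m.choose (d - 2 * j) : ℝ) * R (Multiset.replicate j 2) else 0) -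
      m.choose d * (z ^ 2 * R {2}) ^ j| ≤ m.choose d * (8 / d) * (4 * z ^ 2) ^ j := by
  have hdR : (1 : ℝ) ≤ d := by exact_mod_cast hd
  have hmd : (2 : ℝ) * d ≤ m := by exact_mod_cast hdm
  have hw0 : (0 : ℝ) < (m : ℝ) - d + 1 := by linarith
  have hz0 : 0 ≤ z := by rw [hz]; positivity
  have hC : (0 : ℝ) ≤ m.choose d := Nat.cast_nonneg _
  have ht : |R {2} ^ j| ≤ 1 := by
    rw [abs_pow]
    exact pow_le_one₀ (abs_nonneg _) (hR _)
  have hj4 := sq_le_four_pow_h47 j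
  have hzj : (z ^ 2) ^ j = z ^ (2 * j) := by rw [← pow_mul]
  have e1 : (m.choose d : ℝ) * (8 / d) * (4 * z ^ 2) ^ j = m.choose d * z ^ (2 * j) * (8 * 4 ^ j / d) := by
    rw [mul_pow, hzj]
    ring
  have e2 : (m.choose d : ℝ) * (z ^ 2 * R {2}) ^ j = m.choose d * z ^ (2 * j) * R {2} ^ j := by
    rw [mul_pow, hzj]
    ring
  rw [e1, e2]
  have hCz : (0 : ℝ) ≤ m.choose d * z ^ (2 * j) := by positivity
  by_cases hj : 2 * j ≤ d
  · rw [if_pos hj]
    have hup := choose_sub_le m d (2 * j) hj (by omega)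
    have hlo := choose_sub_ge_h47 m d (2 * j) hj hd hdm
    rw [← hz] at hup hlo
    push_cast at hlo
    have h1 : (m.choose (d - 2 * j) : ℝ) * R (Multiset.replicate j 2) - m.choose d * z ^ (2 * j) * R {2} ^ j =
        -((m.choose d * z ^ (2 * j) - m.choose (d - 2 * j)) * R (Multiset.replicate j 2)) +
        m.choose d * z ^ (2 * j) * (R (Multiset.replicate j 2) - R {2} ^ j) := by ring
    rw [h1]
    refine (abs_add_le _ _).trans ?_
    rw [abs_neg, abs_mul, abs_mul, abs_of_nonneg hCz]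
    have h2 : |(m.choose d : ℝ) * z ^ (2 * j) - m.choose (d - 2 * j)| ≤ m.choose d * z ^ (2 * j) * (4 * (j : ℝ) ^ 2 / d) := by
      rw [abs_of_nonneg (by linarith)]
      have h3 : z ^ (2 * j) * (1 - (2 * (j : ℝ)) ^ 2 / d) * m.choose d =
          m.choose d * z ^ (2 * j) - m.choose d * z ^ (2 * j) * (4 * (j : ℝ) ^ 2 / d) := by ring
      linarith
    have h4 := hR2 j hj
    have h5 : |(m.choose d : ℝ) * z ^ (2 * j) - m.choose (d - 2 * j)| * |R (Multiset.replicate j 2)| ≤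
        m.choose d * z ^ (2 * j) * (4 * (j : ℝ) ^ 2 / d) := by
      calc |(m.choose d : ℝ) * z ^ (2 * j) - m.choose (d - 2 * j)| * |R (Multiset.replicate j 2)|
          ≤ (m.choose d * z ^ (2 * j) * (4 * (j : ℝ) ^ 2 / d)) * 1 :=
            mul_le_mul h2 (hR _) (abs_nonneg _) (by positivity)
        _ = _ := mul_one _
    have h6 : (m.choose d : ℝ) * z ^ (2 * j) * |R (Multiset.replicate j 2) - R {2} ^ j| ≤
        m.choose d * z ^ (2 * j) * (4 * (j : ℝ) ^ 2 / d) := mul_le_mul_of_nonneg_left h4 hCz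
    have h7 : (m.choose d : ℝ) * z ^ (2 * j) * (4 * (j : ℝ) ^ 2 / d) + m.choose d * z ^ (2 * j) * (4 * (j : ℝ) ^ 2 / d) ≤
        m.choose d * z ^ (2 * j) * (8 * 4 ^ j / d) := by
      have h8 : (m.choose d : ℝ) * z ^ (2 * j) * (4 * (j : ℝ) ^ 2 / d) + m.choose d * z ^ (2 * j) * (4 * (j : ℝ) ^ 2 / d) =
          m.choose d * z ^ (2 * j) * (8 * (j : ℝ) ^ 2 / d) := by ring
      rw [h8]
      refine mul_le_mul_of_nonneg_left (div_le_div_of_nonneg_right ?_ (by linarith)) hCz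
      linarith
    linarith
  · rw [if_neg hj, zero_sub, abs_neg, abs_mul, abs_of_nonneg hCz]
    refine mul_le_mul_of_nonneg_left (ht.trans ?_) hCz
    rw [le_div_iff₀ (by linarith), one_mul]
    have h1 : d < 2 * j := by omega
    have h2 : (d : ℝ) < 2 * j := by exact_mod_cast h1
    have h3 : (1 : ℝ) ≤ j := by
      have : 1 ≤ j := by omega
      exact_mod_cast this
    nlinarith

theorem Psi_ge (R : Multiset ℕ → ℝ) (d m : ℕ) (hd : 1 ≤ d) (hR : ∀ M, |R M| ≤ 1)
    (hR2 : ∀ j, 2 * j ≤ d → |R (Multiset.replicate j 2) - R {2} ^ j| ≤ 4 * (j : ℝ) ^ 2 / d)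
    (Y : ℝ) (hY : 0 ≤ Y) (g : Perm (Fin n)) (hm : m + g.support.card = n) (hdm : 2 * d ≤ m) (z : ℝ)
    (hz : z = (d : ℝ) / (m - d + 1)) (hz2 : z ≤ 1 / 2) (hs : g.support.card * z ^ 2 ≤ Y) :
    (m.choose d : ℝ) * (Real.exp (-Y) - 8 / d * Real.exp (2 * Y) -
      Real.exp (Y / 2) * (Real.exp (z * Y / 3) - 1)) ≤ Psi R d g := by
  classical
  have hdR : (1 : ℝ) ≤ d := by exact_mod_cast hd
  have hmd : (2 : ℝ) * d ≤ m := by exact_mod_cast hdm
  have hw0 : (0 : ℝ) < (m : ℝ) - d + 1 := by linarith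
  have hz0 : 0 ≤ z := by rw [hz]; positivity
  have hC : (0 : ℝ) ≤ m.choose d := Nat.cast_nonneg _
  have hmn : n - g.support.card = m := by omega
  set cyc := g.cycleFactorsFinset with hcyc
  set A := cyc.filter (fun c => c.support.card = 2) with hA
  set B := cyc.filter (fun c => ¬ c.support.card = 2) with hB
  let F : Finset (Perm (Fin n)) → ℝ := fun S => if ∑ c ∈ S, c.support.card ≤ d then
      (m.choose (d - ∑ c ∈ S, c.support.card) : ℝ) * R (S.val.map (fun c => c.support.card)) else 0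
  have hPsi : Psi R d g = ∑ S ∈ cyc.powerset, F S := by
    unfold Psi
    rw [hmn]
  -- the number of cycles
  have hsum : ∑ c ∈ A, c.support.card + ∑ c ∈ B, c.support.card = g.support.card := by
    rw [hA, hB, Finset.sum_filter_add_sum_filter_not, hcyc, sum_supp_h47]
  have hAs : ∑ c ∈ A, c.support.card = 2 * A.card := by
    rw [Finset.sum_const_nat (m := 2) (fun c hc => (Finset.mem_filter.1 hc).2), mul_comm]
  have hBs : 3 * B.card ≤ ∑ c ∈ B, c.support.card := by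
    rw [mul_comm, ← smul_eq_mul]
    refine Finset.card_nsmul_le_sum _ _ _ fun c hc => ?_
    obtain ⟨h1, h2⟩ := Finset.mem_filter.1 hc
    have := two_le_h47 h1
    omega
  have hA2 : (2 : ℝ) * A.card ≤ g.support.card := by
    have : 2 * A.card ≤ g.support.card := by omega
    exact_mod_cast this
  have hB3 : (3 : ℝ) * B.card ≤ g.support.card := by
    have : 3 * B.card ≤ g.support.card := by omega
    exact_mod_cast this
  have hA0 : (0 : ℝ) ≤ A.card := Nat.cast_nonneg _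
  have hB0 : (0 : ℝ) ≤ B.card := Nat.cast_nonneg _
  have hzz : (0 : ℝ) ≤ z ^ 2 := sq_nonneg z
  -- bound of the terms
  have hF : ∀ S, |F S| ≤ m.choose d * z ^ (∑ c ∈ S, c.support.card) := by
    intro S
    simp only [F]
    split_ifs with h
    · rw [abs_mul, abs_of_nonneg (Nat.cast_nonneg _ : (0 : ℝ) ≤ (m.choose (d - ∑ c ∈ S, c.support.card) : ℝ))]
      have h1 := choose_sub_le m d _ h (by omega)
      rw [← hz] at h1
      calc (m.choose (d - ∑ c ∈ S, c.support.card) : ℝ) * |R (S.val.map (fun c => c.support.card))|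
          ≤ (z ^ (∑ c ∈ S, c.support.card) * m.choose d) * 1 :=
            mul_le_mul h1 (hR _) (abs_nonneg _) (by positivity)
        _ = _ := by ring
    · rw [abs_zero]
      positivity
  have hsub : A.powerset ⊆ cyc.powerset := Finset.powerset_mono.2 (Finset.filter_subset _ _)
  have hprod : ∀ T : Finset (Perm (Fin n)), ∑ S ∈ T.powerset, z ^ (∑ c ∈ S, c.support.card) =
      ∏ c ∈ T, (1 + z ^ c.support.card) := by
    intro T
    rw [Finset.prod_one_add]
    refine Finset.sum_congr rfl fun S _ => ?_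
    rw [Finset.prod_pow_eq_pow_sum]
  have h1 : |∑ S ∈ cyc.powerset, F S - ∑ S ∈ A.powerset, F S| ≤
      m.choose d * (Real.exp (Y / 2) * (Real.exp (z * Y / 3) - 1)) := by
    rw [← Finset.sum_sdiff hsub, add_sub_cancel_right]
    refine (Finset.abs_sum_le_sum_abs _ _).trans ((Finset.sum_le_sum fun S _ => hF S).trans ?_)
    rw [← Finset.mul_sum]
    refine mul_le_mul_of_nonneg_left ?_ hC
    have h2 : ∑ S ∈ cyc.powerset \ A.powerset, z ^ (∑ c ∈ S, c.support.card) =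
        ∏ c ∈ cyc, (1 + z ^ c.support.card) - ∏ c ∈ A, (1 + z ^ c.support.card) := by
      rw [← hprod, ← hprod, ← Finset.sum_sdiff hsub, add_sub_cancel_right]
    have h3 : ∏ c ∈ cyc, (1 + z ^ c.support.card) =
        (∏ c ∈ A, (1 + z ^ c.support.card)) * ∏ c ∈ B, (1 + z ^ c.support.card) := by
      rw [hA, hB, Finset.prod_filter_mul_prod_filter_not]
    rw [h2, h3]
    have h4 : ∏ c ∈ A, (1 + z ^ c.support.card) ≤ Real.exp (Y / 2) := by
      have h5 : ∏ c ∈ A, (1 + z ^ c.support.card) = (1 + z ^ 2) ^ A.card := by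
        rw [Finset.prod_congr rfl (fun c hc => by rw [(Finset.mem_filter.1 hc).2]), Finset.prod_const]
      rw [h5]
      refine (one_add_pow_le_h47 _ hzz _).trans (Real.exp_le_exp.2 ?_)
      nlinarith
    have h4' : 0 ≤ ∏ c ∈ A, (1 + z ^ c.support.card) := Finset.prod_nonneg fun c _ => by positivity
    have h6 : ∏ c ∈ B, (1 + z ^ c.support.card) ≤ Real.exp (z * Y / 3) := by
      have h7 : ∏ c ∈ B, (1 + z ^ c.support.card) ≤ (1 + z ^ 3) ^ B.card := by
        rw [← Finset.prod_const]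
        refine Finset.prod_le_prod (fun c _ => by positivity) fun c hc => ?_
        obtain ⟨h8, h9⟩ := Finset.mem_filter.1 hc
        have h10 := two_le_h47 h8
        have h11 : z ^ c.support.card ≤ z ^ 3 := pow_le_pow_of_le_one hz0 (by linarith) (by omega)
        linarith
      refine h7.trans ((one_add_pow_le_h47 _ (by positivity) _).trans (Real.exp_le_exp.2 ?_))
      have h8 : z ^ 3 * B.card = z * (z ^ 2 * B.card) := by ring
      rw [h8]
      have h9 : z ^ 2 * B.card ≤ Y / 3 := by nlinarith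
      calc z * (z ^ 2 * B.card) ≤ z * (Y / 3) := mul_le_mul_of_nonneg_left h9 hz0
        _ = z * Y / 3 := by ring
    have h6' : 1 ≤ ∏ c ∈ B, (1 + z ^ c.support.card) := by
      calc (1 : ℝ) = ∏ c ∈ B, (1 : ℝ) := Finset.prod_const_one.symm
        _ ≤ ∏ c ∈ B, (1 + z ^ c.support.card) := Finset.prod_le_prod (fun c _ => zero_le_one) fun c _ => by
            have : (0 : ℝ) ≤ z ^ c.support.card := by positivity
            linarith
    calc (∏ c ∈ A, (1 + z ^ c.support.card)) * ∏ c ∈ B, (1 + z ^ c.support.card) - ∏ c ∈ A, (1 + z ^ c.support.card)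
        = (∏ c ∈ A, (1 + z ^ c.support.card)) * (∏ c ∈ B, (1 + z ^ c.support.card) - 1) := by ring
      _ ≤ Real.exp (Y / 2) * (Real.exp (z * Y / 3) - 1) :=
          mul_le_mul h4 (by linarith) (by linarith) (Real.exp_pos _).le
  -- the sets of 2-cycles
  let f : ℕ → ℝ := fun j => if 2 * j ≤ d then (m.choose (d - 2 * j) : ℝ) * R (Multiset.replicate j 2) else 0
  have h2 : ∀ S ∈ A.powerset, F S = f S.card := by
    intro S hS
    rw [Finset.mem_powerset] at hS
    have h3 : ∑ c ∈ S, c.support.card = 2 * S.card := by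
      rw [Finset.sum_const_nat (m := 2) (fun c hc => (Finset.mem_filter.1 (hS hc)).2), mul_comm]
    have h4 : S.val.map (fun c => c.support.card) = Multiset.replicate S.card 2 := by
      rw [Multiset.eq_replicate]
      refine ⟨by rw [Multiset.card_map]; rfl, fun b hb => ?_⟩
      obtain ⟨c, hc, rfl⟩ := Multiset.mem_map.1 hb
      exact (Finset.mem_filter.1 (hS hc)).2
    simp only [F, f]
    rw [h3, h4]
  have h3 : |∑ S ∈ A.powerset, F S - m.choose d * (1 + z ^ 2 * R {2}) ^ A.card| ≤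
      m.choose d * (8 / d * Real.exp (2 * Y)) := by
    rw [← sum_pow_card_h47, Finset.mul_sum, ← Finset.sum_sub_distrib]
    refine (Finset.abs_sum_le_sum_abs _ _).trans ?_
    have h4 : ∀ S ∈ A.powerset, |F S - m.choose d * (z ^ 2 * R {2}) ^ S.card| ≤
        m.choose d * (8 / d) * (4 * z ^ 2) ^ S.card := by
      intro S hS
      rw [h2 S hS]
      exact term_h47 R d m hd hR hR2 hdm z hz S.card
    refine (Finset.sum_le_sum h4).trans ?_
    rw [← Finset.mul_sum, sum_pow_card_h47, mul_assoc]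
    refine mul_le_mul_of_nonneg_left (mul_le_mul_of_nonneg_left ?_ (by positivity)) hC
    refine (one_add_pow_le_h47 _ (by positivity) _).trans (Real.exp_le_exp.2 ?_)
    nlinarith
  have h4 : Real.exp (-Y) ≤ (1 + z ^ 2 * R {2}) ^ A.card := by
    have hz4 : z ^ 2 ≤ 1 / 4 := by nlinarith
    calc Real.exp (-Y) ≤ Real.exp (-(2 * z ^ 2 * A.card)) := Real.exp_le_exp.2 (by nlinarith)
      _ ≤ (1 - z ^ 2) ^ A.card := one_sub_pow_ge_h47 _ hzz (by linarith) _
      _ ≤ (1 + z ^ 2 * R {2}) ^ A.card := by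
          refine pow_le_pow_left₀ (by linarith) ?_ _
          have h5 := (abs_le.1 (hR {2})).1
          nlinarith
  rw [hPsi]
  have h5 := (abs_le.1 h1).1
  have h6 := (abs_le.1 h3).1
  have h7 : (m.choose d : ℝ) * Real.exp (-Y) ≤ m.choose d * (1 + z ^ 2 * R {2}) ^ A.card :=
    mul_le_mul_of_nonneg_left h4 hC
  have h8 : (m.choose d : ℝ) * (Real.exp (-Y) - 8 / d * Real.exp (2 * Y) - Real.exp (Y / 2) * (Real.exp (z * Y / 3) - 1)) =
      m.choose d * Real.exp (-Y) - m.choose d * (8 / d * Real.exp (2 * Y)) -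
        m.choose d * (Real.exp (Y / 2) * (Real.exp (z * Y / 3) - 1)) := by ring
  rw [h8]
  linarith

theorem Psi_sub_nonneg (Y : ℝ) (hY : 0 ≤ Y) : ∃ (D₀ : ℕ) (z₀ : ℝ), 0 < z₀ ∧
    ∀ (n : ℕ) (R : Multiset ℕ → ℝ) (d m : ℕ), D₀ ≤ d → 1 ≤ d → (∀ M, |R M| ≤ 1) →
      (∀ j, 2 * j ≤ d → |R (Multiset.replicate j 2) - R {2} ^ j| ≤ 4 * (j : ℝ) ^ 2 / d) →
      ∀ g : Perm (Fin n), m + g.support.card = n → 2 * d ≤ m → (d : ℝ) / (m - d + 1) ≤ z₀ →
        g.support.card * ((d : ℝ) / (m - d + 1)) ^ 2 ≤ Y → 0 ≤ Psi R d g - Psi R (d - 1) g := by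
  set δ : ℝ := Real.exp (-Y) / 3 with hδ
  have hδ0 : 0 < δ := by positivity
  obtain ⟨D₀, hD₀⟩ := exists_nat_gt (8 * Real.exp (2 * Y) / δ)
  refine ⟨D₀, min (1 / 2) (δ / ((Y + 1) * Real.exp Y)), lt_min (by norm_num) (by positivity), ?_⟩
  intro n R d m hD hd hR hR2 g hm hdm hzz0 hs
  set z : ℝ := (d : ℝ) / (m - d + 1) with hz
  have hdR : (1 : ℝ) ≤ d := by exact_mod_cast hd
  have hmd : (2 : ℝ) * d ≤ m := by exact_mod_cast hdm
  have hw0 : (0 : ℝ) < (m : ℝ) - d + 1 := by linarith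
  have hz0 : 0 ≤ z := by rw [hz]; positivity
  have hC : (0 : ℝ) ≤ m.choose d := Nat.cast_nonneg _
  have hz12 : z ≤ 1 / 2 := hzz0.trans (min_le_left _ _)
  have hzd : z ≤ δ / ((Y + 1) * Real.exp Y) := hzz0.trans (min_le_right _ _)
  rw [le_div_iff₀ (by positivity)] at hzd
  have h1 := Psi_ge R d m hd hR hR2 Y hY g hm hdm z hz hz12 hs
  have eY : 0 < Real.exp Y := Real.exp_pos _
  -- the first error
  have e1 : 8 / d * Real.exp (2 * Y) ≤ δ := by
    have h2 : 8 * Real.exp (2 * Y) / δ ≤ d := by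
      have : (D₀ : ℝ) ≤ d := by exact_mod_cast hD
      linarith
    rw [div_le_iff₀ hδ0] at h2
    have h3 : 8 / d * Real.exp (2 * Y) = 8 * Real.exp (2 * Y) / d := by ring
    rw [h3, div_le_iff₀ (by linarith)]
    linarith
  -- the second error
  have e2 : Real.exp (Y / 2) * (Real.exp (z * Y / 3) - 1) ≤ z * Y * Real.exp Y := by
    have h2 : Real.exp (z * Y / 3) - 1 ≤ z * Y / 3 * Real.exp (z * Y / 3) := by
      have h3 := Real.add_one_le_exp (-(z * Y / 3))
      have h4 : Real.exp (-(z * Y / 3)) * Real.exp (z * Y / 3) = 1 := by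
        rw [← Real.exp_add]
        simp
      have h5 : 0 < Real.exp (z * Y / 3) := Real.exp_pos _
      nlinarith
    have h3 : Real.exp (Y / 2) * Real.exp (z * Y / 3) ≤ Real.exp Y := by
      rw [← Real.exp_add]
      refine Real.exp_le_exp.2 ?_
      nlinarith
    have hzY : 0 ≤ z * Y := by positivity
    calc Real.exp (Y / 2) * (Real.exp (z * Y / 3) - 1)
        ≤ Real.exp (Y / 2) * (z * Y / 3 * Real.exp (z * Y / 3)) := mul_le_mul_of_nonneg_left h2 (Real.exp_pos _).le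
      _ = z * Y / 3 * (Real.exp (Y / 2) * Real.exp (z * Y / 3)) := by ring
      _ ≤ z * Y / 3 * Real.exp Y := mul_le_mul_of_nonneg_left h3 (by positivity)
      _ ≤ z * Y * Real.exp Y := by
          refine mul_le_mul_of_nonneg_right ?_ eY.le
          linarith
  -- the third error
  have e3 : |Psi R (d - 1) g| ≤ m.choose d * (z * Real.exp Y) := by
    refine (abs_Psi_le R hR (d - 1) g).trans ?_
    have h2 := II_le (d - 1) m g hm (by omega)
    have h3 := choose_sub_le m d 1 hd (by omega)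
    rw [pow_one, ← hz] at h3
    refine h2.trans ?_
    have hc : ((d - 1 : ℕ) : ℝ) = (d : ℝ) - 1 := by
      rw [Nat.cast_sub hd]
      norm_num
    have h4 : ((d - 1 : ℕ) : ℝ) / (m - (d - 1 : ℕ) + 1) ≤ z := by
      rw [hc, hz, div_le_div_iff₀ (by linarith) hw0]
      nlinarith
    have h4' : 0 ≤ ((d - 1 : ℕ) : ℝ) / (m - (d - 1 : ℕ) + 1) := by
      rw [hc]
      exact div_nonneg (by linarith) (by linarith)
    have h5 : Real.exp ((((d - 1 : ℕ) : ℝ) / (m - (d - 1 : ℕ) + 1)) ^ 2 * g.support.card / 2) ≤ Real.exp Y := by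
      refine Real.exp_le_exp.2 ?_
      have h6 : (((d - 1 : ℕ) : ℝ) / (m - (d - 1 : ℕ) + 1)) ^ 2 ≤ z ^ 2 := pow_le_pow_left₀ h4' h4 2
      have h7 : (0 : ℝ) ≤ g.support.card := Nat.cast_nonneg _
      have h8 := mul_le_mul_of_nonneg_right h6 h7
      linarith
    calc (m.choose (d - 1) : ℝ) * Real.exp ((((d - 1 : ℕ) : ℝ) / (m - (d - 1 : ℕ) + 1)) ^ 2 * g.support.card / 2)
        ≤ (z * m.choose d) * Real.exp Y := mul_le_mul h3 h5 (Real.exp_pos _).le (by positivity)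
      _ = m.choose d * (z * Real.exp Y) := by ring
  have h2 : (0 : ℝ) ≤ m.choose d * (Real.exp (-Y) - 8 / d * Real.exp (2 * Y) -
      Real.exp (Y / 2) * (Real.exp (z * Y / 3) - 1) - z * Real.exp Y) := by
    refine mul_nonneg hC ?_
    have h3 : z * ((Y + 1) * Real.exp Y) = z * Y * Real.exp Y + z * Real.exp Y := by ring
    have h4 : Real.exp (-Y) = 3 * δ := by rw [hδ]; ring
    rw [h4]
    linarith
  have h3 := (abs_le.1 e3).2
  have h4 : (m.choose d : ℝ) * (Real.exp (-Y) - 8 / d * Real.exp (2 * Y) -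
      Real.exp (Y / 2) * (Real.exp (z * Y / 3) - 1) - z * Real.exp Y) =
      m.choose d * (Real.exp (-Y) - 8 / d * Real.exp (2 * Y) - Real.exp (Y / 2) * (Real.exp (z * Y / 3) - 1)) -
      m.choose d * (z * Real.exp Y) := by ring
  rw [h4] at h2
  linarith

end Pool.Agent.Helper51.TN
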