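import Pool.Agent.Helper70.TU.Defs

/-!
Project TN (MP_22c541_al): both squares of one irreducible character of `S_n` contain all irreducible characters `[μ]` with
`μ'_1 ≤ (1 - ε) n` (no condition on the rows). Definitions. Paper proof: /team-store/h51_22c541_rows.md.
-/

set_option autoImplicit false

open Module Equiv Pool.Agent.Helper1.TS Pool.Agent.Helper70.TU

namespace Pool.Agent.Helper51.TN

/-! ### Points and embeddings -/

/-- The points `≥ d`. -/
def TT (n d : ℕ) : Finset (Fin n) := Finset.univ.filter (fun i => d ≤ (i : ℕ))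

/-- The points `< d`. -/
def DD (n d : ℕ) : Finset (Fin n) := Finset.univ.filter (fun i => (i : ℕ) < d)

theorem mem_TT {n d : ℕ} {i : Fin n} : i ∈ TT n d ↔ d ≤ (i : ℕ) := by
  simp [TT]

theorem mem_DD {n d : ℕ} {i : Fin n} : i ∈ DD n d ↔ (i : ℕ) < d := by
  simp [DD]

/-- The first `e` points. -/
def eD {n e : ℕ} (h : e ≤ n) : Fin e ≃ {i : Fin n // (i : ℕ) < e} where
  toFun i := ⟨⟨i, i.2.trans_le h⟩, i.2⟩
  invFun i := ⟨i.1, i.2⟩
  left_inv _ := rfl
  right_inv _ := rfl

/-- The last `n - e` points. -/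
def eT {n e : ℕ} (h : e ≤ n) : Fin (n - e) ≃ {i : Fin n // e ≤ (i : ℕ)} where
  toFun i := ⟨⟨(i : ℕ) + e, by have := i.2; omega⟩, Nat.le_add_left _ _⟩
  invFun i := ⟨(i.1 : ℕ) - e, by have := i.1.2; have := i.2; omega⟩
  left_inv i := by
    refine Fin.ext ?_
    simp
  right_inv i := by
    refine Subtype.ext (Fin.ext ?_)
    have := i.2
    simp only
    omega

/-- `S_e` acting on the first `e` points. -/
def jD {n e : ℕ} (h : e ≤ n) : Perm (Fin e) →* Perm (Fin n) := Perm.extendDomainHom (eD h)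

/-- `S_{n-e}` acting on the last `n - e` points. -/
def jT {n e : ℕ} (h : e ≤ n) : Perm (Fin (n - e)) →* Perm (Fin n) := Perm.extendDomainHom (eT h)

theorem jD_apply {n e : ℕ} (h : e ≤ n) (y : Perm (Fin e)) (i : Fin n) (hi : (i : ℕ) < e) :
    jD h y i = ⟨y ⟨i, hi⟩, (y ⟨i, hi⟩).2.trans_le h⟩ := by
  have := Perm.extendDomain_apply_subtype y (eD h) (b := i) hi
  exact this

theorem jD_apply_of_le {n e : ℕ} (h : e ≤ n) (y : Perm (Fin e)) (i : Fin n) (hi : e ≤ (i : ℕ)) :
    jD h y i = i :=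
  Perm.extendDomain_apply_not_subtype y (eD h) (by omega)

theorem jT_apply_of_lt {n e : ℕ} (h : e ≤ n) (x : Perm (Fin (n - e))) (i : Fin n) (hi : (i : ℕ) < e) :
    jT h x i = i :=
  Perm.extendDomain_apply_not_subtype x (eT h) (by omega)

theorem jT_apply {n e : ℕ} (h : e ≤ n) (x : Perm (Fin (n - e))) (i : Fin n) (hi : e ≤ (i : ℕ)) :
    jT h x i = eT h (x ((eT h).symm ⟨i, hi⟩)) := by
  have := Perm.extendDomain_apply_subtype x (eT h) (b := i) hi
  exact this

theorem le_jT_apply {n e : ℕ} (h : e ≤ n) (x : Perm (Fin (n - e))) (i : Fin n) (hi : e ≤ (i : ℕ)) :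
    e ≤ ((jT h x i : Fin n) : ℕ) := by
  rw [jT_apply h x i hi]
  exact (eT h _).2

theorem jD_apply_lt {n e : ℕ} (h : e ≤ n) (y : Perm (Fin e)) (i : Fin n) (hi : (i : ℕ) < e) :
    ((jD h y i : Fin n) : ℕ) < e := by
  rw [jD_apply h y i hi]
  exact (y _).2

theorem jT_jD_commute {n e : ℕ} (h : e ≤ n) (x : Perm (Fin (n - e))) (y : Perm (Fin e)) :
    Commute (jT h x) (jD h y) := by
  refine Equiv.ext fun i => ?_
  rw [Perm.mul_apply, Perm.mul_apply]
  rcases lt_or_ge (i : ℕ) e with hi | hi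
  · rw [jT_apply_of_lt h x i hi, jT_apply_of_lt h x _ (jD_apply_lt h y i hi)]
  · rw [jD_apply_of_le h y i hi, jD_apply_of_le h y _ (le_jT_apply h x i hi)]

/-- `S_{n-e} × S_e → S_n`. -/
def jH {n e : ℕ} (h : e ≤ n) : Perm (Fin (n - e)) × Perm (Fin e) →* Perm (Fin n) :=
  MonoidHom.noncommCoprod (jT h) (jD h) (jT_jD_commute h)

theorem jH_apply {n e : ℕ} (h : e ≤ n) (p : Perm (Fin (n - e)) × Perm (Fin e)) :
    jH h p = jT h p.1 * jD h p.2 := rfl

/-! ### Representations -/

section Rep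

variable {n : ℕ} {X : Type*} [AddCommGroup X] [Module ℂ X]

/-- `Q_a = ∑_{y ∈ T ∪ {a}} (a y)`. -/
noncomputable def qq (σ : Representation ℂ (Perm (Fin n)) X) (T : Finset (Fin n)) (a : Fin n) :
    X →ₗ[ℂ] X :=
  ∑ y ∈ insert a T, σ (Equiv.swap a y)

/-- The average over `Sym(T)`. -/
noncomputable def avT (σ : Representation ℂ (Perm (Fin n)) X) (T : Finset (Fin n)) : X →ₗ[ℂ] X :=
  ((Finset.univ.filter (fun x : Perm (Fin n) => x.support ⊆ T)).card : ℂ)⁻¹ •
    ∑ x ∈ Finset.univ.filter (fun x : Perm (Fin n) => x.support ⊆ T), σ x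

/-- The new vectors: fixed by `Sym(T_d)` and killed by all `Q_a`, `a < d`. -/
def New (σ : Representation ℂ (Perm (Fin n)) X) (d : ℕ) : Submodule ℂ X where
  carrier := {z | z ∈ inv σ (TT n d) ∧ ∀ a : Fin n, (a : ℕ) < d → qq σ (TT n d) a z = 0}
  add_mem' := by
    rintro x y ⟨hx, hx'⟩ ⟨hy, hy'⟩
    refine ⟨Submodule.add_mem _ hx hy, fun a ha => ?_⟩
    rw [map_add, hx' a ha, hy' a ha, add_zero]
  zero_mem' := ⟨Submodule.zero_mem _, fun a _ => map_zero _⟩
  smul_mem' := by
    rintro c x ⟨hx, hx'⟩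
    refine ⟨Submodule.smul_mem _ c hx, fun a ha => ?_⟩
    rw [map_smul, hx' a ha, smul_zero]

theorem mem_New {σ : Representation ℂ (Perm (Fin n)) X} {d : ℕ} {z : X} :
    z ∈ New σ d ↔ z ∈ inv σ (TT n d) ∧ ∀ a : Fin n, (a : ℕ) < d → qq σ (TT n d) a z = 0 := Iff.rfl

/-- `d` is the smallest number such that `Sym(T_d)` has nonzero invariants. -/
def IsDepth (θ : Representation ℂ (Perm (Fin n)) X) (d : ℕ) : Prop :=
  d ≤ n ∧ inv θ (TT n d) ≠ ⊥ ∧ ∀ e < d, inv θ (TT n e) = ⊥

theorem jD_support_mem {e : ℕ} (h : e ≤ n) (y : Perm (Fin e)) (x : Perm (Fin n)) (hx : x.support ⊆ TT n e) :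
    Commute x (jD h y) := by
  refine Equiv.ext fun i => ?_
  rw [Perm.mul_apply, Perm.mul_apply]
  have hfix : ∀ j : Fin n, (j : ℕ) < e → x j = j := fun j hj => by
    by_contra hne
    have := mem_TT.1 (hx (Perm.mem_support.2 hne))
    omega
  rcases lt_or_ge (i : ℕ) e with hi | hi
  · rw [hfix i hi, hfix _ (jD_apply_lt h y i hi)]
  · rw [jD_apply_of_le h y i hi, jD_apply_of_le h y]
    by_contra hlt
    push Not at hlt
    have h1 := hfix _ hlt
    have h2 : x i = i := x.injective h1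
    rw [h2] at hlt
    omega

theorem rhoE_mem (θ : Representation ℂ (Perm (Fin n)) X) {d : ℕ} (h : d ≤ n) (y : Perm (Fin d)) :
    ∀ v ∈ inv θ (TT n d), θ (jD h y) v ∈ inv θ (TT n d) := by
  intro v hv x hx
  have h1 := jD_support_mem h y x hx
  rw [← Module.End.mul_apply, ← map_mul, h1.eq, map_mul, Module.End.mul_apply, hv x hx]

/-- The representation of `S_d` on `inv θ (TT n d)`. -/
noncomputable def rhoE (θ : Representation ℂ (Perm (Fin n)) X) {d : ℕ} (h : d ≤ n) :
    Representation ℂ (Perm (Fin d)) (inv θ (TT n d)) where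
  toFun y := (θ (jD h y)).restrict (rhoE_mem θ h y)
  map_one' := by
    refine LinearMap.ext fun v => Subtype.ext ?_
    rw [LinearMap.coe_restrict_apply, map_one, map_one]
    rfl
  map_mul' a b := by
    refine LinearMap.ext fun v => Subtype.ext ?_
    rw [LinearMap.coe_restrict_apply, map_mul, map_mul, Module.End.mul_apply, Module.End.mul_apply,
      LinearMap.coe_restrict_apply, LinearMap.coe_restrict_apply]

theorem rhoE_coe (θ : Representation ℂ (Perm (Fin n)) X) {d : ℕ} (h : d ≤ n) (y : Perm (Fin d))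
    (v : inv θ (TT n d)) : (rhoE θ h y v : X) = θ (jD h y) v := rfl

end Rep

section Hom

variable {H E X : Type*} [Group H] [AddCommGroup E] [Module ℂ E] [AddCommGroup X] [Module ℂ X]

/-- The equivariant maps `f` with `P f = f`. -/
def HomP (ρ : Representation ℂ H E) (σ : Representation ℂ H X) (P : X →ₗ[ℂ] X) :
    Submodule ℂ (E →ₗ[ℂ] X) where
  carrier := {f | (∀ (h : H) (v : E), f (ρ h v) = σ h (f v)) ∧ ∀ v, P (f v) = f v}
  add_mem' := by
    rintro f g ⟨hf, hf'⟩ ⟨hg, hg'⟩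
    refine ⟨fun h v => ?_, fun v => ?_⟩
    · rw [LinearMap.add_apply, LinearMap.add_apply, map_add, hf, hg]
    · rw [LinearMap.add_apply, map_add, hf', hg']
  zero_mem' := by
    refine ⟨fun h v => ?_, fun v => ?_⟩
    · rw [LinearMap.zero_apply, LinearMap.zero_apply, map_zero]
    · rw [LinearMap.zero_apply, map_zero]
  smul_mem' := by
    rintro c f ⟨hf, hf'⟩
    refine ⟨fun h v => ?_, fun v => ?_⟩
    · rw [LinearMap.smul_apply, LinearMap.smul_apply, map_smul, hf]
    · rw [LinearMap.smul_apply, map_smul, hf']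

theorem mem_HomP {ρ : Representation ℂ H E} {σ : Representation ℂ H X} {P : X →ₗ[ℂ] X}
    {f : E →ₗ[ℂ] X} :
    f ∈ HomP ρ σ P ↔ (∀ (h : H) (v : E), f (ρ h v) = σ h (f v)) ∧ ∀ v, P (f v) = f v := Iff.rfl

end Hom

section HomE

variable {n : ℕ} {E X : Type*} [AddCommGroup E] [Module ℂ E] [AddCommGroup X] [Module ℂ X]

/-- The maps `f : E → X`, equivariant for `S_{n-e} × S_e` (`S_{n-e}` acts trivially on `E`), `P f = f`. -/
def HomE {e : ℕ} (h : e ≤ n) (ρ : Representation ℂ (Perm (Fin e)) E)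
    (σ : Representation ℂ (Perm (Fin n)) X) (P : X →ₗ[ℂ] X) : Submodule ℂ (E →ₗ[ℂ] X) :=
  HomP (ρ.comp (MonoidHom.snd (Perm (Fin (n - e))) (Perm (Fin e)))) (σ.comp (jH h)) P

end HomE

/-! ### Bilinear forms -/

section Bil

variable {G V : Type*} [Group G] [AddCommGroup V] [Module ℂ V]

/-- Bilinear forms. -/
abbrev Bil (V : Type*) [AddCommGroup V] [Module ℂ V] : Type _ := V →ₗ[ℂ] V →ₗ[ℂ] ℂ

/-- Pullback of forms. -/
noncomputable def pb (A : V →ₗ[ℂ] V) : Bil V →ₗ[ℂ] Bil V where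
  toFun b := b.compl₁₂ A A
  map_add' b b' := by
    refine LinearMap.ext₂ fun v w => ?_
    rfl
  map_smul' c b := by
    refine LinearMap.ext₂ fun v w => ?_
    rfl

theorem pb_apply (A : V →ₗ[ℂ] V) (b : Bil V) (v w : V) : pb A b v w = b (A v) (A w) := rfl

/-- The representation on bilinear forms. -/
noncomputable def bil (ρ : Representation ℂ G V) : Representation ℂ G (Bil V) where
  toFun g := pb (ρ g⁻¹)
  map_one' := by
    refine LinearMap.ext fun b => LinearMap.ext₂ fun v w => ?_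
    rw [pb_apply, inv_one, map_one]
    rfl
  map_mul' g g' := by
    refine LinearMap.ext fun b => LinearMap.ext₂ fun v w => ?_
    rw [Module.End.mul_apply, pb_apply, pb_apply, pb_apply, mul_inv_rev, map_mul]
    rfl

theorem bil_apply (ρ : Representation ℂ G V) (g : G) (b : Bil V) (v w : V) :
    bil ρ g b v w = b (ρ g⁻¹ v) (ρ g⁻¹ w) := rfl

/-- The flip. -/
noncomputable def fl : Bil V →ₗ[ℂ] Bil V where
  toFun b := b.flip
  map_add' b b' := by
    refine LinearMap.ext₂ fun v w => ?_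
    rfl
  map_smul' c b := by
    refine LinearMap.ext₂ fun v w => ?_
    rfl

theorem fl_apply (b : Bil V) (v w : V) : fl b v w = b w v := rfl

/-- `(1 + ε flip)/2`, `ε = ±1`. -/
noncomputable def pe (ε : ℂ) : Bil V →ₗ[ℂ] Bil V := (1 / 2 : ℂ) • (LinearMap.id + ε • fl)

theorem pe_apply (ε : ℂ) (b : Bil V) (v w : V) : pe ε b v w = (b v w + ε * b w v) / 2 := by
  unfold pe
  rw [LinearMap.smul_apply, LinearMap.add_apply, LinearMap.smul_apply, LinearMap.smul_apply,
    LinearMap.smul_apply, LinearMap.add_apply, LinearMap.add_apply, LinearMap.smul_apply,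
    LinearMap.smul_apply, fl_apply, LinearMap.id_apply, smul_eq_mul, smul_eq_mul]
  ring

end Bil

/-! ### Joint eigenspaces of the Jucys-Murphy elements -/

section JM

variable {n : ℕ} {V : Type*} [AddCommGroup V] [Module ℂ V]

/-- The joint eigenspace of `jm 0, ..., jm (e-1)`. -/
def EE (ρ : Representation ℂ (Perm (Fin n)) V) {e : ℕ} (h : e ≤ n) (α : Fin e → ℝ) : Submodule ℂ V where
  carrier := {v | ∀ i : Fin e, jm ρ (Fin.castLE h i) v = (α i : ℂ) • v}
  add_mem' := by
    intro v w hv hw i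
    rw [map_add, hv i, hw i, smul_add]
  zero_mem' := by
    intro i
    rw [map_zero, smul_zero]
  smul_mem' := by
    intro c v hv i
    rw [map_smul, hv i, smul_comm]

theorem mem_EE {ρ : Representation ℂ (Perm (Fin n)) V} {e : ℕ} {h : e ≤ n} {α : Fin e → ℝ} {v : V} :
    v ∈ EE ρ h α ↔ ∀ i : Fin e, jm ρ (Fin.castLE h i) v = (α i : ℂ) • v := Iff.rfl

/-- The set of the eigenvalues of `jm 0`, as last entries of the content lists of `SS ρ`. -/
def corners (ρ : Representation ℂ (Perm (Fin n)) V) : Set ℝ :=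
  {a | ∃ (c : Fin n → ℝ) (v : V) (h : 0 < n), IsJE ρ c v ∧ c ⟨0, h⟩ = a}

open Classical in
/-- The finite set of corners. -/
noncomputable def CC (ρ : Representation ℂ (Perm (Fin n)) V) : Finset ℝ :=
  if h : (corners ρ).Finite then h.toFinset else ∅

open Classical in
/-- The projection onto the sum of the joint eigenspaces `EE ρ h α` with `α` an enumeration of `J`, along the other ones
(see `pJ_spec`). -/
noncomputable def pJ (ρ : Representation ℂ (Perm (Fin n)) V) {e : ℕ} (h : e ≤ n) (J : Finset ℝ) : V →ₗ[ℂ] V :=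
  if hp : ∃ p : V →ₗ[ℂ] V, ∀ (α : Fin e → ℝ), ∀ v ∈ EE ρ h α,
      p v = if Finset.univ.image α = J then v else 0 then hp.choose else 0

/-- The block diagonal part of a form. -/
noncomputable def PiE (ρ : Representation ℂ (Perm (Fin n)) V) {e : ℕ} (h : e ≤ n) : Bil V →ₗ[ℂ] Bil V :=
  ∑ J ∈ (CC ρ).powersetCard e, pb (pJ ρ h J)

end JM

/-! ### The induced character, in terms of cycles -/

/-- `Psi R e g = ∑_S binom(m, e - |S|) R(type S)`, the sum over the sets `S` of nontrivial cycles of `g` with total length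
`|S| ≤ e`; `m` is the number of fixed points of `g`. -/
noncomputable def Psi {n : ℕ} (R : Multiset ℕ → ℝ) (e : ℕ) (g : Perm (Fin n)) : ℝ :=
  ∑ S ∈ g.cycleFactorsFinset.powerset,
    if ∑ c ∈ S, c.support.card ≤ e then
      ((n - g.support.card).choose (e - ∑ c ∈ S, c.support.card) : ℝ) *
        R (S.val.map (fun c => c.support.card))
    else 0

/-- The same with `R = 1`. -/
noncomputable def II {n : ℕ} (e : ℕ) (g : Perm (Fin n)) : ℝ := Psi (fun _ => 1) e g

/-- The average of a class function times a function on `S_e`. -/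
noncomputable def avH {n e : ℕ} (h : e ≤ n) (f : Perm (Fin n) → ℝ) (q : Perm (Fin e) → ℝ) : ℝ :=
  (∑ x : Perm (Fin (n - e)), ∑ y : Perm (Fin e), f (jT h x * jD h y) * q y) /
    ((n - e).factorial * e.factorial)

end Pool.Agent.Helper51.TN
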