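import Pool.Agent.Helper1.TS.COMB

/-!
BLOCK TN-K1 (about 250 lines). Pure combinatorics of lists: the possible last entries of content lists.

`S` is a set of lists of reals with the axioms `OV` (`Helper1/TS/Defs.lean`) whose members are all permutations of each other. Copy the private lemmas `mvL`, `mvR`,
`C3`, `C2`, `interval` of `Helper1/TS/COMB.lean` where needed.

Proof in words. All entries are integers (`OV.int`). For an integer `a` and `l ∈ S` consider the sublist `f_a(l)` of the entries of `l` equal to `a` or `a + 1`.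
(1) `f_a(l)` alternates: between two entries `a` there is an `a + 1`, and between two entries `a + 1` there is an `a` (`C3`).
(2) if `a ≥ 0` and `f_a(l) ≠ []` its first element is `a`: `interval` (for `b = a + 1`, `z = a`): `a` occurs before the first `a + 1`. If `a ≤ -1` its first element is
    `a + 1` (apply the case `a ≥ 0` to `-a-1` and `{l | l.map (- ·) ∈ S}`, which is `OV` again).
(3) so if `a ≥ 0`: the last element of `f_a(l)` is `a` iff `count a l = count (a+1) l + 1`, and `a + 1` iff the counts are equal; for `a ≤ -1`: it is `a + 1` iff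
    `count (a+1) l = count a l + 1`, and `a` iff the counts are equal. The counts are the same for all `l ∈ S` (`hp`), so the last element of `f_a(l)` is the
    same for all `l ∈ S` (with `f_a(l) ≠ []`, which also does not depend on `l`).
* `K_gap`: otherwise the last element of `f_a` would be `a` for `l ++ [a]` and `a + 1` for `l' ++ [a + 1]`.
* `K_two`: `b` occurs in `l` (`l ++ [a]` is a permutation of `l' ++ [b]`, `b ≠ a`); write `l = l₁ ++ b :: m` with `b ∉ m`. The last element of `f_b` is `b` (look at
  `l' ++ [b]`), so `b + 1 ∉ m` and `b + 1 ≠ a`; the last element of `f_{b-1}` is `b`, so `b - 1 ∉ m` and `b - 1 ≠ a`. Move `b` to the right through `m` (`mvR`):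
  `l₁ ++ m ++ [b, a] ∈ S`.
* `K_many`: induction on the length of `L` for all `S` (reverse induction: `L = L' ++ [a]`): `S' = {l | l ++ [a] ∈ S}` satisfies the axioms and its members are
  permutations of each other, it is nonempty, and by `K_two` every `b ∈ L'` is a possible last entry for `S'`.
-/

set_option autoImplicit false

open Pool.Agent.Helper1.TS

namespace Pool.Agent.Helper51.TN

private lemma mvL56 {S : Set (List ℝ)} (h : OV S) (b : ℝ) (m : List ℝ) :
    ∀ l₁ l₂ : List ℝ, l₁ ++ (m ++ b :: l₂) ∈ S → (∀ x ∈ m, x ≠ b + 1 ∧ x ≠ b - 1) →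
      l₁ ++ b :: (m ++ l₂) ∈ S := by
  induction m using List.reverseRecOn with
  | nil => intro l₁ l₂ h1 _; simpa using h1
  | append_singleton m x ih =>
    intro l₁ l₂ h1 h2
    have hx := h2 x (by simp)
    have h3 : (l₁ ++ m) ++ x :: b :: l₂ ∈ S := by
      simpa [List.append_assoc] using h1
    have h4 := h.swap (l₁ ++ m) l₂ x b h3 (fun hh => hx.2 (by linarith)) (fun hh => hx.1 (by linarith))
    have h5 := ih l₁ (x :: l₂) (by simpa [List.append_assoc] using h4)
      (fun y hy => h2 y (List.mem_append_left _ hy))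
    simpa [List.append_assoc] using h5

private lemma mvR56 {S : Set (List ℝ)} (h : OV S) (b : ℝ) (m : List ℝ) :
    ∀ l₁ l₂ : List ℝ, l₁ ++ b :: (m ++ l₂) ∈ S → (∀ x ∈ m, x ≠ b + 1 ∧ x ≠ b - 1) →
      l₁ ++ (m ++ b :: l₂) ∈ S := by
  induction m with
  | nil => intro l₁ l₂ h1 _; simpa using h1
  | cons x m ih =>
    intro l₁ l₂ h1 h2
    have hx := h2 x (by simp)
    have h3 : l₁ ++ b :: x :: (m ++ l₂) ∈ S := by simpa using h1
    have h4 := h.swap l₁ (m ++ l₂) b x h3 hx.1 hx.2
    have h5 := ih (l₁ ++ [x]) l₂ (by simpa [List.append_assoc] using h4)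
      (fun y hy => h2 y (List.mem_cons_of_mem _ hy))
    simpa [List.append_assoc] using h5

private lemma C356 {S : Set (List ℝ)} (h : OV S) : ∀ (N : ℕ) (m : List ℝ), m.length = N →
    ∀ (a : ℝ) (l₁ l₂ : List ℝ), l₁ ++ a :: (m ++ a :: l₂) ∈ S → a + 1 ∈ m ∧ a - 1 ∈ m := by
  intro N
  induction N using Nat.strong_induction_on with
  | _ N ih =>
    intro m hm a l₁ l₂ hS
    by_cases ha : a ∈ m
    · obtain ⟨u, v, rfl⟩ := List.append_of_mem ha
      have h1 := ih u.length (by rw [← hm]; simp) u rfl a l₁ (v ++ a :: l₂)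
        (by simpa [List.append_assoc] using hS)
      exact ⟨List.mem_append_left _ h1.1, List.mem_append_left _ h1.2⟩
    · -- the values `a + 1` and `a - 1` occur at most once
      have key : ∀ c : ℝ, (c = a + 1 ∨ c = a - 1) → ∀ u v : List ℝ, m = u ++ c :: v → c ∉ v := by
        intro c hc u v hmu hcv
        obtain ⟨w, t, rfl⟩ := List.append_of_mem hcv
        have h1 := ih w.length (by rw [← hm, hmu]; simp; omega) w rfl c (l₁ ++ a :: u)
          (t ++ a :: l₂) (by rw [hmu] at hS; simpa [List.append_assoc] using hS)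
        apply ha
        rw [hmu]
        rcases hc with hc | hc
        · have h2 : a ∈ w := by
            have := h1.2
            rwa [hc, add_sub_cancel_right] at this
          simp [h2]
        · have h2 : a ∈ w := by
            have := h1.1
            rwa [hc, sub_add_cancel] at this
          simp [h2]
      by_cases h1 : a + 1 ∈ m
      · by_cases h2 : a - 1 ∈ m
        · exact ⟨h1, h2⟩
        · exfalso
          obtain ⟨u, v, hmu, hu⟩ := List.eq_append_cons_of_mem h1
          have hv := key (a + 1) (Or.inl rfl) u v hmu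
          rw [hmu] at hS h2
          have h3 : (l₁ ++ a :: u ++ [a + 1]) ++ (v ++ a :: l₂) ∈ S := by
            simpa [List.append_assoc] using hS
          have h4 := mvL56 h a v _ _ h3 (fun x hx => ⟨fun e => hv (e ▸ hx), fun e => h2 (by simp [← e, hx])⟩)
          have h5 : l₁ ++ a :: (u ++ (a + 1) :: a :: (v ++ l₂)) ∈ S := by
            simpa [List.append_assoc] using h4
          have h6 := mvR56 h a u _ _ h5 (fun x hx => ⟨fun e => hu (e ▸ hx), fun e => h2 (by simp [← e, hx])⟩)
          exact h.no1 (l₁ ++ u) (v ++ l₂) a (by simpa [List.append_assoc] using h6)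
      · by_cases h2 : a - 1 ∈ m
        · exfalso
          obtain ⟨u, v, hmu, hu⟩ := List.eq_append_cons_of_mem h2
          have hv := key (a - 1) (Or.inr rfl) u v hmu
          rw [hmu] at hS h1
          have h3 : (l₁ ++ a :: u ++ [a - 1]) ++ (v ++ a :: l₂) ∈ S := by
            simpa [List.append_assoc] using hS
          have h4 := mvL56 h a v _ _ h3 (fun x hx => ⟨fun e => h1 (by simp [← e, hx]), fun e => hv (e ▸ hx)⟩)
          have h5 : l₁ ++ a :: (u ++ (a - 1) :: a :: (v ++ l₂)) ∈ S := by
            simpa [List.append_assoc] using h4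
          have h6 := mvR56 h a u _ _ h5 (fun x hx => ⟨fun e => h1 (by simp [← e, hx]), fun e => hu (e ▸ hx)⟩)
          exact h.no2 (l₁ ++ u) (v ++ l₂) a (by simpa [List.append_assoc] using h6)
        · exfalso
          have h3 : (l₁ ++ [a]) ++ (m ++ a :: l₂) ∈ S := by simpa [List.append_assoc] using hS
          have h4 := mvL56 h a m _ _ h3 (fun x hx => ⟨fun e => h1 (e ▸ hx), fun e => h2 (e ▸ hx)⟩)
          exact h.ne l₁ (m ++ l₂) a (by simpa [List.append_assoc] using h4)

private lemma C256 {S : Set (List ℝ)} (h : OV S) (l₁ l₂ : List ℝ) (b : ℝ)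
    (hS : l₁ ++ b :: l₂ ∈ S) (hl : l₁ ≠ []) : b + 1 ∈ l₁ ∨ b - 1 ∈ l₁ := by
  by_cases hb : b ∈ l₁
  · obtain ⟨u, v, rfl⟩ := List.append_of_mem hb
    have h1 := C356 h v.length v rfl b u l₂ (by simpa [List.append_assoc] using hS)
    left
    simp [h1.1]
  · by_contra hcon
    push Not at hcon
    have h1 := mvL56 h b l₁ [] l₂ (by simpa using hS)
      (fun x hx => ⟨fun e => hcon.1 (e ▸ hx), fun e => hcon.2 (e ▸ hx)⟩)
    have h2 : b = 0 := h.head b (l₁ ++ l₂) (by simpa using h1)
    obtain ⟨c, l, rfl⟩ := List.exists_cons_of_ne_nil hl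
    have h3 : c = 0 := h.head c (l ++ b :: l₂) (by simpa using hS)
    exact hb (by simp [h2, h3])

private lemma int_aux56 {S : Set (List ℝ)} (h : OV S) (l₁ : List ℝ) :
    ∀ l₂ : List ℝ, l₁ ++ l₂ ∈ S → ∀ x ∈ l₁, ∃ z : ℤ, x = z := by
  induction l₁ using List.reverseRecOn with
  | nil => intro l₂ _ x hx; simp at hx
  | append_singleton u b ih =>
    intro l₂ hS x hx
    have hS' : u ++ b :: l₂ ∈ S := by simpa [List.append_assoc] using hS
    have hI := ih (b :: l₂) hS'
    rw [List.mem_append, List.mem_singleton] at hx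
    rcases hx with hx | rfl
    · exact hI x hx
    · by_cases hu : u = []
      · subst hu
        exact ⟨0, by simpa using h.head x l₂ (by simpa using hS')⟩
      · rcases C256 h u l₂ x hS' hu with h1 | h1
        · obtain ⟨z, hz⟩ := hI _ h1
          exact ⟨z - 1, by push_cast; linarith⟩
        · obtain ⟨z, hz⟩ := hI _ h1
          exact ⟨z + 1, by push_cast; linarith⟩

private lemma interval56 {S : Set (List ℝ)} (h : OV S) : ∀ (N : ℕ) (l₁ : List ℝ), l₁.length = N →
    ∀ (l₂ : List ℝ) (b : ℝ) (z : ℕ), l₁ ++ b :: l₂ ∈ S → (z : ℝ) ≤ b → (z : ℝ) ∈ l₁ ++ [b] := by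
  intro N
  induction N using Nat.strong_induction_on with
  | _ N ih =>
    intro l₁ hl l₂ b z hS hz
    by_cases hzb : (z : ℝ) = b
    · rw [hzb]; simp
    by_cases hl0 : l₁ = []
    · subst hl0
      have hb : b = 0 := h.head b l₂ (by simpa using hS)
      exfalso
      apply hzb
      have h0 : (0 : ℝ) ≤ z := Nat.cast_nonneg z
      linarith
    rcases C256 h l₁ l₂ b hS hl0 with h1 | h1
    · obtain ⟨u, v, rfl⟩ := List.append_of_mem h1
      have h2 := ih u.length (by rw [← hl]; simp) u rfl (v ++ b :: l₂) (b + 1) z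
        (by simpa [List.append_assoc] using hS) (by linarith)
      rw [List.mem_append, List.mem_singleton] at h2
      rcases h2 with h2 | h2
      · simp [h2]
      · simp [h2]
    · obtain ⟨w, hw⟩ := int_aux56 h (l₁ ++ [b]) l₂ (by simpa [List.append_assoc] using hS) b (by simp)
      have hzw : (z : ℤ) ≤ w - 1 := by
        have h3 : (z : ℝ) < w := lt_of_le_of_ne (by rw [← hw]; exact hz) (by rw [← hw]; exact hzb)
        have h4 : (z : ℤ) < w := by exact_mod_cast h3
        omega
      have hzb' : (z : ℝ) ≤ b - 1 := by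
        rw [hw]
        exact_mod_cast hzw
      obtain ⟨u, v, rfl⟩ := List.append_of_mem h1
      have h2 := ih u.length (by rw [← hl]; simp) u rfl (v ++ b :: l₂) (b - 1) z
        (by simpa [List.append_assoc] using hS) hzb'
      rw [List.mem_append, List.mem_singleton] at h2
      rcases h2 with h2 | h2
      · simp [h2]
      · simp [h2]

open Classical in
/-- The last entry equal to `a` or `a + 1`. -/
private noncomputable def lst56 (a : ℝ) (l : List ℝ) : Option ℝ :=
  (l.filter (fun x => decide (x = a ∨ x = a + 1))).getLast?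

private lemma lst_nil56 (a : ℝ) : lst56 a [] = none := rfl

private lemma lst_pos56 (a : ℝ) (l : List ℝ) (x : ℝ) (hx : x = a ∨ x = a + 1) :
    lst56 a (l ++ [x]) = some x := by
  unfold lst56
  rw [List.filter_append, List.filter_cons_of_pos (by simpa using hx)]
  simp

private lemma lst_neg56 (a : ℝ) (l : List ℝ) (x : ℝ) (hx : ¬(x = a ∨ x = a + 1)) :
    lst56 a (l ++ [x]) = lst56 a l := by
  unfold lst56
  rw [List.filter_append, List.filter_cons_of_neg (by simpa using hx)]
  simp

private lemma lst_none56 (a : ℝ) (l : List ℝ) : lst56 a l = none ↔ a ∉ l ∧ a + 1 ∉ l := by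
  induction l using List.reverseRecOn with
  | nil => simp [lst_nil56]
  | append_singleton l x ih =>
    by_cases hx : x = a ∨ x = a + 1
    · rw [lst_pos56 a l x hx]
      constructor
      · intro h
        simp at h
      · rintro ⟨h1, h2⟩
        rcases hx with hx | hx
        · exact absurd (by simp [hx]) h1
        · exact absurd (by simp [hx]) h2
    · rw [lst_neg56 a l x hx, ih]
      push Not at hx
      simp only [List.mem_append, List.mem_singleton, not_or]
      constructor
      · rintro ⟨h1, h2⟩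
        exact ⟨⟨h1, fun e => hx.1 e.symm⟩, ⟨h2, fun e => hx.2 e.symm⟩⟩
      · rintro ⟨⟨h1, _⟩, ⟨h2, _⟩⟩
        exact ⟨h1, h2⟩

private lemma lst_some56 (a : ℝ) (l : List ℝ) (c : ℝ) (hc : lst56 a l = some c) :
    (c = a ∨ c = a + 1) ∧ ∃ u v, l = u ++ c :: v ∧ a ∉ v ∧ a + 1 ∉ v := by
  induction l using List.reverseRecOn with
  | nil => simp [lst_nil56] at hc
  | append_singleton l x ih =>
    by_cases hx : x = a ∨ x = a + 1
    · rw [lst_pos56 a l x hx] at hc
      have hxc : x = c := by simpa using hc
      subst hxc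
      exact ⟨hx, l, [], rfl, by simp, by simp⟩
    · rw [lst_neg56 a l x hx] at hc
      obtain ⟨h1, u, v, rfl, h2, h3⟩ := ih hc
      push Not at hx
      refine ⟨h1, u, v ++ [x], by simp, ?_, ?_⟩
      · simp only [List.mem_append, List.mem_singleton, not_or]
        exact ⟨h2, fun e => hx.1 e.symm⟩
      · simp only [List.mem_append, List.mem_singleton, not_or]
        exact ⟨h3, fun e => hx.2 e.symm⟩

/-- If `a` or `a + 1` occurs in `v`, the last one of `w ++ v` occurs in `v`. -/
private lemma lst_mem56 (a : ℝ) (w v : List ℝ) (hv : a ∈ v ∨ a + 1 ∈ v) (c : ℝ)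
    (hc : lst56 a (w ++ v) = some c) : c ∈ v := by
  induction v using List.reverseRecOn with
  | nil => simp at hv
  | append_singleton v x ih =>
    by_cases hx : x = a ∨ x = a + 1
    · rw [← List.append_assoc, lst_pos56 a _ x hx] at hc
      have hxc : x = c := by simpa using hc
      simp [hxc]
    · rw [← List.append_assoc, lst_neg56 a _ x hx] at hc
      push Not at hx
      have hv' : a ∈ v ∨ a + 1 ∈ v := by
        rcases hv with hv | hv
        · left
          rw [List.mem_append, List.mem_singleton] at hv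
          exact hv.resolve_right fun e => hx.1 e.symm
        · right
          rw [List.mem_append, List.mem_singleton] at hv
          exact hv.resolve_right fun e => hx.2 e.symm
      exact List.mem_append_left _ (ih hv' hc)

open Classical in
private lemma stp56 {S : Set (List ℝ)} (h : OV S) (z : ℕ) (l₁ : List ℝ) :
    ∀ l₂ : List ℝ, l₁ ++ l₂ ∈ S →
      (List.count (z : ℝ) l₁ = List.count ((z : ℝ) + 1) l₁ ∧ lst56 z l₁ ≠ some (z : ℝ)) ∨
        (List.count (z : ℝ) l₁ = List.count ((z : ℝ) + 1) l₁ + 1 ∧ lst56 z l₁ = some (z : ℝ)) := by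
  induction l₁ using List.reverseRecOn with
  | nil =>
    intro l₂ _
    left
    simp [lst_nil56]
  | append_singleton u x ih =>
    intro l₂ hS
    have hS' : u ++ x :: l₂ ∈ S := by simpa [List.append_assoc] using hS
    have hz1 : (z : ℝ) ≠ (z : ℝ) + 1 := by
      intro e
      linarith
    rcases ih (x :: l₂) hS' with ⟨hc, hl⟩ | ⟨hc, hl⟩
    · by_cases hx : x = z
      · subst hx
        right
        rw [lst_pos56 _ _ _ (Or.inl rfl)]
        refine ⟨?_, rfl⟩
        rw [List.count_append, List.count_append, hc]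
        simp [hz1]
      · by_cases hx' : x = (z : ℝ) + 1
        · exfalso
          subst hx'
          rcases ho : lst56 z u with _ | c
          · obtain ⟨h1, h2⟩ := (lst_none56 _ _).1 ho
            have h3 := interval56 h u.length u rfl l₂ _ z hS' (by linarith)
            rw [List.mem_append, List.mem_singleton] at h3
            exact h3.elim h1 hz1
          · obtain ⟨h1, p, v, rfl, h2, h3⟩ := lst_some56 _ _ _ ho
            rcases h1 with h1 | h1
            · subst h1
              exact hl ho
            · subst h1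
              have h4 := C356 h v.length v rfl ((z : ℝ) + 1) p l₂ (by simpa [List.append_assoc] using hS')
              have h5 := h4.2
              rw [add_sub_cancel_right] at h5
              exact h2 h5
        · left
          rw [lst_neg56 _ _ _ (by tauto)]
          refine ⟨?_, hl⟩
          rw [List.count_append, List.count_append, hc]
          simp [hx, hx']
    · by_cases hx : x = z
      · exfalso
        subst hx
        obtain ⟨_, p, v, rfl, h2, h3⟩ := lst_some56 _ _ _ hl
        have h4 := C356 h v.length v rfl (z : ℝ) p l₂ (by simpa [List.append_assoc] using hS')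
        exact h3 h4.1
      · by_cases hx' : x = (z : ℝ) + 1
        · left
          subst hx'
          rw [lst_pos56 _ _ _ (Or.inr rfl)]
          refine ⟨?_, fun e => hz1 (by simpa using e.symm)⟩
          rw [List.count_append, List.count_append, hc]
          simp [hz1.symm]
        · right
          rw [lst_neg56 _ _ _ (by tauto)]
          refine ⟨?_, hl⟩
          rw [List.count_append, List.count_append, hc]
          simp [hx, hx']

private lemma same_nat56 {S : Set (List ℝ)} (h : OV S) (hp : ∀ l ∈ S, ∀ l' ∈ S, l.Perm l') (z : ℕ)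
    {l l' : List ℝ} (hl : l ∈ S) (hl' : l' ∈ S) : lst56 z l = lst56 z l' := by
  classical
  have hP := hp l hl l' hl'
  have h1 := stp56 h z l [] (by simpa using hl)
  have h2 := stp56 h z l' [] (by simpa using hl')
  rw [hP.count_eq, hP.count_eq] at h1
  have h3 : lst56 z l = none ↔ lst56 z l' = none := by
    rw [lst_none56, lst_none56, hP.mem_iff, hP.mem_iff]
  have hval : ∀ m : List ℝ, lst56 z m ≠ some (z : ℝ) → lst56 z m ≠ none → lst56 z m = some ((z : ℝ) + 1) := by
    intro m hm1 hm2
    rcases ho : lst56 z m with _ | c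
    · exact absurd ho hm2
    · rcases (lst_some56 _ _ _ ho).1 with hc | hc
      · exact absurd (by rw [ho, hc]) hm1
      · rw [hc]
  rcases h1 with ⟨h1, h1'⟩ | ⟨h1, h1'⟩
  · rcases h2 with ⟨h2, h2'⟩ | ⟨h2, h2'⟩
    · by_cases h4 : lst56 z l = none
      · rw [h4, h3.1 h4]
      · rw [hval l h1' h4, hval l' h2' (fun e => h4 (h3.2 e))]
    · omega
  · rcases h2 with ⟨h2, h2'⟩ | ⟨h2, h2'⟩
    · omega
    · rw [h1', h2']

private lemma ov_neg56 {S : Set (List ℝ)} (h : OV S) : OV {l : List ℝ | l.map (fun x => -x) ∈ S} := by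
  refine ⟨?_, ?_, ?_, ?_, ?_⟩
  · intro a l ha
    have h1 : (-a) :: l.map (fun x => -x) ∈ S := by simpa using ha
    have h2 := h.head _ _ h1
    linarith
  · intro l₁ l₂ a ha
    exact h.ne (l₁.map (fun x => -x)) (l₂.map (fun x => -x)) (-a) (by simpa using ha)
  · intro l₁ l₂ a b hab h1 h2
    have h3 := h.swap (l₁.map (fun x => -x)) (l₂.map (fun x => -x)) (-a) (-b)
      (by simpa using hab) (fun e => h2 (by linarith)) (fun e => h1 (by linarith))
    simpa using h3
  · intro l₁ l₂ a ha
    refine h.no2 (l₁.map (fun x => -x)) (l₂.map (fun x => -x)) (-a) ?_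
    have e : -a - 1 = -(a + 1) := by ring
    rw [e]
    simpa using ha
  · intro l₁ l₂ a ha
    refine h.no1 (l₁.map (fun x => -x)) (l₂.map (fun x => -x)) (-a) ?_
    have e : -a + 1 = -(a - 1) := by ring
    rw [e]
    simpa using ha

private lemma neg_neg56 (l : List ℝ) : (l.map (fun x => -x)).map (fun x => -x) = l := by
  rw [List.map_map]
  have : ((fun x : ℝ => -x) ∘ fun x => -x) = id := by
    funext x
    simp
  rw [this, List.map_id]

private lemma lst_map56 (a : ℝ) (l : List ℝ) :
    lst56 (-a - 1) (l.map (fun x => -x)) = (lst56 a l).map (fun x => -x) := by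
  induction l using List.reverseRecOn with
  | nil => rfl
  | append_singleton l x ih =>
    rw [List.map_append, List.map_singleton]
    by_cases hx : x = a ∨ x = a + 1
    · rw [lst_pos56 a l x hx, lst_pos56]
      · rfl
      · rcases hx with hx | hx
        · right; rw [hx]; ring
        · left; rw [hx]; ring
    · rw [lst_neg56 a l x hx, lst_neg56, ih]
      rintro (h | h)
      · exact hx (Or.inr (by linarith))
      · exact hx (Or.inl (by linarith))

private lemma same56 {S : Set (List ℝ)} (h : OV S) (hp : ∀ l ∈ S, ∀ l' ∈ S, l.Perm l') (a : ℤ)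
    {l l' : List ℝ} (hl : l ∈ S) (hl' : l' ∈ S) : lst56 a l = lst56 a l' := by
  rcases le_or_gt 0 a with ha | ha
  · obtain ⟨z, rfl⟩ := Int.eq_ofNat_of_zero_le ha
    exact_mod_cast same_nat56 h hp z hl hl'
  · obtain ⟨z, hz⟩ := Int.eq_ofNat_of_zero_le (show 0 ≤ -a - 1 by omega)
    have hzr : (-(a : ℝ) - 1) = (z : ℝ) := by
      have := congrArg (Int.cast : ℤ → ℝ) hz
      push_cast at this
      exact this
    have hn : ∀ m ∈ S, m.map (fun x => -x) ∈ {l : List ℝ | l.map (fun x => -x) ∈ S} := by
      intro m hm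
      show (m.map (fun x => -x)).map (fun x => -x) ∈ S
      rw [neg_neg56]
      exact hm
    have hp' : ∀ m ∈ {l : List ℝ | l.map (fun x => -x) ∈ S}, ∀ m' ∈ {l : List ℝ | l.map (fun x => -x) ∈ S},
        m.Perm m' := by
      intro m hm m' hm'
      have h1 := (hp _ hm _ hm').map (fun x => -x)
      rwa [neg_neg56, neg_neg56] at h1
    have h1 := same_nat56 (ov_neg56 h) hp' z (hn l hl) (hn l' hl')
    rw [← hzr, lst_map56, lst_map56] at h1
    exact Option.map_injective neg_injective h1

theorem K_gap {S : Set (List ℝ)} (h : OV S) (hp : ∀ l ∈ S, ∀ l' ∈ S, l.Perm l') {l l' : List ℝ} {a b : ℝ}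
    (h1 : l ++ [a] ∈ S) (h2 : l' ++ [b] ∈ S) : b ≠ a + 1 := by
  intro hb
  obtain ⟨z, hz⟩ := h.int h1 (a := a) (by simp)
  have h3 := same56 h hp z h1 h2
  rw [← hz, lst_pos56 a l a (Or.inl rfl), lst_pos56 a l' b (Or.inr hb)] at h3
  have h4 : a = b := by simpa using h3
  linarith

theorem K_two {S : Set (List ℝ)} (h : OV S) (hp : ∀ l ∈ S, ∀ l' ∈ S, l.Perm l') {l l' : List ℝ} {a b : ℝ}
    (h1 : l ++ [a] ∈ S) (h2 : l' ++ [b] ∈ S) (hab : a ≠ b) : ∃ l'' : List ℝ, l'' ++ [b, a] ∈ S := by
  obtain ⟨z, hz⟩ := h.int h2 (a := b) (by simp)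
  have h3 := same56 h hp z h1 h2
  rw [← hz, lst_pos56 b l' b (Or.inl rfl)] at h3
  have h4 := same56 h hp (z - 1) h1 h2
  have hz' : ((z - 1 : ℤ) : ℝ) = b - 1 := by
    rw [hz]
    push_cast
    ring
  rw [hz', lst_pos56 (b - 1) l' b (Or.inr (by ring))] at h4
  have ha1 : a ≠ b + 1 := by
    intro e
    rw [lst_pos56 b l a (Or.inr e)] at h3
    exact hab (by simpa using h3)
  have ha2 : a ≠ b - 1 := by
    intro e
    rw [lst_pos56 (b - 1) l a (Or.inl e)] at h4
    exact hab (by simpa using h4)
  rw [lst_neg56 b l a (by rintro (e | e); exacts [hab e, ha1 e])] at h3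
  rw [lst_neg56 (b - 1) l a (by
    rintro (e | e)
    · exact ha2 e
    · exact hab (by linarith))] at h4
  obtain ⟨_, u, v, rfl, h5, h6⟩ := lst_some56 _ _ _ h3
  have h7 : b - 1 ∉ v := by
    intro h8
    have h9 : lst56 (b - 1) ((u ++ [b]) ++ v) = some b := by
      simpa [List.append_assoc] using h4
    exact h5 (lst_mem56 (b - 1) (u ++ [b]) v (Or.inl h8) b h9)
  refine ⟨u ++ v, ?_⟩
  have h8 := mvR56 h b v u [a] (by simpa [List.append_assoc] using h1)
    (fun x hx => ⟨fun e => h6 (e ▸ hx), fun e => h7 (e ▸ hx)⟩)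
  simpa [List.append_assoc] using h8

theorem K_many {S : Set (List ℝ)} (h : OV S) (hp : ∀ l ∈ S, ∀ l' ∈ S, l.Perm l') (hS : S.Nonempty)
    (L : List ℝ) (hL : L.Nodup) (hc : ∀ a ∈ L, ∃ l, l ++ [a] ∈ S) : ∃ l, l ++ L ∈ S := by
  induction L using List.reverseRecOn generalizing S with
  | nil =>
    obtain ⟨l, hl⟩ := hS
    exact ⟨l, by simpa using hl⟩
  | append_singleton L a ih =>
    obtain ⟨l, hl⟩ := hc a (by simp)
    have hOV : OV {m : List ℝ | m ++ [a] ∈ S} := by
      refine ⟨?_, ?_, ?_, ?_, ?_⟩
      · intro x m hm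
        exact h.head x (m ++ [a]) (by simpa using hm)
      · intro l₁ l₂ x hx
        exact h.ne l₁ (l₂ ++ [a]) x (by simpa [List.append_assoc] using hx)
      · intro l₁ l₂ x y hxy h1 h2
        have h3 := h.swap l₁ (l₂ ++ [a]) x y (by simpa [List.append_assoc] using hxy) h1 h2
        simpa [List.append_assoc] using h3
      · intro l₁ l₂ x hx
        exact h.no1 l₁ (l₂ ++ [a]) x (by simpa [List.append_assoc] using hx)
      · intro l₁ l₂ x hx
        exact h.no2 l₁ (l₂ ++ [a]) x (by simpa [List.append_assoc] using hx)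
    rw [List.nodup_append] at hL
    obtain ⟨hL1, _, hL2⟩ := hL
    obtain ⟨m, hm⟩ := ih hOV
      (fun m hm m' hm' => (List.perm_append_right_iff [a]).1 (hp _ hm _ hm'))
      ⟨l, hl⟩ hL1
      (fun b hb => by
        obtain ⟨l', hl'⟩ := hc b (List.mem_append_left _ hb)
        obtain ⟨l'', hl''⟩ := K_two h hp hl hl' (fun e => hL2 b hb a (by simp) e.symm)
        exact ⟨l'', by simpa [List.append_assoc] using hl''⟩)
    exact ⟨m, by simpa [List.append_assoc] using hm⟩

end Pool.Agent.Helper51.TN
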