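import Pool.Agent.Helper51.TN.Defs
import Pool.Agent.Helper1.TS.JE

/-!
BLOCK TN-R1 (about 150 lines). Relations of the Jucys-Murphy elements.

Proofs in words. `jm ρ i = ∑_{j > i} ρ (swap i j)`. The first three are the private lemmas `jm_left`, `jm_right`, `jm_other` of `Helper1/TS/JE.lean` (copy);
`jm_jT` is the private lemma `jm_comm` there (`jT h x` fixes `i < e` and preserves the set of the points `> i`); `jm_comm'` is also proved there inside `je_exists`.
* `intertw`: `s = swap i j`, `a = α i`, `b = α j` (`j = i + 1`), `v ∈ EE`, `w = s v - (a - b)⁻¹ v`. `jm i w = s (b v) + v - a (a-b)⁻¹ v = b w`, `jm j w = s (a v) - v - b (a-b)⁻¹ v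
  = a w`, `jm k w = α k w` for the other `k < e`.
* `EE_eq_bot`: if `α i = α j` for consecutive `i, j` then `(jm i - a) (s v) = v` and `(jm i - a) v = 0`, and `jm i` is self-adjoint for the inner product of
  `exists_unitary` (see `je_ne` in `Helper1/TS/JE.lean`, which is the same argument): `v = 0`.
* `form_jm`: an invariant form satisfies `b (ρ g v) w = b v (ρ g⁻¹ w)`, and `(swap i j)⁻¹ = swap i j`.
-/

set_option autoImplicit false

open Module Equiv Pool.Agent.Helper1.TS Pool.Agent.Helper70.TU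

namespace Pool.Agent.Helper51.TN

variable {n : ℕ} {V : Type*} [AddCommGroup V] [Module ℂ V] [FiniteDimensional ℂ V]

/-- `ρ s` commutes with `jm i` if `s` preserves `i` and the set of the points `> i`. -/
private lemma jm_comm28 (ρ : Representation ℂ (Perm (Fin n)) V) (i : Fin n) (s : Perm (Fin n))
    (h1 : s i = i) (h2 : ∀ l, i < s l ↔ i < l) (v : V) : jm ρ i (ρ s v) = ρ s (jm ρ i v) := by
  unfold jm
  rw [LinearMap.sum_apply, LinearMap.sum_apply, map_sum]
  symm
  refine Finset.sum_bij (fun l _ => s l) ?_ ?_ ?_ ?_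
  · intro l hl
    rw [Finset.mem_filter] at hl ⊢
    exact ⟨Finset.mem_univ _, (h2 l).2 hl.2⟩
  · intro a _ b _ hab
    exact s.injective hab
  · intro l hl
    rw [Finset.mem_filter] at hl
    refine ⟨s.symm l, ?_, s.apply_symm_apply l⟩
    rw [Finset.mem_filter]
    refine ⟨Finset.mem_univ _, (h2 _).1 ?_⟩
    rw [s.apply_symm_apply]
    exact hl.2
  · intro l _
    rw [← Module.End.mul_apply, ← Module.End.mul_apply, ← map_mul, ← map_mul]
    congr 2
    have h3 : Equiv.swap i (s l) = s * Equiv.swap i l * s⁻¹ := by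
      rw [← h1, Equiv.swap_apply_apply, h1]
    rw [h3]
    group

private lemma swap_ne28 {i j k : Fin n} (hij : (j : ℕ) = i + 1) (hki : k ≠ i) (hkj : k ≠ j) (l : Fin n) :
    k < Equiv.swap i j l ↔ k < l := by
  have h1 : k < i ↔ k < j := by
    have h2 : (k : ℕ) ≠ i := fun h => hki (Fin.ext h)
    rw [Fin.lt_def, Fin.lt_def]
    omega
  rcases eq_or_ne l i with rfl | hi
  · rw [Equiv.swap_apply_left]
    exact h1.symm
  · rcases eq_or_ne l j with rfl | hj
    · rw [Equiv.swap_apply_right]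
      exact h1
    · rw [Equiv.swap_apply_of_ne_of_ne hi hj]

private lemma jm_other28 (ρ : Representation ℂ (Perm (Fin n)) V) {i j k : Fin n} (hij : (j : ℕ) = i + 1)
    (hki : k ≠ i) (hkj : k ≠ j) (v : V) :
    jm ρ k (ρ (Equiv.swap i j) v) = ρ (Equiv.swap i j) (jm ρ k v) :=
  jm_comm28 ρ k _ (Equiv.swap_apply_of_ne_of_ne hki hkj) (swap_ne28 hij hki hkj) v

private lemma rho_sq28 (ρ : Representation ℂ (Perm (Fin n)) V) (i j : Fin n) (v : V) :
    ρ (Equiv.swap i j) (ρ (Equiv.swap i j) v) = v := by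
  rw [← Module.End.mul_apply, ← map_mul, Equiv.swap_mul_self, map_one, Module.End.one_apply]

private lemma jm_left28 (ρ : Representation ℂ (Perm (Fin n)) V) {i j : Fin n} (hij : (j : ℕ) = i + 1)
    (v : V) : jm ρ i (ρ (Equiv.swap i j) v) = ρ (Equiv.swap i j) (jm ρ j v) + v := by
  unfold jm
  have hset : Finset.univ.filter (fun l : Fin n => i < l) =
      insert j (Finset.univ.filter (fun l : Fin n => j < l)) := by
    ext l
    rw [Finset.mem_insert, Finset.mem_filter, Finset.mem_filter, Fin.lt_def, Fin.lt_def, Fin.ext_iff]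
    simp only [Finset.mem_univ, true_and]
    omega
  have hnot : j ∉ Finset.univ.filter (fun l : Fin n => j < l) := by
    rw [Finset.mem_filter]
    exact fun h => lt_irrefl _ h.2
  rw [hset, Finset.sum_insert hnot, LinearMap.add_apply, rho_sq28, LinearMap.sum_apply,
    LinearMap.sum_apply, map_sum, add_comm]
  congr 1
  refine Finset.sum_congr rfl fun l hl => ?_
  rw [Finset.mem_filter] at hl
  have hlj : l ≠ j := fun h => by
    rw [h] at hl
    exact lt_irrefl _ hl.2
  have hli : l ≠ i := fun h => by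
    have := hl.2
    rw [h, Fin.lt_def] at this
    omega
  rw [← Module.End.mul_apply, ← Module.End.mul_apply, ← map_mul, ← map_mul]
  congr 2
  have h3 : Equiv.swap i l = Equiv.swap i j * Equiv.swap j l * (Equiv.swap i j)⁻¹ := by
    have h4 := Equiv.swap_apply_apply (Equiv.swap i j) j l
    rw [Equiv.swap_apply_right, Equiv.swap_apply_of_ne_of_ne hli hlj] at h4
    exact h4
  rw [h3]
  group

private lemma jm_right28 (ρ : Representation ℂ (Perm (Fin n)) V) {i j : Fin n} (hij : (j : ℕ) = i + 1)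
    (v : V) : jm ρ j (ρ (Equiv.swap i j) v) = ρ (Equiv.swap i j) (jm ρ i v) - v := by
  have h1 := jm_left28 ρ hij (ρ (Equiv.swap i j) v)
  rw [rho_sq28] at h1
  rw [h1, map_add, rho_sq28, rho_sq28]
  abel

/-- The self-adjointness of the Jucys-Murphy elements. -/
private lemma inner_jm28 (ρ : Representation ℂ (Perm (Fin n)) V)
    {e : V ≃ₗ[ℂ] EuclideanSpace ℂ (Fin (finrank ℂ V))}
    (he : ∀ (g : Perm (Fin n)) (v w : V), inner ℂ (e (ρ g v)) (e (ρ g w)) = inner ℂ (e v) (e w))
    (i : Fin n) (v w : V) : inner ℂ (e (jm ρ i v)) (e w) = inner ℂ (e v) (e (jm ρ i w)) := by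
  unfold jm
  rw [LinearMap.sum_apply, LinearMap.sum_apply, map_sum, map_sum, sum_inner, inner_sum]
  refine Finset.sum_congr rfl fun l _ => ?_
  have h1 := he (Equiv.swap i l) (ρ (Equiv.swap i l) v) w
  rw [rho_sq28] at h1
  exact h1.symm

theorem jm_swap1 (ρ : Representation ℂ (Perm (Fin n)) V) {i j : Fin n} (hij : (j : ℕ) = i + 1) (v : V) :
    jm ρ i (ρ (Equiv.swap i j) v) = ρ (Equiv.swap i j) (jm ρ j v) + v :=
  jm_left28 ρ hij v

theorem jm_swap2 (ρ : Representation ℂ (Perm (Fin n)) V) {i j : Fin n} (hij : (j : ℕ) = i + 1) (v : V) :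
    jm ρ j (ρ (Equiv.swap i j) v) = ρ (Equiv.swap i j) (jm ρ i v) - v :=
  jm_right28 ρ hij v

theorem jm_swap3 (ρ : Representation ℂ (Perm (Fin n)) V) {i j k : Fin n} (hij : (j : ℕ) = i + 1)
    (hki : k ≠ i) (hkj : k ≠ j) (v : V) :
    jm ρ k (ρ (Equiv.swap i j) v) = ρ (Equiv.swap i j) (jm ρ k v) :=
  jm_other28 ρ hij hki hkj v

theorem jm_jT (ρ : Representation ℂ (Perm (Fin n)) V) {e : ℕ} (h : e ≤ n) (x : Perm (Fin (n - e)))
    (i : Fin n) (hi : (i : ℕ) < e) (v : V) : jm ρ i (ρ (jT h x) v) = ρ (jT h x) (jm ρ i v) := by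
  refine jm_comm28 ρ i _ (jT_apply_of_lt h x i hi) (fun l => ?_) v
  rcases lt_or_ge (l : ℕ) e with hl | hl
  · rw [jT_apply_of_lt h x l hl]
  · have h1 := le_jT_apply h x l hl
    rw [Fin.lt_def, Fin.lt_def]
    constructor
    · intro _
      omega
    · intro _
      omega

private lemma jm_lt28 (ρ : Representation ℂ (Perm (Fin n)) V) (i k : Fin n) (hik : i < k) (v : V) :
    jm ρ i (jm ρ k v) = jm ρ k (jm ρ i v) := by
  have h1 : ∀ l, k < l → jm ρ i (ρ (Equiv.swap k l) v) = ρ (Equiv.swap k l) (jm ρ i v) := by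
    intro l hl
    have hil : i < l := hik.trans hl
    refine jm_comm28 ρ i _ (Equiv.swap_apply_of_ne_of_ne hik.ne hil.ne) (fun x => ?_) v
    rcases eq_or_ne x k with rfl | hx
    · rw [Equiv.swap_apply_left]
      exact ⟨fun _ => hik, fun _ => hil⟩
    · rcases eq_or_ne x l with rfl | hx'
      · rw [Equiv.swap_apply_right]
        exact ⟨fun _ => hil, fun _ => hik⟩
      · rw [Equiv.swap_apply_of_ne_of_ne hx hx']
  have h2 : ∀ u : V, jm ρ k u = ∑ l ∈ Finset.univ.filter (fun l => k < l), ρ (Equiv.swap k l) u := by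
    intro u
    unfold jm
    rw [LinearMap.sum_apply]
  rw [h2 v, h2 (jm ρ i v), map_sum]
  exact Finset.sum_congr rfl fun l hl => h1 l (Finset.mem_filter.1 hl).2

theorem jm_comm' (ρ : Representation ℂ (Perm (Fin n)) V) (i j : Fin n) (v : V) :
    jm ρ i (jm ρ j v) = jm ρ j (jm ρ i v) := by
  rcases lt_trichotomy i j with h | h | h
  · exact jm_lt28 ρ i j h v
  · rw [h]
  · exact (jm_lt28 ρ j i h v).symm

theorem intertw (ρ : Representation ℂ (Perm (Fin n)) V) {e : ℕ} (h : e ≤ n) (α : Fin e → ℝ)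
    (i j : Fin e) (hij : (j : ℕ) = i + 1) (hne : α i ≠ α j) (v : V) (hv : v ∈ EE ρ h α) :
    ρ (Equiv.swap (Fin.castLE h i) (Fin.castLE h j)) v - (((α i - α j)⁻¹ : ℝ) : ℂ) • v ∈
      EE ρ h (α ∘ Equiv.swap i j) := by
  have hij' : ((Fin.castLE h j : Fin n) : ℕ) = (Fin.castLE h i : Fin n) + 1 := by
    simpa using hij
  have hba : ((α i : ℂ) - α j) ≠ 0 := by
    rw [sub_ne_zero]
    exact_mod_cast hne
  set t : ℂ := (((α i - α j)⁻¹ : ℝ) : ℂ) with ht
  have htm : t * ((α i : ℂ) - α j) = 1 := by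
    rw [ht]
    push_cast
    exact inv_mul_cancel₀ hba
  rw [mem_EE] at hv ⊢
  intro k
  rw [map_sub, map_smul, hv k, Function.comp_apply]
  rcases eq_or_ne k i with rfl | hki
  · rw [jm_left28 ρ hij', hv j, Equiv.swap_apply_left, map_smul, smul_sub, smul_smul, smul_smul]
    have h3 : v = (t * ((α k : ℂ) - α j)) • v := by rw [htm, one_smul]
    nth_rewrite 2 [h3]
    module
  · rcases eq_or_ne k j with rfl | hkj
    · rw [jm_right28 ρ hij', hv i, Equiv.swap_apply_right, map_smul, smul_sub, smul_smul, smul_smul]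
      have h3 : v = (t * ((α i : ℂ) - α k)) • v := by rw [htm, one_smul]
      nth_rewrite 2 [h3]
      module
    · have hki' : Fin.castLE h k ≠ Fin.castLE h i := fun h0 => hki (Fin.castLE_injective h h0)
      have hkj' : Fin.castLE h k ≠ Fin.castLE h j := fun h0 => hkj (Fin.castLE_injective h h0)
      rw [jm_other28 ρ hij' hki' hkj', hv k, Equiv.swap_apply_of_ne_of_ne hki hkj, map_smul, smul_sub,
        smul_smul, smul_smul, mul_comm]

theorem EE_eq_bot (ρ : Representation ℂ (Perm (Fin n)) V) {e : ℕ} (h : e ≤ n) (α : Fin e → ℝ)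
    (i j : Fin e) (hij : (j : ℕ) = i + 1) (he : α i = α j) : EE ρ h α = ⊥ := by
  have hij' : ((Fin.castLE h j : Fin n) : ℕ) = (Fin.castLE h i : Fin n) + 1 := by
    simpa using hij
  rw [Submodule.eq_bot_iff]
  intro v hv
  rw [mem_EE] at hv
  obtain ⟨u, hu⟩ := exists_unitary ρ
  have h1 := inner_jm28 ρ hu (Fin.castLE h i) (ρ (Equiv.swap (Fin.castLE h i) (Fin.castLE h j)) v) v
  rw [jm_left28 ρ hij', hv i, hv j, map_add, map_smul, map_smul, map_smul, inner_add_left,
    inner_smul_left, inner_smul_right, Complex.conj_ofReal, he] at h1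
  have h2 : inner ℂ (u v) (u v) = (0 : ℂ) := by
    linear_combination h1
  rw [inner_self_eq_zero] at h2
  simpa using h2

theorem EE_jT (ρ : Representation ℂ (Perm (Fin n)) V) {e : ℕ} (h : e ≤ n) (α : Fin e → ℝ)
    (x : Perm (Fin (n - e))) (v : V) (hv : v ∈ EE ρ h α) : ρ (jT h x) v ∈ EE ρ h α := by
  rw [mem_EE] at hv ⊢
  intro i
  rw [jm_jT ρ h x _ (by simp) v, hv i, map_smul]

/-- A form that is invariant under the permutations with support in `T` makes `jm i` self-adjoint if the points `≥ i` are in `T`. -/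
theorem form_jm (ρ : Representation ℂ (Perm (Fin n)) V) (T : Finset (Fin n)) (b : Bil V)
    (hb : ∀ x : Perm (Fin n), x.support ⊆ T → ∀ v w, b (ρ x v) (ρ x w) = b v w) (i : Fin n)
    (hi : ∀ j, i ≤ j → j ∈ T) (v w : V) : b (jm ρ i v) w = b v (jm ρ i w) := by
  unfold jm
  rw [LinearMap.sum_apply, LinearMap.sum_apply, map_sum, map_sum, LinearMap.sum_apply]
  refine Finset.sum_congr rfl fun l hl => ?_
  have hil : i < l := (Finset.mem_filter.1 hl).2
  have hs : (Equiv.swap i l).support ⊆ T := by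
    rw [Perm.support_swap hil.ne]
    intro y hy
    rw [Finset.mem_insert, Finset.mem_singleton] at hy
    rcases hy with rfl | rfl
    · exact hi _ le_rfl
    · exact hi _ hil.le
  have h1 := hb (Equiv.swap i l) hs (ρ (Equiv.swap i l) v) w
  rw [rho_sq28] at h1
  exact h1.symm

end Pool.Agent.Helper51.TN
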